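import Mathlib

set_option autoImplicit false
set_option linter.unusedSectionVars false

/-! Abstract part of the theory of Bowen's f-invariant: a monotone, submodular, invariant
function on a join-semilattice with a free group action. -/

namespace FInvAlg

open Filter Topology FreeGroup

abbrev G (r : ℕ) := FreeGroup (Fin r)

theorem decomp {r : ℕ} (g : G r) (n : ℕ) (hg : g.norm ≤ n + 1) :
    g.norm ≤ n ∨ ∃ (i : Fin r) (g' : G r), g'.norm ≤ n ∧ (g = of i * g' ∨ g = (of i)⁻¹ * g') := by
  by_cases h : g.norm ≤ n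
  · exact Or.inl h
  right
  have hlen : g.toWord.length = n + 1 := by
    have : g.norm = g.toWord.length := rfl
    omega
  obtain ⟨⟨i, b⟩, w, hw⟩ : ∃ x w, g.toWord = x :: w := by
    cases hx : g.toWord with
    | nil => rw [hx] at hlen; simp at hlen
    | cons x w => exact ⟨x, w, rfl⟩
  have hwl : w.length = n := by rw [hw] at hlen; simpa using hlen
  have hg' : g = mk [(i, b)] * mk w := by
    rw [mul_mk, List.singleton_append, ← hw, mk_toWord]
  refine ⟨i, mk w, by simpa [hwl] using (norm_mk_le (L₁ := w)), ?_⟩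
  cases b with
  | true => left; exact hg'
  | false =>
    right
    rw [hg']
    congr 1

theorem finite_ball (r n : ℕ) : {g : G r | g.norm ≤ n}.Finite := by
  induction n with
  | zero =>
    refine (Set.finite_singleton (1 : G r)).subset ?_
    intro g hg
    simpa using hg
  | succ n ih =>
    refine (ih.union ((Set.finite_iUnion fun i : Fin r => ih.image (fun g' => of i * g')).union
      (Set.finite_iUnion fun i : Fin r => ih.image (fun g' => (of i)⁻¹ * g')))).subset ?_
    intro g hg
    rcases decomp g n hg with h | ⟨i, g', h, rfl | rfl⟩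
    · exact Or.inl h
    · exact Or.inr (Or.inl (Set.mem_iUnion.2 ⟨i, g', h, rfl⟩))
    · exact Or.inr (Or.inr (Set.mem_iUnion.2 ⟨i, g', h, rfl⟩))

noncomputable def ball (r n : ℕ) : Finset (G r) := (finite_ball r n).toFinset

theorem mem_ball {r n : ℕ} {g : G r} : g ∈ ball r n ↔ g.norm ≤ n := by simp [ball]

variable {r : ℕ} {L : Type*} [SemilatticeSup L] [OrderBot L] [MulAction (G r) L]

/-- The action respects joins. -/
def ActSup (r : ℕ) (L : Type*) [SemilatticeSup L] [MulAction (G r) L] : Prop :=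
  ∀ (g : G r) (a b : L), g • (a ⊔ b) = g • a ⊔ g • b

theorem ActSup.mono (hs : ActSup r L) (g : G r) {a b : L} (h : a ≤ b) : g • a ≤ g • b := by
  have := hs g a b
  rw [sup_eq_right.2 h] at this
  rw [this]; exact le_sup_left

variable (r) in
noncomputable def pw (a : L) (n : ℕ) : L := (ball r n).sup fun g => g • a

theorem le_pw {a : L} {n : ℕ} {g : G r} (hg : g.norm ≤ n) : g • a ≤ pw r a n :=
  Finset.le_sup (f := fun g : G r => g • a) (mem_ball.2 hg)

theorem pw_le {a x : L} {n : ℕ} (h : ∀ g : G r, g.norm ≤ n → g • a ≤ x) : pw r a n ≤ x :=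
  Finset.sup_le fun g hg => h g (mem_ball.1 hg)

theorem self_le_pw (a : L) (n : ℕ) : a ≤ pw r a n := by
  have := le_pw (r := r) (a := a) (n := n) (g := 1) (by simp)
  simpa using this

theorem pw_mono (a : L) : Monotone (pw r a) := fun _ _ h =>
  pw_le fun _ hg => le_pw (hg.trans h)

theorem pw_mono_left (hs : ActSup r L) {a b : L} (h : a ≤ b) (n : ℕ) : pw r a n ≤ pw r b n :=
  pw_le fun g hg => (hs.mono g h).trans (le_pw hg)

theorem smul_pw_le (hs : ActSup r L) (a : L) (n : ℕ) (g : G r) :
    g • pw r a n ≤ pw r a (g.norm + n) := by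
  have : pw r a n ≤ g⁻¹ • pw r a (g.norm + n) := by
    refine pw_le fun k hk => ?_
    have h1 : (g * k) • a ≤ pw r a (g.norm + n) :=
      le_pw ((norm_mul_le g k).trans (by omega))
    have h2 := hs.mono g⁻¹ h1
    rwa [mul_smul, inv_smul_smul] at h2
  have h2 := hs.mono g this
  rwa [smul_inv_smul] at h2

theorem pw_sup (hs : ActSup r L) (a b : L) (n : ℕ) : pw r (a ⊔ b) n = pw r a n ⊔ pw r b n := by
  apply le_antisymm
  · refine pw_le fun g hg => ?_
    rw [hs]
    exact sup_le_sup (le_pw hg) (le_pw hg)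
  · exact sup_le (pw_mono_left hs le_sup_left n) (pw_mono_left hs le_sup_right n)

variable (r) in
/-- Entropy-like functions. -/
structure Ent (h : L → ℝ) : Prop where
  sub : ∀ a b c, h (a ⊔ b ⊔ c) + h c ≤ h (a ⊔ c) + h (b ⊔ c)
  inv : ∀ (g : G r) a, h (g • a) = h a

/-- conditional entropy -/
def cond (h : L → ℝ) (a b : L) : ℝ := h (a ⊔ b) - h b

variable (r) in
noncomputable def F (h : L → ℝ) (a : L) : ℝ :=
  (1 - 2 * (r : ℝ)) * h a + ∑ i : Fin r, h (a ⊔ (of i : G r) • a)

variable (r) in
noncomputable def f (h : L → ℝ) (a : L) : EReal := ⨅ n, ((F r h (pw r a n) : ℝ) : EReal)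

variable {h : L → ℝ}

omit [OrderBot L] in
theorem Ent.cond_nonneg (e : Ent r h) (a b : L) : 0 ≤ cond h a b := by
  have := e.sub a a b
  rw [sup_idem] at this
  unfold cond; linarith

omit [OrderBot L] in
theorem Ent.mono (e : Ent r h) {a b : L} (hab : a ≤ b) : h a ≤ h b := by
  have := e.cond_nonneg b a
  unfold cond at this
  rw [sup_eq_left.2 hab] at this
  linarith

omit [OrderBot L] in
theorem Ent.cond_anti (e : Ent r h) (a : L) {b b' : L} (hb : b ≤ b') :
    cond h a b' ≤ cond h a b := by
  have := e.sub a b' b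
  rw [sup_assoc, sup_eq_left.2 hb] at this
  unfold cond; linarith

omit [OrderBot L] in
theorem Ent.cond_sup_le (e : Ent r h) (a a' b : L) :
    cond h (a ⊔ a') b ≤ cond h a b + cond h a' b := by
  have := e.sub a a' b
  unfold cond; linarith

omit [OrderBot L] in
theorem Ent.cond_smul (e : Ent r h) (hs : ActSup r L) (g : G r) (a b : L) :
    cond h (g • a) (g • b) = cond h a b := by
  unfold cond
  rw [← hs, e.inv, e.inv]

omit [OrderBot L] [MulAction (G r) L] in
theorem cond_of_le {a b : L} (hab : a ≤ b) : cond h a b = 0 := by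
  unfold cond; rw [sup_eq_right.2 hab]; ring

omit [OrderBot L] in
theorem F_sup_sub (hs : ActSup r L) (a b : L) :
    F r h (a ⊔ b) - F r h a = (1 - 2 * (r : ℝ)) * cond h b a +
      ∑ i : Fin r, cond h (b ⊔ (of i : G r) • b) (a ⊔ (of i : G r) • a) := by
  unfold F cond
  rw [Finset.sum_sub_distrib]
  have : ∀ i : Fin r, a ⊔ b ⊔ (of i : G r) • (a ⊔ b) =
      b ⊔ (of i : G r) • b ⊔ (a ⊔ (of i : G r) • a) := by
    intro i
    rw [hs]; ac_rfl
  simp only [this, sup_comm b a]
  ring

omit [OrderBot L] in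
theorem Ent.term_le (e : Ent r h) (hs : ActSup r L) (g : G r) (a b : L) :
    cond h (b ⊔ g • b) (a ⊔ g • a) ≤ cond h b (a ⊔ g • a) + cond h (g • b) (a ⊔ g • a) ∧
    cond h b (a ⊔ g • a) ≤ cond h b a ∧ cond h (g • b) (a ⊔ g • a) ≤ cond h b a :=
  ⟨e.cond_sup_le _ _ _, e.cond_anti _ le_sup_left,
    (e.cond_anti _ le_sup_right).trans (e.cond_smul hs g b a).le⟩

omit [OrderBot L] in
theorem Ent.F_sup_le (e : Ent r h) (hs : ActSup r L) (a b : L) :
    F r h (a ⊔ b) ≤ F r h a + cond h b a := by
  have h1 := F_sup_sub (h := h) hs a b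
  have h2 : ∑ i : Fin r, cond h (b ⊔ (of i : G r) • b) (a ⊔ (of i : G r) • a) ≤
      ∑ _i : Fin r, 2 * cond h b a := by
    refine Finset.sum_le_sum fun i _ => ?_
    obtain ⟨t1, t2, t3⟩ := e.term_le hs (of i) a b
    linarith
  simp only [Finset.sum_const, Finset.card_univ, Fintype.card_fin, nsmul_eq_mul] at h2
  linarith

omit [OrderBot L] in
theorem Ent.F_le_sup (e : Ent r h) (hs : ActSup r L) (a b : L) :
    F r h a ≤ F r h (a ⊔ b) + 2 * r * cond h b a := by
  have h1 := F_sup_sub (h := h) hs a b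
  have h2 : 0 ≤ ∑ i : Fin r, cond h (b ⊔ (of i : G r) • b) (a ⊔ (of i : G r) • a) :=
    Finset.sum_nonneg fun i _ => e.cond_nonneg _ _
  have h3 := e.cond_nonneg b a
  nlinarith

omit [OrderBot L] in
theorem Ent.split_aux (e : Ent r h) (hs : ActSup r L) (a b : L) (j : Fin r)
    (hj : b ≤ (of j : G r) • a ∨ (of j : G r) • b ≤ a) : F r h (a ⊔ b) ≤ F r h a := by
  have h1 := F_sup_sub (h := h) hs a b
  have h2 : ∑ i : Fin r, cond h (b ⊔ (of i : G r) • b) (a ⊔ (of i : G r) • a) ≤
      ∑ i : Fin r, (2 * cond h b a - if i = j then cond h b a else 0) := by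
    refine Finset.sum_le_sum fun i _ => ?_
    obtain ⟨t1, t2, t3⟩ := e.term_le hs (of i) a b
    split_ifs with hij
    · subst hij
      rcases hj with hj | hj
      · have : cond h b (a ⊔ (of i : G r) • a) = 0 := cond_of_le (hj.trans le_sup_right)
        linarith
      · have : cond h ((of i : G r) • b) (a ⊔ (of i : G r) • a) = 0 :=
          cond_of_le (hj.trans le_sup_left)
        linarith
    · linarith
  rw [Finset.sum_sub_distrib] at h2
  simp only [Finset.sum_const, Finset.card_univ, Fintype.card_fin, nsmul_eq_mul,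
    Finset.sum_ite_eq', Finset.mem_univ, if_true] at h2
  linarith

theorem Ent.split_finset (e : Ent r h) (hs : ActSup r L) (a b : L) (hb : b ≤ a)
    (T : Finset (G r)) (hT : ∀ t ∈ T, ∃ j : Fin r, t = of j ∨ t = (of j)⁻¹) :
    F r h (a ⊔ T.sup fun t => t • b) ≤ F r h a := by
  classical
  induction T using Finset.induction_on with
  | empty => simp
  | insert t T _ ih =>
    rw [Finset.sup_insert, sup_comm (t • b), ← sup_assoc]
    refine le_trans ?_ (ih fun t ht => hT t (Finset.mem_insert_of_mem ht))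
    obtain ⟨j, hj⟩ := hT t (Finset.mem_insert_self _ _)
    refine e.split_aux hs _ _ j ?_
    rcases hj with rfl | rfl
    · exact Or.inl (hs.mono _ (hb.trans le_sup_left))
    · right
      rw [smul_inv_smul]
      exact hb.trans le_sup_left

theorem Ent.split (e : Ent r h) (hs : ActSup r L) (a b : L) (hb : b ≤ a) (n : ℕ) :
    F r h (a ⊔ pw r b n) ≤ F r h a := by
  classical
  induction n with
  | zero =>
    have : pw r b 0 ≤ a := pw_le fun g hg => by
      have : g = 1 := by simpa using hg
      subst this; simpa using hb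
    rw [sup_eq_left.2 this]
  | succ n ih =>
    refine le_trans (le_of_eq ?_) ((e.split_finset hs (a ⊔ pw r b n) (pw r b n) le_sup_right
      (Finset.univ.image (fun j : Fin r => (of j : G r)) ∪
        Finset.univ.image (fun j : Fin r => (of j : G r)⁻¹)) ?_).trans ih)
    · congr 1
      apply le_antisymm
      · refine sup_le (le_sup_left.trans le_sup_left) (pw_le fun g hg => ?_)
        rcases decomp g n hg with h0 | ⟨i, g', h0, rfl | rfl⟩
        · exact (le_pw h0).trans (le_sup_right.trans le_sup_left)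
        · rw [mul_smul]
          refine le_trans (hs.mono _ (le_pw h0)) (le_trans ?_ le_sup_right)
          exact Finset.le_sup (f := fun t : G r => t • pw r b n) (by simp)
        · rw [mul_smul]
          refine le_trans (hs.mono _ (le_pw h0)) (le_trans ?_ le_sup_right)
          exact Finset.le_sup (f := fun t : G r => t • pw r b n) (by simp)
      · refine sup_le (sup_le_sup_left (pw_mono b (Nat.le_succ n)) a) (Finset.sup_le ?_)
        intro t ht
        refine le_trans (smul_pw_le hs b n t) (le_trans (pw_mono b ?_) le_sup_right)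
        simp only [Finset.mem_union, Finset.mem_image, Finset.mem_univ, true_and] at ht
        rcases ht with ⟨j, rfl⟩ | ⟨j, rfl⟩ <;> simp [add_comm]
    · intro t ht
      simp only [Finset.mem_union, Finset.mem_image, Finset.mem_univ, true_and] at ht
      rcases ht with ⟨j, rfl⟩ | ⟨j, rfl⟩
      · exact ⟨j, Or.inl rfl⟩
      · exact ⟨j, Or.inr rfl⟩

theorem Ent.F_anti (e : Ent r h) (hs : ActSup r L) (a : L) :
    Antitone fun n => F r h (pw r a n) := by
  intro n m hnm
  have := e.split hs (pw r a n) a (self_le_pw a n) m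
  rwa [sup_eq_right.2 (pw_mono a hnm)] at this

theorem Ent.tendsto_f (e : Ent r h) (hs : ActSup r L) (a : L) :
    Tendsto (fun n => ((F r h (pw r a n) : ℝ) : EReal)) atTop (𝓝 (f r h a)) :=
  tendsto_atTop_iInf fun _ _ hnm => EReal.coe_le_coe_iff.2 (e.F_anti hs a hnm)

theorem f_le (a : L) (n : ℕ) : f r h a ≤ ((F r h (pw r a n) : ℝ) : EReal) :=
  iInf_le (fun n => ((F r h (pw r a n) : ℝ) : EReal)) n

theorem f_ne_top (a : L) : f r h a ≠ ⊤ :=
  ne_top_of_le_ne_top (EReal.coe_ne_top _) (f_le a 0)

variable (r) in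
/-- `a` generates: conditional entropies tend to zero. -/
def Gen (h : L → ℝ) (a : L) : Prop := ∀ c, Tendsto (fun n => cond h c (pw r a n)) atTop (𝓝 0)

theorem le_of_tendsto_real {x : EReal} {u : ℕ → ℝ} {y : ℝ} (hu : Tendsto u atTop (𝓝 y))
    (hx : ∀ᶠ n in atTop, x ≤ (u n : EReal)) : x ≤ (y : EReal) :=
  ge_of_tendsto ((continuous_coe_real_ereal.tendsto y).comp hu) hx

theorem Ent.f_le_f (e : Ent r h) (hs : ActSup r L) {a b : L} (ha : Gen r h a) (hb : Gen r h b) :
    f r h a ≤ f r h b := by
  have key : ∀ c : L, f r h a ≤ ((F r h c + cond h a c : ℝ) : EReal) := by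
    intro c
    have ht : Tendsto (fun n => F r h c + cond h a c + 2 * r * cond h c (pw r a n)) atTop
        (𝓝 (F r h c + cond h a c + 2 * r * 0)) :=
      tendsto_const_nhds.add ((ha c).const_mul _)
    rw [mul_zero, add_zero] at ht
    refine le_of_tendsto_real ht (Eventually.of_forall fun n => (f_le a n).trans ?_)
    rw [EReal.coe_le_coe_iff]
    have h1 := e.F_le_sup hs (pw r a n) c
    have h2 := e.split hs (c ⊔ a) a le_sup_right n
    have h3 := e.F_sup_le hs c a
    have h4 : pw r a n ⊔ c = c ⊔ a ⊔ pw r a n := by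
      rw [sup_assoc, sup_eq_right.2 (self_le_pw a n), sup_comm]
    rw [h4] at h1
    linarith
  refine le_iInf fun l => ?_
  have ht : Tendsto (fun m => F r h (pw r b l) + cond h a (pw r b m)) atTop
      (𝓝 (F r h (pw r b l) + 0)) := tendsto_const_nhds.add (hb a)
  rw [add_zero] at ht
  refine le_of_tendsto_real ht ?_
  filter_upwards [eventually_ge_atTop l] with m hm
  refine (key (pw r b m)).trans ?_
  rw [EReal.coe_le_coe_iff]
  have := e.F_anti hs b hm
  simp only at this
  linarith

theorem Ent.f_eq (e : Ent r h) (hs : ActSup r L) {a b : L} (ha : Gen r h a) (hb : Gen r h b) :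
    f r h a = f r h b :=
  le_antisymm (e.f_le_f hs ha hb) (e.f_le_f hs hb ha)

theorem Ent.gen_mono (e : Ent r h) (hs : ActSup r L) {a b : L} (hab : a ≤ b) (ha : Gen r h a) :
    Gen r h b := fun c =>
  squeeze_zero (fun _ => e.cond_nonneg _ _) (fun n => e.cond_anti c (pw_mono_left hs hab n)) (ha c)

variable (r) in
/-- entropy relative to the factor generated by `b`. -/
noncomputable def rel (h : L → ℝ) (b : L) (a : L) : ℝ := ⨅ m, cond h a (pw r b m)

theorem Ent.tendsto_rel (e : Ent r h) (b a : L) :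
    Tendsto (fun m => cond h a (pw r b m)) atTop (𝓝 (rel r h b a)) :=
  tendsto_atTop_ciInf (fun _ _ hnm => e.cond_anti a (pw_mono b hnm))
    ⟨0, by rintro _ ⟨m, rfl⟩; exact e.cond_nonneg _ _⟩

theorem Ent.rel_le (e : Ent r h) (b a : L) (m : ℕ) : rel r h b a ≤ cond h a (pw r b m) :=
  ciInf_le ⟨0, by rintro _ ⟨m, rfl⟩; exact e.cond_nonneg _ _⟩ m

theorem Ent.rel_ent (e : Ent r h) (hs : ActSup r L) (b : L) : Ent r (rel r h b) where
  sub a a' c := by
    refine le_of_tendsto_of_tendsto' ((e.tendsto_rel b _).add (e.tendsto_rel b _))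
      ((e.tendsto_rel b _).add (e.tendsto_rel b _)) fun m => ?_
    have := e.sub a a' (c ⊔ pw r b m)
    unfold cond
    simp only [sup_assoc] at this ⊢
    linarith
  inv := by
    have key : ∀ (g : G r) (a : L), rel r h b (g • a) ≤ rel r h b a := by
      intro g a
      refine le_ciInf fun m => ?_
      refine (e.rel_le b _ (g.norm + m)).trans ?_
      exact (e.cond_anti _ (smul_pw_le hs b m g)).trans (e.cond_smul hs g _ _).le
    intro g a
    refine le_antisymm (key g a) ?_
    have := key g⁻¹ (g • a)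
    rwa [inv_smul_smul] at this

theorem Ent.gen_rel (e : Ent r h) (hs : ActSup r L) {a b : L} (hab : Gen r h (a ⊔ b)) :
    Gen r (rel r h b) a := by
  intro c
  refine squeeze_zero (fun _ => (e.rel_ent hs b).cond_nonneg _ _) (fun n => ?_) (hab c)
  rw [pw_sup hs]
  refine le_of_tendsto ((e.tendsto_rel b (c ⊔ pw r a n)).sub (e.tendsto_rel b (pw r a n))) ?_
  filter_upwards [eventually_ge_atTop n] with m hm
  have := e.cond_anti c (sup_le_sup_left (pw_mono (r := r) b hm) (pw r a n))
  unfold cond at this ⊢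
  simp only [sup_assoc] at this ⊢
  linarith

theorem Ent.tendsto_F_rel (e : Ent r h) (hs : ActSup r L) (b c : L) :
    Tendsto (fun m => F r h (pw r b m ⊔ c) - F r h (pw r b m)) atTop (𝓝 (F r (rel r h b) c)) := by
  simp only [F_sup_sub hs]
  unfold F
  refine ((e.tendsto_rel b c).const_mul _).add (tendsto_finsetSum _ fun i _ => ?_)
  refine tendsto_of_tendsto_of_tendsto_of_le_of_le tendsto_const_nhds
    (e.tendsto_rel b (c ⊔ (of i : G r) • c)) (fun m => ?_) (fun m => e.cond_anti _ le_sup_left)
  refine (e.rel_le b _ (1 + m)).trans (e.cond_anti _ (sup_le (pw_mono b (by omega)) ?_))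
  simpa using smul_pw_le hs b m (of i)

/-- Abramov–Rokhlin formula. -/
theorem Ent.abramov (e : Ent r h) (hs : ActSup r L) {a b : L} (hba : b ≤ a) :
    f r h a = f r h b + f r (rel r h b) a := by
  have hup : ∀ n m, F r h (pw r b m ⊔ pw r a n) ≤ F r h (pw r a n) := by
    intro n m
    rw [sup_comm]
    exact e.split hs _ b (hba.trans (self_le_pw a n)) m
  have hlow : ∀ n m, f r h a ≤ ((F r h (pw r b m ⊔ pw r a n) : ℝ) : EReal) := by
    intro n m
    refine (f_le a (max n m)).trans (EReal.coe_le_coe_iff.2 ?_)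
    have := e.split hs (pw r b m ⊔ pw r a n) a ((self_le_pw a n).trans le_sup_right) (max n m)
    rwa [sup_eq_right.2 (sup_le ((pw_mono_left hs hba m).trans (pw_mono a (le_max_right n m)))
      (pw_mono a (le_max_left n m)))] at this
  apply le_antisymm
  · -- `f a ≤ F (b^l) + F_rel (a^n)`
    have key : ∀ l n, f r h a ≤ ((F r h (pw r b l) + F r (rel r h b) (pw r a n) : ℝ) : EReal) := by
      intro l n
      refine le_of_tendsto_real (tendsto_const_nhds.add (e.tendsto_F_rel hs b (pw r a n))) ?_
      filter_upwards [eventually_ge_atTop l] with m hm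
      refine (hlow n m).trans (EReal.coe_le_coe_iff.2 ?_)
      have := e.F_anti hs b hm
      simp only at this
      linarith
    have t1 := e.tendsto_f hs b
    have t2 := (e.rel_ent hs b).tendsto_f hs a
    have hc : ContinuousAt (fun p : EReal × EReal => p.1 + p.2) (f r h b, f r (rel r h b) a) :=
      EReal.continuousAt_add (Or.inl (f_ne_top b)) (Or.inr (f_ne_top a))
    have t3 := hc.tendsto.comp (t1.prodMk_nhds t2)
    refine ge_of_tendsto' t3 fun n => ?_
    simpa [EReal.coe_add] using key n n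
  · refine le_iInf fun n => ?_
    refine le_trans (add_le_add le_rfl (f_le a n)) ?_
    have key : f r h b ≤ ((F r h (pw r a n) - F r (rel r h b) (pw r a n) : ℝ) : EReal) := by
      refine le_of_tendsto_real (tendsto_const_nhds.sub (e.tendsto_F_rel hs b (pw r a n)))
        (Eventually.of_forall fun m => (f_le b m).trans (EReal.coe_le_coe_iff.2 ?_))
      have := hup n m
      linarith
    refine le_trans (add_le_add key le_rfl) (le_of_eq ?_)
    rw [← EReal.coe_add]
    congr 1; ring

section pull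

variable {L' : Type*} [SemilatticeSup L'] [OrderBot L'] [MulAction (G r) L']

variable (r) in
/-- equivariant join-preserving maps -/
structure Pull (Φ : L → L') : Prop where
  sup : ∀ a b, Φ (a ⊔ b) = Φ a ⊔ Φ b
  bot : Φ ⊥ = ⊥
  smul : ∀ (g : G r) a, Φ (g • a) = g • Φ a

theorem Pull.pw {Φ : L → L'} (p : Pull r Φ) (a : L) (n : ℕ) : Φ (pw r a n) = pw r (Φ a) n := by
  unfold FInvAlg.pw
  rw [Finset.apply_sup_eq_sup_comp Φ p.sup p.bot]
  congr 1
  funext g
  exact p.smul g a

theorem Pull.f_eq {Φ : L → L'} (p : Pull r Φ) {h : L → ℝ} {h' : L' → ℝ}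
    (hh : ∀ a, h' (Φ a) = h a) (a : L) : f r h' (Φ a) = f r h a := by
  unfold f F
  simp only [← p.pw, ← p.smul, ← p.sup, hh]

end pull

end FInvAlg
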