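import Mathlib

set_option autoImplicit false

/-! Bowen's f-invariant for free group actions, and dual actions on Pontryagin duals. -/

namespace FInv

open MeasureTheory Filter Topology

/-- The free group `𝔽_r` on the generators `FreeGroup.of i`, `i : Fin r`. -/
abbrev FG (r : ℕ) := FreeGroup (Fin r)

/-- The integral group ring `ℤ(𝔽_r)`. -/
abbrev ZF (r : ℕ) := MonoidAlgebra ℤ (FG r)

section partitions

variable {X : Type*} [MeasurableSpace X]

/-- A partition is given by an equivalence relation (its cells are the classes);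
it is a finite measurable partition if there are finitely many cells, all measurable. -/
def IsFinPartition (α : Setoid X) : Prop :=
  α.classes.Finite ∧ ∀ P ∈ α.classes, MeasurableSet P

/-- Shannon entropy `H(α) = -∑_{P ∈ α} μ(P) log μ(P)`. -/
noncomputable def H (μ : Measure X) (α : Setoid X) : ℝ :=
  ∑ᶠ P ∈ α.classes, -(μ.real P * Real.log (μ.real P))

variable (r : ℕ) [MulAction (FG r) X]

/-- The translate `gα`, whose cells are the sets `gP`, `P ∈ α`. -/
def translate (g : FG r) (α : Setoid X) : Setoid X := α.comap fun x => g⁻¹ • x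

/-- `α^n = ⋁_{|g| ≤ n} gα`; the common refinement of partitions is the infimum `⨅` (`⊓`) of the
equivalence relations, and `|g|` is the reduced word length `FreeGroup.norm`. -/
def power (α : Setoid X) (n : ℕ) : Setoid X := ⨅ g : {g : FG r // g.norm ≤ n}, translate r g.1 α

/-- `F(α) = (1 - 2r) H(α) + ∑ᵢ H(α ∨ sᵢ α)`. -/
noncomputable def F (μ : Measure X) (α : Setoid X) : ℝ :=
  (1 - 2 * (r : ℝ)) * H μ α + ∑ i : Fin r, H μ (α ⊓ translate r (FreeGroup.of i) α)

/-- `α` is a finite generating partition: the cells of the translates `gα` generate the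
`σ`-algebra modulo null sets. -/
def IsFinGenerating (μ : Measure X) (α : Setoid X) : Prop :=
  IsFinPartition α ∧ ∀ E : Set X, MeasurableSet E → ∃ E' : Set X,
    MeasurableSet[MeasurableSpace.generateFrom (⋃ g : FG r, (translate r g α).classes)] E' ∧
      E =ᵐ[μ] E'

/-- `lim_{n → ∞} F(α^n) = f` in the extended reals. -/
def HasFInv (μ : Measure X) (α : Setoid X) (f : EReal) : Prop :=
  Tendsto (fun n : ℕ => ((F r μ (power r α n) : ℝ) : EReal)) atTop (𝓝 f)

end partitions

section dual

/-- The Pontryagin dual of the (discrete) abelian group `A`. -/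
abbrev Dual (A : Type*) [AddCommGroup A] [TopologicalSpace A] :=
  PontryaginDual (Multiplicative A)

variable (A : Type*) [AddCommGroup A] [TopologicalSpace A]

/-- Borel `σ`-algebra on the dual. -/
noncomputable instance instMeasurableSpaceDual : MeasurableSpace (Dual A) := borel _

instance instBorelSpaceDual : BorelSpace (Dual A) := ⟨rfl⟩

variable {A} [DiscreteTopology A]

/-- An additive map between discrete groups as a continuous multiplicative homomorphism. -/
def toCM {B : Type*} [AddCommGroup B] [TopologicalSpace B] (φ : A →+ B) :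
    Multiplicative A →ₜ* Multiplicative B where
  toMonoidHom := AddMonoidHom.toMultiplicative φ
  continuous_toFun := continuous_of_discreteTopology

/-- The dual action `(gχ)(a) = χ(g⁻¹ a)` of `𝔽_r` on the dual of a `ℤ(𝔽_r)`-module. -/
noncomputable instance dualAction {r : ℕ} [Module (ZF r) A] : MulAction (FG r) (Dual A) where
  smul g χ := PontryaginDual.map
    (toCM (DistribSMul.toAddMonoidHom A (MonoidAlgebra.of ℤ (FG r) g⁻¹))) χ
  one_smul χ := PontryaginDual.ext fun a => by
    change χ (Multiplicative.ofAdd (MonoidAlgebra.of ℤ (FG r) 1⁻¹ • a.toAdd)) = χ a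
    rw [inv_one, map_one, one_smul]
    rfl
  mul_smul g h χ := PontryaginDual.ext fun a => by
    change χ (Multiplicative.ofAdd (MonoidAlgebra.of ℤ (FG r) (g * h)⁻¹ • a.toAdd)) =
      χ (Multiplicative.ofAdd (MonoidAlgebra.of ℤ (FG r) h⁻¹ •
        MonoidAlgebra.of ℤ (FG r) g⁻¹ • a.toAdd))
    rw [mul_inv_rev, map_mul, mul_smul]

theorem dual_smul_apply {r : ℕ} [Module (ZF r) A] (g : FG r) (χ : Dual A) (a : A) :
    (g • χ) (Multiplicative.ofAdd a) =
      χ (Multiplicative.ofAdd (MonoidAlgebra.of ℤ (FG r) g⁻¹ • a)) := rfl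

end dual

end FInv
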