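import Pool.Agent.H37Z.FInvMain

set_option autoImplicit false
set_option linter.unusedSectionVars false

namespace FInv

open MeasureTheory Filter Topology Setoid FInvAlg

theorem circ_baer : Module.Baer ℤ (Additive Circle) := by
  let : DivisibleBy (Additive Circle) ℤ := divisibleByOfSMulRightSurj _ _ fun {n} hn z => by
    obtain ⟨t, ht⟩ := Circle.exp_surjective z.toMul
    refine ⟨Additive.ofMul (Circle.exp (t / n)), ?_⟩
    change Additive.ofMul (Circle.exp (t / n) ^ n) = z
    rw [← Circle.exp_zsmul, zsmul_eq_mul, mul_div_cancel₀ _ (Int.cast_ne_zero.2 hn), ht]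
    rfl
  exact Module.Baer.of_divisible _

noncomputable def qToCirc : AddCircle (1 : ℚ) →+ AddCircle (1 : ℝ) :=
  QuotientAddGroup.map (AddSubgroup.zmultiples (1 : ℚ)) (AddSubgroup.zmultiples (1 : ℝ))
    (Rat.castHom ℝ).toAddMonoidHom (by
      intro x hx
      obtain ⟨n, rfl⟩ := AddSubgroup.mem_zmultiples_iff.1 hx
      exact AddSubgroup.mem_zmultiples_iff.2 ⟨n, by simp⟩)

theorem qToCirc_inj : Function.Injective qToCirc := by
  rw [injective_iff_map_eq_zero]
  intro x
  induction x using QuotientAddGroup.induction_on with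
  | H q =>
    intro h
    have h' : ((q : ℝ) : AddCircle (1 : ℝ)) = 0 := h
    rw [AddCircle.coe_eq_zero_iff] at h'
    obtain ⟨n, hn⟩ := h'
    have : (n : ℚ) = q := by
      have h2 : ((n : ℚ) : ℝ) = (q : ℝ) := by simpa using hn
      exact_mod_cast h2
    change ((q : ℚ) : AddCircle (1 : ℚ)) = 0
    rw [AddCircle.coe_eq_zero_iff]
    exact ⟨n, by simpa using this⟩

section dual

variable {A : Type*} [AddCommGroup A] [TopologicalSpace A] [DiscreteTopology A]
  {B : Type*} [AddCommGroup B] [TopologicalSpace B] [DiscreteTopology B]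
  {C : Type*} [AddCommGroup C] [TopologicalSpace C] [DiscreteTopology C]

/-- a character from an additive map -/
noncomputable def ofAdd (ψ : A →+ Additive Circle) : Dual A :=
  ({ toMonoidHom := AddMonoidHom.toMultiplicativeLeft ψ
     continuous_toFun := continuous_of_discreteTopology } : Multiplicative A →ₜ* Circle)

theorem ofAdd_apply (ψ : A →+ Additive Circle) (a : A) :
    ofAdd ψ (Multiplicative.ofAdd a) = (ψ a).toMul := rfl

/-- the additive map of a character -/
noncomputable def toAdd (χ : Dual A) : A →+ Additive Circle where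
  toFun a := Additive.ofMul (χ (Multiplicative.ofAdd a))
  map_zero' := by simp
  map_add' a b := by simp [ofAdd_add]

theorem dual_ext {χ ψ : Dual A}
    (h : ∀ a : A, χ (Multiplicative.ofAdd a) = ψ (Multiplicative.ofAdd a)) : χ = ψ :=
  PontryaginDual.ext fun a => h a.toAdd

/-- the dual map -/
noncomputable def dmap (φ : A →+ B) : Dual B →* Dual A :=
  (PontryaginDual.map (toCM φ)).toMonoidHom

theorem dmap_apply (φ : A →+ B) (χ : Dual B) (a : A) :
    dmap φ χ (Multiplicative.ofAdd a) = χ (Multiplicative.ofAdd (φ a)) := rfl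

theorem dmap_cont (φ : A →+ B) : Continuous (dmap φ) :=
  (PontryaginDual.map (toCM φ)).continuous_toFun

theorem dmap_surj (φ : A →+ B) (hφ : Function.Injective φ) : Function.Surjective (dmap φ) := by
  intro χ
  obtain ⟨ψ, hψ⟩ := circ_baer.extension_property_addMonoidHom φ hφ (toAdd χ)
  refine ⟨ofAdd ψ, dual_ext fun a => ?_⟩
  rw [dmap_apply, ofAdd_apply]
  exact congrArg Additive.toMul (DFunLike.congr_fun hψ a)

theorem dmap_inj (φ : A →+ B) (hφ : Function.Surjective φ) : Function.Injective (dmap φ) := by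
  intro χ ψ h
  refine dual_ext fun b => ?_
  obtain ⟨a, rfl⟩ := hφ b
  rw [← dmap_apply, ← dmap_apply, h]

theorem dmap_exact (i : A →+ B) (p : B →+ C) (hex : Function.Exact i p)
    (hp : Function.Surjective p) (χ : Dual B) : dmap i χ = 1 ↔ χ ∈ Set.range (dmap p) := by
  constructor
  · intro h
    have hk : p.ker ≤ (toAdd χ).ker := by
      intro b hb
      obtain ⟨a, rfl⟩ := (hex b).1 hb
      have : dmap i χ (Multiplicative.ofAdd a) = 1 := by rw [h]; rfl
      exact congrArg Additive.ofMul this
    refine ⟨ofAdd (p.liftOfSurjective hp ⟨toAdd χ, hk⟩), dual_ext fun b => ?_⟩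
    rw [dmap_apply, ofAdd_apply, AddMonoidHom.liftOfRightInverse_comp_apply]
    rfl
  · rintro ⟨ψ, rfl⟩
    refine dual_ext fun a => ?_
    rw [dmap_apply, dmap_apply, hex.apply_apply_eq_zero]
    simp

theorem exists_ne_one {a : A} (ha : a ≠ 0) : ∃ χ : Dual A, χ (Multiplicative.ofAdd a) ≠ 1 := by
  obtain ⟨c, hc⟩ := CharacterModule.exists_character_apply_ne_zero_of_ne_zero ha
  let t : AddCircle (1 : ℝ) →+ Additive Circle :=
    { toFun := fun x => Additive.ofMul (AddCircle.toCircle x)
      map_zero' := by simp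
      map_add' := fun x y => by simp [AddCircle.toCircle_add] }
  refine ⟨ofAdd (t.comp (qToCirc.comp c)), fun h => hc ?_⟩
  have h1 : AddCircle.toCircle (qToCirc (c a)) = AddCircle.toCircle (0 : AddCircle (1 : ℝ)) := by
    rw [AddCircle.toCircle_zero]; exact h
  have h2 := AddCircle.injective_toCircle one_ne_zero h1
  apply qToCirc_inj
  rw [h2, map_zero]

theorem cont_ev (a : A) : Continuous fun χ : Dual A => (χ (Multiplicative.ofAdd a) : ℂ) :=
  continuous_subtype_val.comp
    (continuous_eval_const (F := Multiplicative A →ₜ* Circle) (Multiplicative.ofAdd a))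

theorem integral_ev (μ : Measure (Dual A)) [μ.IsMulLeftInvariant] {a : A} (ha : a ≠ 0) :
    ∫ χ, (χ (Multiplicative.ofAdd a) : ℂ) ∂μ = 0 := by
  obtain ⟨χ0, h0⟩ := exists_ne_one ha
  have h := integral_mul_left_eq_self (μ := μ)
    (fun χ : Dual A => (χ (Multiplicative.ofAdd a) : ℂ)) χ0
  have e : ∀ χ : Dual A, ((χ0 * χ) (Multiplicative.ofAdd a) : ℂ) =
      (χ0 (Multiplicative.ofAdd a) : ℂ) * (χ (Multiplicative.ofAdd a) : ℂ) := fun χ => rfl
  simp only [e, integral_const_mul] at h
  have h1 : ((χ0 (Multiplicative.ofAdd a) : ℂ) - 1) ≠ 0 := by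
    rw [sub_ne_zero]
    intro h2
    exact h0 (Circle.ext h2)
  apply mul_left_cancel₀ h1
  rw [sub_mul, h]; ring

theorem countable_of_sep (μ : Measure (Dual A)) [IsProbabilityMeasure μ] [μ.IsMulLeftInvariant]
    [IsSeparable μ] : Countable A := by
  have hint : ∀ a : A, Integrable (fun χ : Dual A => (χ (Multiplicative.ofAdd a) : ℂ)) μ :=
    fun a => Integrable.of_bound (cont_ev a).aestronglyMeasurable 1
      (Eventually.of_forall fun χ => by simp)
  have : Fact ((1 : ENNReal) ≠ ⊤) := ⟨ENNReal.one_ne_top⟩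
  have hd : ∀ a b : A, a ≠ b → 1 ≤ dist ((hint a).toL1 _) ((hint b).toL1 _) := by
    intro a b hab
    rw [dist_eq_norm, ← Integrable.toL1_sub, L1.norm_of_fun_eq_integral_norm]
    have e : ∀ χ : Dual A, ‖((fun χ : Dual A => (χ (Multiplicative.ofAdd a) : ℂ)) -
        fun χ : Dual A => (χ (Multiplicative.ofAdd b) : ℂ)) χ‖ =
        ‖1 - (χ (Multiplicative.ofAdd (b - a)) : ℂ)‖ := by
      intro χ
      have h1 : (χ (Multiplicative.ofAdd b) : ℂ) =
          (χ (Multiplicative.ofAdd a) : ℂ) * (χ (Multiplicative.ofAdd (b - a)) : ℂ) := by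
        rw [← Circle.coe_mul, ← map_mul, ← ofAdd_add, add_sub_cancel]
      rw [Pi.sub_apply, h1, ← mul_one_sub, norm_mul]
      simp
    simp only [e]
    refine le_trans (le_of_eq ?_) (norm_integral_le_integral_norm _)
    rw [integral_sub (integrable_const _) (hint _), integral_ev μ (sub_ne_zero.2 hab.symm)]
    simp
  refine Pairwise.countable_of_isOpen_disjoint
    (s := fun a : A => Metric.ball ((hint a).toL1 _) (1 / 2)) ?_ (fun _ => Metric.isOpen_ball)
    (fun _ => Metric.nonempty_ball.2 (by norm_num))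
  intro a b hab
  exact Metric.ball_disjoint_ball (by have := hd a b hab; linarith)

theorem secondCountable [Countable A] : SecondCountableTopology (Dual A) := by
  have : Countable (Multiplicative A) := ‹Countable A›
  exact (ContinuousMonoidHom.isInducing_toContinuousMap (Multiplicative A)
    Circle).secondCountableTopology

variable {r : ℕ} [Module (ZF r) A]

theorem smul_eq_dmap (g : FG r) (χ : Dual A) :
    g • χ = dmap (DistribSMul.toAddMonoidHom A (MonoidAlgebra.of ℤ (FG r) g⁻¹)) χ := rfl

instance : MeasurableConstSMul (FG r) (Dual A) where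
  measurable_const_smul _ := (dmap_cont _).measurable

theorem smul_preserving (μ : Measure (Dual A)) [μ.IsHaarMeasure] (g : FG r) :
    MeasurePreserving (fun χ : Dual A => g • χ) μ μ :=
  MonoidHom.measurePreserving (dmap_cont _) (MulAction.surjective g) rfl

theorem dmap_smul [Module (ZF r) B] (φ : A →ₗ[ZF r] B) (g : FG r) (χ : Dual B) :
    dmap φ.toAddMonoidHom (g • χ) = g • dmap φ.toAddMonoidHom χ := by
  refine dual_ext fun a => ?_
  rw [dmap_apply, dual_smul_apply, dual_smul_apply, dmap_apply]
  simp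

end dual

theorem separable_of_gen {r : ℕ} {X : Type*} [m0 : MeasurableSpace X] [MulAction (FG r) X]
    [MeasurableConstSMul (FG r) X] (μ : Measure X) [IsFiniteMeasure μ] {α : Setoid X}
    (h : IsFinGenerating r μ α) : IsSeparable μ := by
  have hg : ∀ g : FG r, IsFinPartition (translate r g α) := fun g =>
    h.1.comap (measurable_const_smul g⁻¹)
  have hc : (⋃ g : FG r, (translate r g α).classes).Countable :=
    Set.countable_iUnion fun g => (hg g).1.countable
  have hle : MeasurableSpace.generateFrom (⋃ g : FG r, (translate r g α).classes) ≤ m0 := by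
    refine MeasurableSpace.generateFrom_le fun P hP => ?_
    obtain ⟨g, hP⟩ := Set.mem_iUnion.1 hP
    exact (hg g).2 P hP
  have cg : @MeasurableSpace.CountablyGenerated X
      (MeasurableSpace.generateFrom (⋃ g : FG r, (translate r g α).classes)) :=
    @MeasurableSpace.CountablyGenerated.mk X (_) ⟨_, hc, rfl⟩
  have sep : @IsSeparable X (_) (μ.trim hle) :=
    @isSeparable_of_sigmaFinite X (_) (μ.trim hle) cg inferInstance
  obtain ⟨𝒜, h𝒜, hd⟩ := @IsSeparable.exists_countable_measureDense X (_) (μ.trim hle) sep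
  have hm := @Measure.MeasureDense.measurable X (_) _ _ hd
  have happ := @Measure.MeasureDense.approx X (_) _ _ hd
  refine ⟨𝒜, h𝒜, fun s hs => hle _ (hm s hs), fun s hs _ ε hε => ?_⟩
  obtain ⟨s', hs', he⟩ := h.2 s hs
  obtain ⟨t, ht, hlt⟩ := happ s' hs' (by rw [trim_measurableSet_eq hle hs']; finiteness) ε hε
  refine ⟨t, ht, ?_⟩
  rw [trim_measurableSet_eq hle (hs'.symmDiff (hm t ht))] at hlt
  rwa [measure_congr (he.symmDiff (ae_eq_refl t))]

theorem main {r : ℕ}
    {A : Type*} [AddCommGroup A] [TopologicalSpace A] [DiscreteTopology A] [Module (ZF r) A]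
    {B : Type*} [AddCommGroup B] [TopologicalSpace B] [DiscreteTopology B] [Module (ZF r) B]
    {C : Type*} [AddCommGroup C] [TopologicalSpace C] [DiscreteTopology C] [Module (ZF r) C]
    (i : A →ₗ[ZF r] B) (p : B →ₗ[ZF r] C) (hi : Function.Injective i)
    (hex : Function.Exact i p) (hp : Function.Surjective p)
    (lA : Measure (Dual A)) [lA.IsHaarMeasure] [IsProbabilityMeasure lA]
    (lB : Measure (Dual B)) [lB.IsHaarMeasure] [IsProbabilityMeasure lB]
    (lC : Measure (Dual C)) [lC.IsHaarMeasure] [IsProbabilityMeasure lC]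
    (α : Setoid (Dual A)) (hα : IsFinGenerating r lA α)
    (β : Setoid (Dual B)) (hβ : IsFinGenerating r lB β)
    (γ : Setoid (Dual C)) (hγ : IsFinGenerating r lC γ) :
    ∃ fA fB fC : EReal, HasFInv r lA α fA ∧ HasFInv r lB β fB ∧ HasFInv r lC γ fC ∧
      fA < ⊤ ∧ fB < ⊤ ∧ fC < ⊤ ∧ fB = fA + fC := by
  have := separable_of_gen lA hα
  have := separable_of_gen lB hβ
  have := separable_of_gen lC hγ
  have := countable_of_sep lA
  have := countable_of_sep lB
  have := countable_of_sep lC
  have := secondCountable (A := A)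
  have := secondCountable (A := B)
  have := secondCountable (A := C)
  let a : FP (Dual A) := ⟨α, hα.1⟩
  let b : FP (Dual B) := ⟨β, hβ.1⟩
  let c : FP (Dual C) := ⟨γ, hγ.1⟩
  refine ⟨_, _, _, hasFInv lA (smul_preserving lA) a, hasFInv lB (smul_preserving lB) b,
    hasFInv lC (smul_preserving lC) c, (f_ne_top _).lt_top, (f_ne_top _).lt_top,
    (f_ne_top _).lt_top, ?_⟩
  exact addition lB lA lC (smul_preserving lB) (smul_preserving lC)
    (fun g x y => map_mul (dmap _) x y) (dmap i.toAddMonoidHom)
    (MonoidHom.measurePreserving (dmap_cont _) (dmap_surj _ hi) (by simp)) (dmap_surj _ hi)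
    (dmap_smul i) (dmap p.toAddMonoidHom) (dmap_cont _) (dmap_inj _ hp) (dmap_smul p)
    (dmap_exact _ _ hex hp) b a c (genM_of lB b hβ) (genM_of lA a hα) (genM_of lC c hγ)

end FInv
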