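import Pool.Agent.H37Z.FInvDefs
import Pool.Agent.H37Z.FInvAlg

set_option autoImplicit false
set_option linter.unusedSectionVars false

namespace FInv

open MeasureTheory Filter Topology Real Setoid

section basic

variable {X : Type*} [MeasurableSpace X]

theorem classes_ker {ι : Type*} (f : X → ι) :
    (ker f).classes = (fun i => f ⁻¹' {i}) '' Set.range f := by
  ext s
  constructor
  · rintro ⟨y, rfl⟩
    exact ⟨f y, ⟨y, rfl⟩, by ext x; simp [Setoid.ker_def]⟩
  · rintro ⟨_, ⟨y, rfl⟩, rfl⟩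
    exact ⟨y, by ext x; simp [Setoid.ker_def]⟩

theorem good_ker {ι : Type*} [Finite ι] (f : X → ι) (hf : ∀ i, MeasurableSet (f ⁻¹' {i})) :
    IsFinPartition (ker f) := by
  rw [IsFinPartition, classes_ker]
  refine ⟨(Set.toFinite _).image _, ?_⟩
  rintro _ ⟨i, -, rfl⟩
  exact hf i

theorem H_ker {ι : Type*} [Fintype ι] (μ : Measure X) (f : X → ι) :
    H μ (ker f) = ∑ i, negMulLog (μ.real (f ⁻¹' {i})) := by
  classical
  have h1 : Set.range f = ↑(Finset.univ.filter (fun i => i ∈ Set.range f)) := by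
    ext i; simp
  rw [H, classes_ker, finsum_mem_image, h1, finsum_mem_coe_finset]
  · rw [Finset.sum_filter]
    refine Finset.sum_congr rfl fun i _ => ?_
    split_ifs with hi
    · simp [negMulLog]
    · have : f ⁻¹' {i} = ∅ := by
        ext x
        simp only [Set.mem_preimage, Set.mem_singleton_iff, Set.mem_empty_iff_false, iff_false]
        rintro rfl
        exact hi ⟨x, rfl⟩
      simp [this]
  · rintro _ ⟨x, rfl⟩ _ ⟨y, rfl⟩ h
    have : x ∈ f ⁻¹' {f y} := by
      have h' : f ⁻¹' {f x} = f ⁻¹' {f y} := h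
      rw [← h']; simp
    simpa using this

theorem IsFinPartition.finite {α : Setoid X} (h : IsFinPartition α) : Finite (Quotient α) := by
  have h1 : (ker (@Quotient.mk'' _ α)).classes.Finite := by rw [ker_mk_eq]; exact h.1
  rw [classes_ker, Set.finite_image_iff, Quotient.mk''_surjective.range_eq] at h1
  · exact Set.finite_univ_iff.1 h1
  · rintro _ ⟨x, rfl⟩ _ ⟨y, rfl⟩ h
    have : x ∈ (@Quotient.mk'' _ α) ⁻¹' {Quotient.mk'' y} := by
      have h' : (@Quotient.mk'' _ α) ⁻¹' {Quotient.mk'' x} =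
        (@Quotient.mk'' _ α) ⁻¹' {Quotient.mk'' y} := h
      rw [← h']; simp
    simpa using this

theorem IsFinPartition.meas {α : Setoid X} (h : IsFinPartition α) (q : Quotient α) :
    MeasurableSet ((@Quotient.mk'' _ α) ⁻¹' {q}) := by
  apply h.2
  conv_lhs => rw [← ker_mk_eq α]
  rw [classes_ker]
  exact ⟨q, Quotient.mk''_surjective q, rfl⟩

theorem ker_inf {ι κ : Type*} (f : X → ι) (g : X → κ) :
    ker f ⊓ ker g = ker fun x => (f x, g x) := by
  ext x y
  simp [Setoid.ker_def, Setoid.inf_iff_and]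

theorem pair_pre {ι κ : Type*} (f : X → ι) (g : X → κ) (i : ι) (k : κ) :
    (fun x => (f x, g x)) ⁻¹' {(i, k)} = f ⁻¹' {i} ∩ g ⁻¹' {k} := by
  ext x; simp

theorem IsFinPartition.inf {α β : Setoid X} (ha : IsFinPartition α) (hb : IsFinPartition β) :
    IsFinPartition (α ⊓ β) := by
  have := ha.finite
  have := hb.finite
  rw [← ker_mk_eq α, ← ker_mk_eq β, ker_inf]
  refine good_ker _ ?_
  rintro ⟨i, k⟩
  rw [pair_pre]
  exact (ha.meas i).inter (hb.meas k)

theorem comap_ker {Z ι : Type*} (φ : Z → X) (f : X → ι) : (ker f).comap φ = ker (f ∘ φ) := rfl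

theorem IsFinPartition.comap {Z : Type*} [MeasurableSpace Z] {α : Setoid X}
    (ha : IsFinPartition α) {φ : Z → X} (hφ : Measurable φ) : IsFinPartition (α.comap φ) := by
  have := ha.finite
  rw [← ker_mk_eq α, comap_ker]
  exact good_ker _ fun i => hφ (ha.meas i)

theorem good_top : IsFinPartition (⊤ : Setoid X) := by
  have : (⊤ : Setoid X) = ker fun _ : X => () := by
    ext x y; simp [Setoid.ker_def]
  rw [this]
  refine good_ker _ fun i => ?_
  have : (fun _ : X => ()) ⁻¹' {i} = Set.univ := by ext; simp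
  rw [this]; exact MeasurableSet.univ

theorem H_comap {Z : Type*} [MeasurableSpace Z] {ν : Measure Z} {μ : Measure X} {α : Setoid X}
    (ha : IsFinPartition α) {φ : Z → X} (hφ : MeasurePreserving φ ν μ) :
    H ν (α.comap φ) = H μ α := by
  have := ha.finite
  have := Fintype.ofFinite (Quotient α)
  rw [← ker_mk_eq α, comap_ker, H_ker, H_ker]
  refine Finset.sum_congr rfl fun i _ => ?_
  rw [Set.preimage_comp, hφ.measureReal_preimage (ha.meas i).nullMeasurableSet]

theorem real_decomp {ι : Type*} [Fintype ι] (μ : Measure X) [IsFiniteMeasure μ] (f : X → ι)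
    (hf : ∀ i, MeasurableSet (f ⁻¹' {i})) {s : Set X} (hs : MeasurableSet s) :
    μ.real s = ∑ i, μ.real (f ⁻¹' {i} ∩ s) := by
  rw [← measureReal_iUnion_fintype]
  · congr 1
    ext x; simp
  · intro i j hij
    refine Set.disjoint_left.2 fun x hx hy => hij ?_
    rw [← hx.1, ← hy.1]
  · exact fun i => (hf i).inter hs

theorem integral_decomp {ι : Type*} [Fintype ι] (μ : Measure X) (f : X → ι)
    (hf : ∀ i, MeasurableSet (f ⁻¹' {i})) {s : Set X} (hs : MeasurableSet s) {p : X → ℝ}
    (hp : Integrable p μ) : ∫ x in s, p x ∂μ = ∑ i, ∫ x in f ⁻¹' {i} ∩ s, p x ∂μ := by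
  rw [← integral_iUnion_fintype]
  · congr 2
    ext x; simp
  · exact fun i => (hf i).inter hs
  · intro i j hij
    refine Set.disjoint_left.2 fun x hx hy => hij ?_
    rw [← hx.1, ← hy.1]
  · exact fun i => hp.integrableOn

theorem submod_fin {A B C : Type*} [Fintype A] [Fintype B] [Fintype C] (p : A → B → C → ℝ)
    (hp : ∀ a b c, 0 ≤ p a b c) :
    ∑ c, ∑ a, ∑ b, negMulLog (p a b c) + ∑ c, negMulLog (∑ a, ∑ b, p a b c) ≤
      ∑ c, ∑ a, negMulLog (∑ b, p a b c) + ∑ c, ∑ b, negMulLog (∑ a, p a b c) := by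
  rw [← Finset.sum_add_distrib, ← Finset.sum_add_distrib]
  refine Finset.sum_le_sum fun c _ => ?_
  set P := ∑ a, ∑ b, p a b c with hP
  set u : A → ℝ := fun a => ∑ b, p a b c with hu
  set v : B → ℝ := fun b => ∑ a, p a b c with hv
  have hu0 : ∀ a, 0 ≤ u a := fun a => Finset.sum_nonneg fun b _ => hp a b c
  have hv0 : ∀ b, 0 ≤ v b := fun b => Finset.sum_nonneg fun a _ => hp a b c
  have hP0 : 0 ≤ P := Finset.sum_nonneg fun a _ => hu0 a
  have hpu : ∀ a b, p a b c ≤ u a := fun a b =>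
    Finset.single_le_sum (f := fun b => p a b c) (fun b _ => hp a b c) (Finset.mem_univ b)
  have hpv : ∀ a b, p a b c ≤ v b := fun a b =>
    Finset.single_le_sum (f := fun a => p a b c) (fun a _ => hp a b c) (Finset.mem_univ a)
  have huP : ∀ a, u a ≤ P := fun a =>
    Finset.single_le_sum (f := u) (fun a _ => hu0 a) (Finset.mem_univ a)
  have e1 : negMulLog P = ∑ a, ∑ b, -(p a b c * log P) := by
    simp only [Finset.sum_neg_distrib, ← Finset.sum_mul, negMulLog]
    rw [← hP]; ring
  have e2 : ∑ a, negMulLog (u a) = ∑ a, ∑ b, -(p a b c * log (u a)) := by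
    refine Finset.sum_congr rfl fun a _ => ?_
    simp only [Finset.sum_neg_distrib, ← Finset.sum_mul, negMulLog, hu]
    ring
  have e3 : ∑ b, negMulLog (v b) = ∑ a, ∑ b, -(p a b c * log (v b)) := by
    rw [Finset.sum_comm]
    refine Finset.sum_congr rfl fun b _ => ?_
    simp only [Finset.sum_neg_distrib, ← Finset.sum_mul, negMulLog, hv]
    ring
  have e4 : ∑ a, ∑ b, (u a * v b / P - p a b c) = 0 := by
    simp only [Finset.sum_sub_distrib, ← Finset.sum_div, ← Finset.mul_sum, ← Finset.sum_mul]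
    have h1 : ∑ b, v b = P := by rw [hP, Finset.sum_comm]
    have h2 : ∑ a, u a = P := rfl
    rw [h1, h2]
    by_cases h : P = 0
    · simp [h]
    · field_simp; ring
  have key : ∀ a b, negMulLog (p a b c) + -(p a b c * log P) ≤
      -(p a b c * log (u a)) + -(p a b c * log (v b)) + (u a * v b / P - p a b c) := by
    intro a b
    rcases (hp a b c).eq_or_lt with h0 | h0
    · rw [← h0]
      have := div_nonneg (mul_nonneg (hu0 a) (hv0 b)) hP0
      simpa using this
    · have hua : 0 < u a := h0.trans_le (hpu a b)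
      have hvb : 0 < v b := h0.trans_le (hpv a b)
      have hPp : 0 < P := hua.trans_le (huP a)
      have h1 := Real.log_le_sub_one_of_pos (x := u a * v b / (p a b c * P)) (by positivity)
      rw [Real.log_div (by positivity) (by positivity), Real.log_mul hua.ne' hvb.ne',
        Real.log_mul h0.ne' hPp.ne'] at h1
      have h2 := mul_le_mul_of_nonneg_left h1 h0.le
      have h3 : p a b c * (u a * v b / (p a b c * P) - 1) = u a * v b / P - p a b c := by
        field_simp
      rw [h3] at h2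
      simp only [negMulLog]
      nlinarith
  change ∑ a, ∑ b, negMulLog (p a b c) + negMulLog P ≤
    ∑ a, negMulLog (u a) + ∑ b, negMulLog (v b)
  rw [e1, e2, e3]
  have := Finset.sum_le_sum fun a (_ : a ∈ Finset.univ) =>
    Finset.sum_le_sum fun b (_ : b ∈ Finset.univ) => key a b
  simp only [Finset.sum_add_distrib] at this e4 ⊢
  linarith

theorem H_submod (μ : Measure X) [IsFiniteMeasure μ] {α β γ : Setoid X} (ha : IsFinPartition α)
    (hb : IsFinPartition β) (hc : IsFinPartition γ) :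
    H μ (α ⊓ β ⊓ γ) + H μ γ ≤ H μ (α ⊓ γ) + H μ (β ⊓ γ) := by
  have := ha.finite
  have := hb.finite
  have := hc.finite
  have := Fintype.ofFinite (Quotient α)
  have := Fintype.ofFinite (Quotient β)
  have := Fintype.ofFinite (Quotient γ)
  have ma := ha.meas
  have mb := hb.meas
  have mc := hc.meas
  rw [← ker_mk_eq α, ← ker_mk_eq β, ← ker_mk_eq γ]
  generalize (@Quotient.mk'' _ α) = a at ma ⊢
  generalize (@Quotient.mk'' _ β) = b at mb ⊢
  generalize (@Quotient.mk'' _ γ) = c at mc ⊢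
  simp only [ker_inf, H_ker, Fintype.sum_prod_type, pair_pre]
  have h := submod_fin (fun i j k => μ.real (a ⁻¹' {i} ∩ (b ⁻¹' {j} ∩ c ⁻¹' {k})))
    (fun _ _ _ => measureReal_nonneg)
  have e1 : ∀ j k, ∑ i, μ.real (a ⁻¹' {i} ∩ (b ⁻¹' {j} ∩ c ⁻¹' {k})) =
      μ.real (b ⁻¹' {j} ∩ c ⁻¹' {k}) := fun j k =>
    (real_decomp μ a ma ((mb j).inter (mc k))).symm
  have e2 : ∀ i k, ∑ j, μ.real (a ⁻¹' {i} ∩ (b ⁻¹' {j} ∩ c ⁻¹' {k})) =
      μ.real (a ⁻¹' {i} ∩ c ⁻¹' {k}) := fun i k => by
    rw [real_decomp μ b mb ((ma i).inter (mc k))]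
    refine Finset.sum_congr rfl fun j _ => ?_
    rw [Set.inter_left_comm]
  have e3 : ∀ k, ∑ i, μ.real (a ⁻¹' {i} ∩ c ⁻¹' {k}) = μ.real (c ⁻¹' {k}) := fun k =>
    (real_decomp μ a ma (mc k)).symm
  simp only [e1, e2, e3] at h
  simp only [Set.inter_assoc]
  rw [Finset.sum_comm (f := fun i k => negMulLog (μ.real (a ⁻¹' {i} ∩ c ⁻¹' {k}))),
    Finset.sum_comm (f := fun j k => negMulLog (μ.real (b ⁻¹' {j} ∩ c ⁻¹' {k})))]
  refine le_trans (le_of_eq ?_) h
  congr 1
  rw [Finset.sum_comm (γ := Quotient γ)]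
  refine Finset.sum_congr rfl fun i _ => Finset.sum_comm

end basic

end FInv
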