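import Pool.Agent.H37Z.FInvLevy

set_option autoImplicit false
set_option linter.unusedSectionVars false

namespace FInv

open MeasureTheory Filter Topology Real Setoid FInvAlg

/-- finite measurable partitions, ordered by refinement -/
@[ext] structure FP (X : Type*) [MeasurableSpace X] where
  s : Setoid X
  good : IsFinPartition s

section lattice

variable {X : Type*} [MeasurableSpace X]

instance : SemilatticeSup (FP X) where
  le a b := b.s ≤ a.s
  le_refl _ := le_rfl
  le_trans _ _ _ h1 h2 := le_trans h2 h1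
  le_antisymm _ _ h1 h2 := FP.ext (le_antisymm h2 h1)
  sup a b := ⟨a.s ⊓ b.s, a.good.inf b.good⟩
  le_sup_left _ _ := inf_le_left
  le_sup_right _ _ := inf_le_right
  sup_le _ _ _ h1 h2 := le_inf h1 h2

theorem FP.le_def {a b : FP X} : a ≤ b ↔ b.s ≤ a.s := Iff.rfl

@[simp] theorem FP.sup_s (a b : FP X) : (a ⊔ b).s = a.s ⊓ b.s := rfl

instance : OrderBot (FP X) where
  bot := ⟨⊤, good_top⟩
  bot_le a := (le_top : a.s ≤ ⊤)

@[simp] theorem FP.bot_s : (⊥ : FP X).s = ⊤ := rfl

theorem FP.finset_sup_s {ι : Type*} (T : Finset ι) (a : ι → FP X) :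
    (T.sup a).s = ⨅ i ∈ T, (a i).s := by
  classical
  induction T using Finset.induction_on with
  | empty => simp
  | insert t T _ ih => rw [Finset.sup_insert, FP.sup_s, ih, Finset.iInf_insert]

/-- pull-back of partitions -/
def FP.comap {Z : Type*} [MeasurableSpace Z] (φ : Z → X) (hφ : Measurable φ) (a : FP X) : FP Z :=
  ⟨a.s.comap φ, a.good.comap hφ⟩

/-- entropy on `FP` -/
noncomputable def HH (μ : Measure X) (a : FP X) : ℝ := H μ a.s

variable {r : ℕ} [MulAction (FG r) X] [MeasurableConstSMul (FG r) X]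

instance : MulAction (FG r) (FP X) where
  smul g a := ⟨translate r g a.s, a.good.comap (measurable_const_smul g⁻¹)⟩
  one_smul a := FP.ext (by
    ext x y
    change a.s ((1 : FG r)⁻¹ • x) ((1 : FG r)⁻¹ • y) ↔ a.s x y
    simp)
  mul_smul g h a := FP.ext (by
    ext x y
    change a.s ((g * h)⁻¹ • x) ((g * h)⁻¹ • y) ↔ a.s (h⁻¹ • g⁻¹ • x) (h⁻¹ • g⁻¹ • y)
    simp [mul_smul])

@[simp] theorem FP.smul_s (g : FG r) (a : FP X) : (g • a).s = translate r g a.s := rfl

theorem actSup : ActSup r (FP X) := fun _ _ _ => FP.ext rfl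

theorem pw_s (a : FP X) (n : ℕ) : (pw r a n).s = power r a.s n := by
  rw [pw, FP.finset_sup_s, power, iInf_subtype]
  simp only [mem_ball, FP.smul_s]

theorem F_eq (μ : Measure X) (a : FP X) : FInvAlg.F r (HH μ) a = F r μ a.s := rfl

theorem ent (μ : Measure X) [IsFiniteMeasure μ]
    (hμ : ∀ g : FG r, MeasurePreserving (fun x : X => g • x) μ μ) : Ent r (HH μ) where
  sub a b c := H_submod μ a.good b.good c.good
  inv g a := H_comap a.good (hμ g⁻¹)

theorem hasFInv (μ : Measure X) [IsFiniteMeasure μ]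
    (hμ : ∀ g : FG r, MeasurePreserving (fun x : X => g • x) μ μ) (a : FP X) :
    HasFInv r μ a.s (f r (HH μ) a) := by
  have := (ent μ hμ).tendsto_f actSup a
  simp only [F_eq, pw_s] at this
  exact this

variable (r) in
/-- σ-algebra generated by the translates -/
@[reducible] noncomputable def sig (a : FP X) : MeasurableSpace X := ⨆ n, sat (pw r a n).s

variable (r) in
/-- its completion -/
@[reducible] noncomputable def csig (μ : Measure X) (a : FP X) : MeasurableSpace X :=
  eventuallyMeasurableSpace (sig r a) (ae μ)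

variable (r) in
def GenM (μ : Measure X) (a : FP X) : Prop := ∀ s, MeasurableSet s → MeasurableSet[csig r μ a] s

theorem genM_of (μ : Measure X) (a : FP X) (h : IsFinGenerating r μ a.s) : GenM r μ a := by
  intro s hs
  obtain ⟨E', hE', he⟩ := h.2 s hs
  refine ⟨E', ?_, he⟩
  have : MeasurableSpace.generateFrom (⋃ g : FG r, (translate r g a.s).classes) ≤ sig r a := by
    refine MeasurableSpace.generateFrom_le ?_
    intro P hP
    obtain ⟨g, y, rfl⟩ := Set.mem_iUnion.1 hP
    refine (le_iSup (fun n => sat (pw r a n).s) g.norm) _ ?_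
    refine sat_anti (η := translate r g a.s) (le_pw (a := a) le_rfl) _ ?_
    intro x x' hx hx'
    exact (translate r g a.s).trans' ((translate r g a.s).symm' hx) hx'
  exact this _ hE'

theorem pw_anti (a : FP X) : Antitone fun n => (pw r a n).s := fun _ _ h => pw_mono a h

/-- the limit of conditional entropies -/
theorem tendsto_cond' {Z ι : Type*} [MeasurableSpace Z] [Fintype ι] (ν : Measure Z)
    (μ : Measure X) [IsFiniteMeasure ν] [IsFiniteMeasure μ] {u : Z → X}
    (hu : MeasurePreserving u ν μ) (c : FP Z) (f : Z → ι) (hc : c.s = ker f)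
    (hf : ∀ i, MeasurableSet (f ⁻¹' {i})) (p : ι → X → ℝ)
    (hpi : ∀ i, Integrable (p i) μ) (h0 : ∀ i x, 0 ≤ p i x)
    (hp : ∀ i e, MeasurableSet e → ν.real (f ⁻¹' {i} ∩ u ⁻¹' e) = ∫ x in e, p i x ∂μ)
    (a : FP X) (hm : ∀ i, Measurable[csig r μ a] (p i)) :
    Tendsto (fun n => cond (HH ν) c (FP.comap u hu.measurable (pw r a n))) atTop
      (𝓝 (∫ x, ∑ i, negMulLog (p i x) ∂μ)) := by
  have := tendsto_cond ν μ hu f hf p hpi hp (fun n => (pw r a n).s) (fun n => (pw r a n).good)
    (pw_anti a) (fun i => aesm μ (hm i) (h0 i))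
  rw [← hc] at this
  exact this

theorem gen_of (μ : Measure X) [IsFiniteMeasure μ] (a : FP X) (h : GenM r μ a) :
    Gen r (HH μ) a := by
  intro c
  have := c.good.finite
  have := Fintype.ofFinite (Quotient c.s)
  have t := tendsto_cond' (r := r) μ μ (MeasurePreserving.id μ) c Quotient.mk''
    (ker_mk_eq _).symm c.good.meas
    (fun i => ((@Quotient.mk'' _ c.s) ⁻¹' {i}).indicator fun _ => (1 : ℝ))
    (fun i => (integrable_const _).indicator (c.good.meas i))
    (fun i x => Set.indicator_nonneg (fun _ _ => zero_le_one) x) ?_ a ?_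
  · have e : ∀ x, ∑ i, negMulLog (((@Quotient.mk'' _ c.s) ⁻¹' {i}).indicator
        (fun _ => (1 : ℝ)) x) = 0 := by
      intro x
      refine Finset.sum_eq_zero fun i _ => ?_
      by_cases hx : x ∈ (@Quotient.mk'' _ c.s) ⁻¹' {i}
      · simp [Set.indicator_of_mem hx]
      · simp [Set.indicator_of_notMem hx]
    simp only [e, integral_zero] at t
    exact t
  · intro i e he
    rw [setIntegral_indicator (c.good.meas i)]
    simp [Set.inter_comm]
  · intro i
    exact (@measurable_const ℝ X _ (csig r μ a) _).indicator (h _ (c.good.meas i))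

section pull

variable {Z : Type*} [MeasurableSpace Z] [MulAction (FG r) Z] [MeasurableConstSMul (FG r) Z]

theorem pull_comap {φ : Z → X} (hφ : Measurable φ) (he : ∀ (g : FG r) z, φ (g • z) = g • φ z) :
    Pull r (FP.comap φ hφ) where
  sup _ _ := FP.ext rfl
  bot := FP.ext (by ext x y; exact Iff.rfl)
  smul g a := FP.ext (by
    ext x y
    change a.s (g⁻¹ • φ x) (g⁻¹ • φ y) ↔ a.s (φ (g⁻¹ • x)) (φ (g⁻¹ • y))
    rw [he, he])

theorem HH_comap {ν : Measure Z} {μ : Measure X} {φ : Z → X} (hφ : MeasurePreserving φ ν μ)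
    (a : FP X) : HH ν (FP.comap φ hφ.measurable a) = HH μ a := H_comap a.good hφ

theorem meas_sig {φ : Z → X} (hφ : Measurable φ) (he : ∀ (g : FG r) z, φ (g • z) = g • φ z)
    (a : FP X) (d : FP Z) (hd : FP.comap φ hφ a ≤ d) : Measurable[sig r d, sig r a] φ := by
  rw [measurable_iff_comap_le, MeasurableSpace.comap_iSup]
  refine iSup_mono fun n => ?_
  rintro _ ⟨s, hs, rfl⟩ x y hxy hx
  have h1 : FP.comap φ hφ (pw r a n) ≤ pw r d n := by
    rw [(pull_comap hφ he).pw]
    exact pw_mono_left actSup hd n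
  exact hs (φ x) (φ y) (h1 hxy) hx

theorem meas_csig {ν : Measure Z} {μ : Measure X} {φ : Z → X} (hφ : MeasurePreserving φ ν μ)
    (he : ∀ (g : FG r) z, φ (g • z) = g • φ z) (a : FP X) (ha : GenM r μ a) (d : FP Z)
    (hd : FP.comap φ hφ.measurable a ≤ d) : Measurable[csig r ν d] φ := by
  intro s hs
  obtain ⟨t, ht, hst⟩ := ha s hs
  exact ⟨φ ⁻¹' t, meas_sig hφ.measurable he a d hd ht,
    hφ.quasiMeasurePreserving.preimage_ae_eq hst⟩

end pull

end lattice

end FInv
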