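import Pool.Agent.H37Z.FInvEnt

set_option autoImplicit false
set_option linter.unusedSectionVars false

namespace FInv

open MeasureTheory Filter Topology Real Setoid

section sat

variable {X : Type*}

/-- the σ-algebra of saturated sets -/
@[reducible] def sat (η : Setoid X) : MeasurableSpace X where
  MeasurableSet' s := ∀ x y, η x y → x ∈ s → y ∈ s
  measurableSet_empty := fun _ _ _ h => h
  measurableSet_compl := fun _ hs x y hxy hx hy => hx (hs y x (η.symm' hxy) hy)
  measurableSet_iUnion := fun _ hf x y hxy hx => by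
    obtain ⟨i, hi⟩ := Set.mem_iUnion.1 hx
    exact Set.mem_iUnion.2 ⟨i, hf i x y hxy hi⟩

theorem sat_iff {η : Setoid X} {s : Set X} :
    MeasurableSet[sat η] s ↔ ∀ x y, η x y → x ∈ s → y ∈ s := Iff.rfl

theorem sat_anti {η η' : Setoid X} (h : η' ≤ η) : sat η ≤ sat η' :=
  fun _ hs x y hxy hx => hs x y (h hxy) hx

theorem sat_le [m : MeasurableSpace X] {η : Setoid X} (h : IsFinPartition η) : sat η ≤ m := by
  intro s hs
  have := h.finite
  have e : s = ⋃ q ∈ (@Quotient.mk'' _ η) '' s, (@Quotient.mk'' _ η) ⁻¹' {q} := by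
    ext x
    simp only [Set.mem_iUnion, Set.mem_preimage, Set.mem_singleton_iff, exists_prop,
      exists_eq_right']
    constructor
    · exact fun hx => ⟨x, hx, rfl⟩
    · rintro ⟨y, hy, hxy⟩
      exact hs y x (Quotient.exact' hxy) hy
  rw [e]
  exact (Set.toFinite _).measurableSet_biUnion fun q _ => h.meas q

theorem meas_sat {κ : Type*} (g : X → κ) (G : κ → ℝ) :
    Measurable[sat (ker g)] fun x => G (g x) := by
  intro s _ x y hxy hx
  have : g x = g y := hxy
  simpa [← this] using hx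

theorem aesm {m m0 : MeasurableSpace X} (μ : Measure X) {p : X → ℝ}
    (hp : Measurable[eventuallyMeasurableSpace m (ae μ)] p) (h0 : ∀ x, 0 ≤ p x) :
    AEStronglyMeasurable[m] p μ := by
  have hq : ∀ q : ℚ, ∃ t : Set X, MeasurableSet[m] t ∧ p ⁻¹' Set.Ioi (q : ℝ) =ᵐ[μ] t :=
    fun q => hp measurableSet_Ioi
  choose t ht hte using hq
  refine ⟨fun x => ⨆ q : ℚ, (t q).indicator (fun _ => max (q : ℝ) 0) x, ?_, ?_⟩
  · refine Measurable.stronglyMeasurable ?_
    exact Measurable.iSup fun q => measurable_const.indicator (ht q)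
  · have hall : ∀ᵐ x ∂μ, ∀ q : ℚ, x ∈ p ⁻¹' Set.Ioi (q : ℝ) ↔ x ∈ t q :=
      ae_all_iff.2 fun q => (hte q).mono fun x hx => by
        change (p ⁻¹' Set.Ioi (q : ℝ)) x ↔ (t q) x
        rw [hx]
    filter_upwards [hall] with x hx
    have hb : ∀ q : ℚ, (t q).indicator (fun _ => max (q : ℝ) 0) x ≤ p x := by
      intro q
      by_cases hq : x ∈ t q
      · rw [Set.indicator_of_mem hq]
        exact max_le (le_of_lt ((hx q).2 hq)) (h0 x)
      · rw [Set.indicator_of_notMem hq]; exact h0 x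
    refine le_antisymm ?_ (ciSup_le hb)
    refine le_of_forall_lt fun c hc => ?_
    obtain ⟨q, hq1, hq2⟩ := exists_rat_btwn hc
    refine lt_of_lt_of_le ?_ (le_ciSup ⟨p x, by rintro _ ⟨q, rfl⟩; exact hb q⟩ q)
    rw [Set.indicator_of_mem ((hx q).1 hq2)]
    exact hq1.trans_le (le_max_left _ _)

end sat

section levy

variable {X Z : Type*} [MeasurableSpace X] [MeasurableSpace Z]

theorem integral_factor {κ : Type*} [Fintype κ] (μ : Measure X) [IsFiniteMeasure μ] (g : X → κ)
    (hg : ∀ k, MeasurableSet (g ⁻¹' {k})) (G : κ → ℝ) :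
    Integrable (fun x => G (g x)) μ ∧ ∀ s, MeasurableSet s →
      ∫ x in s, G (g x) ∂μ = ∑ k, μ.real (g ⁻¹' {k} ∩ s) * G k := by
  have hm : Measurable fun x => G (g x) := (meas_sat g G).mono (sat_le (good_ker g hg)) le_rfl
  have hi : Integrable (fun x => G (g x)) μ := by
    refine Integrable.of_bound hm.aestronglyMeasurable (∑ k, ‖G k‖)
      (Eventually.of_forall fun x => ?_)
    exact Finset.single_le_sum (f := fun k => ‖G k‖) (fun _ _ => norm_nonneg _)
      (Finset.mem_univ (g x))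
  refine ⟨hi, fun s hs => ?_⟩
  rw [integral_decomp μ g hg hs hi]
  refine Finset.sum_congr rfl fun k _ => ?_
  rw [setIntegral_congr_fun ((hg k).inter hs) (g := fun _ => G k)]
  · simp
  · intro x hx
    have : g x = k := hx.1
    simp [this]

/-- cell average -/
noncomputable def avg {κ : Type*} (μ : Measure X) (g : X → κ) (p : X → ℝ) (k : κ) : ℝ :=
  (∫ y in g ⁻¹' {k}, p y ∂μ) / μ.real (g ⁻¹' {k})

theorem mul_avg {κ : Type*} (μ : Measure X) [IsFiniteMeasure μ] (g : X → κ) (p : X → ℝ) (k : κ) :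
    μ.real (g ⁻¹' {k}) * avg μ g p k = ∫ y in g ⁻¹' {k}, p y ∂μ := by
  unfold avg
  by_cases h : μ.real (g ⁻¹' {k}) = 0
  · rw [h, zero_mul, setIntegral_measure_zero]
    exact (measureReal_eq_zero_iff (measure_ne_top _ _)).1 h
  · field_simp

theorem avg_eq_condExp {κ : Type*} [Fintype κ] (μ : Measure X) [IsFiniteMeasure μ] (g : X → κ)
    (hg : ∀ k, MeasurableSet (g ⁻¹' {k})) {p : X → ℝ} (hp : Integrable p μ) :
    (fun x => avg μ g p (g x)) =ᵐ[μ] μ[p | sat (ker g)] := by
  have hle := sat_le (good_ker g hg)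
  obtain ⟨hi, hint⟩ := integral_factor μ g hg (avg μ g p)
  refine ae_eq_condExp_of_forall_setIntegral_eq hle hp (fun s _ _ => hi.integrableOn) ?_
    (meas_sat g _).stronglyMeasurable.aestronglyMeasurable
  intro s hs _
  rw [hint s (hle s hs), integral_decomp μ g hg (hle s hs) hp]
  refine Finset.sum_congr rfl fun k _ => ?_
  by_cases hk : (g ⁻¹' {k} ∩ s).Nonempty
  · obtain ⟨x, hx1, hx2⟩ := hk
    have : g ⁻¹' {k} ∩ s = g ⁻¹' {k} := by
      refine Set.inter_eq_left.2 fun y hy => hs x y ?_ hx2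
      exact (show g x = k from hx1).trans (show g y = k from hy).symm
    rw [this, mul_avg]
  · rw [Set.not_nonempty_iff_eq_empty.1 hk]; simp

theorem cond_formula {ι κ : Type*} [Fintype ι] [Fintype κ] (ν : Measure Z) (μ : Measure X)
    [IsFiniteMeasure ν] [IsFiniteMeasure μ] {u : Z → X} (hu : MeasurePreserving u ν μ)
    (f : Z → ι) (hf : ∀ i, MeasurableSet (f ⁻¹' {i})) (p : ι → X → ℝ)
    (g : X → κ) (hg : ∀ k, MeasurableSet (g ⁻¹' {k}))
    (hp : ∀ i k, ν.real (f ⁻¹' {i} ∩ u ⁻¹' (g ⁻¹' {k})) = ∫ x in g ⁻¹' {k}, p i x ∂μ) :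
    H ν (ker f ⊓ (ker g).comap u) - H ν ((ker g).comap u) =
      ∫ x, ∑ i, negMulLog (avg μ g (p i) (g x)) ∂μ := by
  have h1 := (integral_factor μ g hg fun k => ∑ i, negMulLog (avg μ g (p i) k)).2 Set.univ
    MeasurableSet.univ
  rw [setIntegral_univ] at h1
  rw [h1, comap_ker, ker_inf, H_ker, H_ker, Fintype.sum_prod_type, Finset.sum_comm,
    ← Finset.sum_sub_distrib]
  refine Finset.sum_congr rfl fun k _ => ?_
  simp only [pair_pre, Set.inter_univ, Set.preimage_comp]
  have e1 : ν.real (u ⁻¹' (g ⁻¹' {k})) = μ.real (g ⁻¹' {k}) :=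
    hu.measureReal_preimage (hg k).nullMeasurableSet
  have e2 : ∑ i, μ.real (g ⁻¹' {k}) * avg μ g (p i) k = μ.real (g ⁻¹' {k}) := by
    simp only [mul_avg, ← hp]
    rw [← real_decomp ν f hf (hu.measurable (hg k)), e1]
  simp only [hp, ← mul_avg, negMulLog_mul, e1, Finset.sum_add_distrib, ← Finset.sum_mul,
    ← Finset.mul_sum]
  by_cases h : μ.real (g ⁻¹' {k}) = 0
  · simp [h]
  · have : ∑ i, avg μ g (p i) k = 1 := by
      rw [← Finset.mul_sum] at e2
      exact mul_left_cancel₀ h (by rw [e2, mul_one])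
    rw [this]; ring

theorem tendsto_cond {ι : Type*} [Fintype ι] (ν : Measure Z) (μ : Measure X)
    [IsFiniteMeasure ν] [IsFiniteMeasure μ] {u : Z → X} (hu : MeasurePreserving u ν μ)
    (f : Z → ι) (hf : ∀ i, MeasurableSet (f ⁻¹' {i})) (p : ι → X → ℝ)
    (hpi : ∀ i, Integrable (p i) μ)
    (hp : ∀ i e, MeasurableSet e → ν.real (f ⁻¹' {i} ∩ u ⁻¹' e) = ∫ x in e, p i x ∂μ)
    (η : ℕ → Setoid X) (hη : ∀ n, IsFinPartition (η n)) (hanti : Antitone η)
    (hm : ∀ i, AEStronglyMeasurable[⨆ n, sat (η n)] (p i) μ) :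
    Tendsto (fun n => H ν (ker f ⊓ (η n).comap u) - H ν ((η n).comap u)) atTop
      (𝓝 (∫ x, ∑ i, negMulLog (p i x) ∂μ)) := by
  let g : ∀ n, X → Quotient (η n) := fun n => Quotient.mk''
  have hg : ∀ n k, MeasurableSet (g n ⁻¹' {k}) := fun n => (hη n).meas
  have hk : ∀ n, ker (g n) = η n := fun n => ker_mk_eq _
  have hform : ∀ n, H ν (ker f ⊓ (η n).comap u) - H ν ((η n).comap u) =
      ∫ x, ∑ i, negMulLog (avg μ (g n) (p i) (g n x)) ∂μ := by
    intro n
    have := (hη n).finite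
    have := Fintype.ofFinite (Quotient (η n))
    rw [← cond_formula ν μ hu f hf p (g n) (hg n) (fun i k => hp i _ (hg n k)), hk]
  simp only [hform]
  let ℱ : Filtration ℕ ‹MeasurableSpace X› :=
    ⟨fun n => sat (η n), fun _ _ h => sat_anti (hanti h), fun n => sat_le (hη n)⟩
  refine tendsto_integral_of_dominated_convergence (fun _ => (Fintype.card ι : ℝ)) ?_
    (integrable_const _) ?_ ?_
  · intro n
    have := (hη n).finite
    have := Fintype.ofFinite (Quotient (η n))
    exact (integral_factor μ (g n) (hg n)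
      fun k => ∑ i, negMulLog (avg μ (g n) (p i) k)).1.aestronglyMeasurable
  · intro n
    refine Eventually.of_forall fun x => ?_
    refine (norm_sum_le _ _).trans ?_
    have : ∀ i, ‖negMulLog (avg μ (g n) (p i) (g n x))‖ ≤ 1 := by
      intro i
      have e1 : ν.real (u ⁻¹' (g n ⁻¹' {g n x})) = μ.real (g n ⁻¹' {g n x}) :=
        hu.measureReal_preimage (hg n _).nullMeasurableSet
      have a0 : 0 ≤ avg μ (g n) (p i) (g n x) := by
        unfold avg
        rw [← hp i _ (hg n _)]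
        exact div_nonneg measureReal_nonneg measureReal_nonneg
      have a1 : avg μ (g n) (p i) (g n x) ≤ 1 := by
        unfold avg
        rw [← hp i _ (hg n _), ← e1]
        exact div_le_one_of_le₀ (measureReal_mono Set.inter_subset_right) measureReal_nonneg
      rw [Real.norm_eq_abs, abs_of_nonneg (negMulLog_nonneg a0 a1)]
      have := negMulLog_le_one_sub_self a0
      linarith
    refine (Finset.sum_le_sum fun i _ => this i).trans ?_
    simp
  · have h1 : ∀ᵐ x ∂μ, ∀ i, Tendsto (fun n => (μ[p i | ℱ n]) x) atTop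
        (𝓝 ((μ[p i | ⨆ n, ℱ n]) x)) := ae_all_iff.2 fun i => tendsto_ae_condExp (p i)
    have h2 : ∀ᵐ x ∂μ, ∀ i, (μ[p i | ⨆ n, ℱ n]) x = p i x := ae_all_iff.2 fun i =>
      condExp_of_aestronglyMeasurable' (iSup_le fun n => ℱ.le n) (hm i) (hpi i)
    have h3 : ∀ᵐ x ∂μ, ∀ i n, avg μ (g n) (p i) (g n x) = (μ[p i | ℱ n]) x :=
      ae_all_iff.2 fun i => ae_all_iff.2 fun n => by
        have := (hη n).finite
        have := Fintype.ofFinite (Quotient (η n))
        have h := avg_eq_condExp μ (g n) (hg n) (hpi i)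
        rw [hk] at h
        exact h
    filter_upwards [h1, h2, h3] with x h1 h2 h3
    refine tendsto_finsetSum _ fun i _ => (continuous_negMulLog.tendsto _).comp ?_
    simp only [h3]
    rw [← h2 i]
    exact h1 i

end levy

end FInv
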