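import Pool.Agent.H37Z.FInvFP

set_option autoImplicit false
set_option linter.unusedSectionVars false

namespace FInv

open MeasureTheory Filter Topology Real Setoid FInvAlg

section prod

variable {X N : Type*} [MeasurableSpace X] [MeasurableSpace N]

instance prodSMul {r : ℕ} [MulAction (FG r) X] [MeasurableConstSMul (FG r) X]
    [MulAction (FG r) N] [MeasurableConstSMul (FG r) N] : MeasurableConstSMul (FG r) (X × N) where
  measurable_const_smul g :=
    ((measurable_const_smul g).comp measurable_fst).prodMk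
      ((measurable_const_smul g).comp measurable_snd)

theorem fiber_formula (μ : Measure X) (m : Measure N) [IsFiniteMeasure μ] [IsProbabilityMeasure m]
    {S : Set (X × N)} (hS : MeasurableSet S) :
    Measurable (fun x => m.real (Prod.mk x ⁻¹' S)) ∧
    Integrable (fun x => m.real (Prod.mk x ⁻¹' S)) μ ∧ ∀ e, MeasurableSet e →
      (μ.prod m).real (S ∩ Prod.fst ⁻¹' e) = ∫ x in e, m.real (Prod.mk x ⁻¹' S) ∂μ := by
  have h1 : Measurable fun x => m (Prod.mk x ⁻¹' S) := measurable_measure_prodMk_left hS
  have h2 : Measurable (fun x => m.real (Prod.mk x ⁻¹' S)) := h1.ennreal_toReal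
  refine ⟨h2, Integrable.of_bound h2.aestronglyMeasurable 1 (Eventually.of_forall fun x => ?_),
    fun e he => ?_⟩
  · rw [Real.norm_eq_abs, abs_of_nonneg measureReal_nonneg]
    exact measureReal_le_one
  · simp only [measureReal_def]
    rw [integral_toReal h1.aemeasurable (Eventually.of_forall fun x => measure_lt_top _ _),
      Measure.prod_apply (hS.inter (measurable_fst he)), ← lintegral_indicator he]
    congr 1
    refine lintegral_congr fun x => ?_
    by_cases hx : x ∈ e
    · rw [Set.indicator_of_mem hx]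
      congr 1
      ext n; simp [hx]
    · rw [Set.indicator_of_notMem hx]
      have : Prod.mk x ⁻¹' (S ∩ Prod.fst ⁻¹' e) = ∅ := by ext n; simp [hx]
      rw [this, measure_empty]

end prod

section main

variable {r : ℕ} {X Y N : Type*}
  [CommGroup X] [TopologicalSpace X] [IsTopologicalGroup X] [CompactSpace X] [T2Space X]
  [SecondCountableTopology X] [MeasurableSpace X] [BorelSpace X]
  [CommGroup Y] [TopologicalSpace Y] [T2Space Y]
  [SecondCountableTopology Y] [MeasurableSpace Y] [BorelSpace Y]
  [CommGroup N] [TopologicalSpace N] [IsTopologicalGroup N] [CompactSpace N] [T2Space N]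
  [SecondCountableTopology N] [MeasurableSpace N] [BorelSpace N]
  [MulAction (FG r) X] [MeasurableConstSMul (FG r) X]
  [MulAction (FG r) Y] [MeasurableConstSMul (FG r) Y]
  [MulAction (FG r) N] [MeasurableConstSMul (FG r) N]

theorem addition (μ : Measure X) (ν : Measure Y) (m : Measure N)
    [IsProbabilityMeasure μ] [IsProbabilityMeasure ν] [IsProbabilityMeasure m]
    [μ.IsMulRightInvariant] [m.IsMulLeftInvariant]
    (hX : ∀ g : FG r, MeasurePreserving (fun x : X => g • x) μ μ)
    (hN : ∀ g : FG r, MeasurePreserving (fun x : N => g • x) m m)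
    (hmul : ∀ (g : FG r) (x y : X), g • (x * y) = g • x * g • y)
    (ϖ : X →* Y) (hϖ : MeasurePreserving ϖ μ ν) (hϖs : Function.Surjective ϖ)
    (hϖe : ∀ (g : FG r) x, ϖ (g • x) = g • ϖ x)
    (ι : N →* X) (hι : Continuous ι) (hιi : Function.Injective ι)
    (hιe : ∀ (g : FG r) n, ι (g • n) = g • ι n)
    (hex : ∀ x, ϖ x = 1 ↔ x ∈ Set.range ι)
    (α : FP X) (β : FP Y) (P : FP N) (hα : GenM r μ α) (hβ : GenM r ν β) (hP : GenM r m P) :
    f r (HH μ) α = f r (HH ν) β + f r (HH m) P := by
  have hZ : ∀ g : FG r, MeasurePreserving (fun z : X × N => g • z) (μ.prod m) (μ.prod m) :=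
    fun g => (hX g).prod (hN g)
  have eX := ent μ hX
  have eZ := ent (μ.prod m) hZ
  have h1 : MeasurePreserving (Prod.fst : X × N → X) (μ.prod m) μ := measurePreserving_fst
  have hq : MeasurePreserving (Prod.snd : X × N → N) (μ.prod m) m := measurePreserving_snd
  let x2 : X × N → X := fun z => z.1 * ι z.2
  have hx2m : Measurable x2 := measurable_fst.mul (hι.measurable.comp measurable_snd)
  have h2 : MeasurePreserving x2 (μ.prod m) μ := by
    refine ⟨hx2m, ?_⟩
    ext s hs
    rw [Measure.map_apply hx2m hs, Measure.prod_apply_symm (hx2m hs)]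
    have : ∀ n : N, μ ((fun x => (x, n)) ⁻¹' (x2 ⁻¹' s)) = μ s := fun n =>
      measure_preimage_mul_right μ (ι n) s
    simp [this]
  have e1 : ∀ (g : FG r) (z : X × N), (g • z).1 = g • z.1 := fun _ _ => rfl
  have eq : ∀ (g : FG r) (z : X × N), (g • z).2 = g • z.2 := fun _ _ => rfl
  have e2 : ∀ (g : FG r) (z : X × N), x2 (g • z) = g • x2 z := fun g z => by
    change g • z.1 * ι (g • z.2) = g • (z.1 * ι z.2)
    rw [hmul, hιe]
  let β' : FP X := FP.comap ϖ hϖ.measurable β
  let ξ : FP X := α ⊔ β'
  let ξ1 : FP (X × N) := FP.comap Prod.fst h1.measurable ξ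
  have hξ : GenM r μ ξ := fun s hs =>
    meas_csig (MeasurePreserving.id μ) (fun _ _ => rfl) α hα ξ le_sup_left hs
  have p1 := pull_comap (r := r) h1.measurable e1
  have pq := pull_comap (r := r) hq.measurable eq
  have p2 := pull_comap (r := r) h2.measurable e2
  have pϖ := pull_comap (r := r) hϖ.measurable hϖe
  -- the relative entropy of partitions of the fibre
  have r1 : ∀ c : FP N, rel r (HH (μ.prod m)) ξ1 (FP.comap Prod.snd hq.measurable c) = HH m c := by
    intro c
    have := c.good.finite
    have := Fintype.ofFinite (Quotient c.s)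
    have ff := fun i => fiber_formula μ m (measurable_snd (c.good.meas i))
    have t := tendsto_cond' (r := r) (μ.prod m) μ h1 (FP.comap Prod.snd hq.measurable c)
      ((@Quotient.mk'' _ c.s) ∘ Prod.snd) (by
        change c.s.comap _ = _
        rw [← comap_ker, ker_mk_eq]) (fun i => measurable_snd (c.good.meas i))
      (fun i _ => m.real ((@Quotient.mk'' _ c.s) ⁻¹' {i})) (fun i => integrable_const _)
      (fun _ _ => measureReal_nonneg) (fun i => (ff i).2.2) ξ
      (fun i => @measurable_const ℝ X _ (csig r μ ξ) _)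
    simp only [p1.pw] at t
    rw [tendsto_nhds_unique (eZ.tendsto_rel ξ1 _) t, HH]
    conv_rhs => rw [← ker_mk_eq c.s, H_ker]
    simp
  -- the relative entropy of partitions of the second coordinate
  have r2 : ∀ c : FP X, rel r (HH (μ.prod m)) ξ1 (FP.comap x2 h2.measurable c) =
      rel r (HH μ) β' c := by
    intro c
    have := c.good.finite
    have := Fintype.ofFinite (Quotient c.s)
    have ff := fun i => fiber_formula μ m (hx2m (c.good.meas i))
    let p : Quotient c.s → X → ℝ := fun i x =>
      m.real (Prod.mk x ⁻¹' (x2 ⁻¹' ((@Quotient.mk'' _ c.s) ⁻¹' {i})))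
    have t := fun a => tendsto_cond' (r := r) (μ.prod m) μ h1 (FP.comap x2 h2.measurable c)
      ((@Quotient.mk'' _ c.s) ∘ x2) (by
        change c.s.comap _ = _
        rw [← comap_ker, ker_mk_eq]) (fun i => hx2m (c.good.meas i))
      p (fun i => (ff i).2.1) (fun _ _ => measureReal_nonneg) (fun i => (ff i).2.2) a
    have t1 := t ξ (fun i s hs => hξ _ ((ff i).1 hs))
    simp only [p1.pw] at t1
    have pinv : ∀ i x n, p i (x * ι n) = p i x := by
      intro i x n
      simp only [p, measureReal_def]
      rw [← measure_preimage_mul m n (Prod.mk x ⁻¹' _)]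
      congr 2
      ext k
      simp [x2, mul_assoc]
    have pfac : ∀ i, (p i ∘ Function.surjInv hϖs) ∘ ϖ = p i := by
      intro i
      funext x
      obtain ⟨n, hn⟩ := (hex (x⁻¹ * Function.surjInv hϖs (ϖ x))).1 (by
        rw [map_mul, map_inv, Function.surjInv_eq hϖs, inv_mul_cancel])
      have : Function.surjInv hϖs (ϖ x) = x * ι n := by rw [hn]; simp
      simp only [Function.comp_apply]
      rw [this, pinv]
    have : PolishSpace X := by
      let := TopologicalSpace.metrizableSpaceMetric X
      infer_instance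
    have pm : ∀ i, Measurable (p i ∘ Function.surjInv hϖs) := fun i =>
      (hϖ.measurable.measurable_comp_iff_of_surjective hϖs).1 (by rw [pfac]; exact (ff i).1)
    have t2 := t β' (fun i => by
      rw [← pfac i]
      exact (pm i).comp (meas_csig hϖ hϖe β hβ β' le_rfl))
    have e3 : ∀ n, cond (HH (μ.prod m)) (FP.comap x2 h2.measurable c)
        (FP.comap Prod.fst h1.measurable (pw r β' n)) = cond (HH μ) c (pw r β' n) := by
      intro n
      have : FP.comap Prod.fst h1.measurable (pw r β' n) =
          FP.comap x2 h2.measurable (pw r β' n) := by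
        rw [← pϖ.pw]
        refine FP.ext ?_
        ext z w
        have hh : ∀ z : X × N, ϖ (x2 z) = ϖ z.1 := fun z => by
          simp [x2, (hex (ι z.2)).2 ⟨_, rfl⟩]
        change (pw r β n).s (ϖ z.1) (ϖ w.1) ↔ (pw r β n).s (ϖ (x2 z)) (ϖ (x2 w))
        rw [hh, hh]
      rw [this, FInvAlg.cond, FInvAlg.cond, ← p2.sup, HH_comap h2, HH_comap h2]
    simp only [e3] at t2
    rw [tendsto_nhds_unique (eZ.tendsto_rel ξ1 _) t1, tendsto_nhds_unique (eX.tendsto_rel β' _) t2]
  -- generation
  have g1 : GenM r (μ.prod m) (FP.comap Prod.snd hq.measurable P ⊔ ξ1) := by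
    intro s hs
    have m1 := meas_csig h1 e1 ξ hξ _ (le_sup_right (a := FP.comap Prod.snd hq.measurable P))
    have m2 := meas_csig hq eq P hP _ (le_sup_left (b := ξ1))
    exact (m1.prodMk m2) hs
  have g2 : GenM r (μ.prod m) (FP.comap x2 h2.measurable ξ ⊔ ξ1) := by
    intro s hs
    have m1 := meas_csig h1 e1 ξ hξ _ (le_sup_right (a := FP.comap x2 h2.measurable ξ))
    have m2 := meas_csig h2 e2 ξ hξ _ (le_sup_left (b := ξ1))
    have m3 : Measurable[csig r (μ.prod m) (FP.comap x2 h2.measurable ξ ⊔ ξ1)]
        (Prod.snd : X × N → N) := by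
      have emb : MeasurableEmbedding ι := (hι.isClosedEmbedding hιi).measurableEmbedding
      rw [← emb.measurable_comp_iff]
      have : (ι : N → X) ∘ (Prod.snd : X × N → N) = fun z => (z.1)⁻¹ * x2 z := by
        funext z; simp [x2]
      rw [this]
      exact m1.inv.mul m2
    exact (m1.prodMk m3) hs
  have G1 := eZ.gen_rel actSup (gen_of _ _ g1)
  have G2 := eZ.gen_rel actSup (gen_of _ _ g2)
  have k1 := (eZ.rel_ent actSup ξ1).f_eq actSup G1 G2
  rw [pq.f_eq r1, p2.f_eq r2] at k1
  rw [eX.f_eq actSup (gen_of _ _ hα) (gen_of _ _ hξ), eX.abramov actSup (a := ξ) (b := β')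
    le_sup_right, ← k1, pϖ.f_eq (HH_comap hϖ)]

end main

end FInv
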