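import Mathlib

set_option autoImplicit false
set_option linter.unusedSimpArgs false

namespace Pool.Agent.H37Z.Five

open Matrix

universe u

/-- product of two involutions -/
def I2 {S : Type u} [Ring S] (x : S) : Prop := ∃ j k : S, j * j = 1 ∧ k * k = 1 ∧ x = j * k

/-- product of four involutions -/
def I4 {S : Type u} [Ring S] (x : S) : Prop := ∃ y z : S, I2 y ∧ I2 z ∧ x = y * z

theorem I2.conj {S : Type u} [Ring S] {x u v : S} (h : I2 x) (huv : u * v = 1) (hvu : v * u = 1) :
    I2 (u * x * v) := by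
  obtain ⟨j, k, hj, hk, rfl⟩ := h
  have e : ∀ y, v * (u * y) = y := fun y => by rw [← mul_assoc, hvu, one_mul]
  refine ⟨u * j * v, u * k * v, ?_, ?_, ?_⟩
  · simp only [mul_assoc, e]
    rw [← mul_assoc j j, hj, one_mul, huv]
  · simp only [mul_assoc, e]
    rw [← mul_assoc k k, hk, one_mul, huv]
  · simp only [mul_assoc, e]

theorem I2.of_sq {S : Type u} [Ring S] {x j : S} (hj : j * j = 1) (h : j * x * (j * x) = 1) :
    I2 x :=
  ⟨j, j * x, hj, h, by rw [← mul_assoc, hj, one_mul]⟩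

theorem two_by_two {A : Type u} [CommRing A] (μ h a1 a1i a2 b1 b1i b2 r r' : A)
    (hh : 2 * μ * h = 1) (ha1 : a1 * a1i = 1) (hb1 : b1 * b1i = 1)
    (hprod : a1 * a2 * b1 * b2 = -μ ^ 2) (hr : (a1 - a2) * r = 1) (hr' : (b2 - b1) * r' = 1) :
    ∃ U Ui U' U'i : Matrix (Fin 2) (Fin 2) A, U * Ui = 1 ∧ Ui * U = 1 ∧ U' * U'i = 1 ∧
      U'i * U' = 1 ∧
      diagonal ![μ, -μ] = U * diagonal ![a1, a2] * Ui * (U' * diagonal ![b1, b2] * U'i) := by
  set α := a1 * b1 with hα
  set l := (μ ^ 2 - α ^ 2) * b1i with hl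
  let E : Matrix (Fin 2) (Fin 2) A := !![1, 1; μ - α, -μ - α]
  let Ei : Matrix (Fin 2) (Fin 2) A := !![h * (μ + α), h; h * (μ - α), -h]
  let F : Matrix (Fin 2) (Fin 2) A := !![1, 0; l * r, 1]
  let Fi : Matrix (Fin 2) (Fin 2) A := !![1, 0; -(l * r), 1]
  let G : Matrix (Fin 2) (Fin 2) A := !![1, a1i * r'; 0, 1]
  let Gi : Matrix (Fin 2) (Fin 2) A := !![1, -(a1i * r'); 0, 1]
  have e1 : E * Ei = 1 := by
    ext i j
    fin_cases i <;> fin_cases j <;> simp [E, Ei, Matrix.mul_apply, Fin.sum_univ_two]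
    · linear_combination hh
    · ring
    · linear_combination hh
  have e2 : Ei * E = 1 := mul_eq_one_comm.1 e1
  have f1 : F * Fi = 1 := by
    ext i j
    fin_cases i <;> fin_cases j <;> simp [F, Fi, Matrix.mul_apply, Fin.sum_univ_two]
  have f2 : Fi * F = 1 := mul_eq_one_comm.1 f1
  have g1 : G * Gi = 1 := by
    ext i j
    fin_cases i <;> fin_cases j <;> simp [G, Gi, Matrix.mul_apply, Fin.sum_univ_two]
  have g2 : Gi * G = 1 := mul_eq_one_comm.1 g1
  have hd : ∀ x y : A, diagonal ![x, y] = !![x, 0; 0, y] := by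
    intro x y
    ext i j
    fin_cases i <;> fin_cases j <;> simp
  have hL : F * diagonal ![a1, a2] * Fi = !![a1, 0; l, a2] := by
    rw [hd]
    ext i j
    fin_cases i <;> fin_cases j <;> simp [F, Fi, Matrix.mul_apply, Fin.sum_univ_two]
    linear_combination l * hr
  have hU : G * diagonal ![b1, b2] * Gi = !![b1, a1i; 0, b2] := by
    rw [hd]
    ext i j
    fin_cases i <;> fin_cases j <;> simp [G, Gi, Matrix.mul_apply, Fin.sum_univ_two]
    linear_combination a1i * hr'
  have hS : (!![a1, 0; l, a2] : Matrix (Fin 2) (Fin 2) A) * !![b1, a1i; 0, b2] * E =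
      E * diagonal ![μ, -μ] := by
    have k1 : l * b1 = μ ^ 2 - α ^ 2 := by
      rw [hl]
      linear_combination (μ ^ 2 - α ^ 2) * hb1
    have k2 : l * a1i + a2 * b2 = -α := by
      rw [hl, hα]
      linear_combination (a1i * b1i) * hprod - (a2 * b2 * b1 * b1i + a1 * b1 * b1 * b1i) * ha1
        - (a2 * b2 + a1 * b1) * hb1
    rw [hd]
    ext i j
    fin_cases i <;> fin_cases j <;> simp [E, Matrix.mul_apply, Fin.sum_univ_two]
    · linear_combination (μ - α) * ha1 - hα
    · linear_combination (-μ - α) * ha1 - hα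
    · linear_combination k1 + (μ - α) * k2
    · linear_combination k1 + (-μ - α) * k2
  refine ⟨Ei * F, Fi * E, Ei * G, Gi * E, ?_, ?_, ?_, ?_, ?_⟩
  · rw [mul_assoc, ← mul_assoc F, f1, one_mul, e2]
  · rw [mul_assoc, ← mul_assoc E, e1, one_mul, f2]
  · rw [mul_assoc, ← mul_assoc G, g1, one_mul, e2]
  · rw [mul_assoc, ← mul_assoc E, e1, one_mul, g2]
  · have : Ei * F * diagonal ![a1, a2] * (Fi * E) * (Ei * G * diagonal ![b1, b2] * (Gi * E)) =
        Ei * ((F * diagonal ![a1, a2] * Fi) * (E * Ei) * (G * diagonal ![b1, b2] * Gi) * E) := by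
      simp only [mul_assoc]
    rw [this, e1, mul_one, hL, hU, hS, ← mul_assoc, e2, one_mul]

variable {R : Type u} [Ring R] [Algebra ℂ R]

theorem core {κ : Type} [Fintype κ] [DecidableEq κ] (s : ℂ) (hs : s ≠ 0) (B : Matrix Unit Unit R)
    (X : Matrix κ Unit R) (D U Ui U' U'i : Matrix κ κ R) (da dai db e : κ → R)
    (hU : U * Ui = 1) (hUi : Ui * U = 1) (hU' : U' * U'i = 1) (hU'i : U'i * U' = 1)
    (hda : ∀ k, da k * dai k = 1) (he : ∀ k, (s • (1 : R) - db k) * e k = 1)
    (hD : D = U * diagonal da * Ui * (U' * diagonal db * U'i))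
    (h1 : I2 (fromBlocks (s⁻¹ • B) 0 0 (diagonal da)))
    (h2 : I2 (fromBlocks (s • (1 : Matrix Unit Unit R)) 0 0 (diagonal db))) :
    I4 (fromBlocks B 0 X D) := by
  set P1 := U * diagonal da * Ui with hP1
  set Q1 := U' * diagonal db * U'i with hQ1
  set X' := U * diagonal dai * Ui * X with hX'
  set Z := U' * diagonal e * U'i * X' with hZ
  have k1 : P1 * X' = X := by
    have : P1 * X' = U * (diagonal da * (Ui * U) * diagonal dai) * Ui * X := by
      simp only [hP1, hX', Matrix.mul_assoc]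
    rw [this, hUi, Matrix.mul_one, diagonal_mul_diagonal]
    simp only [hda, diagonal_one, Matrix.mul_one, hU, Matrix.one_mul]
  have k2 : s • Z - Q1 * Z = X' := by
    have h3 : (s • (1 : Matrix κ κ R) - diagonal db) * diagonal e = 1 := by
      rw [← diagonal_one, ← diagonal_smul, diagonal_sub, diagonal_mul_diagonal]
      congr 1
      funext k
      exact he k
    have h4 : s • Z - Q1 * Z =
        U' * ((s • (1 : Matrix κ κ R) - diagonal db * (U'i * U')) * diagonal e) * U'i * X' := by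
      simp only [hZ, hQ1, Matrix.sub_mul, Matrix.mul_sub, Matrix.mul_assoc, Matrix.smul_mul,
        Matrix.mul_smul, Matrix.one_mul]
    rw [h4, hU'i, Matrix.mul_one, h3, Matrix.mul_one, hU', Matrix.one_mul]
  have c1 := h1.conj (u := fromBlocks 1 0 0 U) (v := fromBlocks 1 0 0 Ui)
    (by simp [fromBlocks_multiply, hU]) (by simp [fromBlocks_multiply, hUi])
  have c2 := (h2.conj (u := fromBlocks 1 0 0 U') (v := fromBlocks 1 0 0 U'i)
    (by simp [fromBlocks_multiply, hU']) (by simp [fromBlocks_multiply, hU'i])).conj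
    (u := fromBlocks 1 0 Z 1) (v := fromBlocks 1 0 (-Z) 1)
    (by simp [fromBlocks_multiply]) (by simp [fromBlocks_multiply])
  refine ⟨_, _, c1, c2, ?_⟩
  simp only [fromBlocks_multiply, Matrix.mul_one, Matrix.one_mul, Matrix.mul_zero, Matrix.zero_mul,
    add_zero, zero_add, Matrix.mul_smul, Matrix.smul_mul, smul_smul, ← hP1, ← hQ1, Matrix.mul_neg,
    smul_zero, neg_zero]
  rw [← sub_eq_add_neg, k2, k1, ← hD, mul_inv_cancel₀ hs, one_smul]

/-- index set of the five coordinates -/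
abbrev Idx := Unit ⊕ (Fin 2 ⊕ Fin 2)

omit [Algebra ℂ R] in
theorem i2_a (V V' W W' p0 p q a ai : R) (h1 : V' * V = 1) (h2 : W' * W = 1) (h3 : V' * W = 0)
    (h4 : W' * V = 0) (h5 : V * V' + W * W' = 1) (hV : V * p0 = p * V) (hW : W * p = p * W)
    (hp : p * q = 1) (hq : q * p = 1) (ha : a * ai = 1) (hai : ai * a = 1) :
    I2 (fromBlocks (Matrix.of fun _ _ : Unit => p0) 0 0
      (diagonal (Sum.elim ![q, a] ![p, ai])) : Matrix Idx Idx R) := by
  have k1 : q * (V * p0) = V := by rw [hV, ← mul_assoc, hq, one_mul]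
  have k2 : q * (W * p) = W := by rw [hW, ← mul_assoc, hq, one_mul]
  have k3 : V * (p0 * (V' * q)) + W * (p * (W' * q)) = 1 := by
    rw [← mul_assoc V, hV, ← mul_assoc W, hW, mul_assoc, mul_assoc, ← mul_add, ← mul_assoc V,
      ← mul_assoc W, ← add_mul, h5, one_mul, hp]
  refine I2.of_sq (j := fromBlocks 0 (Matrix.of fun _ => Sum.elim ![V', 0] ![0, 0])
    (Matrix.of fun k _ => Sum.elim ![V, 0] ![0, 0] k)
    (fromBlocks 0 !![W, 0; 0, 1] !![W', 0; 0, 1] 0)) ?_ ?_
  · ext i j
    rcases i with i | i | i <;> rcases j with j | j | j <;> (try fin_cases i) <;>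
      (try fin_cases j) <;>
      simp [Matrix.mul_apply, Fintype.sum_sum_type, Fin.sum_univ_two, h1, h2, h3, h4, h5]
  · ext i j
    rcases i with i | i | i <;> rcases j with j | j | j <;> (try fin_cases i) <;>
      (try fin_cases j) <;>
      simp [Matrix.mul_apply, Fintype.sum_sum_type, Fin.sum_univ_two, diagonal, mul_assoc, k1, k2,
        k3, h1, h2, h3, h4, ha, hai]

theorem i2_b (V V' W W' p q : R) (s β : ℂ) (h1 : V' * V = 1) (h2 : W' * W = 1) (h3 : V' * W = 0)
    (h4 : W' * V = 0) (h5 : V * V' + W * W' = 1) (hp : p * q = 1) (hq : q * p = 1)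
    (hs : s * β = 1 ∨ (s * s = 1 ∧ β * β = 1)) :
    I2 (fromBlocks (s • (1 : Matrix Unit Unit R)) 0 0
      (diagonal (Sum.elim ![β • (1 : R), p] ![β • (1 : R), q])) : Matrix Idx Idx R) := by
  rcases hs with hs | ⟨hs, hβ⟩
  · have hs' : β * s = 1 := by rw [mul_comm, hs]
    refine I2.of_sq (j := fromBlocks 0 (Matrix.of fun _ => Sum.elim ![V, 0] ![W, 0])
      (Matrix.of fun k _ => Sum.elim ![V', 0] ![W', 0] k)
      (fromBlocks 0 !![0, 0; 0, 1] !![0, 0; 0, 1] 0)) ?_ ?_
    · ext i j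
      rcases i with i | i | i <;> rcases j with j | j | j <;> (try fin_cases i) <;>
        (try fin_cases j) <;>
        simp [Matrix.mul_apply, Fintype.sum_sum_type, Fin.sum_univ_two, h1, h2, h3, h4, h5]
    · ext i j
      rcases i with i | i | i <;> rcases j with j | j | j <;> (try fin_cases i) <;>
        (try fin_cases j) <;>
        simp [Matrix.mul_apply, Fintype.sum_sum_type, Fin.sum_univ_two, diagonal, smul_smul, hs,
          hs', h1, h2, h3, h4, h5, hp, hq]
  · refine I2.of_sq (j := fromBlocks 1 0 0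
      (fromBlocks !![1, 0; 0, 0] !![0, 0; 0, 1] !![0, 0; 0, 1] !![1, 0; 0, 0])) ?_ ?_
    · ext i j
      rcases i with i | i | i <;> rcases j with j | j | j <;> (try fin_cases i) <;>
        (try fin_cases j) <;>
        simp [Matrix.mul_apply, Fintype.sum_sum_type, Fin.sum_univ_two]
    · ext i j
      rcases i with i | i | i <;> rcases j with j | j | j <;> (try fin_cases i) <;>
        (try fin_cases j) <;>
        simp [Matrix.mul_apply, Fintype.sum_sum_type, Fin.sum_univ_two, diagonal, smul_smul, hs,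
          hβ, hp, hq]

omit [Algebra ℂ R] in
/-- transfer from matrices to the ring along a complete system of matrix units -/
theorem I4.transfer {ι : Type} [Fintype ι] [DecidableEq ι] (Y Y' : ι → R)
    (h1 : ∀ i j, Y' i * Y j = if i = j then 1 else 0) (h2 : ∑ i, Y i * Y' i = 1) (G : R)
    (h : I4 (Matrix.of fun i j => Y' i * G * Y j : Matrix ι ι R)) : I4 G := by
  let Φ : Matrix ι ι R → R := fun M => ∑ i, ∑ j, Y i * M i j * Y' j
  have hmul : ∀ M N, Φ (M * N) = Φ M * Φ N := by
    intro M N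
    simp only [Φ, Matrix.mul_apply, Finset.sum_mul, Finset.mul_sum]
    have : ∀ i j k l, Y i * M i j * Y' j * (Y k * N k l * Y' l) =
        if j = k then Y i * (M i j * N j l) * Y' l else 0 := by
      intro i j k l
      have : Y i * M i j * Y' j * (Y k * N k l * Y' l) =
          Y i * M i j * (Y' j * Y k) * N k l * Y' l := by simp only [mul_assoc]
      rw [this, h1]
      split_ifs with hjk
      · subst hjk
        simp only [mul_assoc, one_mul]
      · simp
    simp only [this]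
    symm
    calc ∑ k, ∑ l, ∑ i, ∑ j, (if j = k then Y i * (M i j * N j l) * Y' l else 0)
        = ∑ k, ∑ l, ∑ i, Y i * (M i k * N k l) * Y' l := by
          refine Finset.sum_congr rfl fun k _ => Finset.sum_congr rfl fun l _ =>
            Finset.sum_congr rfl fun i _ => ?_
          simp
      _ = ∑ l, ∑ k, ∑ i, Y i * (M i k * N k l) * Y' l := Finset.sum_comm
      _ = ∑ l, ∑ i, ∑ k, Y i * (M i k * N k l) * Y' l :=
          Finset.sum_congr rfl fun l _ => Finset.sum_comm
      _ = ∑ i, ∑ l, ∑ k, Y i * (M i k * N k l) * Y' l := Finset.sum_comm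
  have hone : Φ 1 = 1 := by
    simp only [Φ, Matrix.one_apply]
    refine Eq.trans (Finset.sum_congr rfl fun i _ => ?_) h2
    simp
  have hG : Φ (Matrix.of fun i j => Y' i * G * Y j) = G := by
    simp only [Φ, Matrix.of_apply]
    have : ∀ i j, Y i * (Y' i * G * Y j) * Y' j = (Y i * Y' i) * G * (Y j * Y' j) := by
      intro i j
      simp only [mul_assoc]
    simp only [this, ← Finset.mul_sum, ← Finset.sum_mul, h2, mul_one, one_mul]
  obtain ⟨y, z, ⟨j1, j2, a1, a2, rfl⟩, ⟨j3, j4, a3, a4, rfl⟩, e⟩ := h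
  refine ⟨Φ j1 * Φ j2, Φ j3 * Φ j4, ⟨_, _, ?_, ?_, rfl⟩, ⟨_, _, ?_, ?_, rfl⟩, ?_⟩
  · rw [← hmul, a1, hone]
  · rw [← hmul, a2, hone]
  · rw [← hmul, a3, hone]
  · rw [← hmul, a4, hone]
  · rw [← hG, e, hmul, hmul, hmul]

end Pool.Agent.H37Z.Five
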