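import Pool.Agent.H37Z.FiveAlg

set_option autoImplicit false
set_option linter.unusedSimpArgs false

namespace Pool.Agent.H37Z.Five

open Matrix Filter Topology

universe u

section Bicomm

variable {R : Type u} [Ring R] [Algebra ℂ R]

/-- the bicommutant of an element -/
def bicomm (c : R) : Subalgebra ℂ R :=
  Subalgebra.centralizer ℂ (Subalgebra.centralizer ℂ ({c} : Set R) : Set R)

theorem mem_bicomm {c a : R} : a ∈ bicomm c ↔ ∀ z, c * z = z * c → z * a = a * z := by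
  simp only [bicomm, Subalgebra.mem_centralizer_iff, SetLike.mem_coe, Set.mem_singleton_iff,
    forall_eq]

theorem self_mem_bicomm (c : R) : c ∈ bicomm c := mem_bicomm.2 fun _ h => h.symm

instance (c : R) : CommRing (bicomm c) :=
  { (inferInstance : Ring (bicomm c)) with
    mul_comm := fun a b => Subtype.ext
      (mem_bicomm.1 b.2 a.1 (mem_bicomm.1 a.2 c rfl)) }

theorem inv_mem_bicomm {c a b : R} (ha : a ∈ bicomm c) (h1 : a * b = 1) (h2 : b * a = 1) :
    b ∈ bicomm c := by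
  refine mem_bicomm.2 fun z hz => ?_
  have := mem_bicomm.1 ha z hz
  calc z * b = b * a * z * b := by rw [h2, one_mul]
    _ = b * (z * a) * b := by rw [this]; simp only [mul_assoc]
    _ = b * z := by simp only [mul_assoc, h1, mul_one]

theorem exists_inv_bicomm {c : R} (a : bicomm c) (h : IsUnit (a : R)) :
    ∃ b : bicomm c, a * b = 1 := by
  obtain ⟨u, hu⟩ := h
  refine ⟨⟨u.inv, inv_mem_bicomm a.2 ?_ ?_⟩, Subtype.ext ?_⟩
  · rw [← hu]; exact u.val_inv
  · rw [← hu]; exact u.inv_val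
  · show (a : R) * u.inv = 1
    rw [← hu]; exact u.val_inv

theorem two_by_two' (c ci : R) (hc : c * ci = 1) (hci : ci * c = 1) (μ k α β γ : ℂ) (hμ : μ ≠ 0)
    (hk : k ≠ 0) (hβ : β ≠ 0) (hprod : k * α * β * γ = -μ ^ 2)
    (h1 : IsUnit (k • ci - α • (1 : R))) (h2 : IsUnit (γ • c - β • (1 : R))) :
    ∃ U Ui U' U'i : Matrix (Fin 2) (Fin 2) R, U * Ui = 1 ∧ Ui * U = 1 ∧ U' * U'i = 1 ∧
      U'i * U' = 1 ∧ diagonal ![μ • (1 : R), (-μ) • (1 : R)] =
        U * diagonal ![k • ci, α • (1 : R)] * Ui * (U' * diagonal ![β • (1 : R), γ • c] * U'i) := by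
  let c' : bicomm c := ⟨c, self_mem_bicomm c⟩
  let ci' : bicomm c := ⟨ci, inv_mem_bicomm (self_mem_bicomm c) hc hci⟩
  have hcc : ci' * c' = 1 := Subtype.ext hci
  obtain ⟨r, hr⟩ := exists_inv_bicomm (k • ci' - α • 1) h1
  obtain ⟨r', hr'⟩ := exists_inv_bicomm (γ • c' - β • 1) h2
  obtain ⟨U, Ui, U', U'i, e1, e2, e3, e4, e5⟩ := two_by_two (A := bicomm c) (μ • 1)
    ((2 * μ)⁻¹ • 1) (k • ci') (k⁻¹ • c') (α • 1) (β • 1) (β⁻¹ • 1) (γ • c') r r'
    (by
      rw [two_mul, ← add_smul, smul_mul_smul_comm, one_mul, ← two_mul,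
        mul_inv_cancel₀ (mul_ne_zero two_ne_zero hμ), one_smul])
    (by rw [smul_mul_smul_comm, hcc, mul_inv_cancel₀ hk, one_smul])
    (by rw [smul_mul_smul_comm, one_mul, mul_inv_cancel₀ hβ, one_smul])
    (by
      rw [smul_mul_smul_comm, smul_mul_smul_comm, smul_mul_smul_comm, mul_one, mul_one, hcc, hprod,
        smul_pow, one_pow, neg_smul])
    hr hr'
  let ρ : bicomm c →+* R := (bicomm c).val.toRingHom
  have hd : ∀ x y : bicomm c, ρ.mapMatrix (diagonal ![x, y]) = diagonal ![(x : R), (y : R)] := by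
    intro x y
    ext i j
    fin_cases i <;> fin_cases j <;> simp [ρ]
  refine ⟨ρ.mapMatrix U, ρ.mapMatrix Ui, ρ.mapMatrix U', ρ.mapMatrix U'i, ?_, ?_, ?_, ?_, ?_⟩
  · rw [← map_mul, e1, map_one]
  · rw [← map_mul, e2, map_one]
  · rw [← map_mul, e3, map_one]
  · rw [← map_mul, e4, map_one]
  · have := congrArg ρ.mapMatrix e5
    simp only [map_mul, hd] at this
    rw [neg_smul]
    exact this

end Bicomm

variable {R : Type u} [NormedRing R] [NormedAlgebra ℂ R] [CompleteSpace R]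

theorem eventually_unit {u : R} (hu : IsUnit u) (y : R) :
    ∀ᶠ t : ℂ in 𝓝[≠] 0, IsUnit (u - t • y) := by
  have h : Tendsto (fun t : ℂ => u - t • y) (𝓝 0) (𝓝 (u - (0 : ℂ) • y)) :=
    (continuous_const.sub (continuous_id.smul continuous_const)).tendsto 0
  rw [zero_smul, sub_zero] at h
  exact (h.eventually (Units.isOpen.mem_nhds hu)).filter_mono nhdsWithin_le_nhds

omit [CompleteSpace R] in
theorem unit_smul {u : R} (hu : IsUnit u) {k : ℂ} (hk : k ≠ 0) : IsUnit (k • u) := by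
  rw [Algebra.smul_def]
  exact ((IsUnit.mk0 k hk).map (algebraMap ℂ R)).mul hu

theorem four_block (V V' W W' : R) (h1 : V' * V = 1) (h2 : W' * W = 1) (h3 : V' * W = 0)
    (h4 : W' * V = 0) (h5 : V * V' + W * W' = 1) (B c ci : R) (hc : c * ci = 1) (hci : ci * c = 1)
    (hV : V * B = c * V) (hW : W * c = c * W) (μ : ℂ) (hμ : μ ≠ 0)
    (X : Matrix (Fin 2 ⊕ Fin 2) Unit R) :
    I4 (fromBlocks (Matrix.of fun _ _ : Unit => B) 0 X
      (diagonal (Sum.elim ![μ • (1 : R), (-μ) • (1 : R)] ![μ • (1 : R), (-μ) • (1 : R)])) :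
        Matrix Idx Idx R) := by
  have hm : -μ ^ 2 ≠ 0 := neg_ne_zero.2 (pow_ne_zero 2 hμ)
  obtain ⟨s, β, hs, hβ, hsβ, hβm, hcase⟩ : ∃ s β : ℂ, s ≠ 0 ∧ β ≠ 0 ∧ s - β ≠ 0 ∧
      β * β = (-μ ^ 2) * (-μ ^ 2) ∧ (s * β = 1 ∨ (s * s = 1 ∧ β * β = 1)) := by
    by_cases h : (-μ ^ 2) * (-μ ^ 2) = 1
    · exact ⟨1, -1, one_ne_zero, by norm_num, by norm_num, by rw [h]; norm_num,
        Or.inr ⟨by norm_num, by norm_num⟩⟩
    · refine ⟨(-μ ^ 2)⁻¹, -μ ^ 2, inv_ne_zero hm, hm, fun h' => h ?_, rfl,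
        Or.inl (inv_mul_cancel₀ hm)⟩
      rw [sub_eq_zero] at h'
      nth_rewrite 1 [← h']
      exact inv_mul_cancel₀ hm
  have uc : IsUnit c := ⟨⟨c, ci, hc, hci⟩, rfl⟩
  have uci : IsUnit ci := ⟨⟨ci, c, hci, hc⟩, rfl⟩
  set k : ℂ := -μ ^ 2 / (s * β) with hk
  have hk0 : k ≠ 0 := div_ne_zero hm (mul_ne_zero hs hβ)
  obtain ⟨t, ⟨⟨⟨u1, u2⟩, ⟨u3, u4⟩⟩, ⟨u5, u6⟩⟩, ht⟩ :=
    (((((eventually_unit (unit_smul uci hs) (k • (1 : R))).and
      (eventually_unit uc (β • (1 : R)))).and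
      ((eventually_unit isUnit_one ((k * s⁻¹) • c)).and
      (eventually_unit (unit_smul isUnit_one hβ) ci))).and
      ((eventually_unit uc (s • (1 : R))).and
      (eventually_unit (unit_smul isUnit_one hs) ci))).and self_mem_nhdsWithin).exists
  have ht0 : t ≠ 0 := ht
  obtain ⟨U1, U1i, U1', U1'i, a1, a2, a3, a4, a5⟩ := two_by_two' c ci hc hci μ s (t * k) β t⁻¹ hμ
    hs hβ (by rw [hk]; field_simp) (by rwa [← smul_smul])
    (by
      have := unit_smul u2 (inv_ne_zero ht0)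
      rwa [smul_sub, smul_smul, inv_mul_cancel₀ ht0, one_smul] at this)
  obtain ⟨U2, U2i, U2', U2'i, b1, b2, b3, b4, b5⟩ := two_by_two' ci c hci hc μ s⁻¹ (t * k)⁻¹ β t hμ
    (inv_ne_zero hs) hβ (by
      rw [hk]
      field_simp
      linear_combination -hβm)
    (by
      have := unit_smul u3 (neg_ne_zero.2 (inv_ne_zero (mul_ne_zero ht0 hk0)))
      convert this using 1
      rw [smul_sub, smul_smul, smul_smul, neg_smul, sub_eq_add_neg, sub_eq_add_neg, add_comm,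
        ← neg_smul (-(t * k)⁻¹ * t * (k * s⁻¹))]
      congr 2
      field_simp)
    (by
      have := u4.neg
      rwa [neg_sub] at this)
  obtain ⟨e5, he5⟩ : ∃ e : R, (s • (1 : R) - t⁻¹ • c) * e = 1 := by
    have := (unit_smul u5 (inv_ne_zero ht0)).neg
    rw [smul_sub, smul_smul, inv_mul_cancel₀ ht0, one_smul, neg_sub] at this
    exact this.exists_right_inv
  obtain ⟨e6, he6⟩ := u6.exists_right_inv
  have he7 : (s • (1 : R) - β • (1 : R)) * ((s - β)⁻¹ • (1 : R)) = 1 := by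
    rw [← sub_smul, smul_mul_smul_comm, mul_inv_cancel₀ hsβ, one_mul, one_smul]
  have htk : t * k ≠ 0 := mul_ne_zero ht0 hk0
  refine core s hs _ X _ (fromBlocks U1 0 0 U2) (fromBlocks U1i 0 0 U2i) (fromBlocks U1' 0 0 U2')
    (fromBlocks U1'i 0 0 U2'i) (Sum.elim ![s • ci, (t * k) • (1 : R)] ![s⁻¹ • c, (t * k)⁻¹ • 1])
    (Sum.elim ![s⁻¹ • c, (t * k)⁻¹ • (1 : R)] ![s • ci, (t * k) • 1])
    (Sum.elim ![β • (1 : R), t⁻¹ • c] ![β • (1 : R), t • ci])
    (Sum.elim ![(s - β)⁻¹ • (1 : R), e5] ![(s - β)⁻¹ • (1 : R), e6])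
    (by simp [fromBlocks_multiply, a1, b1]) (by simp [fromBlocks_multiply, a2, b2])
    (by simp [fromBlocks_multiply, a3, b3]) (by simp [fromBlocks_multiply, a4, b4]) ?_ ?_ ?_ ?_ ?_
  · rintro (i | i) <;> fin_cases i <;>
      simp only [Sum.elim_inl, Sum.elim_inr, Fin.zero_eta, Fin.mk_one, cons_val_zero, cons_val_one,
        smul_mul_smul_comm, hc, hci, mul_one, mul_inv_cancel₀ hs, inv_mul_cancel₀ hs,
        mul_inv_cancel₀ htk, inv_mul_cancel₀ htk, one_smul]
  · rintro (i | i) <;> fin_cases i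
    · exact he7
    · exact he5
    · exact he7
    · exact he6
  · rw [← fromBlocks_diagonal, ← fromBlocks_diagonal, ← fromBlocks_diagonal]
    simp only [fromBlocks_multiply, Matrix.mul_zero, Matrix.zero_mul, add_zero, zero_add]
    rw [← a5, ← b5]
  · have := i2_a V V' W W' (s⁻¹ • B) (s⁻¹ • c) (s • ci) ((t * k) • (1 : R)) ((t * k)⁻¹ • (1 : R))
      h1 h2 h3 h4 h5 (by rw [mul_smul_comm, smul_mul_assoc, hV])
      (by rw [mul_smul_comm, smul_mul_assoc, hW])
      (by rw [smul_mul_smul_comm, hc, inv_mul_cancel₀ hs, one_smul])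
      (by rw [smul_mul_smul_comm, hci, mul_inv_cancel₀ hs, one_smul])
      (by rw [smul_mul_smul_comm, one_mul, mul_inv_cancel₀ htk, one_smul])
      (by rw [smul_mul_smul_comm, one_mul, inv_mul_cancel₀ htk, one_smul])
    exact this
  · exact i2_b V V' W W' (t⁻¹ • c) (t • ci) s β h1 h2 h3 h4 h5
      (by rw [smul_mul_smul_comm, hc, inv_mul_cancel₀ ht0, one_smul])
      (by rw [smul_mul_smul_comm, hci, mul_inv_cancel₀ ht0, one_smul]) hcase

theorem four_of_eigen (V V' W W' : R) (h1 : V' * V = 1) (h2 : W' * W = 1) (h3 : V' * W = 0)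
    (h4 : W' * V = 0) (h5 : V * V' + W * W' = 1)
    (sw : ∀ B Bi : R, B * Bi = 1 → Bi * B = 1 →
      ∃ c ci : R, c * ci = 1 ∧ ci * c = 1 ∧ V * B = c * V ∧ W * c = c * W)
    (G Gi : R) (hG : G * Gi = 1) (hGi : Gi * G = 1) (X X' Y Y' : R) (x1 : X' * X = 1)
    (x2 : Y' * Y = 1) (x3 : X' * Y = 0) (x4 : Y' * X = 0) (μ : ℂ) (hμ : μ ≠ 0)
    (gx : G * X = μ • X) (gy : G * Y = (-μ) • Y) : I4 G := by
  obtain ⟨E, hE⟩ : ∃ E : R, E = 1 - X * X' - Y * Y' := ⟨_, rfl⟩
  have l1 : ∀ z, V' * (V * z) = z := fun z => by rw [← mul_assoc, h1, one_mul]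
  have l2 : ∀ z, W' * (W * z) = z := fun z => by rw [← mul_assoc, h2, one_mul]
  have l3 : ∀ z, V' * (W * z) = 0 := fun z => by rw [← mul_assoc, h3, zero_mul]
  have l4 : ∀ z, W' * (V * z) = 0 := fun z => by rw [← mul_assoc, h4, zero_mul]
  have l5 : ∀ z, V * (V' * z) + W * (W' * z) = z := fun z => by
    rw [← mul_assoc, ← mul_assoc, ← add_mul, h5, one_mul]
  have m1 : ∀ z, X' * (X * z) = z := fun z => by rw [← mul_assoc, x1, one_mul]
  have m2 : ∀ z, Y' * (Y * z) = z := fun z => by rw [← mul_assoc, x2, one_mul]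
  have m3 : ∀ z, X' * (Y * z) = 0 := fun z => by rw [← mul_assoc, x3, zero_mul]
  have m4 : ∀ z, Y' * (X * z) = 0 := fun z => by rw [← mul_assoc, x4, zero_mul]
  have n1 : X' * E = 0 := by rw [hE, mul_sub, mul_sub, m1, m3, mul_one, sub_self, sub_zero]
  have n2 : Y' * E = 0 := by rw [hE, mul_sub, mul_sub, m4, m2, mul_one, sub_zero, sub_self]
  have n3 : ∀ z, E * (X * z) = 0 := fun z => by
    rw [hE, sub_mul, sub_mul, mul_assoc, mul_assoc, m1, m4, one_mul, sub_self, mul_zero, sub_zero]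
  have n4 : ∀ z, E * (Y * z) = 0 := fun z => by
    rw [hE, sub_mul, sub_mul, mul_assoc, mul_assoc, m3, m2, one_mul, mul_zero, sub_zero, sub_self]
  have n5 : E * E = E := by
    nth_rewrite 2 [hE]
    rw [mul_sub, mul_sub, n3, n4, mul_one, sub_zero, sub_zero]
  have n6 : E + (X * X' + Y * Y') = 1 := by rw [hE]; abel
  let y : Idx → R := Sum.elim (fun _ => E + X * (W * (W * (V * X' + W * Y'))))
    (Sum.elim ![X * V, Y * V] ![X * (W * V), Y * W])
  let y' : Idx → R := Sum.elim (fun _ => E + (X * V' + Y * W') * (W' * (W' * X')))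
    (Sum.elim ![V' * X', V' * Y'] ![V' * (W' * X'), W' * Y'])
  have r1 : ∀ i j, y' i * y j = if i = j then 1 else 0 := by
    intro i j
    rcases i with i | i | i <;> rcases j with j | j | j <;> (try fin_cases i) <;>
      (try fin_cases j) <;>
      simp [y, y', mul_add, add_mul, mul_assoc, l1, l2, l3, l4, m1, m2, m3, m4, n1, n2, n3, n4, n5,
        n6, h1, h2, h3, h4]
  have r2 : ∑ i, y i * y' i = 1 := by
    simp only [y, y', Fintype.sum_sum_type, Fin.sum_univ_two, Finset.univ_unique,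
      Finset.sum_singleton, Sum.elim_inl, Sum.elim_inr, cons_val_zero, cons_val_one, mul_add,
      add_mul, mul_assoc, l1, l2, l3, l4, m1, m2, m3, m4, n1, n2, n3, n4, n5, mul_zero, add_zero,
      zero_add]
    have q1 := l5 (W' * (W' * X'))
    have q2 := l5 (W' * X')
    have q3 := l5 X'
    have q4 := l5 Y'
    rw [← n6]
    have : X * (W * (W * (V * (V' * (W' * (W' * X')))))) +
        X * (W * (W * (W * (W' * (W' * (W' * X')))))) = X * (W * (W * (W' * (W' * X')))) := by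
      rw [← mul_add, ← mul_add, ← mul_add, q1]
    have t2 : X * (W * (V * (V' * (W' * X')))) + X * (W * (W * (W' * (W' * X')))) =
        X * (W * (W' * X')) := by rw [← mul_add, ← mul_add, q2]
    have t3 : X * (V * (V' * X')) + X * (W * (W' * X')) = X * X' := by rw [← mul_add, q3]
    have t4 : Y * (V * (V' * Y')) + Y * (W * (W' * Y')) = Y * Y' := by rw [← mul_add, q4]
    rw [← t3, ← t4, ← t2, ← this]
    abel
  let d : Fin 2 ⊕ Fin 2 → ℂ := Sum.elim ![μ, -μ] ![μ, -μ]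
  have hd0 : ∀ k, d k ≠ 0 := by
    rintro (i | i) <;> fin_cases i <;> simp [d, hμ]
  have g1 : ∀ k, G * y (Sum.inr k) = d k • y (Sum.inr k) := by
    rintro (i | i) <;> fin_cases i <;>
      simp [y, d, ← mul_assoc, gx, gy]
  have g2 : ∀ k, Gi * y (Sum.inr k) = (d k)⁻¹ • y (Sum.inr k) := by
    intro k
    have := congrArg (fun z => (d k)⁻¹ • (Gi * z)) (g1 k)
    simp only [← mul_assoc, hGi, one_mul, mul_smul_comm, smul_smul, inv_mul_cancel₀ (hd0 k),
      one_smul] at this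
    exact this.symm
  have key : ∀ (S T : R) (f : Fin 2 ⊕ Fin 2 → ℂ), (∀ k, S * y (Sum.inr k) = f k • y (Sum.inr k)) →
      S * T = 1 → (y' (Sum.inl ()) * S * y (Sum.inl ())) *
        (y' (Sum.inl ()) * T * y (Sum.inl ())) = 1 := by
    intro S T f hS hST
    have e1 : y (Sum.inl ()) * y' (Sum.inl ()) = 1 - ∑ k, y (Sum.inr k) * y' (Sum.inr k) := by
      rw [← r2, Fintype.sum_sum_type]
      simp
    have e2 : y' (Sum.inl ()) * S * ∑ k, y (Sum.inr k) * y' (Sum.inr k) = 0 := by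
      rw [Finset.mul_sum]
      refine Finset.sum_eq_zero fun k _ => ?_
      rw [← mul_assoc, mul_assoc _ S, hS, mul_smul_comm, r1]
      simp
    have e3 : (y' (Sum.inl ()) * S * y (Sum.inl ())) * (y' (Sum.inl ()) * T * y (Sum.inl ())) =
        (y' (Sum.inl ()) * S * (y (Sum.inl ()) * y' (Sum.inl ()))) * T * y (Sum.inl ()) := by
      simp only [mul_assoc]
    rw [e3, e1, mul_sub, e2, sub_zero, mul_one, mul_assoc _ S, hST, mul_one, r1]
    simp
  obtain ⟨c, ci, hc, hci, hV, hW⟩ := sw _ _ (key G Gi d g1 hG) (key Gi G _ g2 hGi)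
  refine I4.transfer y y' r1 r2 G ?_
  convert four_block V V' W W' h1 h2 h3 h4 h5 _ c ci hc hci hV hW μ hμ
    (Matrix.of fun k _ => y' (Sum.inr k) * G * y (Sum.inl ())) using 1
  ext i j
  rcases i with i | i <;> rcases j with j | j
  · rfl
  · simp only [Matrix.of_apply, fromBlocks_apply₁₂, Matrix.zero_apply]
    rw [mul_assoc, g1, mul_smul_comm, r1]
    simp
  · rfl
  · simp only [Matrix.of_apply, fromBlocks_apply₂₂]
    rw [mul_assoc, g1, mul_smul_comm, r1]
    by_cases hij : i = j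
    · subst hij
      rcases i with i | i <;> fin_cases i <;> simp [d]
    · simp [hij]

end Pool.Agent.H37Z.Five
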