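import Pool.Agent.H37Z.FiveFour
import Pool.Agent.Results.MP_b9c098_an.SixInvolutions

set_option autoImplicit false
set_option linter.unusedSimpArgs false
set_option linter.unusedSectionVars false

namespace Pool.Agent.H37Z.Five

open scoped InnerProductSpace ENNReal
open Cardinal Filter Topology
open Pool.Agent.Results.MP_b9c098_an.SixInvolutions

universe u

variable {H : Type u} [NormedAddCommGroup H] [InnerProductSpace ℂ H] [CompleteSpace H]

/-- left shift -/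
noncomputable def shL : L H →L[ℂ] L H :=
  LinearMap.mkContinuous
    { toFun := fun f => ⟨fun n => f (n + 1),
        memℓp_two ((summable_nat_add_iff (f := fun n => ‖f n‖ ^ 2) 1).2 (summable_sq f))⟩
      map_add' := fun f g => by
        ext n
        rfl
      map_smul' := fun c f => by
        ext n
        rfl } 1 (fun f => by
      apply (pow_le_pow_iff_left₀ (norm_nonneg _) (by positivity) two_ne_zero).1
      rw [one_mul, norm_sq_eq, norm_sq_eq, (summable_sq f).tsum_eq_zero_add]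
      exact le_add_of_nonneg_left (by positivity))

/-- the right shifted sequence -/
def rsh (f : ℕ → H) : ℕ → H
  | 0 => 0
  | n + 1 => f n

theorem rsh_summable (f : L H) : Summable (fun n => ‖rsh f n‖ ^ 2) :=
  (summable_nat_add_iff (f := fun n => ‖rsh f n‖ ^ 2) 1).1 (summable_sq f)

/-- right shift -/
noncomputable def shR : L H →L[ℂ] L H :=
  LinearMap.mkContinuous
    { toFun := fun f => ⟨rsh f, memℓp_two (rsh_summable f)⟩
      map_add' := fun f g => by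
        ext n
        cases n with
        | zero => exact (add_zero (0 : H)).symm
        | succ n => rfl
      map_smul' := fun c f => by
        ext n
        cases n with
        | zero => exact (smul_zero c : c • (0 : H) = 0).symm
        | succ n => rfl } 1 (fun f => by
      apply (pow_le_pow_iff_left₀ (norm_nonneg _) (by positivity) two_ne_zero).1
      rw [one_mul, norm_sq_eq, norm_sq_eq]
      refine le_of_eq ((rsh_summable f).tsum_eq_zero_add.trans ?_)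
      simp [rsh])

theorem exists_swindle (hH : ¬ FiniteDimensional ℂ H) : ∃ V V' W W' : H →L[ℂ] H,
    V' * V = 1 ∧ W' * W = 1 ∧ V' * W = 0 ∧ W' * V = 0 ∧ V * V' + W * W' = 1 ∧
    ∀ B Bi : H →L[ℂ] H, B * Bi = 1 → Bi * B = 1 →
      ∃ c ci : H →L[ℂ] H, c * ci = 1 ∧ ci * c = 1 ∧ V * B = c * V ∧ W * c = c * W := by
  classical
  obtain ⟨S⟩ := exists_equiv_seq hH
  let ev : L H →L[ℂ] H := lp.evalCLM ℂ (fun _ : ℕ => H) 2 0
  let sg : H →L[ℂ] L H := lp.singleContinuousLinearMap ℂ (fun _ : ℕ => H) 2 0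
  have sg0 : ∀ v, (sg v) 0 = v := fun v => lp.single_apply_self (E := fun _ : ℕ => H) 2 0 v
  have sg1 : ∀ v n, (sg v) (n + 1) = 0 := fun v n =>
    lp.single_apply_ne (E := fun _ : ℕ => H) 2 0 v (Nat.succ_ne_zero n)
  let S₁ : H →L[ℂ] L H := S.toContinuousLinearEquiv.toContinuousLinearMap
  let S₂ : L H →L[ℂ] H := S.symm.toContinuousLinearEquiv.toContinuousLinearMap
  have s12 : ∀ f, S₁ (S₂ f) = f := fun f => S.apply_symm_apply f
  have s21 : ∀ v, S₂ (S₁ v) = v := fun v => S.symm_apply_apply v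
  refine ⟨S₂.comp sg, ev.comp S₁, S₂.comp (shR.comp S₁), S₂.comp (shL.comp S₁), ?_, ?_, ?_, ?_, ?_,
    fun B Bi h1 h2 => ?_⟩
  · refine ContinuousLinearMap.ext fun v => ?_
    show ev (S₁ (S₂ (sg v))) = v
    rw [s12]
    exact sg0 v
  · refine ContinuousLinearMap.ext fun v => ?_
    show S₂ (shL (S₁ (S₂ (shR (S₁ v))))) = v
    rw [s12]
    have : shL (shR (S₁ v)) = S₁ v := by
      ext n
      rfl
    rw [this, s21]
  · refine ContinuousLinearMap.ext fun v => ?_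
    show ev (S₁ (S₂ (shR (S₁ v)))) = 0
    rw [s12]
    rfl
  · refine ContinuousLinearMap.ext fun v => ?_
    show S₂ (shL (S₁ (S₂ (sg v)))) = 0
    rw [s12]
    have : shL (sg v) = 0 := by
      ext n
      exact sg1 v n
    rw [this, map_zero]
  · refine ContinuousLinearMap.ext fun v => ?_
    show S₂ (sg (ev (S₁ v))) + S₂ (shR (S₁ (S₂ (shL (S₁ v))))) = v
    rw [s12, ← map_add]
    have : sg (ev (S₁ v)) + shR (shL (S₁ v)) = S₁ v := by
      ext n
      cases n with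
      | zero =>
        show (sg (ev (S₁ v))) 0 + 0 = _
        rw [sg0, add_zero]
        rfl
      | succ n =>
        show (sg (ev (S₁ v))) (n + 1) + (S₁ v) (n + 1) = _
        rw [sg1, zero_add]
    rw [this, s21]
  · let D : (H →L[ℂ] H) → (L H →L[ℂ] L H) := fun T =>
      blk (Equiv.refl ℕ) (fun _ => T) ‖T‖ (fun _ => le_rfl)
    have hD : ∀ T f n, (D T f) n = T (f n) := fun T f n => rfl
    have hDD : ∀ T T' : H →L[ℂ] H, T * T' = 1 → ∀ f, D T (D T' f) = f := by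
      intro T T' h f
      ext n
      exact congrArg (fun Z : H →L[ℂ] H => Z (f n)) h
    refine ⟨S₂.comp ((D B).comp S₁), S₂.comp ((D Bi).comp S₁), ?_, ?_, ?_, ?_⟩
    · refine ContinuousLinearMap.ext fun v => ?_
      show S₂ (D B (S₁ (S₂ (D Bi (S₁ v))))) = v
      rw [s12, hDD _ _ h1, s21]
    · refine ContinuousLinearMap.ext fun v => ?_
      show S₂ (D Bi (S₁ (S₂ (D B (S₁ v))))) = v
      rw [s12, hDD _ _ h2, s21]
    · refine ContinuousLinearMap.ext fun v => ?_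
      show S₂ (sg (B v)) = S₂ (D B (S₁ (S₂ (sg v))))
      rw [s12]
      congr 1
      ext n
      cases n with
      | zero => rw [hD, sg0, sg0]
      | succ n => rw [hD, sg1, sg1, map_zero]
    · refine ContinuousLinearMap.ext fun v => ?_
      show S₂ (shR (S₁ (S₂ (D B (S₁ v))))) = S₂ (D B (S₁ (S₂ (shR (S₁ v)))))
      rw [s12, s12]
      congr 1
      ext n
      cases n with
      | zero => exact (map_zero B).symm
      | succ n => rfl

/-- diagonal operators with respect to a Hilbert basis -/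
theorem exists_diag {ι : Type u} (b : HilbertBasis ι ℂ H) (g : ι → ℂ) (C : ℝ) (hC : 0 ≤ C)
    (hg : ∀ i, ‖g i‖ ≤ C) : ∃ M : H →L[ℂ] H, ∀ i, M (b i) = g i • b i := by
  classical
  have hs : ∀ f : lp (fun _ : ι => ℂ) 2, Summable (fun i => ‖f i‖ ^ 2) := fun f => by
    simpa using (lp.memℓp f).summable (by norm_num)
  have hn : ∀ f : lp (fun _ : ι => ℂ) 2, ‖f‖ ^ 2 = ∑' i, ‖f i‖ ^ 2 := fun f => by
    simpa using lp.norm_rpow_eq_tsum (p := 2) (by norm_num) f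
  have hle : ∀ (f : lp (fun _ : ι => ℂ) 2) i, ‖g i * f i‖ ^ 2 ≤ C ^ 2 * ‖f i‖ ^ 2 := fun f i => by
    rw [← mul_pow, norm_mul]
    exact pow_le_pow_left₀ (by positivity) (mul_le_mul_of_nonneg_right (hg i) (norm_nonneg _)) 2
  have hs' : ∀ f : lp (fun _ : ι => ℂ) 2, Summable (fun i => ‖g i * f i‖ ^ 2) := fun f =>
    Summable.of_nonneg_of_le (fun _ => by positivity) (hle f) ((hs f).mul_left _)
  let M0 : lp (fun _ : ι => ℂ) 2 →L[ℂ] lp (fun _ : ι => ℂ) 2 := LinearMap.mkContinuous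
    { toFun := fun f => ⟨fun i => g i * f i, memℓp_gen (by simpa using hs' f)⟩
      map_add' := fun f f' => by
        ext i
        exact mul_add _ _ _
      map_smul' := fun c f => by
        ext i
        exact mul_left_comm _ _ _ } C (fun f => by
      apply (pow_le_pow_iff_left₀ (norm_nonneg _) (by positivity) two_ne_zero).1
      rw [mul_pow, hn, hn, ← tsum_mul_left]
      exact (hs' f).tsum_le_tsum (hle f) ((hs f).mul_left _))
  refine ⟨b.repr.symm.toContinuousLinearEquiv.toContinuousLinearMap.comp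
    (M0.comp b.repr.toContinuousLinearEquiv.toContinuousLinearMap), fun i => ?_⟩
  show b.repr.symm (M0 (b.repr (b i))) = _
  apply b.repr.injective
  rw [LinearIsometryEquiv.apply_symm_apply, map_smul, b.repr_self]
  ext j
  show g j * (lp.single 2 i (1 : ℂ) : lp (fun _ : ι => ℂ) 2) j =
    g i * (lp.single 2 i (1 : ℂ) : lp (fun _ : ι => ℂ) 2) j
  by_cases h : j = i
  · rw [h]
  · rw [lp.single_apply_ne _ _ _ h, mul_zero, mul_zero]

theorem ext_basis {ι : Type u} (b : HilbertBasis ι ℂ H) {S T : H →L[ℂ] H}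
    (h : ∀ i, S (b i) = T (b i)) : S = T := by
  refine ContinuousLinearMap.ext_on
    (Submodule.dense_iff_topologicalClosure_eq_top.2 b.dense_span) ?_
  rintro _ ⟨i, rfl⟩
  exact h i

theorem exists_isom {ι : Type u} (b : HilbertBasis ι ℂ H) {v : ι → H} (hv : Orthonormal ℂ v) :
    ∃ X : H →L[ℂ] H, ContinuousLinearMap.adjoint X * X = 1 ∧ ∀ i, X (b i) = v i := by
  classical
  let X₀ : H →ₗᵢ[ℂ] H := hv.orthogonalFamily.linearIsometry.comp b.repr.toLinearIsometry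
  refine ⟨X₀.toContinuousLinearMap, adjoint_mul_self X₀, fun i => ?_⟩
  show hv.orthogonalFamily.linearIsometry (b.repr (b i)) = _
  rw [b.repr_self, hv.orthogonalFamily.linearIsometry_apply_single]
  simp

theorem adj_mul_zero {ι : Type u} (b : HilbertBasis ι ℂ H) {X Y : H →L[ℂ] H}
    (h : ∀ i j, ⟪X (b j), Y (b i)⟫_ℂ = 0) : ContinuousLinearMap.adjoint X * Y = 0 := by
  apply eq_zero_of_basis b
  intro i j
  show ⟪b j, (ContinuousLinearMap.adjoint X) (Y (b i))⟫_ℂ = 0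
  rw [ContinuousLinearMap.adjoint_inner_right]
  exact h i j

theorem small_union {ι : Type u} [Infinite ι] {V W : Set H} (h1 : #V < #ι) (h2 : #W < #ι) :
    #(V ∪ W : Set H) < #ι :=
  lt_of_le_of_lt (mk_union_le V W) (add_lt_of_lt (aleph0_le_mk ι) h1 h2)

theorem small_singleton {ι : Type u} [Infinite ι] (v : H) : #({v} : Set H) < #ι := by
  rw [mk_singleton]
  exact lt_of_lt_of_le one_lt_aleph0 (aleph0_le_mk ι)

theorem symm0 {u v : H} (h : ⟪u, v⟫_ℂ = 0) : ⟪v, u⟫_ℂ = 0 := by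
  rw [← inner_conj_symm, h, map_zero]

/-- an essential approximate eigenvalue, in the case where `A` is essentially scalar -/
theorem exists_scalar {ι : Type u} (b : HilbertBasis ι ℂ H) (hH : ¬ FiniteDimensional ℂ H)
    (A : H →L[ℂ] H) (h : ∀ δ : ℝ, 0 < δ → ∃ V : Set H, #V < #ι ∧ ∀ z z' : H,
      (∀ v ∈ V, ⟪v, z⟫_ℂ = 0) → ⟪z', z⟫_ℂ = 0 → ‖⟪z', A z⟫_ℂ‖ ≤ δ * ‖z‖ * ‖z'‖) :
    ∃ l : ℂ, ∀ ε : ℝ, 0 < ε → ∃ V : Set H, #V < #ι ∧ ∀ y : H, ‖y‖ = 1 →
      (∀ v ∈ V, ⟪v, y⟫_ℂ = 0) → ‖A y - l • y‖ ≤ ε := by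
  have hinf : Infinite ι := infinite_index b hH
  choose V hV hV' using fun n : ℕ => h (1 / ((n : ℝ) + 1)) (by positivity)
  choose x hx hx' using fun n => exists_unit_orthogonal b hH (V n) (hV n)
  have hb : ∀ n, ⟪x n, A (x n)⟫_ℂ ∈ Metric.closedBall (0 : ℂ) ‖A‖ := by
    intro n
    rw [mem_closedBall_zero_iff]
    refine (norm_inner_le_norm _ _).trans ?_
    rw [hx n, one_mul]
    simpa [hx n] using A.le_opNorm (x n)
  obtain ⟨l, -, φ, hφ, hl⟩ := (isCompact_closedBall (0 : ℂ) ‖A‖).tendsto_subseq hb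
  refine ⟨l, fun ε hε => ?_⟩
  have e1 : ∀ᶠ n in atTop, ‖⟪x (φ n), A (x (φ n))⟫_ℂ - l‖ < ε / 2 := by
    have := Metric.tendsto_nhds.1 hl (ε / 2) (by positivity)
    simpa [dist_eq_norm] using this
  have e2 : ∀ᶠ n in atTop, 1 / ((φ n : ℝ) + 1) < ε / 14 :=
    ((tendsto_one_div_add_atTop_nhds_zero_nat (𝕜 := ℝ)).comp hφ.tendsto_atTop).eventually
      (gt_mem_nhds (by positivity))
  obtain ⟨n, h1, h2⟩ := (e1.and e2).exists
  set m := φ n with hm
  set δ : ℝ := 1 / ((m : ℝ) + 1) with hδ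
  have hδ0 : 0 < δ := by positivity
  refine ⟨V m ∪ {x m}, small_union (hV m) (small_singleton _), fun y hy hyV => ?_⟩
  have hyV' : ∀ v ∈ V m, ⟪v, y⟫_ℂ = 0 := fun v hv => hyV v (Or.inl hv)
  have hxy : ⟪x m, y⟫_ℂ = 0 := hyV _ (Or.inr rfl)
  have hyy : ⟪y, y⟫_ℂ = 1 := by rw [inner_self_eq_norm_sq_to_K, hy]; simp
  have hxx : ⟪x m, x m⟫_ℂ = 1 := by rw [inner_self_eq_norm_sq_to_K, hx m]; simp
  have k1 : ‖A y - ⟪y, A y⟫_ℂ • y‖ ≤ δ := by
    set r := A y - ⟪y, A y⟫_ℂ • y with hr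
    have hry : ⟪y, r⟫_ℂ = 0 := by rw [hr, inner_sub_right, inner_smul_right, hyy, mul_one, sub_self]
    have h3 := hV' m y r hyV' (symm0 hry)
    have h4 : ⟪r, A y⟫_ℂ = ⟪r, r⟫_ℂ := by
      conv_rhs => rw [hr, inner_sub_right, ← hr, inner_smul_right, symm0 hry, mul_zero, sub_zero]
    rw [h4, inner_self_eq_norm_sq_to_K, hy, mul_one] at h3
    simp only [norm_pow, Complex.coe_algebraMap, Complex.norm_real, norm_norm] at h3
    by_contra hcon
    rw [not_le] at hcon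
    nlinarith [norm_nonneg r]
  have k2 := hV' m y (x m) hyV' hxy
  have k3 := hV' m (x m) y (hx' m) (symm0 hxy)
  have k4 := hV' m (x m + y) (x m - y) (fun v hv => by rw [inner_add_right, hx' m v hv, hyV' v hv, add_zero])
    (by rw [inner_sub_left, inner_add_right, inner_add_right, hxx, hyy, hxy, symm0 hxy]; ring)
  rw [hy, hx m, mul_one, mul_one] at k2 k3
  have n1 : ‖x m + y‖ ≤ 2 := (norm_add_le _ _).trans (by rw [hx m, hy]; norm_num)
  have n2 : ‖x m - y‖ ≤ 2 := (norm_sub_le _ _).trans (by rw [hx m, hy]; norm_num)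
  have k5 : ‖⟪x m - y, A (x m + y)⟫_ℂ‖ ≤ 4 * δ := by
    refine k4.trans ?_
    have : ‖x m + y‖ * ‖x m - y‖ ≤ 2 * 2 := mul_le_mul n1 n2 (norm_nonneg _) (by norm_num)
    nlinarith
  have k6 : ⟪y, A y⟫_ℂ - l = (⟪x m, A (x m)⟫_ℂ - l) - ⟪x m - y, A (x m + y)⟫_ℂ +
      ⟪x m, A y⟫_ℂ - ⟪y, A (x m)⟫_ℂ := by
    rw [map_add, inner_sub_left, inner_add_right, inner_add_right]
    ring
  have k7 : ‖⟪y, A y⟫_ℂ - l‖ ≤ ε / 2 + 4 * δ + δ + δ := by
    rw [k6]
    refine (norm_sub_le _ _).trans (add_le_add ((norm_add_le _ _).trans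
      (add_le_add ((norm_sub_le _ _).trans (add_le_add h1.le k5)) k2)) k3)
  have k8 : A y - l • y = (A y - ⟪y, A y⟫_ℂ • y) + (⟪y, A y⟫_ℂ - l) • y := by
    rw [sub_smul]
    abel
  rw [k8]
  refine (norm_add_le _ _).trans ?_
  rw [norm_smul, hy, mul_one]
  linarith

theorem exists_mu {ι : Type u} (b : HilbertBasis ι ℂ H) (hH : ¬ FiniteDimensional ℂ H)
    (A Ai : H →L[ℂ] H) (hA : Ai * A = 1) : ∃ (μ : ℂ) (C : ℝ), μ ≠ 0 ∧ 0 ≤ C ∧
      ∀ V : Set H, #V < #ι → ∃ z : H, z ≠ 0 ∧ (∀ v ∈ V, ⟪v, z⟫_ℂ = 0) ∧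
        (A z - μ • z = 0 ∨ ∃ z' : H, z' ≠ 0 ∧ ⟪z', z⟫_ℂ = 0 ∧
          ‖A z - μ • z‖ * ‖z'‖ ≤ C * ‖⟪z', A z⟫_ℂ‖) := by
  have hinf : Infinite ι := infinite_index b hH
  by_cases h : ∀ δ : ℝ, 0 < δ → ∃ V : Set H, #V < #ι ∧ ∀ z z' : H,
      (∀ v ∈ V, ⟪v, z⟫_ℂ = 0) → ⟪z', z⟫_ℂ = 0 → ‖⟪z', A z⟫_ℂ‖ ≤ δ * ‖z‖ * ‖z'‖
  · obtain ⟨l, hl⟩ := exists_scalar b hH A h
    refine ⟨l, 5, ?_, by norm_num, fun V hV => ?_⟩
    · rintro rfl
      obtain ⟨V, hV, hV'⟩ := hl (1 / (‖Ai‖ + 1)) (by positivity)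
      obtain ⟨y, hy, hy'⟩ := exists_unit_orthogonal b hH V hV
      have h1 := hV' y hy hy'
      rw [zero_smul, sub_zero] at h1
      have h2 : Ai (A y) = y := congrArg (fun Z : H →L[ℂ] H => Z y) hA
      have h3 := Ai.le_opNorm (A y)
      rw [h2, hy] at h3
      have h4 : ‖Ai‖ * ‖A y‖ ≤ ‖Ai‖ * (1 / (‖Ai‖ + 1)) :=
        mul_le_mul_of_nonneg_left h1 (norm_nonneg _)
      have h5 : ‖Ai‖ * (1 / (‖Ai‖ + 1)) < 1 := by
        rw [mul_one_div, div_lt_one (by positivity)]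
        linarith
      linarith
    · obtain ⟨e1, he1, he1V⟩ := exists_unit_orthogonal b hH V hV
      have he10 : e1 ≠ 0 := by
        rintro rfl
        simp at he1
      by_cases hK : A e1 - l • e1 = 0
      · exact ⟨e1, he10, he1V, Or.inl hK⟩
      set k1 := A e1 - l • e1 with hk1
      have hη : 0 < ‖k1‖ := norm_pos_iff.2 hK
      obtain ⟨V', hV', hV''⟩ := hl (‖k1‖ / 10) (by positivity)
      obtain ⟨e2, he2, he2V⟩ := exists_unit_orthogonal b hH (V ∪ V' ∪ {e1} ∪ {k1})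
        (small_union (small_union (small_union hV hV') (small_singleton _)) (small_singleton _))
      have o1 : ⟪e1, e2⟫_ℂ = 0 := he2V _ (Or.inl (Or.inr rfl))
      have o2 : ⟪k1, e2⟫_ℂ = 0 := he2V _ (Or.inr rfl)
      have hk2 := hV'' e2 he2 (fun v hv => he2V v (Or.inl (Or.inl (Or.inr hv))))
      set k2 := A e2 - l • e2 with hk2def
      have h22 : ⟪e2, e2⟫_ℂ = 1 := by rw [inner_self_eq_norm_sq_to_K, he2]; simp
      have h11 : ⟪e1, e1⟫_ℂ = 1 := by rw [inner_self_eq_norm_sq_to_K, he1]; simp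
      set t := ⟪e1, k1⟫_ℂ with ht
      have htn : ‖t‖ ≤ ‖k1‖ := by
        refine (norm_inner_le_norm _ _).trans ?_
        rw [he1, one_mul]
      have hz' : ⟪k1 - t • e2, e1 + e2⟫_ℂ = 0 := by
        rw [inner_sub_left, inner_add_right, inner_add_right, inner_smul_left, inner_smul_left, o2,
          symm0 o1, h22, ht, inner_conj_symm]
        ring
      have hKz : A (e1 + e2) - l • (e1 + e2) = k1 + k2 := by
        rw [map_add, smul_add, hk1, hk2def]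
        abel
      have hzn : ‖k1 - t • e2‖ ≤ 2 * ‖k1‖ := by
        refine (norm_sub_le _ _).trans ?_
        rw [norm_smul, he2, mul_one]
        linarith
      have hin : ⟪k1 - t • e2, A (e1 + e2)⟫_ℂ = ⟪k1, k1⟫_ℂ + ⟪k1 - t • e2, k2⟫_ℂ := by
        have : A (e1 + e2) = (k1 + k2) + l • (e1 + e2) := by rw [← hKz]; abel
        rw [this, inner_add_right, inner_smul_right, hz', mul_zero, add_zero, inner_add_right,
          inner_sub_left k1, inner_smul_left, symm0 o2, mul_zero, sub_zero]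
      have hlow : ‖k1‖ ^ 2 - 2 * ‖k1‖ * (‖k1‖ / 10) ≤ ‖⟪k1 - t • e2, A (e1 + e2)⟫_ℂ‖ := by
        rw [hin]
        have q1 : ‖⟪k1, k1⟫_ℂ‖ = ‖k1‖ ^ 2 := by
          rw [inner_self_eq_norm_sq_to_K]
          simp
        have q2 : ‖⟪k1 - t • e2, k2⟫_ℂ‖ ≤ 2 * ‖k1‖ * (‖k1‖ / 10) :=
          (norm_inner_le_norm _ _).trans (mul_le_mul hzn hk2 (norm_nonneg _) (by positivity))
        have q3 := norm_sub_le (⟪k1, k1⟫_ℂ + ⟪k1 - t • e2, k2⟫_ℂ) ⟪k1 - t • e2, k2⟫_ℂ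
        rw [add_sub_cancel_right, q1] at q3
        linarith
      refine ⟨e1 + e2, fun h0 => ?_, fun v hv => ?_, Or.inr ⟨k1 - t • e2, fun h0 => ?_, hz', ?_⟩⟩
      · have : ⟪e1, e1 + e2⟫_ℂ = 1 := by rw [inner_add_right, h11, o1, add_zero]
        rw [h0, inner_zero_right] at this
        exact zero_ne_one this
      · rw [inner_add_right, he1V v hv, he2V v (Or.inl (Or.inl (Or.inl hv))), add_zero]
      · rw [h0, inner_zero_left, norm_zero] at hlow
        nlinarith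
      · rw [hKz]
        have q4 : ‖k1 + k2‖ ≤ 2 * ‖k1‖ := (norm_add_le _ _).trans (by linarith)
        have q5 : ‖k1 + k2‖ * ‖k1 - t • e2‖ ≤ (2 * ‖k1‖) * (2 * ‖k1‖) :=
          mul_le_mul q4 hzn (norm_nonneg _) (by positivity)
        nlinarith
  · push Not at h
    obtain ⟨δ, hδ, h⟩ := h
    refine ⟨1, (‖A‖ + 1) / δ, one_ne_zero, by positivity, fun V hV => ?_⟩
    obtain ⟨z, z', hz, hzz, hlt⟩ := h V hV
    refine ⟨z, ?_, hz, Or.inr ⟨z', ?_, hzz, ?_⟩⟩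
    · rintro rfl
      simp at hlt
    · rintro rfl
      simp at hlt
    · have q1 : ‖A z - (1 : ℂ) • z‖ ≤ (‖A‖ + 1) * ‖z‖ := by
        refine (norm_sub_le _ _).trans ?_
        rw [one_smul, add_mul, one_mul]
        exact add_le_add (A.le_opNorm z) le_rfl
      have q2 : ‖A z - (1 : ℂ) • z‖ * ‖z'‖ ≤ (‖A‖ + 1) * ‖z‖ * ‖z'‖ :=
        mul_le_mul_of_nonneg_right q1 (norm_nonneg _)
      refine q2.trans ?_
      have : (‖A‖ + 1) * ‖z‖ * ‖z'‖ = (‖A‖ + 1) / δ * (δ * ‖z‖ * ‖z'‖) := by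
        field_simp
      rw [this]
      exact mul_le_mul_of_nonneg_left hlt.le (by positivity)

/-- good pairs -/
def GoodPair (A : H →L[ℂ] H) (μ : ℂ) (C : ℝ) (p : H × H) : Prop :=
  ‖p.1‖ = 1 ∧ ‖p.2‖ = 1 ∧ ⟪p.1, p.2⟫_ℂ = 0 ∧ ∃ a c : ℂ, A p.1 = a • p.1 + c • p.2 ∧
    ‖a‖ ≤ ‖A‖ ∧ ‖c‖ ≤ 2 * ‖A‖ ∧ ‖μ ^ 2 - a ^ 2‖ ≤ C * ‖c‖

theorem exists_pair {ι : Type u} (b : HilbertBasis ι ℂ H) (hH : ¬ FiniteDimensional ℂ H)
    (A Ai : H →L[ℂ] H) (hA : Ai * A = 1) : ∃ (μ : ℂ) (C : ℝ), μ ≠ 0 ∧ 0 ≤ C ∧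
      ∀ V : Set H, #V < #ι → ∃ p : H × H, GoodPair A μ C p ∧ (∀ v ∈ V, ⟪v, p.1⟫_ℂ = 0) ∧
        ∀ v ∈ V, ⟪v, p.2⟫_ℂ = 0 := by
  have hinf : Infinite ι := infinite_index b hH
  obtain ⟨μ, C, hμ, hC, h⟩ := exists_mu b hH A Ai hA
  refine ⟨μ, (‖μ‖ + ‖A‖) * C, hμ, by positivity, fun V hV => ?_⟩
  obtain ⟨z, hz0, hzV, hz⟩ := h (V ∪ (ContinuousLinearMap.adjoint A) '' V)
    (small_union hV (mk_image_le.trans_lt hV))
  have hzn : 0 < ‖z‖ := norm_pos_iff.2 hz0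
  set x : H := ((‖z‖⁻¹ : ℝ) : ℂ) • z with hx
  have hx1 : ‖x‖ = 1 := by
    rw [hx, norm_smul, Complex.norm_real, norm_inv, norm_norm, inv_mul_cancel₀ hzn.ne']
  have hxx : ⟪x, x⟫_ℂ = 1 := by rw [inner_self_eq_norm_sq_to_K, hx1]; simp
  have hxV : ∀ v ∈ V, ⟪v, x⟫_ℂ = 0 := fun v hv => by
    rw [hx, inner_smul_right, hzV v (Or.inl hv), mul_zero]
  have hAxV : ∀ v ∈ V, ⟪v, A x⟫_ℂ = 0 := fun v hv => by
    rw [← ContinuousLinearMap.adjoint_inner_left, hx, inner_smul_right,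
      hzV _ (Or.inr ⟨v, hv, rfl⟩), mul_zero]
  set a := ⟪x, A x⟫_ℂ with ha
  set r := A x - a • x with hr
  have hAx : ‖A x‖ ≤ ‖A‖ := by simpa [hx1] using A.le_opNorm x
  have han : ‖a‖ ≤ ‖A‖ := by
    refine (norm_inner_le_norm _ _).trans ?_
    rw [hx1, one_mul]
    exact hAx
  have hrn : ‖r‖ ≤ 2 * ‖A‖ := by
    refine (norm_sub_le _ _).trans ?_
    rw [norm_smul, hx1, mul_one]
    linarith
  have hxr : ⟪x, r⟫_ℂ = 0 := by rw [hr, inner_sub_right, inner_smul_right, hxx, mul_one, sub_self]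
  have hKx : A x - μ • x = ((‖z‖⁻¹ : ℝ) : ℂ) • (A z - μ • z) := by
    rw [hx, map_smul, smul_sub, smul_comm]
  have k1 : ‖A x - μ • x‖ ≤ C * ‖r‖ := by
    rcases hz with hz | ⟨z', hz'0, hz'z, hz'⟩
    · rw [hKx, hz, smul_zero, norm_zero]
      positivity
    · have hz'n : 0 < ‖z'‖ := norm_pos_iff.2 hz'0
      have q1 : ⟪z', r⟫_ℂ = ((‖z‖⁻¹ : ℝ) : ℂ) * ⟪z', A z⟫_ℂ := by
        rw [hr, inner_sub_right, inner_smul_right, hx, inner_smul_right, hz'z, map_smul,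
          inner_smul_right]
        ring
      have q2 : ‖z‖⁻¹ * ‖⟪z', A z⟫_ℂ‖ ≤ ‖z'‖ * ‖r‖ := by
        have := norm_inner_le_norm (𝕜 := ℂ) z' r
        rwa [q1, norm_mul, Complex.norm_real, norm_inv, norm_norm] at this
      rw [hKx, norm_smul, Complex.norm_real, norm_inv, norm_norm]
      refine le_of_mul_le_mul_right ?_ hz'n
      calc ‖z‖⁻¹ * ‖A z - μ • z‖ * ‖z'‖ = ‖z‖⁻¹ * (‖A z - μ • z‖ * ‖z'‖) := by ring
        _ ≤ ‖z‖⁻¹ * (C * ‖⟪z', A z⟫_ℂ‖) := mul_le_mul_of_nonneg_left hz' (by positivity)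
        _ = C * (‖z‖⁻¹ * ‖⟪z', A z⟫_ℂ‖) := by ring
        _ ≤ C * (‖z'‖ * ‖r‖) := mul_le_mul_of_nonneg_left q2 hC
        _ = C * ‖r‖ * ‖z'‖ := by ring
  have k2 : ‖μ ^ 2 - a ^ 2‖ ≤ (‖μ‖ + ‖A‖) * C * ‖r‖ := by
    have q1 : a - μ = ⟪x, A x - μ • x⟫_ℂ := by
      rw [inner_sub_right, inner_smul_right, hxx, mul_one]
    have q2 : ‖μ - a‖ ≤ C * ‖r‖ := by
      rw [norm_sub_rev, q1]
      refine (norm_inner_le_norm _ _).trans ?_
      rwa [hx1, one_mul]
    rw [sq_sub_sq, norm_mul, mul_assoc]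
    exact mul_le_mul ((norm_add_le _ _).trans (add_le_add le_rfl han)) q2 (norm_nonneg _)
      (by positivity)
  by_cases hr0 : r = 0
  · obtain ⟨e, he, heV⟩ := exists_unit_orthogonal b hH (V ∪ {x}) (small_union hV (small_singleton _))
    refine ⟨(x, e), ⟨hx1, he, heV _ (Or.inr rfl), a, 0, ?_, han, by simp, ?_⟩, hxV,
      fun v hv => heV v (Or.inl hv)⟩
    · rw [zero_smul, add_zero]
      exact sub_eq_zero.1 hr0
    · rw [hr0] at k2
      simpa using k2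
  · have hrp : 0 < ‖r‖ := norm_pos_iff.2 hr0
    refine ⟨(x, ((‖r‖⁻¹ : ℝ) : ℂ) • r), ⟨hx1, ?_, ?_, a, (‖r‖ : ℝ), ?_, han, by simpa using hrn,
      by simpa using k2⟩, hxV, fun v hv => ?_⟩
    · rw [norm_smul, Complex.norm_real, norm_inv, norm_norm, inv_mul_cancel₀ hrp.ne']
    · rw [inner_smul_right, hxr, mul_zero]
    · show A x = a • x + ((‖r‖ : ℝ) : ℂ) • ((‖r‖⁻¹ : ℝ) : ℂ) • r
      rw [smul_smul ((‖r‖ : ℝ) : ℂ), ← Complex.ofReal_mul, mul_inv_cancel₀ hrp.ne',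
        Complex.ofReal_one, one_smul, hr]
      abel
    · rw [inner_smul_right, hr, inner_sub_right, inner_smul_right, hAxV v hv, hxV v hv]
      simp

theorem exists_family {ι : Type u} (b : HilbertBasis ι ℂ H) (hH : ¬ FiniteDimensional ℂ H)
    (G : H × H → Prop) (hG : ∀ p, G p → ‖p.1‖ = 1)
    (h : ∀ V : Set H, #V < #ι → ∃ p : H × H, G p ∧ (∀ v ∈ V, ⟪v, p.1⟫_ℂ = 0) ∧
        ∀ v ∈ V, ⟪v, p.2⟫_ℂ = 0) :
    ∃ p : ι → H × H, (∀ i, G (p i)) ∧ ∀ i j, i ≠ j → ⟪(p i).1, (p j).1⟫_ℂ = 0 ∧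
      ⟪(p i).1, (p j).2⟫_ℂ = 0 ∧ ⟪(p i).2, (p j).2⟫_ℂ = 0 := by
  have hinf : Infinite ι := infinite_index b hH
  let Ad : Set (H × H) → Prop := fun S => ∀ p ∈ S, G p ∧ ∀ q ∈ S, p ≠ q →
    ⟪p.1, q.1⟫_ℂ = 0 ∧ ⟪p.1, q.2⟫_ℂ = 0 ∧ ⟪p.2, q.2⟫_ℂ = 0
  obtain ⟨S, hS⟩ : ∃ S, Maximal Ad S := by
    refine zorn_subset {S | Ad S} ?_
    intro c hc hchain
    refine ⟨⋃₀ c, ?_, fun s hs => Set.subset_sUnion_of_mem hs⟩
    rintro p ⟨s, hs, hps⟩
    have h1 : Ad s := hc hs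
    refine ⟨(h1 p hps).1, ?_⟩
    rintro q ⟨t, ht, hqt⟩
    rcases hchain.total hs ht with h | h
    · exact ((hc ht : Ad t) p (h hps)).2 q hqt
    · exact (h1 p hps).2 q (h hqt)
  have hle : #ι ≤ #S := by
    by_contra hlt
    rw [not_le] at hlt
    obtain ⟨p, hp, h1, h2⟩ := h (Prod.fst '' S ∪ Prod.snd '' S)
      (small_union (mk_image_le.trans_lt hlt) (mk_image_le.trans_lt hlt))
    have hnew : Ad (insert p S) := by
      rintro q (rfl | hq)
      · refine ⟨hp, ?_⟩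
        rintro r (rfl | hr) hne
        · exact absurd rfl hne
        · exact ⟨symm0 (h1 _ (Or.inl ⟨r, hr, rfl⟩)), symm0 (h1 _ (Or.inr ⟨r, hr, rfl⟩)),
            symm0 (h2 _ (Or.inr ⟨r, hr, rfl⟩))⟩
      · refine ⟨(hS.prop q hq).1, ?_⟩
        rintro r (rfl | hr) hne
        · exact ⟨h1 _ (Or.inl ⟨q, hq, rfl⟩), h2 _ (Or.inl ⟨q, hq, rfl⟩), h2 _ (Or.inr ⟨q, hq, rfl⟩)⟩
        · exact (hS.prop q hq).2 r hr hne
    have hmem : p ∈ S := hS.le_of_ge hnew (Set.subset_insert _ _) (Set.mem_insert _ _)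
    have := h1 _ (Or.inl ⟨p, hmem, rfl⟩)
    rw [inner_self_eq_zero] at this
    have h3 := hG p hp
    rw [this, norm_zero] at h3
    exact zero_ne_one h3
  obtain ⟨e⟩ : Nonempty (ι ↪ S) := (Cardinal.le_def _ _).1 hle
  exact ⟨fun i => e i, fun i => (hS.prop _ (e i).2).1, fun i j hij =>
    (hS.prop _ (e i).2).2 _ (e j).2 (fun h => hij (e.injective (Subtype.ext h)))⟩

theorem ring_T {R : Type u} [Ring R] (X X' E E' t1 t2 t3 : R) (x1 : X' * X = 1) (x2 : E' * E = 1)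
    (x3 : X' * E = 0) (x4 : E' * X = 0) (h1 : t1 * t1 + t2 * t3 = 1) (h2 : t1 * t2 = t2 * t1)
    (h3 : t3 * t1 = t1 * t3) (h4 : t3 * t2 + t1 * t1 = 1) :
    ∃ T : R, T * T = 1 ∧ T * X = X * t1 + E * t3 ∧ T * E = X * t2 - E * t1 := by
  obtain ⟨T, hT⟩ : ∃ T : R, T = 1 - X * X' - E * E' + (X * t1 + E * t3) * X' +
      (X * t2 - E * t1) * E' := ⟨_, rfl⟩
  have e1 : T * X = X * t1 + E * t3 := by
    rw [hT]
    simp only [add_mul, sub_mul, mul_assoc, x1, x4, mul_one, mul_zero, one_mul]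
    abel
  have e2 : T * E = X * t2 - E * t1 := by
    rw [hT]
    simp only [add_mul, sub_mul, mul_assoc, x2, x3, mul_one, mul_zero, one_mul]
    abel
  refine ⟨T, ?_, e1, e2⟩
  have e3 : T * (X * t1 + E * t3) = X := by
    rw [mul_add, ← mul_assoc, ← mul_assoc, e1, e2]
    have : (X * t1 + E * t3) * t1 + (X * t2 - E * t1) * t3 =
        X * (t1 * t1 + t2 * t3) + E * (t3 * t1 - t1 * t3) := by noncomm_ring
    rw [this, h1, h3, sub_self, mul_one, mul_zero, add_zero]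
  have e4 : T * (X * t2 - E * t1) = E := by
    rw [mul_sub, ← mul_assoc, ← mul_assoc, e1, e2]
    have : (X * t1 + E * t3) * t2 - (X * t2 - E * t1) * t1 =
        X * (t1 * t2 - t2 * t1) + E * (t3 * t2 + t1 * t1) := by noncomm_ring
    rw [this, h2, h4, sub_self, mul_one, mul_zero, zero_add]
  nth_rewrite 2 [hT]
  rw [mul_add, mul_add, mul_sub, mul_sub, mul_one, ← mul_assoc, ← mul_assoc, ← mul_assoc,
    ← mul_assoc, e1, e2, e3, e4, hT]
  abel

theorem exists_T (hH : ¬ FiniteDimensional ℂ H) (A Ai : H →L[ℂ] H) (hA : Ai * A = 1) :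
    ∃ (T X X' Y Y' : H →L[ℂ] H) (μ : ℂ), T * T = 1 ∧ μ ≠ 0 ∧ X' * X = 1 ∧ Y' * Y = 1 ∧
      X' * Y = 0 ∧ Y' * X = 0 ∧ T * A * X = μ • X ∧ T * A * Y = (-μ) • Y := by
  classical
  obtain ⟨w, b, -⟩ := exists_hilbertBasis ℂ H
  have hinf : Infinite w := infinite_index b hH
  obtain ⟨μ, C, hμ, hC, h⟩ := exists_pair b hH A Ai hA
  obtain ⟨p, hp, horth⟩ := exists_family b hH (GoodPair A μ C) (fun p hp => hp.1) h
  choose a c hac ha hc hμac using fun i => (hp i).2.2.2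
  obtain ⟨e⟩ : Nonempty (w × Bool ≃ w) := by
    rw [← Cardinal.eq, mk_prod, Cardinal.lift_uzero, mk_bool, Cardinal.lift_two]
    exact mul_eq_left (aleph0_le_mk w) ((natCast_lt_aleph0 (n := 2)).le.trans (aleph0_le_mk w))
      two_ne_zero
  let m : w → ℂ := fun i => if (e.symm i).2 then μ else -μ
  have hm2 : ∀ i, m i ^ 2 = μ ^ 2 := fun i => by
    simp only [m]
    split_ifs <;> ring
  have hmn : ∀ i, ‖m i‖ = ‖μ‖ := fun i => by
    simp only [m]
    split_ifs <;> simp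
  have hm0 : ∀ i, m i ≠ 0 := fun i h0 => by
    have := hmn i
    rw [h0, norm_zero] at this
    exact hμ (norm_eq_zero.1 this.symm)
  have hμn : 0 < ‖μ‖ := norm_pos_iff.2 hμ
  obtain ⟨X, hX, hXb⟩ := exists_isom b (v := fun i => (p i).1)
    ⟨fun i => (hp i).1, fun i j hij => (horth i j hij).1⟩
  obtain ⟨E, hE, hEb⟩ := exists_isom b (v := fun i => (p i).2)
    ⟨fun i => (hp i).2.1, fun i j hij => (horth i j hij).2.2⟩
  have hxe : ∀ i j, ⟪(p i).1, (p j).2⟫_ℂ = 0 := fun i j => by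
    by_cases hij : i = j
    · rw [hij]
      exact (hp j).2.2.1
    · exact (horth i j hij).2.1
  have hXE := adj_mul_zero b (X := X) (Y := E) (fun i j => by rw [hXb, hEb]; exact hxe j i)
  have hEX := adj_mul_zero b (X := E) (Y := X) (fun i j => by rw [hXb, hEb]; exact symm0 (hxe i j))
  obtain ⟨t1, ht1⟩ := exists_diag b (fun i => a i / m i) (‖A‖ / ‖μ‖) (by positivity)
    (fun i => by rw [norm_div, hmn]; exact div_le_div_of_nonneg_right (ha i) hμn.le)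
  obtain ⟨t3, ht3⟩ := exists_diag b (fun i => c i / m i) (2 * ‖A‖ / ‖μ‖) (by positivity)
    (fun i => by rw [norm_div, hmn]; exact div_le_div_of_nonneg_right (hc i) hμn.le)
  obtain ⟨t2, ht2⟩ := exists_diag b (fun i => (μ ^ 2 - a i ^ 2) / (m i * c i)) (C / ‖μ‖)
    (by positivity) (fun i => by
      by_cases h0 : c i = 0
      · rw [h0, mul_zero, div_zero, norm_zero]
        positivity
      · have : 0 < ‖c i‖ := norm_pos_iff.2 h0
        rw [norm_div, norm_mul, hmn, div_le_div_iff₀ (by positivity) hμn]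
        nlinarith [hμac i])
  have key : ∀ i, a i / m i * a i + (μ ^ 2 - a i ^ 2) / (m i * c i) * c i = m i := by
    intro i
    have h0m := hm0 i
    by_cases h0 : c i = 0
    · have h1 := hμac i
      rw [h0, norm_zero, mul_zero, norm_le_zero_iff, sub_eq_zero] at h1
      rw [h0, mul_zero, add_zero]
      field_simp
      rw [hm2, h1]
    · field_simp
      rw [hm2]
      ring
  have key2 : ∀ i, a i / m i * (a i / m i) +
      (μ ^ 2 - a i ^ 2) / (m i * c i) * (c i / m i) = 1 := by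
    intro i
    have h0m := hm0 i
    have := congrArg (fun z => z / m i) (key i)
    simp only [div_self h0m] at this
    rw [← this]
    ring
  obtain ⟨T, hT, hTX, hTE⟩ := ring_T X _ E _ t1 t2 t3 hX hE hXE hEX
    (ext_basis b fun i => by
      show t1 (t1 (b i)) + t2 (t3 (b i)) = b i
      rw [ht1, ht3, map_smul, map_smul, ht1, ht2, smul_smul, smul_smul, ← add_smul,
        mul_comm (c i / m i), key2, one_smul])
    (ext_basis b fun i => by
      show t1 (t2 (b i)) = t2 (t1 (b i))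
      rw [ht1, ht2, map_smul, map_smul, ht1, ht2, smul_comm])
    (ext_basis b fun i => by
      show t3 (t1 (b i)) = t1 (t3 (b i))
      rw [ht1, ht3, map_smul, map_smul, ht1, ht3, smul_comm])
    (ext_basis b fun i => by
      show t3 (t2 (b i)) + t1 (t1 (b i)) = b i
      rw [ht1, ht2, map_smul, map_smul, ht1, ht3, smul_smul, smul_smul, ← add_smul, add_comm,
        key2, one_smul])
  have hG : ∀ i, T (A (X (b i))) = m i • X (b i) := by
    intro i
    have q1 : T (X (b i)) = X (t1 (b i)) + E (t3 (b i)) :=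
      congrArg (fun Z : H →L[ℂ] H => Z (b i)) hTX
    have q2 : T (E (b i)) = X (t2 (b i)) - E (t1 (b i)) :=
      congrArg (fun Z : H →L[ℂ] H => Z (b i)) hTE
    rw [ht1, ht3, map_smul, map_smul, hXb, hEb] at q1
    rw [ht1, ht2, map_smul, map_smul, hXb, hEb] at q2
    rw [hXb, hac, map_add, map_smul, map_smul, q1, q2]
    have := key i
    match_scalars
    · linear_combination this
    · ring
  obtain ⟨I, hI, hIb⟩ := exists_isom b (v := fun i => b (e (i, true)))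
    (b.orthonormal.comp _ (fun i j hij => by simpa using hij))
  obtain ⟨J, hJ, hJb⟩ := exists_isom b (v := fun i => b (e (i, false)))
    (b.orthonormal.comp _ (fun i j hij => by simpa using hij))
  have hIJ := adj_mul_zero b (X := I) (Y := J) (fun i j => by
    rw [hIb, hJb]
    exact b.orthonormal.2 (fun h => by simp at h))
  have hJI := adj_mul_zero b (X := J) (Y := I) (fun i j => by
    rw [hIb, hJb]
    exact b.orthonormal.2 (fun h => by simp at h))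
  have l1 : ∀ z, ContinuousLinearMap.adjoint X * (X * z) = z := fun z => by
    rw [← mul_assoc, hX, one_mul]
  refine ⟨T, X * I, ContinuousLinearMap.adjoint I * ContinuousLinearMap.adjoint X, X * J,
    ContinuousLinearMap.adjoint J * ContinuousLinearMap.adjoint X, μ, hT, hμ, ?_, ?_, ?_, ?_,
    ext_basis b fun i => ?_, ext_basis b fun i => ?_⟩
  · rw [mul_assoc, l1, hI]
  · rw [mul_assoc, l1, hJ]
  · rw [mul_assoc, l1, hIJ]
  · rw [mul_assoc, l1, hJI]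
  · show T (A (X (I (b i)))) = μ • X (I (b i))
    rw [hIb, hG]
    simp [m]
  · show T (A (X (J (b i)))) = (-μ) • X (J (b i))
    rw [hJb, hG]
    simp [m]

theorem five (hH : ¬ FiniteDimensional ℂ H) (A : H →L[ℂ] H) :
    IsUnit A ↔ ∃ T : Fin 5 → (H →L[ℂ] H), (∀ i, T i * T i = 1) ∧
      A = T 0 * T 1 * T 2 * T 3 * T 4 := by
  constructor
  · rintro ⟨u, rfl⟩
    obtain ⟨T, X, X', Y, Y', μ, hT, hμ, x1, x2, x3, x4, gx, gy⟩ := exists_T hH u.val u.inv u.inv_val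
    obtain ⟨V, V', W, W', h1, h2, h3, h4, h5, sw⟩ := exists_swindle hH
    obtain ⟨_, _, ⟨j1, j2, a1, a2, rfl⟩, ⟨j3, j4, a3, a4, rfl⟩, e⟩ :=
      four_of_eigen V V' W W' h1 h2 h3 h4 h5 sw (T * u.val) (u.inv * T)
        (by rw [mul_assoc, ← mul_assoc u.val, u.val_inv, one_mul, hT])
        (by rw [mul_assoc, ← mul_assoc T, hT, one_mul, u.inv_val]) X X' Y Y' x1 x2 x3 x4 μ hμ gx gy
    refine ⟨![T, j1, j2, j3, j4], ?_, ?_⟩
    · intro i
      fin_cases i <;> simp [*]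
    · show u.val = T * j1 * j2 * j3 * j4
      have : T * j1 * j2 * j3 * j4 = T * (j1 * j2 * (j3 * j4)) := by simp only [mul_assoc]
      rw [this, ← e, ← mul_assoc, hT, one_mul]
  · rintro ⟨T, hT, rfl⟩
    have h : ∀ i, IsUnit (T i) := fun i => ⟨⟨T i, T i, hT i, hT i⟩, rfl⟩
    exact ((((h 0).mul (h 1)).mul (h 2)).mul (h 3)).mul (h 4)

end Pool.Agent.H37Z.Five
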