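import Pool.Agent.H37Z.InvDefs

set_option autoImplicit false

namespace Pool.Agent.H37Z.Inv

open FirstOrder FirstOrder.Language Cardinal Set

universe u v w

theorem fip_of_base {X : Type w} (S B : Set (Set X)) (h0 : B.Nonempty)
    (hdir : ∀ s ∈ B, ∀ t ∈ B, ∃ r ∈ B, r ⊆ s ∩ t) (hne : ∀ s ∈ B, s.Nonempty)
    (hS : ∀ s ∈ S, ∃ t ∈ B, t ⊆ s) : FIP S := by
  classical
  have key : ∀ T : Finset (Set X), (↑T : Set (Set X)) ⊆ S → ∃ t ∈ B, t ⊆ ⋂₀ (↑T : Set (Set X)) := by
    intro T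
    induction T using Finset.induction_on with
    | empty =>
      intro _
      obtain ⟨t, ht⟩ := h0
      exact ⟨t, ht, by simp⟩
    | insert s T _ ih =>
      intro hT
      rw [Finset.coe_insert] at hT ⊢
      obtain ⟨t, ht, htT⟩ := ih (fun x hx => hT (Or.inr hx))
      obtain ⟨t', ht', hts⟩ := hS s (hT (Or.inl rfl))
      obtain ⟨r, hr, hrs⟩ := hdir t' ht' t ht
      refine ⟨r, hr, ?_⟩
      rw [sInter_insert]
      exact fun x hx => ⟨hts (hrs hx).1, htT (hrs hx).2⟩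
  intro T hT
  obtain ⟨t, ht, htT⟩ := key T hT
  exact (hne t ht).mono htT

theorem FIP.mono {X : Type w} {S S' : Set (Set X)} (h : FIP S) (hS : S' ⊆ S) : FIP S' :=
  fun T hT => h T (hT.trans hS)

variable {L : FirstOrder.Language.{u, v}} {U : Type w} [L.Structure U] {α β γ : Type}
  {κ : Cardinal.{w}}

theorem GType.inter3 (p : GType L U α) {D E F : Set (α → U)} (hD : D ∈ p.sets) (hE : E ∈ p.sets)
    (hF : F ∈ p.sets) : ∃ x, x ∈ D ∧ x ∈ E ∧ x ∈ F := by
  classical
  obtain ⟨x, hx⟩ := p.fip {D, E, F} (by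
    intro s hs
    simp only [Finset.coe_insert, Finset.coe_singleton, mem_insert_iff, mem_singleton_iff] at hs
    rcases hs with rfl | rfl | rfl <;> assumption)
  simp only [Finset.coe_insert, Finset.coe_singleton, sInter_insert, sInter_singleton,
    mem_inter_iff] at hx
  exact ⟨x, hx⟩

theorem GType.nonempty (p : GType L U α) {D : Set (α → U)} (hD : D ∈ p.sets) : D.Nonempty := by
  obtain ⟨x, hx, -⟩ := p.inter3 hD hD hD
  exact ⟨x, hx⟩

theorem GType.not_compl (p : GType L U α) {D : Set (α → U)} (hD : D ∈ p.sets) : Dᶜ ∉ p.sets := by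
  intro h
  obtain ⟨x, hx, hx', -⟩ := p.inter3 hD h h
  exact hx' hx

theorem GType.mono (p : GType L U α) {D E : Set (α → U)} (hD : D ∈ p.sets) (hDE : D ⊆ E)
    (hE : (univ : Set U).Definable L E) : E ∈ p.sets := by
  rcases p.complete E hE with h | h
  · exact h
  · obtain ⟨x, hx, hx', -⟩ := p.inter3 hD h h
    exact absurd (hDE hx) hx'

theorem GType.inter (p : GType L U α) {D E : Set (α → U)} (hD : D ∈ p.sets) (hE : E ∈ p.sets) :
    D ∩ E ∈ p.sets := by
  rcases p.complete (D ∩ E) ((p.definable D hD).inter (p.definable E hE)) with h | h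
  · exact h
  · obtain ⟨x, hx, hx', hx''⟩ := p.inter3 hD hE h
    exact absurd ⟨hx, hx'⟩ hx''

theorem GType.univ_mem (p : GType L U α) : Set.univ ∈ p.sets := by
  rcases p.complete Set.univ definable_univ with h | h
  · exact h
  · simpa using p.nonempty h

theorem GType.ext' {p q : GType L U α} (h : p.sets = q.sets) : p = q := by
  cases p
  cases q
  simp only at h
  subst h
  rfl

theorem exists_gtype (S : Set (Set (α → U))) (hS : ∀ D ∈ S, (univ : Set U).Definable L D)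
    (hf : FIP S) : ∃ p : GType L U α, S ⊆ p.sets := by
  obtain ⟨F, hF⟩ := Ultrafilter.exists_ultrafilter_of_finite_inter_nonempty S hf
  refine ⟨⟨{D | (univ : Set U).Definable L D ∧ D ∈ F}, fun D hD => hD.1, fun D hD => ?_, ?_⟩,
    fun D hD => ⟨hS D hD, hF hD⟩⟩
  · rcases F.mem_or_compl_mem D with h | h
    · exact Or.inl ⟨hD, h⟩
    · exact Or.inr ⟨hD.compl, h⟩
  · intro T hT
    have : ⋂₀ (↑T : Set (Set (α → U))) ∈ F :=
      (Filter.sInter_mem T.finite_toSet).2 (fun s hs => (hT hs).2)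
    exact F.nonempty_of_mem this

/-- substituting parameters and renaming variables -/
theorem definable_subst {B C : Set U} {D : Set (γ → U)} (hD : B.Definable L D) (hBC : B ⊆ C)
    (g : γ → C ⊕ α) :
    C.Definable L {a : α → U | (Sum.elim (Subtype.val : C → U) a ∘ g) ∈ D} := by
  rw [definable_iff_exists_formula_sum] at hD ⊢
  obtain ⟨φ, rfl⟩ := hD
  refine ⟨φ.relabel (Sum.elim (fun x => Sum.inl (Set.inclusion hBC x)) g), ?_⟩
  ext a
  simp only [mem_ofPred_eq, Formula.realize_relabel]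
  refine iff_of_eq (congrArg _ ?_)
  funext x
  rcases x with x | x <;> rfl

theorem definable_fibre {B C : Set U} {D : Set (α ⊕ β → U)} (hD : B.Definable L D) (hBC : B ⊆ C)
    {b : β → U} (hb : range b ⊆ C) : C.Definable L {a : α → U | Sum.elim a b ∈ D} := by
  have := definable_subst (α := α) hD hBC
    (Sum.elim Sum.inr (fun j => Sum.inl ⟨b j, hb ⟨j, rfl⟩⟩))
  convert this using 3 with a
  refine iff_of_eq (congrArg _ ?_)
  funext x
  rcases x with x | x <;> rfl

theorem definable_fibre' {B C : Set U} {D : Set (α ⊕ β → U)} (hD : B.Definable L D) (hBC : B ⊆ C)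
    {a : α → U} (ha : range a ⊆ C) : C.Definable L {b : β → U | Sum.elim a b ∈ D} := by
  have := definable_subst (α := β) hD hBC
    (Sum.elim (fun j => Sum.inl ⟨a j, ha ⟨j, rfl⟩⟩) Sum.inr)
  convert this using 3 with a
  refine iff_of_eq (congrArg _ ?_)
  funext x
  rcases x with x | x <;> rfl

theorem realize_aut {ι : Type*} (σ : U ≃[L] U) (φ : L.Formula ι) (x : ι → U) :
    φ.Realize (σ ∘ x) ↔ φ.Realize x :=
  StrongHomClass.realize_formula σ φ

theorem definable_aut {B : Set U} {D : Set (α → U)} (hD : B.Definable L D) (σ : U ≃[L] U)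
    (hσ : ∀ x ∈ B, σ x = x) (a : α → U) : σ ∘ a ∈ D ↔ a ∈ D := by
  rw [definable_iff_exists_formula_sum] at hD
  obtain ⟨φ, rfl⟩ := hD
  simp only [mem_ofPred_eq]
  rw [← realize_aut σ φ (Sum.elim Subtype.val a)]
  refine iff_of_eq (congrArg _ ?_)
  funext x
  rcases x with x | x
  · exact (hσ x x.2).symm
  · rfl

theorem IsMonster.small_union (hU : IsMonster L U κ) {A B : Set U} (hA : #A < κ) (hB : #B < κ) :
    #(A ∪ B : Set U) < κ :=
  (mk_union_le A B).trans_lt (add_lt_of_lt hU.uncountable.le hA hB)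

theorem IsMonster.small_finite (hU : IsMonster L U κ) {A : Set U} (hA : A.Finite) : #A < κ :=
  (lt_aleph0_iff_set_finite.2 hA).trans hU.uncountable

theorem IsMonster.small_range (hU : IsMonster L U κ) [Finite α] (a : α → U) :
    #(range a) < κ :=
  hU.small_finite (finite_range a)

theorem exists_finite_definable {D : Set (α → U)} (hD : (univ : Set U).Definable L D) :
    ∃ A : Set U, A.Finite ∧ A.Definable L D := by
  obtain ⟨A, -, hA⟩ := definable_iff_finitely_definable.1 hD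
  exact ⟨A, A.finite_toSet, hA⟩

theorem definable_sInter {A : Set U} (T : Finset (Set (α → U))) (hT : ∀ D ∈ T, A.Definable L D) :
    A.Definable L (⋂₀ (↑T : Set (Set (α → U)))) := by
  classical
  induction T using Finset.induction_on with
  | empty => simp
  | insert s T _ ih =>
    rw [Finset.coe_insert, sInter_insert]
    exact (hT s (Finset.mem_insert_self _ _)).inter
      (ih (fun D hD => hT D (Finset.mem_insert_of_mem hD)))

/-- saturation for finite tuples of variables -/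
theorem IsMonster.sat (hU : IsMonster L U κ) (α : Type) [Finite α] :
    ∀ A : Set U, #A < κ → ∀ S : Set (Set (α → U)),
      (∀ D ∈ S, A.Definable L D) → FIP S → (⋂₀ S).Nonempty := by
  classical
  refine Finite.induction_empty_option (P := fun α => ∀ A : Set U, #A < κ →
    ∀ S : Set (Set (α → U)), (∀ D ∈ S, A.Definable L D) → FIP S → (⋂₀ S).Nonempty)
    ?_ ?_ ?_ α
  · intro α β e h A hA S hS hf
    obtain ⟨x, hx⟩ := h A hA ((fun D => (fun g : α → U => g ∘ e.symm) ⁻¹' D) '' S)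
      (by rintro _ ⟨D, hD, rfl⟩; exact (hS D hD).preimage_comp e.symm) (by
        refine fip_of_base _ {D | ∃ T : Finset (Set (β → U)), (↑T : Set _) ⊆ S ∧
          D = (fun g : α → U => g ∘ e.symm) ⁻¹' (⋂₀ ↑T)} ⟨_, ∅, by simp, rfl⟩ ?_ ?_ ?_
        · rintro _ ⟨T, hT, rfl⟩ _ ⟨T', hT', rfl⟩
          refine ⟨_, ⟨T ∪ T', by simp [hT, hT'], rfl⟩, ?_⟩
          simp [sInter_union]
        · rintro _ ⟨T, hT, rfl⟩
          obtain ⟨y, hy⟩ := hf T hT
          refine ⟨y ∘ e, ?_⟩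
          simpa [Function.comp_assoc] using hy
        · rintro _ ⟨D, hD, rfl⟩
          exact ⟨_, ⟨{D}, by simpa using hD, rfl⟩, by simp⟩)
    exact ⟨x ∘ e.symm, fun D hD => hx _ ⟨D, hD, rfl⟩⟩
  · intro A _ S _ hf
    refine ⟨fun x => x.elim, fun D hD => ?_⟩
    obtain ⟨y, hy⟩ := hf {D} (by simpa using hD)
    simp only [Finset.coe_singleton, sInter_singleton] at hy
    convert hy using 1
    funext x
    exact x.elim
  · intro α _ h A hA S hS hf
    let g : Option α → Fin 1 ⊕ α := fun o => o.elim (Sum.inl 0) Sum.inr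
    let S' : Set (Set (Fin 1 ⊕ α → U)) := {D | ∃ T : Finset (Set (Option α → U)),
      (↑T : Set _) ⊆ S ∧ D = (fun z : Fin 1 ⊕ α → U => z ∘ g) ⁻¹' (⋂₀ ↑T)}
    have hS'def : ∀ D ∈ S', A.Definable L D := by
      rintro _ ⟨T, hT, rfl⟩
      exact (definable_sInter T (fun D hD => hS D (hT hD))).preimage_comp g
    have hS'dir : ∀ s ∈ S', ∀ t ∈ S', s ∩ t ∈ S' := by
      rintro _ ⟨T, hT, rfl⟩ _ ⟨T', hT', rfl⟩
      exact ⟨T ∪ T', by simp [hT, hT'], by simp [sInter_union]⟩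
    have hS'ne : ∀ s ∈ S', s.Nonempty := by
      rintro _ ⟨T, hT, rfl⟩
      obtain ⟨y, hy⟩ := hf T hT
      refine ⟨Sum.elim (fun _ => y none) (fun a => y (some a)), ?_⟩
      simp only [mem_preimage]
      convert hy
      funext o
      cases o <;> rfl
    have hS'0 : S'.Nonempty := ⟨_, ∅, by simp, rfl⟩
    obtain ⟨x, hx⟩ := hU.saturated A hA
      ((fun D => {v : Fin 1 → U | ∃ c : α → U, Sum.elim v c ∈ D}) '' S')
      (by rintro _ ⟨D, hD, rfl⟩; exact (hS'def D hD).exists_of_finite) (by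
        refine fip_of_base _ _ (hS'0.image _) ?_ ?_ (fun s hs => ⟨s, hs, Subset.rfl⟩)
        · rintro _ ⟨D, hD, rfl⟩ _ ⟨E, hE, rfl⟩
          refine ⟨_, ⟨D ∩ E, hS'dir D hD E hE, rfl⟩, ?_⟩
          rintro v ⟨c, hc⟩
          exact ⟨⟨c, hc.1⟩, ⟨c, hc.2⟩⟩
        · rintro _ ⟨D, hD, rfl⟩
          obtain ⟨z, hz⟩ := hS'ne D hD
          exact ⟨z ∘ Sum.inl, z ∘ Sum.inr, by simpa using hz⟩)
    obtain ⟨c, hc⟩ := h (A ∪ range x) (hU.small_union hA (hU.small_range x))
      ((fun D => {c : α → U | Sum.elim x c ∈ D}) '' S')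
      (by
        rintro _ ⟨D, hD, rfl⟩
        exact definable_fibre' (hS'def D hD) subset_union_left subset_union_right) (by
        refine fip_of_base _ _ (hS'0.image _) ?_ ?_ (fun s hs => ⟨s, hs, Subset.rfl⟩)
        · rintro _ ⟨D, hD, rfl⟩ _ ⟨E, hE, rfl⟩
          exact ⟨_, ⟨D ∩ E, hS'dir D hD E hE, rfl⟩, fun c hc => hc⟩
        · rintro _ ⟨D, hD, rfl⟩
          exact hx _ ⟨D, hD, rfl⟩)
    refine ⟨Sum.elim x c ∘ g, fun D hD => ?_⟩
    have := hc _ ⟨_, ⟨{D}, by simpa using hD, rfl⟩, rfl⟩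
    simpa using this

theorem IsMonster.exists_realizes (hU : IsMonster L U κ) [Finite α] (p : GType L U α) {B : Set U}
    (hB : #B < κ) : ∃ b, p.Realizes B b := by
  obtain ⟨b, hb⟩ := hU.sat α B hB {D | D ∈ p.sets ∧ B.Definable L D} (fun D hD => hD.2)
    (p.fip.mono (fun D hD => hD.1))
  exact ⟨b, fun D hD hD' => hb D ⟨hD, hD'⟩⟩

theorem GType.Realizes.mem_iff {p : GType L U α} {B : Set U} {b : α → U} (hb : p.Realizes B b)
    {D : Set (α → U)} (hD : B.Definable L D) : b ∈ D ↔ D ∈ p.sets := by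
  refine ⟨fun h => ?_, fun h => hb D h hD⟩
  rcases p.complete D (hD.mono (subset_univ _)) with h' | h'
  · exact h'
  · exact absurd h (hb _ h' hD.compl)

theorem GType.Realizes.mono {p : GType L U α} {B C : Set U} {b : α → U} (hb : p.Realizes C b)
    (h : B ⊆ C) : p.Realizes B b :=
  fun D hD hD' => hb D hD (hD'.mono h)

theorem GType.Realizes.aut {p : GType L U α} {B : Set U} {b : α → U} (hb : p.Realizes B b)
    (σ : U ≃[L] U) (hσ : ∀ x ∈ B, σ x = x) : p.Realizes B (σ ∘ b) :=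
  fun D hD hD' => (definable_aut hD' σ hσ b).2 (hb D hD hD')

theorem GType.InvariantOver.mono {p : GType L U α} {B C : Set U} (hp : p.InvariantOver B)
    (h : B ⊆ C) : p.InvariantOver C :=
  fun σ hσ => hp σ (fun a ha => hσ a (h ha))

theorem IsMonster.exists_aut_of_definable (hU : IsMonster L U κ) [Finite α] {B : Set U}
    (hB : #B < κ) {a b : α → U} (h : ∀ D : Set (α → U), B.Definable L D → (a ∈ D ↔ b ∈ D)) :
    ∃ σ : U ≃[L] U, (∀ x ∈ B, σ x = x) ∧ σ ∘ a = b := by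
  obtain ⟨σ, hσ⟩ := hU.homogeneous (B ⊕ α) (by
      rw [mk_sum, lift_uzero]
      exact add_lt_of_lt hU.uncountable.le hB
        ((lift_lt_aleph0.2 (lt_aleph0_of_finite α)).trans hU.uncountable))
    (Sum.elim Subtype.val a) (Sum.elim Subtype.val b)
    (fun φ => h _ (definable_iff_exists_formula_sum.2 ⟨φ, rfl⟩))
  exact ⟨σ, fun x hx => hσ (Sum.inl ⟨x, hx⟩), funext fun i => hσ (Sum.inr i)⟩

theorem IsMonster.exists_aut (hU : IsMonster L U κ) [Finite α] {p : GType L U α} {B : Set U}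
    (hB : #B < κ) {a b : α → U} (ha : p.Realizes B a) (hb : p.Realizes B b) :
    ∃ σ : U ≃[L] U, (∀ x ∈ B, σ x = x) ∧ σ ∘ a = b :=
  hU.exists_aut_of_definable hB (fun _ hD => (ha.mem_iff hD).trans (hb.mem_iff hD).symm)

/-- the product of two definable sets -/
def box (ψ : Set (α → U)) (χ : Set (β → U)) : Set (α ⊕ β → U) :=
  {z | z ∘ Sum.inl ∈ ψ ∧ z ∘ Sum.inr ∈ χ}

theorem definable_box {A : Set U} {ψ : Set (α → U)} {χ : Set (β → U)} (hψ : A.Definable L ψ)
    (hχ : A.Definable L χ) : A.Definable L (box ψ χ) :=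
  (hψ.preimage_comp Sum.inl).inter (hχ.preimage_comp Sum.inr)

theorem GType.Extends.box_mem {r : GType L U (α ⊕ β)} {p : GType L U α} {q : GType L U β}
    (h : r.Extends p q) {ψ : Set (α → U)} {χ : Set (β → U)} (hψ : ψ ∈ p.sets) (hχ : χ ∈ q.sets) :
    box ψ χ ∈ r.sets :=
  r.inter (h.1 ψ hψ) (h.2 χ hχ)

theorem exists_extends (p : GType L U α) (q : GType L U β) {D : Set (α ⊕ β → U)}
    (hD : (univ : Set U).Definable L D)
    (h : ∀ ψ ∈ p.sets, ∀ χ ∈ q.sets, (box ψ χ ∩ D).Nonempty) :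
    ∃ r : GType L U (α ⊕ β), r.Extends p q ∧ D ∈ r.sets := by
  obtain ⟨r, hr⟩ := exists_gtype (L := L) {E | ∃ ψ ∈ p.sets, ∃ χ ∈ q.sets, E = box ψ χ ∩ D}
    (by
      rintro _ ⟨ψ, hψ, χ, hχ, rfl⟩
      exact (definable_box (p.definable ψ hψ) (q.definable χ hχ)).inter hD)
    (by
      refine fip_of_base _ {E | ∃ ψ ∈ p.sets, ∃ χ ∈ q.sets, E = box ψ χ ∩ D}
        ⟨_, Set.univ, p.univ_mem, Set.univ, q.univ_mem, rfl⟩ ?_ ?_
        (fun s hs => ⟨s, hs, Subset.rfl⟩)
      · rintro _ ⟨ψ, hψ, χ, hχ, rfl⟩ _ ⟨ψ', hψ', χ', hχ', rfl⟩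
        refine ⟨_, ⟨_, p.inter hψ hψ', _, q.inter hχ hχ', rfl⟩, ?_⟩
        rintro z ⟨⟨⟨h1, h2⟩, ⟨h3, h4⟩⟩, h5⟩
        exact ⟨⟨⟨h1, h3⟩, h5⟩, ⟨⟨h2, h4⟩, h5⟩⟩
      · rintro _ ⟨ψ, hψ, χ, hχ, rfl⟩
        exact h ψ hψ χ hχ)
  refine ⟨r, ⟨fun ψ hψ => ?_, fun χ hχ => ?_⟩, ?_⟩
  · exact r.mono (hr ⟨ψ, hψ, Set.univ, q.univ_mem, rfl⟩) (fun z hz => hz.1.1)
      ((p.definable ψ hψ).preimage_comp Sum.inl)
  · exact r.mono (hr ⟨Set.univ, p.univ_mem, χ, hχ, rfl⟩) (fun z hz => hz.1.2)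
      ((q.definable χ hχ).preimage_comp Sum.inr)
  · exact r.mono (hr ⟨Set.univ, p.univ_mem, Set.univ, q.univ_mem, rfl⟩) (fun z hz => hz.2) hD

theorem weaklyOrthogonal_iff (p : GType L U α) (q : GType L U β) :
    WeaklyOrthogonal p q ↔ ∀ D : Set (α ⊕ β → U), (univ : Set U).Definable L D →
      ∃ ψ ∈ p.sets, ∃ χ ∈ q.sets, box ψ χ ⊆ D ∨ box ψ χ ⊆ Dᶜ := by
  constructor
  · rintro ⟨r, -, hr⟩ D hD
    by_contra hcon
    push Not at hcon
    obtain ⟨r1, h1, h1'⟩ := exists_extends p q hD (fun ψ hψ χ hχ => by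
      obtain ⟨z, hz, hz'⟩ := not_subset.1 (hcon ψ hψ χ hχ).2
      exact ⟨z, hz, not_not.1 hz'⟩)
    obtain ⟨r2, h2, h2'⟩ := exists_extends p q hD.compl (fun ψ hψ χ hχ => by
      obtain ⟨z, hz, hz'⟩ := not_subset.1 (hcon ψ hψ χ hχ).1
      exact ⟨z, hz, hz'⟩)
    rw [hr r1 h1] at h1'
    rw [hr r2 h2] at h2'
    exact r.not_compl h1' h2'
  · intro h
    obtain ⟨r, hr, -⟩ := exists_extends p q (D := Set.univ) definable_univ (fun ψ hψ χ hχ => by
      obtain ⟨a, ha⟩ := p.nonempty hψ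
      obtain ⟨b, hb⟩ := q.nonempty hχ
      exact ⟨Sum.elim a b, ⟨ha, hb⟩, trivial⟩)
    have key : ∀ r1 r2 : GType L U (α ⊕ β), r1.Extends p q → r2.Extends p q →
        r1.sets ⊆ r2.sets := by
      intro r1 r2 h1 h2 D hD
      obtain ⟨ψ, hψ, χ, hχ, hh | hh⟩ := h D (r1.definable D hD)
      · exact r2.mono (h2.box_mem hψ hχ) hh (r1.definable D hD)
      · exact absurd (r1.mono (h1.box_mem hψ hχ) hh (r1.definable D hD).compl) (r1.not_compl hD)
    exact ⟨r, hr, fun r' hr' => GType.ext' (Subset.antisymm (key _ _ hr' hr) (key _ _ hr hr'))⟩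

theorem IsMonster.fibre_congr (hU : IsMonster L U κ) [Finite β] {p : GType L U α}
    {q : GType L U β} {B : Set U} (hB : #B < κ) (hp : p.InvariantOver B) {D : Set (α ⊕ β → U)}
    (hD : B.Definable L D) {b b' : β → U} (hb : q.Realizes B b) (hb' : q.Realizes B b') :
    {a | Sum.elim a b ∈ D} ∈ p.sets ↔ {a | Sum.elim a b' ∈ D} ∈ p.sets := by
  obtain ⟨σ, hσ, rfl⟩ := hU.exists_aut hB hb hb'
  rw [hp σ hσ]
  refine iff_of_eq (congrArg _ ?_)
  ext a
  simp only [mem_image, mem_ofPred_eq]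
  constructor
  · rintro ⟨a', ha', rfl⟩
    have := (definable_aut hD σ hσ _).2 ha'
    rwa [Sum.comp_elim] at this
  · intro ha
    refine ⟨σ.symm ∘ a, ?_, ?_⟩
    · rw [← definable_aut hD σ hσ, Sum.comp_elim]
      convert ha
      funext i
      simp
    · funext i
      simp

theorem IsMonster.exists_base (hU : IsMonster L U κ) {p : GType L U α} (hp : p.Invariant κ)
    {D : Set (γ → U)} (hD : (univ : Set U).Definable L D) :
    ∃ B : Set U, #B < κ ∧ p.InvariantOver B ∧ B.Definable L D := by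
  obtain ⟨A, hA, hpA⟩ := hp
  obtain ⟨E, hE, hED⟩ := exists_finite_definable hD
  exact ⟨A ∪ E, hU.small_union hA (hU.small_finite hE), hpA.mono subset_union_left,
    hED.mono subset_union_right⟩

theorem IsMonster.exists_tensor (hU : IsMonster L U κ) [Finite β] {p : GType L U α}
    (hp : p.Invariant κ) (q : GType L U β) : ∃ r, IsTensor κ p q r := by
  classical
  let S : Set (Set (α ⊕ β → U)) := {D | ∃ B : Set U, #B < κ ∧ p.InvariantOver B ∧
    B.Definable L D ∧ ∃ b, q.Realizes B b ∧ {a | Sum.elim a b ∈ D} ∈ p.sets}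
  have hS : ∀ B : Set U, #B < κ → p.InvariantOver B → ∀ D, B.Definable L D → ∀ b,
      q.Realizes B b → (D ∈ S ↔ {a | Sum.elim a b ∈ D} ∈ p.sets) := by
    intro B hB hpB D hD b hb
    refine ⟨?_, fun h => ⟨B, hB, hpB, hD, b, hb, h⟩⟩
    rintro ⟨B', hB', hpB', hD', b', hb', h⟩
    obtain ⟨c, hc⟩ := hU.exists_realizes q (hU.small_union hB hB')
    rw [hU.fibre_congr hB hpB hD hb (hc.mono subset_union_left),
      ← hU.fibre_congr hB' hpB' hD' hb' (hc.mono subset_union_right)]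
    exact h
  refine ⟨⟨S, ?_, ?_, ?_⟩, hS⟩
  · rintro D ⟨B, -, -, hD, -⟩
    exact hD.mono (subset_univ _)
  · intro D hD
    obtain ⟨B, hB, hpB, hBD⟩ := hU.exists_base hp hD
    obtain ⟨b, hb⟩ := hU.exists_realizes q hB
    rw [hS B hB hpB D hBD b hb, hS B hB hpB Dᶜ hBD.compl b hb]
    exact p.complete _ (definable_fibre hD Subset.rfl (subset_univ _))
  · refine fip_of_base S S ?_ ?_ ?_ (fun s hs => ⟨s, hs, Subset.rfl⟩)
    · obtain ⟨B, hB, hpB⟩ := hp
      obtain ⟨b, hb⟩ := hU.exists_realizes q hB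
      exact ⟨Set.univ, B, hB, hpB, definable_univ, b, hb, p.univ_mem⟩
    · intro D hD E hE
      refine ⟨D ∩ E, ?_, Subset.rfl⟩
      obtain ⟨B, hB, hpB, hDB, -⟩ := id hD
      obtain ⟨B', hB', -, hEB, -⟩ := id hE
      have hs := hU.small_union hB hB'
      obtain ⟨b, hb⟩ := hU.exists_realizes q hs
      have hp' := hpB.mono (subset_union_left (t := B'))
      have hD' := hDB.mono (subset_union_left (t := B'))
      have hE' := hEB.mono (subset_union_right (s := B))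
      rw [hS _ hs hp' _ hD' b hb] at hD
      rw [hS _ hs hp' _ hE' b hb] at hE
      rw [hS _ hs hp' _ (hD'.inter hE') b hb]
      exact p.inter hD hE
    · rintro D ⟨B, -, -, -, b, -, h⟩
      obtain ⟨a, ha⟩ := p.nonempty h
      exact ⟨_, ha⟩

theorem IsMonster.tensor_unique (hU : IsMonster L U κ) [Finite β] {p : GType L U α}
    (hp : p.Invariant κ) {q : GType L U β} {r r' : GType L U (α ⊕ β)} (h : IsTensor κ p q r)
    (h' : IsTensor κ p q r') : r' = r := by
  have key : ∀ r1 r2 : GType L U (α ⊕ β), IsTensor κ p q r1 → IsTensor κ p q r2 →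
      r1.sets ⊆ r2.sets := by
    intro r1 r2 h1 h2 D hD
    obtain ⟨B, hB, hpB, hBD⟩ := hU.exists_base hp (r1.definable D hD)
    obtain ⟨b, hb⟩ := hU.exists_realizes q hB
    exact (h2 B hB hpB D hBD b hb).2 ((h1 B hB hpB D hBD b hb).1 hD)
  exact GType.ext' (Subset.antisymm (key _ _ h' h) (key _ _ h h'))

theorem IsTensor.realizes {p : GType L U α} {q : GType L U β} {r : GType L U (α ⊕ β)}
    (h : IsTensor κ p q r) {B : Set U} (hB : #B < κ) (hp : p.InvariantOver B) {a : α → U}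
    {b : β → U} (hb : q.Realizes B b) (ha : p.Realizes (B ∪ range b) a) :
    r.Realizes B (Sum.elim a b) :=
  fun D hD hD' => ha _ ((h B hB hp D hD' b hb).1 hD)
    (definable_fibre hD' subset_union_left subset_union_right)

theorem IsMonster.tensor_extends (hU : IsMonster L U κ) [Finite β] {p : GType L U α}
    (hp : p.Invariant κ) {q : GType L U β} {r : GType L U (α ⊕ β)} (h : IsTensor κ p q r) :
    r.Extends p q := by
  refine ⟨fun ψ hψ => ?_, fun χ hχ => ?_⟩
  · obtain ⟨B, hB, hpB, hBD⟩ := hU.exists_base hp (p.definable ψ hψ)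
    obtain ⟨b, hb⟩ := hU.exists_realizes q hB
    exact (h B hB hpB _ (hBD.preimage_comp Sum.inl) b hb).2 hψ
  · obtain ⟨B, hB, hpB, hBD⟩ := hU.exists_base hp (q.definable χ hχ)
    obtain ⟨b, hb⟩ := hU.exists_realizes q hB
    refine (h B hB hpB _ (hBD.preimage_comp Sum.inr) b hb).2 ?_
    have : {a : α → U | Sum.elim a b ∈ (fun g : α ⊕ β → U => g ∘ Sum.inr) ⁻¹' χ} = Set.univ :=
      eq_univ_of_forall (fun a => hb χ hχ hBD)
    rw [this]
    exact p.univ_mem

theorem IsMonster.realizes_of_tensor (hU : IsMonster L U κ) [Finite α] [Finite β]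
    {p : GType L U α} {q : GType L U β} {r : GType L U (α ⊕ β)} (h : IsTensor κ p q r)
    {B : Set U} (hB : #B < κ) (hp : p.InvariantOver B) {a : α → U} {b : β → U}
    (hb : q.Realizes B b) (hab : r.Realizes B (Sum.elim a b)) : p.Realizes (B ∪ range b) a := by
  obtain ⟨a', ha'⟩ := hU.exists_realizes p (hU.small_union hB (hU.small_range b))
  obtain ⟨σ, hσ, hσ'⟩ := hU.exists_aut hB (h.realizes hB hp hb ha') hab
  have h1 : σ ∘ a' = a := funext fun i => congrFun hσ' (Sum.inl i)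
  rw [← h1]
  refine ha'.aut σ ?_
  rintro x (hx | ⟨j, rfl⟩)
  · exact hσ x hx
  · exact congrFun hσ' (Sum.inr j)

end Pool.Agent.H37Z.Inv
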