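import Mathlib

/-!
# Monster models, global invariant types, weak orthogonality and tensor products

A formula with parameters from a set `B` of elements of `U`, in the variables `α`, is identified
with the subset of `α → U` it defines (`Set.Definable`).  So a global type is a maximal family of
`U`-definable sets with the finite intersection property.
-/

set_option autoImplicit false

namespace Pool.Agent.H37Z.Inv

open FirstOrder FirstOrder.Language Cardinal Set

universe u v w

/-- The family `S` has the finite intersection property: as a set of formulas, it is finitely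
satisfiable. -/
def FIP {X : Type w} (S : Set (Set X)) : Prop :=
  ∀ T : Finset (Set X), (↑T : Set (Set X)) ⊆ S → (⋂₀ (↑T : Set (Set X))).Nonempty

variable (L : FirstOrder.Language.{u, v}) (U : Type w) [L.Structure U]

/-- `U` is a monster model (of its complete theory) with respect to the cardinal `κ`: `κ` is
uncountable and larger than the language, and `U` is `κ`-saturated and strongly
`κ`-homogeneous.  Small means of cardinality less than `κ`. -/
structure IsMonster (κ : Cardinal.{w}) : Prop where
  nonempty : Nonempty U
  uncountable : ℵ₀ < κ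
  card_lang : Cardinal.lift.{w} L.card < Cardinal.lift.{max u v} κ
  /-- every finitely satisfiable set of formulas in one variable over a small set is realised -/
  saturated : ∀ A : Set U, #A < κ → ∀ S : Set (Set (Fin 1 → U)),
    (∀ D ∈ S, A.Definable L D) → FIP S → (⋂₀ S).Nonempty
  /-- small tuples with the same type are conjugate under an automorphism -/
  homogeneous : ∀ ι : Type w, #ι < κ → ∀ a b : ι → U,
    (∀ φ : L.Formula ι, φ.Realize a ↔ φ.Realize b) → ∃ σ : U ≃[L] U, ∀ i, σ (a i) = b i

/-- The theory of `U` is NIP: no formula `φ(x;y)` has the independence property, that is, for no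
formula are there for every `n` tuples `aᵢ` (`i < n`) and `b_S` (`S ⊆ n`) with
`φ(aᵢ; b_S) ↔ i ∈ S`. -/
def IsNIP : Prop :=
  ∀ (α β : Type) [Finite α] [Finite β] (φ : L.Formula (α ⊕ β)),
    ¬ ∀ n : ℕ, ∃ (a : Fin n → α → U) (b : Set (Fin n) → β → U),
      ∀ i S, φ.Realize (Sum.elim (a i) (b S)) ↔ i ∈ S

/-- A global type in the variables `α`: a complete, finitely satisfiable family of sets definable
with parameters from `U`. -/
structure GType (α : Type) where
  /-- the definable sets (formulas) in the type -/
  sets : Set (Set (α → U))
  definable : ∀ D ∈ sets, (univ : Set U).Definable L D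
  complete : ∀ D, (univ : Set U).Definable L D → D ∈ sets ∨ Dᶜ ∈ sets
  fip : FIP sets

variable {L U} {α β : Type}

/-- Every automorphism of `U` fixing `A` pointwise fixes the type `p`. -/
def GType.InvariantOver (p : GType L U α) (A : Set U) : Prop :=
  ∀ σ : U ≃[L] U, (∀ a ∈ A, σ a = a) →
    ∀ D, D ∈ p.sets ↔ (fun x : α → U => σ ∘ x) '' D ∈ p.sets

/-- `p` is invariant over some small set. -/
def GType.Invariant (κ : Cardinal.{w}) (p : GType L U α) : Prop :=
  ∃ A : Set U, #A < κ ∧ p.InvariantOver A

/-- The tuple `b` realises the restriction of `p` to `B`. -/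
def GType.Realizes (p : GType L U α) (B : Set U) (b : α → U) : Prop :=
  ∀ D ∈ p.sets, B.Definable L D → b ∈ D

/-- The type `r(x,y)` contains `p(x) ∪ q(y)`. -/
def GType.Extends (r : GType L U (α ⊕ β)) (p : GType L U α) (q : GType L U β) : Prop :=
  (∀ D ∈ p.sets, {z | z ∘ Sum.inl ∈ D} ∈ r.sets) ∧ (∀ E ∈ q.sets, {z | z ∘ Sum.inr ∈ E} ∈ r.sets)

/-- `p(x) ∪ q(y)` implies a complete type: exactly one global type contains it. -/
def WeaklyOrthogonal (p : GType L U α) (q : GType L U β) : Prop :=
  ∃! r : GType L U (α ⊕ β), r.Extends p q

/-- `r(x,y)` is the tensor product `p(x) ⊗ q(y)`: whenever `B` is a small set over which `p` is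
invariant, `φ(x,y)` is a formula over `B` and `b` realises the restriction of `q` to `B`, then
`φ(x,y) ∈ r` if and only if `φ(x,b) ∈ p`. -/
def IsTensor (κ : Cardinal.{w}) (p : GType L U α) (q : GType L U β) (r : GType L U (α ⊕ β)) :
    Prop :=
  ∀ B : Set U, #B < κ → p.InvariantOver B → ∀ D, B.Definable L D → ∀ b, q.Realizes B b →
    (D ∈ r.sets ↔ {a | Sum.elim a b ∈ D} ∈ p.sets)

end Pool.Agent.H37Z.Inv
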