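import Pool.Agent.H37Z.InvBasic

set_option autoImplicit false

namespace Pool.Agent.H37Z.Inv

open FirstOrder FirstOrder.Language Cardinal Set

universe u v w

variable {L : FirstOrder.Language.{u, v}} {U : Type w} [L.Structure U] {α β γ : Type}
  {κ : Cardinal.{w}}

theorem definable_preimage_aut {C C' : Set U} {D : Set (α → U)} (hD : C'.Definable L D)
    (σ : U ≃[L] U) (hσ : ∀ x ∈ C', σ.symm x ∈ C) : C.Definable L {x : α → U | σ ∘ x ∈ D} := by
  rw [definable_iff_exists_formula_sum] at hD ⊢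
  obtain ⟨φ, rfl⟩ := hD
  refine ⟨φ.relabel (Sum.map (fun x : C' => (⟨σ.symm x, hσ x x.2⟩ : C)) id), ?_⟩
  ext a
  simp only [mem_ofPred_eq, Formula.realize_relabel]
  rw [← realize_aut σ φ (Sum.elim Subtype.val a ∘ _)]
  refine iff_of_eq (congrArg _ ?_)
  funext x
  rcases x with x | x
  · simp
  · rfl

theorem mem_image_aut (σ : U ≃[L] U) (D : Set (α → U)) (x : α → U) :
    x ∈ (fun y : α → U => σ ∘ y) '' D ↔ σ.symm ∘ x ∈ D := by
  constructor
  · rintro ⟨y, hy, rfl⟩
    convert hy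
    funext i
    simp
  · intro h
    refine ⟨_, h, ?_⟩
    funext i
    simp

theorem GType.Realizes.conj {q : GType L U β} {A C C' : Set U} (hq : q.InvariantOver A)
    (σ : U ≃[L] U) (hσA : ∀ x ∈ A, σ x = x) (hσ : ∀ x ∈ C', σ.symm x ∈ C) {b : β → U}
    (hb : q.Realizes C b) : q.Realizes C' (σ ∘ b) := by
  intro D hD hD'
  refine hb _ ?_ (definable_preimage_aut hD' σ hσ)
  rw [hq σ hσA]
  convert hD
  ext x
  rw [mem_image_aut]
  simp only [mem_ofPred_eq]
  refine iff_of_eq (congrArg _ ?_)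
  funext i
  simp

/-- the base set for the `j`-th term of a Morley sequence -/
def pre (A : Set U) (d : ℕ → β → U) (j : ℕ) : Set U := A ∪ {x | ∃ i < j, x ∈ range (d i)}

theorem pre_succ (A : Set U) (d : ℕ → β → U) (j : ℕ) :
    pre A d (j + 1) = pre A d j ∪ range (d j) := by
  ext x
  simp only [pre, mem_union, mem_ofPred_eq]
  constructor
  · rintro (h | ⟨i, hi, h⟩)
    · exact Or.inl (Or.inl h)
    · rcases Nat.lt_succ_iff_lt_or_eq.1 hi with hi | rfl
      · exact Or.inl (Or.inr ⟨i, hi, h⟩)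
      · exact Or.inr h
  · rintro ((h | ⟨i, hi, h⟩) | h)
    · exact Or.inl h
    · exact Or.inr ⟨i, Nat.lt_succ_of_lt hi, h⟩
    · exact Or.inr ⟨j, Nat.lt_succ_self j, h⟩

theorem pre_zero (A : Set U) (d : ℕ → β → U) : pre A d 0 = A := by
  simp [pre]

theorem pre_congr (A : Set U) {d d' : ℕ → β → U} {j : ℕ} (h : ∀ i < j, d i = d' i) :
    pre A d j = pre A d' j := by
  ext x
  simp only [pre, mem_union, mem_ofPred_eq]
  refine or_congr_right (exists_congr fun i => and_congr_right fun hi => by rw [h i hi])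

theorem IsMonster.small_pre (hU : IsMonster L U κ) [Finite β] {A : Set U} (hA : #A < κ)
    (d : ℕ → β → U) (j : ℕ) : #(pre A d j) < κ := by
  induction j with
  | zero => rwa [pre_zero]
  | succ j ih => rw [pre_succ]; exact hU.small_union ih (hU.small_range _)

theorem IsMonster.morley_conj (hU : IsMonster L U κ) [Finite β] {q : GType L U β} {A : Set U}
    (hA : #A < κ) (hq : q.InvariantOver A) (d d' : ℕ → β → U) (n : ℕ)
    (h : ∀ j < n, q.Realizes (pre A d j) (d j)) (h' : ∀ j < n, q.Realizes (pre A d' j) (d' j)) :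
    ∃ σ : U ≃[L] U, (∀ x ∈ A, σ x = x) ∧ ∀ j < n, σ ∘ d j = d' j := by
  induction n with
  | zero => exact ⟨FirstOrder.Language.Equiv.refl L U, fun _ _ => rfl, fun j hj => absurd hj (by simp)⟩
  | succ n ih =>
    obtain ⟨σ, hσA, hσ⟩ := ih (fun j hj => h j (Nat.lt_succ_of_lt hj))
      (fun j hj => h' j (Nat.lt_succ_of_lt hj))
    have h1 : q.Realizes (pre A d' n) (σ ∘ d n) := by
      refine (h n (Nat.lt_succ_self n)).conj hq σ hσA ?_
      rintro x (hx | ⟨i, hi, k, rfl⟩)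
      · left
        have : σ.symm x = x := by
          conv_lhs => rw [← hσA x hx]
          simp
        rwa [this]
      · right
        refine ⟨i, hi, k, ?_⟩
        rw [← hσ i hi]
        simp
    obtain ⟨τ, hτ, hτ'⟩ := hU.exists_aut (hU.small_pre hA d' n) h1 (h' n (Nat.lt_succ_self n))
    refine ⟨τ.comp σ, fun x hx => ?_, fun j hj => ?_⟩
    · simp [hσA x hx, hτ x (Or.inl hx)]
    · rcases Nat.lt_succ_iff_lt_or_eq.1 hj with hj | rfl
      · funext k
        have := congrFun (hσ j hj) k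
        simp only [Function.comp_apply] at this
        simp only [Function.comp_apply, FirstOrder.Language.Equiv.comp_apply, this]
        exact hτ _ (Or.inr ⟨j, hj, k, rfl⟩)
      · exact hτ'

/-- If Morley sequences of `q` can follow any pattern with respect to `θ`, the theory has IP. -/
theorem IsMonster.not_nip (hU : IsMonster L U κ) [Finite β] {q : GType L U β} {A : Set U}
    (hA : #A < κ) (hq : q.InvariantOver A) {θ : Set (β → U)} (hθ : (univ : Set U).Definable L θ)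
    (h : ∀ (S : Set ℕ) (n : ℕ), ∃ d : ℕ → β → U, (∀ j < n, q.Realizes (pre A d j) (d j)) ∧
      ∀ j < n, (d j ∈ θ ↔ j ∈ S)) : ¬ IsNIP L U := by
  classical
  intro hN
  obtain ⟨F, hF, hFθ⟩ := exists_finite_definable hθ
  obtain ⟨φ, rfl⟩ := definable_iff_exists_formula_sum.1 hFθ
  have := hF.to_subtype
  obtain ⟨k, ⟨e⟩⟩ := Finite.exists_equiv_fin F
  refine hN β (Fin k) (φ.relabel (Sum.elim (fun x => Sum.inr (e x)) Sum.inl)) (fun n => ?_)
  choose d hd hd' using fun S => h S n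
  choose σ hσA hσ using fun S => hU.morley_conj hA hq (d S) (d ∅) n (hd S) (hd ∅)
  refine ⟨fun i => d ∅ i, fun S => σ (Fin.val '' S) ∘ Subtype.val ∘ e.symm, fun i S => ?_⟩
  have h1 : (i : ℕ) ∈ Fin.val '' S ↔ i ∈ S := Fin.val_injective.mem_set_image
  rw [← h1, ← hd' _ i i.2, Formula.realize_relabel]
  beta_reduce
  rw [← hσ (Fin.val '' S) i i.2]
  simp only [mem_ofPred_eq]
  rw [← realize_aut (σ (Fin.val '' S)) φ (Sum.elim Subtype.val _)]
  refine iff_of_eq (congrArg _ ?_)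
  funext x
  rcases x with x | x
  · simp
  · rfl

theorem nip_main (hU : IsMonster L U κ) (hN : IsNIP L U) [Finite α] [Finite γ] [Finite β]
    {p0 : GType L U α} {p1 : GType L U γ} {q : GType L U β} (h0 : p0.Invariant κ)
    (h1 : p1.Invariant κ) (hq : q.Invariant κ) (o0 : WeaklyOrthogonal p0 q)
    (o1 : WeaklyOrthogonal p1 q) {r : GType L U (α ⊕ γ)} (hr : IsTensor κ p0 p1 r) :
    WeaklyOrthogonal r q := by
  classical
  rw [weaklyOrthogonal_iff] at o0 o1 ⊢
  intro D hD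
  by_contra hcon
  push Not at hcon
  -- a common small base
  obtain ⟨A, hA, hp0, hp1, hqA, hDA⟩ : ∃ A : Set U, #A < κ ∧ p0.InvariantOver A ∧
      p1.InvariantOver A ∧ q.InvariantOver A ∧ A.Definable L D := by
    obtain ⟨A0, hA0, hp0, hD0⟩ := hU.exists_base h0 hD
    obtain ⟨A1, hA1, hp1⟩ := h1
    obtain ⟨A2, hA2, hp2⟩ := hq
    exact ⟨A0 ∪ (A1 ∪ A2), hU.small_union hA0 (hU.small_union hA1 hA2),
      hp0.mono subset_union_left, hp1.mono (subset_union_left.trans subset_union_right),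
      hp2.mono (subset_union_right.trans subset_union_right), hD0.mono subset_union_left⟩
  obtain ⟨a1, ha1⟩ := hU.exists_realizes p1 hA
  obtain ⟨E, hEA, hE, ψ, hψ, θ, hθ, hbox⟩ : ∃ E : Set ((α ⊕ γ) ⊕ β → U), A.Definable L E ∧
      (∀ ψ ∈ r.sets, ∀ χ ∈ q.sets, ¬ box ψ χ ⊆ E) ∧ ∃ ψ ∈ p0.sets, ∃ θ ∈ q.sets,
        ∀ x ∈ ψ, ∀ y ∈ θ, Sum.elim (Sum.elim x a1) y ∈ E := by
    have hdef := definable_subst (α := α ⊕ β) (C := Set.univ) hD Subset.rfl
      (Sum.elim (Sum.elim (fun i => Sum.inr (Sum.inl i)) (fun j => Sum.inl ⟨a1 j, trivial⟩))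
        (fun k => Sum.inr (Sum.inr k)))
    have heq : ∀ (x : α → U) (y : β → U), (Sum.elim (Subtype.val : ↥(Set.univ : Set U) → U)
        (Sum.elim x y) ∘ (Sum.elim (Sum.elim (fun i => Sum.inr (Sum.inl i))
          (fun j => Sum.inl ⟨a1 j, trivial⟩)) (fun k => Sum.inr (Sum.inr k)))) =
        Sum.elim (Sum.elim x a1) y := by
      intro x y
      funext i
      rcases i with (i | i) | i <;> rfl
    obtain ⟨ψ, hψ, θ, hθ, hb | hb⟩ := o0 _ hdef
    · refine ⟨D, hDA, fun ψ hψ χ hχ => (hcon ψ hψ χ hχ).1, ψ, hψ, θ, hθ, fun x hx y hy => ?_⟩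
      have := hb (a := Sum.elim x y) ⟨hx, hy⟩
      rwa [mem_ofPred_eq, heq] at this
    · refine ⟨Dᶜ, hDA.compl, fun ψ hψ χ hχ => (hcon ψ hψ χ hχ).2, ψ, hψ, θ, hθ,
        fun x hx y hy => ?_⟩
      have := hb (a := Sum.elim x y) ⟨hx, hy⟩
      rwa [mem_compl_iff, mem_ofPred_eq, heq] at this
  -- realisations of `r ∪ q ∪ ¬ E` over small sets
  have hreal : ∀ N : Set U, #N < κ → A ⊆ N → ∃ z c, r.Realizes N z ∧ q.Realizes N c ∧
      Sum.elim z c ∉ E := by
    intro N hN hAN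
    obtain ⟨s, hs, hsE⟩ := exists_extends r q (hEA.compl.mono (subset_univ _))
      (fun ψ hψ χ hχ => by
        obtain ⟨z, hz, hz'⟩ := not_subset.1 (hE ψ hψ χ hχ)
        exact ⟨z, hz, hz'⟩)
    obtain ⟨z, hz⟩ := hU.exists_realizes s hN
    refine ⟨z ∘ Sum.inl, z ∘ Sum.inr, fun ψ hψ hψ' => ?_, fun χ hχ hχ' => ?_, ?_⟩
    · exact hz _ (hs.1 ψ hψ) (hψ'.preimage_comp Sum.inl)
    · exact hz _ (hs.2 χ hχ) (hχ'.preimage_comp Sum.inr)
    · rw [Sum.elim_comp_inl_inr]
      exact hz _ hsE (hEA.compl.mono hAN)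
  have claim : ∀ N : Set U, #N < κ → A ⊆ N → ∀ a, p1.Realizes N a → ∀ ψ' ∈ p0.sets,
      ∀ θ' : Set (β → U), (∀ x ∈ ψ', ∀ y ∈ θ', Sum.elim (Sum.elim x a) y ∈ E) →
        ∃ c, q.Realizes N c ∧ c ∉ θ' := by
    intro N hN hAN a ha ψ' hψ' θ' hb
    obtain ⟨z, c, hz, hc, hzc⟩ := hreal N hN hAN
    obtain ⟨F, hF, hFψ⟩ := exists_finite_definable (p0.definable ψ' hψ')
    obtain ⟨a0, ha0⟩ := hU.exists_realizes p0
      (hU.small_union (hU.small_union hN (hU.small_range a)) (hU.small_finite hF))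
    have h2 : r.Realizes N (Sum.elim a0 a) :=
      hr.realizes hN (hp0.mono hAN) ha (ha0.mono subset_union_left)
    obtain ⟨τ, hτ, hτ'⟩ := hU.exists_aut hN hz h2
    refine ⟨τ ∘ c, hc.aut τ hτ, fun hmem => hzc ?_⟩
    rw [← definable_aut hEA τ (fun x hx => hτ x (hAN hx)), Sum.comp_elim, hτ']
    exact hb a0 (ha0 ψ' hψ' (hFψ.mono subset_union_right)) _ hmem
  obtain ⟨t, ht⟩ := hU.exists_tensor h1 q
  have htE := hU.tensor_extends h1 ht
  obtain ⟨F, hF, hFθ⟩ := exists_finite_definable (q.definable θ hθ)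
  have step : ∀ C : Set U, #C < κ → A ⊆ C → p1.Realizes C a1 → ∀ δ : Prop, ∃ d,
      q.Realizes C d ∧ p1.Realizes (C ∪ range d) a1 ∧ (d ∈ θ ↔ δ) := by
    intro C hC hAC haC δ
    have hΘ : F.Definable L {y : β → U | y ∈ θ ↔ δ} := by
      by_cases hδ : δ
      · simpa [hδ] using hFθ
      · have := hFθ.compl
        simpa [hδ, compl_def] using this
    obtain ⟨d, hd⟩ := hU.sat β ((C ∪ range a1) ∪ F)
      (hU.small_union (hU.small_union hC (hU.small_range a1)) (hU.small_finite hF))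
      {G | ∃ D' ∈ t.sets, C.Definable L D' ∧
        G = {y | Sum.elim a1 y ∈ D'} ∩ {y : β → U | y ∈ θ ↔ δ}}
      (by
        rintro _ ⟨D', -, hD', rfl⟩
        exact (definable_fibre' hD' (subset_union_left.trans subset_union_left)
          (subset_union_right.trans subset_union_left)).inter (hΘ.mono subset_union_right))
      (by
        refine fip_of_base _ {G | ∃ D' ∈ t.sets, C.Definable L D' ∧
          G = {y | Sum.elim a1 y ∈ D'} ∩ {y : β → U | y ∈ θ ↔ δ}}
          ⟨_, Set.univ, t.univ_mem, definable_univ, rfl⟩ ?_ ?_ (fun s hs => ⟨s, hs, Subset.rfl⟩)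
        · rintro _ ⟨D1, hD1, hD1', rfl⟩ _ ⟨D2, hD2, hD2', rfl⟩
          refine ⟨_, ⟨D1 ∩ D2, t.inter hD1 hD2, hD1'.inter hD2', rfl⟩, ?_⟩
          rintro y ⟨⟨h1, h2⟩, h3⟩
          exact ⟨⟨h1, h3⟩, ⟨h2, h3⟩⟩
        · rintro _ ⟨D', hD't, hD', rfl⟩
          obtain ⟨ψ', hψ', χ', hχ', hb⟩ : ∃ ψ' ∈ p1.sets, ∃ χ' ∈ q.sets, box ψ' χ' ⊆ D' := by
            obtain ⟨ψ', hψ', χ', hχ', hb | hb⟩ := o1 D' (t.definable D' hD't)
            · exact ⟨ψ', hψ', χ', hχ', hb⟩
            · exact absurd (t.mono (htE.box_mem hψ' hχ') hb (t.definable D' hD't).compl)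
                (t.not_compl hD't)
          obtain ⟨F1, hF1, hF1ψ⟩ := exists_finite_definable (p1.definable ψ' hψ')
          obtain ⟨F2, hF2, hF2χ⟩ := exists_finite_definable (q.definable χ' hχ')
          have hNs : #(C ∪ (F1 ∪ F2) : Set U) < κ :=
            hU.small_union hC (hU.small_finite (hF1.union hF2))
          obtain ⟨a1', ha1'⟩ := hU.exists_realizes p1 hNs
          obtain ⟨σ, hσ, hσ'⟩ := hU.exists_aut hC haC (ha1'.mono subset_union_left)
          have hσA : ∀ x ∈ A, σ x = x := fun x hx => hσ x (hAC hx)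
          obtain ⟨c', hc'χ, hc'θ⟩ : ∃ c' ∈ χ',
              (c' ∈ (fun y : β → U => σ ∘ y) '' θ ↔ δ) := by
            by_cases hδ : δ
            · obtain ⟨c', h1, h2⟩ := q.nonempty (q.inter hχ' ((hqA σ hσA θ).1 hθ))
              exact ⟨c', h1, iff_of_true h2 hδ⟩
            · obtain ⟨c', h1, h2⟩ := claim _ hNs (hAC.trans subset_union_left) a1' ha1' _
                ((hp0 σ hσA ψ).1 hψ) ((fun y : β → U => σ ∘ y) '' θ) (by
                  rintro _ ⟨x, hx, rfl⟩ _ ⟨y, hy, rfl⟩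
                  have := (definable_aut hEA σ hσA _).2 (hbox x hx y hy)
                  rwa [Sum.comp_elim, Sum.comp_elim, hσ'] at this)
              exact ⟨c', h1 χ' hχ' (hF2χ.mono (subset_union_right.trans subset_union_right)),
                iff_of_false h2 hδ⟩
          refine ⟨σ.symm ∘ c', ?_, ?_⟩
          · simp only [mem_ofPred_eq]
            rw [← definable_aut hD' σ hσ, Sum.comp_elim, hσ']
            have h3 : σ ∘ σ.symm ∘ c' = c' := by
              funext i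
              simp
            rw [h3]
            exact hb ⟨ha1' ψ' hψ' (hF1ψ.mono (subset_union_left.trans subset_union_right)), hc'χ⟩
          · simp only [mem_ofPred_eq]
            rw [← mem_image_aut]
            exact hc'θ)
    have hd1 : t.Realizes C (Sum.elim a1 d) := fun D' h h' => (hd _ ⟨D', h, h', rfl⟩).1
    have hd2 : q.Realizes C d := fun χ hχ hχ' =>
      hd1 _ (htE.2 χ hχ) (hχ'.preimage_comp Sum.inr)
    exact ⟨d, hd2, hU.realizes_of_tensor ht hC (hp1.mono hAC) hd2 hd1,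
      (hd _ ⟨Set.univ, t.univ_mem, definable_univ, rfl⟩).2⟩
  refine hU.not_nip hA hqA (q.definable θ hθ) (fun S n => ?_) hN
  suffices hs : ∃ d : ℕ → β → U, (∀ j < n, q.Realizes (pre A d j) (d j)) ∧
      (∀ j < n, (d j ∈ θ ↔ j ∈ S)) ∧ p1.Realizes (pre A d n) a1 by
    obtain ⟨d, h1, h2, -⟩ := hs
    exact ⟨d, h1, h2⟩
  induction n with
  | zero =>
    obtain ⟨b, -⟩ := q.nonempty hθ
    exact ⟨fun _ => b, by simp, by simp, by rwa [pre_zero]⟩
  | succ n ih =>
    obtain ⟨d, hd1, hd2, hd3⟩ := ih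
    obtain ⟨c, hc1, hc2, hc3⟩ := step _ (hU.small_pre hA d n) subset_union_left hd3 (n ∈ S)
    have hpre : ∀ j ≤ n, pre A (Function.update d n c) j = pre A d j := fun j hj =>
      pre_congr A (fun i hi => Function.update_of_ne (by omega) _ _)
    refine ⟨Function.update d n c, fun j hj => ?_, fun j hj => ?_, ?_⟩
    · rw [hpre j (by omega)]
      rcases Nat.lt_succ_iff_lt_or_eq.1 hj with hj | rfl
      · rw [Function.update_of_ne hj.ne]
        exact hd1 j hj
      · rwa [Function.update_self]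
    · rcases Nat.lt_succ_iff_lt_or_eq.1 hj with hj | rfl
      · rw [Function.update_of_ne hj.ne]
        exact hd2 j hj
      · rwa [Function.update_self]
    · rwa [pre_succ, hpre n le_rfl, Function.update_self]

end Pool.Agent.H37Z.Inv
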