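import Pool.Agent.H37Z.InvHom
import Pool.Agent.H37Z.InvNIP

set_option autoImplicit false

namespace Pool.Agent.H37Z.Gen

open FirstOrder FirstOrder.Language Cardinal Set Pool.Agent.H37Z.Inv

universe w

/-- relation symbols -/
inductive Rel : ℕ → Type
  | V : Rel 1
  | C : Rel 1
  | P : Rel 2
  | R : Rel 3

/-- the language -/
def Lang : FirstOrder.Language.{0, 0} := ⟨fun _ => Empty, Rel⟩

instance : Finite Lang.Symbols := by
  have h1 : IsEmpty (Σ l, Lang.Functions l) := ⟨fun x => x.2.elim⟩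
  have h2 : Finite (Σ l, Lang.Relations l) := by
    refine Finite.of_surjective (fun i : Fin 4 => if i = 0 then (⟨1, Rel.V⟩ : Σ l, Lang.Relations l)
      else if i = 1 then ⟨1, Rel.C⟩ else if i = 2 then ⟨2, Rel.P⟩ else ⟨3, Rel.R⟩) ?_
    rintro ⟨n, r⟩
    cases r with
    | V => exact ⟨0, by simp⟩
    | C => exact ⟨1, by simp⟩
    | P => exact ⟨2, by simp⟩
    | R => exact ⟨3, by simp⟩
  unfold FirstOrder.Language.Symbols
  infer_instance

variable {O : Type w}

def Rel.fact : {n : ℕ} → Rel n → (Fin n → O) → Fact O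
  | _, .V, v => .V (v 0)
  | _, .C, v => .C (v 0)
  | _, .P, v => .P (v 0) (v 1)
  | _, .R, v => .R (v 0) (v 1) (v 2)

theorem Rel.fact_comp {O' : Type w} (f : O → O') {n : ℕ} (r : Rel n) (v : Fin n → O) :
    r.fact (f ∘ v) = (r.fact v).map f := by
  cases r <;> rfl

/-- the structure attached to a set of facts -/
@[reducible] def str (H : Fact O → Prop) : Lang.Structure O where
  funMap := fun f _ => f.elim
  RelMap := fun r v => H (Rel.fact r v)

def Fact.form {ι : Type w} : Fact ι → Lang.Formula ι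
  | .V a => Relations.formula (L := Lang) Rel.V ![Term.var a]
  | .C a => Relations.formula (L := Lang) Rel.C ![Term.var a]
  | .P a b => Relations.formula (L := Lang) Rel.P ![Term.var a, Term.var b]
  | .R a b c => Relations.formula (L := Lang) Rel.R ![Term.var a, Term.var b, Term.var c]

section Main

variable {H : Fact O → Prop} [Lang.Structure O] {κ : Cardinal.{w}}

/-- the structure on `O` is given by `H` -/
def Compat (H : Fact O → Prop) : Prop :=
  ∀ (n : ℕ) (r : Rel n) (v : Fin n → O), Structure.RelMap (L := Lang) r v ↔ H (r.fact v)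

theorem Compat.realize_form (hH : Compat H) {ι : Type w} (φ : Fact ι) (a : ι → O) :
    φ.form.Realize a ↔ H (φ.map a) := by
  cases φ <;> simp only [Fact.form, Formula.realize_rel] <;> rw [hH] <;> rfl

theorem Compat.aut (hH : Compat H) (σ : O ≃[Lang] O) (φ : Fact O) : H (φ.map σ) ↔ H φ := by
  have := realize_aut σ φ.form id
  rw [hH.realize_form, hH.realize_form, Fact.map_id] at this
  exact this

theorem Compat.exists_aut (hH : Compat H) (hU : UH κ H) {ι : Type w} (hι : #ι < κ) (a b : ι → O)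
    (h1 : ∀ i j, a i = a j ↔ b i = b j) (h2 : ∀ φ : Fact ι, H (φ.map a) ↔ H (φ.map b)) :
    ∃ σ : O ≃[Lang] O, ∀ i, σ (a i) = b i := by
  obtain ⟨σ, hσ, hσ'⟩ := hU ι hι a b h1 h2
  refine ⟨⟨σ, fun f => f.elim, fun r v => ?_⟩, hσ'⟩
  rw [hH, hH]
  exact (iff_of_eq (congrArg H (Rel.fact_comp σ r v))).trans (hσ _)

theorem isMonster (hH : Compat H) (hκ : ℵ₀ < κ) (hG : Good H) (hE : EP κ H) (hU : UH κ H)
    [Nonempty O] : IsMonster Lang O κ where
  nonempty := inferInstance
  uncountable := hκ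
  card_lang := by
    rw [Cardinal.lift_uzero]
    exact (lift_lt_aleph0.2 (lt_aleph0_of_finite _)).trans hκ
  homogeneous := fun ι hι a b h => hH.exists_aut hU hι a b
    (fun i j => by simpa using h ((Term.var i).equal (Term.var j)))
    (fun φ => by rw [← hH.realize_form, ← hH.realize_form]; exact h _)
  saturated := by
    classical
    intro A hA S hS hf
    obtain ⟨F, hF⟩ := Ultrafilter.exists_ultrafilter_of_finite_inter_nonempty S hf
    by_cases hc : ∃ a ∈ A, {x : Fin 1 → O | x 0 = a} ∈ F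
    · obtain ⟨a, -, ha⟩ := hc
      refine ⟨fun _ => a, fun D hD => ?_⟩
      obtain ⟨x, hx, hx'⟩ := F.nonempty_of_mem (Filter.inter_mem (hF hD) ha)
      convert hx using 1
      funext i
      rw [Subsingleton.elim i 0]
      exact hx'.symm
    push Not at hc
    obtain ⟨t, ht, hK⟩ := hE A hA Subtype.val Subtype.val_injective
      (fun φ => {x : Fin 1 → O | H (φ.map (fun o => o.elim (x 0) Subtype.val))} ∈ F)
      ⟨fun e z h1 h2 => by
          obtain ⟨x, hx, hx'⟩ := F.nonempty_of_mem (Filter.inter_mem h1 h2)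
          exact hG.c1 _ _ hx hx',
        fun a h1 => by
          obtain ⟨x, hx⟩ := F.nonempty_of_mem h1
          exact hG.c2 _ hx,
        fun e a b c h1 h2 h3 h4 => by
          obtain ⟨x, ⟨x1, x2⟩, x3, x4⟩ := F.nonempty_of_mem
            (Filter.inter_mem (Filter.inter_mem h1 h2) (Filter.inter_mem h3 h4))
          exact hG.c3 _ _ _ _ x1 x2 x3 x4⟩
      (fun ψ => by
        simp only [Fact.map_map]
        constructor
        · intro h
          obtain ⟨x, hx⟩ := F.nonempty_of_mem h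
          exact hx
        · intro h
          exact Filter.mem_of_superset Filter.univ_mem (fun x _ => h))
    refine ⟨fun _ => t, fun D hD => ?_⟩
    obtain ⟨A0, hA0, hD0⟩ := definable_iff_finitely_definable.1 (hS D hD)
    let inc : Option (A0 : Set O) → Option A := Option.map (Set.inclusion hA0)
    have hinc : ∀ u : O, (fun o : Option A => o.elim u Subtype.val) ∘ inc =
        fun o : Option (A0 : Set O) => o.elim u Subtype.val := by
      intro u
      funext o
      cases o <;> rfl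
    have hZ1 : (⋂ a : (A0 : Set O), {x : Fin 1 → O | x 0 = a.1}ᶜ) ∈ F :=
      Filter.iInter_mem.2 (fun a => Ultrafilter.compl_mem_iff_notMem.2 (hc a.1 (hA0 a.2)))
    have hZ2 : (⋂ φ : Fact (Option (A0 : Set O)), {x : Fin 1 → O |
        H (φ.map (fun o => o.elim (x 0) Subtype.val)) ↔
          H (φ.map (fun o => o.elim t Subtype.val))}) ∈ F := by
      refine Filter.iInter_mem.2 (fun φ => ?_)
      have := hK (φ.map inc)
      simp only [Fact.map_map, hinc] at this
      by_cases h : H (φ.map (fun o => o.elim t Subtype.val))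
      · exact Filter.mem_of_superset (this.2 h) (fun x hx => iff_of_true hx h)
      · exact Filter.mem_of_superset (Ultrafilter.compl_mem_iff_notMem.2 (mt this.1 h))
          (fun x hx => iff_of_false hx h)
    obtain ⟨x, hxD, hx1, hx2⟩ := F.nonempty_of_mem
      (Filter.inter_mem (hF hD) (Filter.inter_mem hZ1 hZ2))
    simp only [mem_iInter, mem_compl_iff, mem_ofPred_eq] at hx1 hx2
    obtain ⟨σ, hσ⟩ := hH.exists_aut hU (ι := Option (A0 : Set O))
      ((lt_aleph0_of_finite _).trans hκ) (fun o => o.elim (x 0) Subtype.val)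
      (fun o => o.elim t Subtype.val) (by
        have k : ∀ a : (A0 : Set O), t ≠ a.1 := fun a h => ht ⟨⟨a.1, hA0 a.2⟩, h.symm⟩
        rintro (_ | i) (_ | j)
        · simp
        · exact iff_of_false (hx1 j) (k j)
        · exact iff_of_false (fun h => hx1 i h.symm) (fun h => k i h.symm)
        · rfl) hx2
    have := (definable_aut hD0 σ (fun a ha => hσ (some ⟨a, ha⟩)) x).2 hxD
    convert this using 1
    funext i
    rw [Subsingleton.elim i 0]
    exact (hσ none).symm

/-- points with the adjacency pattern `s` over `B` -/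
def Pat (H : Fact O → Prop) (s : Prop → Prop) (B : Set O) : Set O :=
  {u | u ∉ B ∧ H (.V u) ∧ ¬ H (.C u) ∧ (∀ e ∈ B, H (.P e u) ↔ ¬ H (.V e) ∧ s (H (.C e))) ∧
    ∀ a ∈ insert u B, ∀ b ∈ insert u B, ∀ c ∈ insert u B, (a = u ∨ b = u ∨ c = u) →
      ¬ H (.R a b c)}

omit [Lang.Structure O] in
theorem Pat.anti {s : Prop → Prop} {B B' : Set O} (h : B ⊆ B') : Pat H s B' ⊆ Pat H s B :=
  fun _ hu => ⟨fun hh => hu.1 (h hh), hu.2.1, hu.2.2.1, fun e he => hu.2.2.2.1 e (h he),
    fun a ha b hb c hc => hu.2.2.2.2 a (insert_subset_insert h ha) b (insert_subset_insert h hb) c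
      (insert_subset_insert h hc)⟩

/-- the one point extension with pattern `s` and extra edges `X` -/
def newPt (H : Fact O → Prop) (s : Prop → Prop) (B : Set O) (X : Set (O × O)) :
    Fact (Option B) → Prop
  | .V none => True
  | .V (some a) => H (.V a)
  | .C none => False
  | .C (some a) => H (.C a)
  | .P none _ => False
  | .P (some e) none => ¬ H (.V e) ∧ s (H (.C e))
  | .P (some e) (some z) => H (.P e z)
  | .R (some a) (some b) (some c) => H (.R a b c)
  | .R (some a) (some b) none => (a.1, b.1) ∈ X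
  | .R none _ _ => False
  | .R (some _) none _ => False

omit [Lang.Structure O] in
theorem exists_pt (hG : Good H) (hE : EP κ H) (s : Prop → Prop) {B : Set O} (hB : #B < κ)
    (X : Set (O × O)) (hX : ∀ p ∈ X, ∀ e ∈ B, H (.P e p.1) → H (.P e p.2) → False) :
    ∃ t, t ∉ B ∧ H (.V t) ∧ ¬ H (.C t) ∧ (∀ e ∈ B, H (.P e t) ↔ ¬ H (.V e) ∧ s (H (.C e))) ∧
      (∀ a ∈ B, ∀ b ∈ B, H (.R a b t) ↔ (a, b) ∈ X) ∧
      (∀ b ∈ insert t B, ∀ c ∈ insert t B, ¬ H (.R t b c)) ∧
      (∀ a ∈ insert t B, ∀ c ∈ insert t B, ¬ H (.R a t c)) := by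
  obtain ⟨t, ht, hK⟩ := hE B hB Subtype.val Subtype.val_injective (newPt H s B X)
    ⟨by
      rintro (_ | e) (_ | z) h1 h2
      · exact h1
      · exact h1
      · exact h1.1 h2
      · exact hG.c1 _ _ h1 h2,
    by
      rintro (_ | a) h
      · exact h
      · exact hG.c2 _ h,
    by
      rintro (_ | e) (_ | a) (_ | b) (_ | c) h1 h2 h3 h4 <;> first
        | exact h1
        | exact h2
        | exact hX _ h1 e e.2 h2 h3
        | exact hG.c3 _ _ _ _ h1 h2 h3 h4⟩
    (fun ψ => by cases ψ <;> rfl)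
  have hmem : ∀ b ∈ insert t B, ∃ o : Option B, o.elim t Subtype.val = b := by
    rintro b (rfl | hb)
    · exact ⟨none, rfl⟩
    · exact ⟨some ⟨b, hb⟩, rfl⟩
  refine ⟨t, fun h => ht ⟨⟨t, h⟩, rfl⟩, (hK (.V none)).1 trivial, fun h => (hK (.C none)).2 h,
    fun e he => (hK (.P (some ⟨e, he⟩) none)).symm,
    fun a ha b hb => (hK (.R (some ⟨a, ha⟩) (some ⟨b, hb⟩) none)).symm, ?_, ?_⟩
  · intro b hb c hc h
    obtain ⟨b, rfl⟩ := hmem b hb
    obtain ⟨c, rfl⟩ := hmem c hc
    exact (hK (.R none b c)).2 h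
  · intro a ha c hc h
    obtain ⟨a, rfl⟩ := hmem a ha
    obtain ⟨c, rfl⟩ := hmem c hc
    cases a with
    | none => exact (hK (.R none none c)).2 h
    | some a => exact (hK (.R (some a) none c)).2 h

omit [Lang.Structure O] in
theorem Pat.nonempty (hG : Good H) (hE : EP κ H) (s : Prop → Prop) {B : Set O} (hB : #B < κ) :
    (Pat H s B).Nonempty := by
  obtain ⟨t, h1, h2, h3, h4, h5, h6, h7⟩ := exists_pt hG hE s hB ∅ (by simp)
  refine ⟨t, h1, h2, h3, h4, fun a ha b hb c hc h => ?_⟩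
  rcases ha with rfl | ha
  · exact h6 b hb c hc
  rcases hb with rfl | hb
  · exact h7 a (Or.inr ha) c hc
  rcases h with rfl | rfl | rfl
  · exact absurd ha h1
  · exact absurd hb h1
  · simpa using h5 a ha b hb

/-- the one point extension by a covering point -/
def newE (H : Fact O → Prop) (col : Prop) (b : O) : Fact (Option PUnit.{w + 1}) → Prop
  | .V none => False
  | .V (some _) => H (.V b)
  | .C none => col
  | .C (some _) => H (.C b)
  | .P none none => False
  | .P none (some _) => True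
  | .P (some _) none => False
  | .P (some _) (some _) => H (.P b b)
  | .R (some _) (some _) (some _) => H (.R b b b)
  | .R (some _) (some _) none => False
  | .R none _ _ => False
  | .R (some _) none _ => False

omit [Lang.Structure O] in
theorem exists_cover (hκ : ℵ₀ ≤ κ) (hG : Good H) (hE : EP κ H) (col : Prop) (b : O) :
    ∃ e, ¬ H (.V e) ∧ (H (.C e) ↔ col) ∧ H (.P e b) := by
  obtain ⟨t, -, hK⟩ := hE PUnit.{w + 1} ((lt_aleph0_of_finite _).trans_le hκ) (fun _ => b)
    (fun _ _ _ => rfl) (newE H col b)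
    ⟨by
      rintro (_ | e) (_ | z) h1 h2
      · exact h1
      · exact h2
      · exact h1
      · exact hG.c1 _ _ h1 h2,
    by
      rintro (_ | a) h
      · exact h
      · exact hG.c2 _ h,
    by
      rintro (_ | e) (_ | a) (_ | b) (_ | c) h1 h2 h3 h4 <;> first
        | exact h1
        | exact hG.c2 _ h1⟩
    (fun ψ => by cases ψ <;> rfl)
  exact ⟨t, fun h => (hK (.V none)).2 h, (hK (.C none)).symm, (hK (.P none (some PUnit.unit))).1 trivial⟩

theorem Pat.conj (hH : Compat H) (hκ : ℵ₀ ≤ κ) (hG : Good H) (hU : UH κ H) {s : Prop → Prop}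
    {B : Set O} (hB : #B < κ) {u u' : O} (hu : u ∈ Pat H s B) (hu' : u' ∈ Pat H s B) :
    ∃ σ : O ≃[Lang] O, (∀ x ∈ B, σ x = x) ∧ σ u = u' := by
  obtain ⟨σ, hσ⟩ := hH.exists_aut hU (ι := Option B) (card_option_lt hκ hB)
    (fun o => o.elim u Subtype.val) (fun o => o.elim u' Subtype.val) (by
      rintro (_ | i) (_ | j)
      · simp
      · exact iff_of_false (fun h : u = j.1 => hu.1 (h ▸ j.2)) (fun h : u' = j.1 => hu'.1 (h ▸ j.2))
      · exact iff_of_false (fun h : i.1 = u => hu.1 (h ▸ i.2)) (fun h : i.1 = u' => hu'.1 (h ▸ i.2))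
      · rfl) (by
      have hm : ∀ (v : O) (o : Option B), o.elim v Subtype.val ∈ insert v B := by
        rintro v (_ | o)
        · exact Or.inl rfl
        · exact Or.inr o.2
      intro φ
      cases φ with
      | V a =>
        cases a with
        | none => exact iff_of_true hu.2.1 hu'.2.1
        | some a => rfl
      | C a =>
        cases a with
        | none => exact iff_of_false hu.2.2.1 hu'.2.2.1
        | some a => rfl
      | P a b =>
        cases a with
        | none => exact iff_of_false (fun h => hG.c1 _ _ h hu.2.1) (fun h => hG.c1 _ _ h hu'.2.1)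
        | some a =>
          cases b with
          | none => exact (hu.2.2.2.1 a a.2).trans (hu'.2.2.2.1 a a.2).symm
          | some b => rfl
      | R a b c =>
        by_cases h : a = none ∨ b = none ∨ c = none
        · refine iff_of_false (hu.2.2.2.2 _ (hm u a) _ (hm u b) _ (hm u c) ?_)
            (hu'.2.2.2.2 _ (hm u' a) _ (hm u' b) _ (hm u' c) ?_)
          · rcases h with rfl | rfl | rfl <;> simp
          · rcases h with rfl | rfl | rfl <;> simp
        · push Not at h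
          obtain ⟨a, rfl⟩ := Option.ne_none_iff_exists'.1 h.1
          obtain ⟨b, rfl⟩ := Option.ne_none_iff_exists'.1 h.2.1
          obtain ⟨c, rfl⟩ := Option.ne_none_iff_exists'.1 h.2.2
          rfl)
  exact ⟨σ, fun x hx => hσ (some ⟨x, hx⟩), hσ none⟩

theorem Pat.aut (hH : Compat H) {s : Prop → Prop} {B : Set O} (σ : O ≃[Lang] O) {u : O}
    (hu : u ∈ Pat H s B) : σ u ∈ Pat H s (σ '' B) := by
  have hm : ∀ a ∈ insert (σ u) (σ '' B), ∃ a' ∈ insert u B, σ a' = a := by
    rintro _ (rfl | ⟨a, ha, rfl⟩)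
    · exact ⟨u, Or.inl rfl, rfl⟩
    · exact ⟨a, Or.inr ha, rfl⟩
  refine ⟨?_, (hH.aut σ (.V u)).2 hu.2.1, fun h => hu.2.2.1 ((hH.aut σ (.C u)).1 h), ?_, ?_⟩
  · rintro ⟨x, hx, h⟩
    exact hu.1 (σ.injective h ▸ hx)
  · rintro _ ⟨e, he, rfl⟩
    have h1 : H (.P (σ e) (σ u)) ↔ H (.P e u) := hH.aut σ (.P e u)
    have h2 : H (.V (σ e)) ↔ H (.V e) := hH.aut σ (.V e)
    have h3 : H (.C (σ e)) ↔ H (.C e) := hH.aut σ (.C e)
    rw [h1, h2, h3]
    exact hu.2.2.2.1 e he
  · intro a ha b hb c hc h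
    obtain ⟨a, ha', rfl⟩ := hm a ha
    obtain ⟨b, hb', rfl⟩ := hm b hb
    obtain ⟨c, hc', rfl⟩ := hm c hc
    have h1 : H (.R (σ a) (σ b) (σ c)) ↔ H (.R a b c) := hH.aut σ (.R a b c)
    rw [h1]
    exact hu.2.2.2.2 a ha' b hb' c hc' (by simpa using h)

theorem exists_patType (hH : Compat H) (hM : IsMonster Lang O κ) (hG : Good H) (hE : EP κ H)
    (hU : UH κ H) (s : Prop → Prop) : ∃ p : GType Lang O (Fin 1), p.InvariantOver ∅ ∧
      ∀ B : Set O, #B < κ → ∀ x, (p.Realizes B x ↔ x 0 ∈ Pat H s B) := by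
  have hκ := hM.uncountable.le
  let S : Set (Set (Fin 1 → O)) := {D | (Set.univ : Set O).Definable Lang D ∧
    ∃ B : Set O, B.Finite ∧ ∀ x : Fin 1 → O, x 0 ∈ Pat H s B → x ∈ D}
  have hconj : ∀ B : Set O, #B < κ → ∀ D : Set (Fin 1 → O), B.Definable Lang D →
      ∀ x y : Fin 1 → O, x 0 ∈ Pat H s B → y 0 ∈ Pat H s B → x ∈ D → y ∈ D := by
    intro B hB D hD x y hx hy h
    obtain ⟨σ, hσ, hσ'⟩ := Pat.conj hH hκ hG hU hB hx hy
    have := (definable_aut hD σ hσ x).2 h
    convert this using 1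
    funext i
    rw [Subsingleton.elim i 0]
    exact hσ'.symm
  let p : GType Lang O (Fin 1) := ⟨S, fun D hD => hD.1, fun D hD => by
      obtain ⟨B, hB, hBD⟩ := exists_finite_definable hD
      obtain ⟨u, hu⟩ := Pat.nonempty hG hE s (hM.small_finite hB)
      by_cases h : (fun _ => u) ∈ D
      · exact Or.inl ⟨hD, B, hB, fun x hx => hconj B (hM.small_finite hB) D hBD _ x hu hx h⟩
      · exact Or.inr ⟨hD.compl, B, hB, fun x hx =>
          hconj B (hM.small_finite hB) Dᶜ hBD.compl _ x hu hx h⟩,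
    fip_of_base S {D | ∃ B : Set O, B.Finite ∧ D = {x : Fin 1 → O | x 0 ∈ Pat H s B}}
      ⟨_, ∅, finite_empty, rfl⟩ (by
        rintro _ ⟨B, hB, rfl⟩ _ ⟨B', hB', rfl⟩
        exact ⟨_, ⟨B ∪ B', hB.union hB', rfl⟩, fun x hx =>
          ⟨Pat.anti subset_union_left hx, Pat.anti subset_union_right hx⟩⟩) (by
        rintro _ ⟨B, hB, rfl⟩
        obtain ⟨u, hu⟩ := Pat.nonempty hG hE s (hM.small_finite hB)
        exact ⟨fun _ => u, hu⟩) (by
        rintro D ⟨-, B, hB, h⟩
        exact ⟨_, ⟨B, hB, rfl⟩, h⟩)⟩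
  have hfw : ∀ (σ : O ≃[Lang] O) (D : Set (Fin 1 → O)), D ∈ S →
      (fun x : Fin 1 → O => σ ∘ x) '' D ∈ S := by
    rintro σ D ⟨hD, B, hB, h⟩
    refine ⟨?_, σ '' B, hB.image _, fun x hx => ?_⟩
    · have := definable_preimage_aut (C := Set.univ) hD σ.symm (fun _ _ => trivial)
      convert this using 1
      ext x
      rw [mem_image_aut]
      rfl
    · rw [mem_image_aut]
      apply h
      have := Pat.aut hH σ.symm hx
      rw [image_image] at this
      simpa using this
  have hreal : ∀ B : Set O, #B < κ → ∀ x : Fin 1 → O, x 0 ∈ Pat H s B → p.Realizes B x := by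
    rintro B hB x hx D ⟨-, B', hB', h⟩ hD
    obtain ⟨u, hu⟩ := Pat.nonempty hG hE s (hM.small_union hB (hM.small_finite hB'))
    exact hconj B hB D hD (fun _ => u) x (Pat.anti subset_union_left hu) hx
      (h _ (Pat.anti subset_union_right hu))
  refine ⟨p, fun σ _ D => ⟨hfw σ D, fun h => ?_⟩, fun B hB x => ⟨fun h => ?_, hreal B hB x⟩⟩
  · have := hfw σ.symm _ h
    rw [image_image] at this
    have h2 : (fun x : Fin 1 → O => σ.symm ∘ σ ∘ x) = id := by
      funext x i
      simp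
    rwa [h2, image_id] at this
  · obtain ⟨u, hu⟩ := Pat.nonempty hG hE s hB
    obtain ⟨σ, hσ, hσ'⟩ := hM.exists_aut hB (hreal B hB (fun _ => u) hu) h
    have := Pat.aut hH σ hu
    rw [show σ '' B = B from (image_congr hσ).trans (image_id B)] at this
    rw [← hσ']
    exact this

omit [Lang.Structure O] in
theorem worth_of_conj {L : FirstOrder.Language.{0, 0}} [L.Structure O] {α β : Type} [Finite α]
    [Finite β] (hM : IsMonster L O κ) (p : GType L O α) (q : GType L O β)
    (h : ∀ B : Set O, B.Finite → ∃ B' : Set O, B'.Finite ∧ B ⊆ B' ∧ ∀ x x' y y',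
      p.Realizes B' x → p.Realizes B' x' → q.Realizes B' y → q.Realizes B' y' →
        ∃ σ : O ≃[L] O, (∀ b ∈ B, σ b = b) ∧ σ ∘ Sum.elim x y = Sum.elim x' y') :
    WeaklyOrthogonal p q := by
  obtain ⟨r, hr, -⟩ := exists_extends p q (D := Set.univ) definable_univ (fun ψ hψ χ hχ => by
    obtain ⟨a, ha⟩ := p.nonempty hψ
    obtain ⟨b, hb⟩ := q.nonempty hχ
    exact ⟨Sum.elim a b, ⟨ha, hb⟩, trivial⟩)
  have key : ∀ r1 r2 : GType L O (α ⊕ β), r1.Extends p q → r2.Extends p q →
      r1.sets ⊆ r2.sets := by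
    intro r1 r2 h1 h2 D hD
    obtain ⟨B, hB, hBD⟩ := exists_finite_definable (r1.definable D hD)
    obtain ⟨B', hB', hBB', hc⟩ := h B hB
    obtain ⟨z1, hz1⟩ := hM.exists_realizes r1 (hM.small_finite hB')
    obtain ⟨z2, hz2⟩ := hM.exists_realizes r2 (hM.small_finite hB')
    obtain ⟨σ, hσ, hσ'⟩ := hc (z1 ∘ Sum.inl) (z2 ∘ Sum.inl) (z1 ∘ Sum.inr) (z2 ∘ Sum.inr)
      (fun ψ hψ hψ' => hz1 _ (h1.1 ψ hψ) (hψ'.preimage_comp Sum.inl))
      (fun ψ hψ hψ' => hz2 _ (h2.1 ψ hψ) (hψ'.preimage_comp Sum.inl))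
      (fun ψ hψ hψ' => hz1 _ (h1.2 ψ hψ) (hψ'.preimage_comp Sum.inr))
      (fun ψ hψ hψ' => hz2 _ (h2.2 ψ hψ) (hψ'.preimage_comp Sum.inr))
    rw [Sum.elim_comp_inl_inr, Sum.elim_comp_inl_inr] at hσ'
    rw [← hz2.mem_iff (hBD.mono hBB'), ← hσ', definable_aut hBD σ hσ]
    exact hz1 D hD (hBD.mono hBB')
  exact ⟨r, hr, fun r' hr' => GType.ext' (Subset.antisymm (key _ _ hr' hr) (key _ _ hr hr'))⟩

theorem pat_worth (hH : Compat H) (hM : IsMonster Lang O κ) (hG : Good H) (hE : EP κ H)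
    (hU : UH κ H) {s : Prop → Prop} {col : Prop} (hs : s col) (hs' : ¬ s (¬ col))
    {p q : GType Lang O (Fin 1)}
    (hp : ∀ B : Set O, #B < κ → ∀ x, (p.Realizes B x ↔ x 0 ∈ Pat H s B))
    (hq : ∀ B : Set O, #B < κ → ∀ x, (q.Realizes B x ↔ x 0 ∈ Pat H (fun _ => True) B)) :
    WeaklyOrthogonal p q := by
  have hκ := hM.uncountable.le
  refine worth_of_conj hM p q (fun B hB => ?_)
  choose e he1 he2 he3 using fun b => exists_cover hκ hG hE col b
  obtain ⟨b0⟩ := hM.nonempty
  obtain ⟨e1, hf1, hf2, -⟩ := exists_cover hκ hG hE (¬ col) b0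
  have hB' : (B ∪ (e '' (insert b0 B) ∪ {e1})).Finite :=
    hB.union (((hB.insert b0).image e).union (finite_singleton _))
  refine ⟨_, hB', subset_union_left, fun x x' y y' hx hx' hy hy' => ?_⟩
  set B' := B ∪ (e '' (insert b0 B) ∪ {e1}) with hB'def
  rw [hp _ (hM.small_finite hB')] at hx hx'
  rw [hq _ (hM.small_finite hB')] at hy hy'
  have heB : ∀ b ∈ insert b0 B, e b ∈ B' := fun b hb => Or.inr (Or.inl ⟨b, hb, rfl⟩)
  have hBB : ∀ b : B, b.1 ∈ B' := fun b => Or.inl b.2
  -- basic facts on a pair of realisations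
  have hne : ∀ u ∈ Pat H s B', ∀ v ∈ Pat H (fun _ => True) B', u ≠ v := by
    rintro u hu v hv rfl
    have h1 := (hv.2.2.2.1 e1 (Or.inr (Or.inr rfl))).2 ⟨hf1, trivial⟩
    have h2 := ((hu.2.2.2.1 e1 (Or.inr (Or.inr rfl))).1 h1).2
    rw [propext hf2] at h2
    exact hs' h2
  have hadj : ∀ u ∈ Pat H s B', ∀ v ∈ Pat H (fun _ => True) B', ∀ b ∈ insert b0 B,
      H (.P (e b) u) ∧ H (.P (e b) v) := by
    intro u hu v hv b hb
    refine ⟨(hu.2.2.2.1 _ (heB b hb)).2 ⟨he1 b, ?_⟩, (hv.2.2.2.1 _ (heB b hb)).2 ⟨he1 b, trivial⟩⟩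
    rw [propext (he2 b)]
    exact hs
  let ev : O → O → Option (Option B) → O := fun u v o => o.elim v (fun o => o.elim u Subtype.val)
  have hR : ∀ u ∈ Pat H s B', ∀ v ∈ Pat H (fun _ => True) B', ∀ a b c : Option (Option B),
      ¬ (∃ a' b' c' : B, a = some (some a') ∧ b = some (some b') ∧ c = some (some c')) →
        ¬ H (.R (ev u v a) (ev u v b) (ev u v c)) := by
    intro u hu v hv a b c hn hh
    have h0 := hadj u hu v hv b0 (Or.inl rfl)
    have h1 : ∀ d : B, H (.P (e d) u) ∧ H (.P (e d) v) := fun d => hadj u hu v hv d (Or.inr d.2)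
    have hu' := hu.2.2.2.2
    have hv' := hv.2.2.2.2
    rcases a with _ | _ | a <;> rcases b with _ | _ | b <;> rcases c with _ | _ | c <;>
      first
        | exact hn ⟨_, _, _, rfl, rfl, rfl⟩
        | exact hG.c3 (e b0) _ _ _ hh (by first | exact h0.1 | exact h0.2)
            (by first | exact h0.1 | exact h0.2) (by first | exact h0.1 | exact h0.2)
        | exact hG.c3 (e a) _ _ _ hh (he3 a)
            (by first | exact (h1 a).1 | exact (h1 a).2) (by first | exact (h1 a).1 | exact (h1 a).2)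
        | exact hG.c3 (e b) _ _ _ hh (by first | exact (h1 b).1 | exact (h1 b).2) (he3 b)
            (by first | exact (h1 b).1 | exact (h1 b).2)
        | exact hG.c3 (e c) _ _ _ hh (by first | exact (h1 c).1 | exact (h1 c).2)
            (by first | exact (h1 c).1 | exact (h1 c).2) (he3 c)
        | exact hu' _ (Or.inl rfl) _ (Or.inr (hBB _)) _ (Or.inr (hBB _)) (Or.inl rfl) hh
        | exact hu' _ (Or.inr (hBB _)) _ (Or.inl rfl) _ (Or.inr (hBB _)) (Or.inr (Or.inl rfl)) hh
        | exact hu' _ (Or.inr (hBB _)) _ (Or.inr (hBB _)) _ (Or.inl rfl) (Or.inr (Or.inr rfl)) hh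
        | exact hv' _ (Or.inl rfl) _ (Or.inr (hBB _)) _ (Or.inr (hBB _)) (Or.inl rfl) hh
        | exact hv' _ (Or.inr (hBB _)) _ (Or.inl rfl) _ (Or.inr (hBB _)) (Or.inr (Or.inl rfl)) hh
        | exact hv' _ (Or.inr (hBB _)) _ (Or.inr (hBB _)) _ (Or.inl rfl) (Or.inr (Or.inr rfl)) hh
  have hinj : ∀ u ∈ Pat H s B', ∀ v ∈ Pat H (fun _ => True) B', Function.Injective (ev u v) := by
    intro u hu v hv
    have k1 : ∀ b : B, u ≠ b.1 := fun b h => hu.1 (h ▸ hBB b)
    have k2 : ∀ b : B, v ≠ b.1 := fun b h => hv.1 (h ▸ hBB b)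
    rintro (_ | _ | a) (_ | _ | b) h
    · rfl
    · exact absurd h.symm (hne u hu v hv)
    · exact absurd h (k2 b)
    · exact absurd h (hne u hu v hv)
    · rfl
    · exact absurd h (k1 b)
    · exact absurd h.symm (k2 a)
    · exact absurd h.symm (k1 a)
    · exact congrArg (fun z => some (some z)) (Subtype.ext h)
  obtain ⟨σ, hσ⟩ := hH.exists_aut hU (ι := Option (Option B))
    (card_option_lt hκ (card_option_lt hκ (hM.small_finite hB))) (ev (x 0) (y 0)) (ev (x' 0) (y' 0))
    (fun i j => by rw [(hinj _ hx _ hy).eq_iff, (hinj _ hx' _ hy').eq_iff]) (by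
      intro φ
      cases φ with
      | V a =>
        rcases a with _ | _ | a
        · exact iff_of_true hy.2.1 hy'.2.1
        · exact iff_of_true hx.2.1 hx'.2.1
        · rfl
      | C a =>
        rcases a with _ | _ | a
        · exact iff_of_false hy.2.2.1 hy'.2.2.1
        · exact iff_of_false hx.2.2.1 hx'.2.2.1
        · rfl
      | P a b =>
        rcases a with _ | _ | a
        · exact iff_of_false (fun h => hG.c1 _ _ h hy.2.1) (fun h => hG.c1 _ _ h hy'.2.1)
        · exact iff_of_false (fun h => hG.c1 _ _ h hx.2.1) (fun h => hG.c1 _ _ h hx'.2.1)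
        · rcases b with _ | _ | b
          · exact (hy.2.2.2.1 a (hBB a)).trans (hy'.2.2.2.1 a (hBB a)).symm
          · exact (hx.2.2.2.1 a (hBB a)).trans (hx'.2.2.2.1 a (hBB a)).symm
          · rfl
      | R a b c =>
        by_cases h : ∃ a' b' c' : B, a = some (some a') ∧ b = some (some b') ∧ c = some (some c')
        · obtain ⟨a, b, c, rfl, rfl, rfl⟩ := h
          rfl
        · exact iff_of_false (hR _ hx _ hy a b c h) (hR _ hx' _ hy' a b c h))
  refine ⟨σ, fun b hb => hσ (some (some ⟨b, hb⟩)), ?_⟩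
  funext i
  rcases i with i | i
  · rw [Subsingleton.elim i 0]
    exact hσ (some none)
  · rw [Subsingleton.elim i 0]
    exact hσ none

theorem counterexample (hH : Compat H) (hM : IsMonster Lang O κ) (hG : Good H) (hE : EP κ H)
    (hU : UH κ H) : ∃ p₀ p₁ q : GType Lang O (Fin 1), p₀.InvariantOver ∅ ∧ p₁.InvariantOver ∅ ∧
      q.InvariantOver ∅ ∧ WeaklyOrthogonal p₀ q ∧ WeaklyOrthogonal p₁ q ∧
      ∀ r, IsTensor κ p₀ p₁ r → ¬ WeaklyOrthogonal r q := by
  obtain ⟨p0, i0, h0⟩ := exists_patType hH hM hG hE hU (fun c => c)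
  obtain ⟨p1, i1, h1⟩ := exists_patType hH hM hG hE hU (fun c => ¬ c)
  obtain ⟨q, iq, hq⟩ := exists_patType hH hM hG hE hU (fun _ => True)
  refine ⟨p0, p1, q, i0, i1, iq, pat_worth hH hM hG hE hU (col := True) trivial (by simp) h0 hq,
    pat_worth hH hM hG hE hU (col := False) (by simp) (by simp) h1 hq, fun r hr ho => ?_⟩
  rw [weaklyOrthogonal_iff] at ho
  obtain ⟨ψ, hψ, χ, hχ, hb⟩ := ho {z | H (.R (z (Sum.inl (Sum.inl 0))) (z (Sum.inl (Sum.inr 0)))
    (z (Sum.inr 0)))} (by
      rw [definable_iff_exists_formula_sum]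
      refine ⟨Fact.form (.R (Sum.inr (Sum.inl (Sum.inl 0))) (Sum.inr (Sum.inl (Sum.inr 0)))
        (Sum.inr (Sum.inr 0))), ?_⟩
      ext z
      simp only [mem_ofPred_eq]
      rw [hH.realize_form]
      rfl)
  obtain ⟨B1, hB1, hψB⟩ := exists_finite_definable (r.definable ψ hψ)
  obtain ⟨B2, hB2, hχB⟩ := exists_finite_definable (q.definable χ hχ)
  have hB : #(B1 ∪ B2 : Set O) < κ := hM.small_finite (hB1.union hB2)
  set B := B1 ∪ B2 with hBdef
  obtain ⟨x1, hx1⟩ := hM.exists_realizes p1 hB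
  have hB' : #(B ∪ range x1 : Set O) < κ := hM.small_union hB (hM.small_range x1)
  obtain ⟨x0, hx0⟩ := hM.exists_realizes p0 hB'
  have hz : Sum.elim x0 x1 ∈ ψ :=
    hr.realizes hB (i0.mono (empty_subset _)) hx1 hx0 ψ hψ (hψB.mono subset_union_left)
  have hB'' : #((B ∪ range x1) ∪ range x0 : Set O) < κ := hM.small_union hB' (hM.small_range x0)
  have m0 : x0 0 ∈ (B ∪ range x1) ∪ range x0 := Or.inr ⟨0, rfl⟩
  have m1 : x1 0 ∈ (B ∪ range x1) ∪ range x0 := Or.inl (Or.inr ⟨0, rfl⟩)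
  rw [h0 _ hB'] at hx0
  rw [h1 _ hB] at hx1
  rcases hb with hb | hb
  · obtain ⟨y, hy⟩ := hM.exists_realizes q hB''
    have hyχ : y ∈ χ := hy χ hχ
      (hχB.mono (subset_union_right.trans (subset_union_left.trans subset_union_left)))
    rw [hq _ hB''] at hy
    exact hy.2.2.2.2 _ (Or.inr m0) _ (Or.inr m1) _ (Or.inl rfl) (Or.inr (Or.inr rfl))
      (hb (a := Sum.elim (Sum.elim x0 x1) y) ⟨hz, hyχ⟩)
  · obtain ⟨t, t1, t2, t3, t4, t5, t6, t7⟩ := exists_pt hG hE (fun _ => True) hB''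
      {(x0 0, x1 0)} (by
        rintro _ rfl e (he | ⟨i, rfl⟩) k0 k1
        · rcases he with he | ⟨i, rfl⟩
          · exact ((hx1.2.2.2.1 e he).1 k1).2 ((hx0.2.2.2.1 e (Or.inl he)).1 k0).2
          · rw [Subsingleton.elim i 0] at k1
            exact hG.c1 _ _ k1 hx1.2.1
        · rw [Subsingleton.elim i 0] at k0
          exact hG.c1 _ _ k0 hx0.2.1)
    have hsub : B ⊆ (B ∪ range x1) ∪ range x0 := subset_union_left.trans subset_union_left
    have ht : t ∈ Pat H (fun _ => True) B := by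
      refine ⟨fun h => t1 (hsub h), t2, t3, fun e he => t4 e (hsub he), ?_⟩
      intro a ha b hb c hc h
      rcases ha with rfl | ha
      · exact t6 b (insert_subset_insert hsub hb) c (insert_subset_insert hsub hc)
      rcases hb with rfl | hb
      · exact t7 a (Or.inr (hsub ha)) c (insert_subset_insert hsub hc)
      rcases h with rfl | rfl | rfl
      · exact absurd (hsub ha) t1
      · exact absurd (hsub hb) t1
      · rw [t5 a (hsub ha) b (hsub hb)]
        simp only [mem_singleton_iff, Prod.mk.injEq, not_and]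
        intro _ h
        exact hx1.1 (h ▸ hb)
    have hyχ : (fun _ => t) ∈ χ :=
      (hq B hB (fun _ => t)).2 ht χ hχ (hχB.mono subset_union_right)
    exact hb (a := Sum.elim (Sum.elim x0 x1) (fun _ => t)) ⟨hz, hyχ⟩ ((t5 _ m0 _ m1).2 rfl)

end Main

theorem main {κ : Cardinal.{w}} (hκ : κ.IsInaccessible) :
    ∃ (U : Type w) (_ : Lang.Structure U), #U = κ ∧ IsMonster Lang U κ ∧
      ∃ p₀ p₁ q : GType Lang U (Fin 1), p₀.InvariantOver ∅ ∧ p₁.InvariantOver ∅ ∧
        q.InvariantOver ∅ ∧ WeaklyOrthogonal p₀ q ∧ WeaklyOrthogonal p₁ q ∧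
        ∃ r, IsTensor κ p₀ p₁ r ∧ (∀ r', IsTensor κ p₀ p₁ r' → r' = r) ∧
          ¬ WeaklyOrthogonal r q := by
  obtain ⟨H, hG, hE, hU⟩ := exists_generic_uh hκ
  let _ := str H
  have hH : Compat H := fun _ _ _ => Iff.rfl
  have hne : Nonempty κ.ord.ToType := by
    rw [← mk_ne_zero_iff, mk_ord_toType]
    exact hκ.ne_zero
  have hM := isMonster hH hκ.aleph0_lt hG hE hU
  obtain ⟨p0, p1, q, i0, i1, iq, o0, o1, h⟩ := counterexample hH hM hG hE hU
  have hi : p0.Invariant κ := ⟨∅, hM.small_finite finite_empty, i0⟩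
  obtain ⟨r, hr⟩ := hM.exists_tensor hi p1
  exact ⟨κ.ord.ToType, inferInstance, mk_ord_toType κ, hM, p0, p1, q, i0, i1, iq, o0, o1, r, hr,
    fun _ h' => hM.tensor_unique hi hr h', h r hr⟩

end Pool.Agent.H37Z.Gen
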