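import Mathlib

set_option autoImplicit false

namespace Pool.Agent.H37Z.Gen

open Cardinal Set

universe w

/-- atomic facts about points of `X` -/
inductive Fact (X : Type w) : Type w
  | V (a : X)
  | C (a : X)
  | P (a b : X)
  | R (a b c : X)

variable {X Y Z : Type w}

def Fact.map (f : X → Y) : Fact X → Fact Y
  | .V a => .V (f a)
  | .C a => .C (f a)
  | .P a b => .P (f a) (f b)
  | .R a b c => .R (f a) (f b) (f c)

def Fact.supp : Fact X → Set X
  | .V a => {a}
  | .C a => {a}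
  | .P a b => {a, b}
  | .R a b c => {a, b, c}

theorem Fact.map_map (f : X → Y) (g : Y → Z) (φ : Fact X) :
    (φ.map f).map g = φ.map (g ∘ f) := by cases φ <;> rfl

theorem Fact.map_id (φ : Fact X) : φ.map id = φ := by cases φ <;> rfl

theorem Fact.supp_map (f : X → Y) (φ : Fact X) : (φ.map f).supp = f '' φ.supp := by
  cases φ <;> simp [Fact.map, Fact.supp, image_insert_eq]

theorem Fact.map_congr {f g : X → Y} (φ : Fact X) (h : ∀ x ∈ φ.supp, f x = g x) :
    φ.map f = φ.map g := by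
  cases φ <;> simp_all [Fact.map, Fact.supp]

theorem Fact.map_injective {f : X → Y} (hf : Function.Injective f) :
    Function.Injective (Fact.map f) := by
  intro φ ψ h
  cases φ <;> cases ψ <;> simp_all [Fact.map, hf.eq_iff]

theorem Fact.exists_map {f : X → Y} (ψ : Fact Y) (h : ψ.supp ⊆ range f) :
    ∃ φ : Fact X, φ.map f = ψ := by
  cases ψ with
  | V a =>
    obtain ⟨a, rfl⟩ := h (a := a) (by simp [Fact.supp])
    exact ⟨.V a, rfl⟩
  | C a =>
    obtain ⟨a, rfl⟩ := h (a := a) (by simp [Fact.supp])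
    exact ⟨.C a, rfl⟩
  | P a b =>
    obtain ⟨a, rfl⟩ := h (a := a) (by simp [Fact.supp])
    obtain ⟨b, rfl⟩ := h (a := b) (by simp [Fact.supp])
    exact ⟨.P a b, rfl⟩
  | R a b c =>
    obtain ⟨a, rfl⟩ := h (a := a) (by simp [Fact.supp])
    obtain ⟨b, rfl⟩ := h (a := b) (by simp [Fact.supp])
    obtain ⟨c, rfl⟩ := h (a := c) (by simp [Fact.supp])
    exact ⟨.R a b c, rfl⟩

def Fact.ofTuple (t : ULift.{w} (Fin 4) × X × X × X) : Fact X :=
  if t.1.down = 0 then .V t.2.1 else if t.1.down = 1 then .C t.2.1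
  else if t.1.down = 2 then .P t.2.1 t.2.2.1 else .R t.2.1 t.2.2.1 t.2.2.2

theorem Fact.ofTuple_surjective : Function.Surjective (Fact.ofTuple : _ → Fact X) := by
  intro φ
  cases φ with
  | V a => exact ⟨(⟨0⟩, a, a, a), by simp [Fact.ofTuple]⟩
  | C a => exact ⟨(⟨1⟩, a, a, a), by simp [Fact.ofTuple]⟩
  | P a b => exact ⟨(⟨2⟩, a, b, b), by simp [Fact.ofTuple]⟩
  | R a b c => exact ⟨(⟨3⟩, a, b, c), by simp [Fact.ofTuple]⟩

instance [Finite X] : Finite (Fact X) := Finite.of_surjective _ Fact.ofTuple_surjective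

theorem Fact.card_lt {κ : Cardinal.{w}} (hκ : ℵ₀ ≤ κ) (h : #X < κ) : #(Fact X) < κ := by
  refine (mk_le_of_surjective Fact.ofTuple_surjective).trans_lt ?_
  simp only [mk_prod, Cardinal.lift_id]
  exact mul_lt_of_lt hκ ((lt_aleph0_of_finite _).trans_le hκ)
    (mul_lt_of_lt hκ h (mul_lt_of_lt hκ h h))

theorem Fact.card_eq [Infinite X] : #(Fact X) = #X := by
  apply le_antisymm
  · refine (mk_le_of_surjective Fact.ofTuple_surjective).trans ?_
    simp only [mk_prod, Cardinal.lift_id]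
    rw [mul_eq_self (aleph0_le_mk X), mul_eq_self (aleph0_le_mk X)]
    exact (mul_le_max_of_aleph0_le_right (aleph0_le_mk X)).trans
      (max_le ((lt_aleph0_of_finite _).le.trans (aleph0_le_mk X)) le_rfl)
  · exact mk_le_of_injective (f := Fact.V) (fun a b h => by simpa using h)

theorem card_option_lt {κ : Cardinal.{w}} (hκ : ℵ₀ ≤ κ) (h : #X < κ) : #(Option X) < κ := by
  rw [mk_option]
  exact add_lt_of_lt hκ h (one_lt_aleph0.trans_le hκ)

/-- the forbidden configurations -/
structure Good (H : Fact X → Prop) : Prop where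
  c1 : ∀ e z, H (.P e z) → ¬ H (.V e)
  c2 : ∀ a, ¬ H (.R a a a)
  c3 : ∀ e a b c, H (.R a b c) → H (.P e a) → H (.P e b) → H (.P e c) → False

theorem Good.comap {H : Fact Y → Prop} (h : Good H) (f : X → Y) : Good (fun φ => H (φ.map f)) :=
  ⟨fun e z => h.c1 (f e) (f z), fun a => h.c2 (f a),
    fun e a b c => h.c3 (f e) (f a) (f b) (f c)⟩

/-- the one point extension property over small sets -/
def EP (κ : Cardinal.{w}) {O : Type w} (H : Fact O → Prop) : Prop :=
  ∀ (ι : Type w), #ι < κ → ∀ b : ι → O, Function.Injective b → ∀ K : Fact (Option ι) → Prop,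
    Good K → (∀ ψ : Fact ι, K (ψ.map some) ↔ H (ψ.map b)) →
      ∃ t, t ∉ range b ∧ ∀ φ, K φ ↔ H (φ.map (fun o => o.elim t b))

section Construction

variable {O : Type w} [LinearOrder O] [WellFoundedLT O] (c : O → Set (Fact (Option O)))

def codes (t : O) (ψ : Fact O) : Prop :=
  ∃ φ ∈ c t, none ∈ φ.supp ∧ (∀ s, some s ∈ φ.supp → s < t) ∧ φ.map (fun o => o.elim t id) = ψ

noncomputable def valid : O → Prop :=
  (wellFounded_lt (α := O)).fix (fun t rec =>
    Good (fun ψ => codes c t ψ ∨ ∃ s, ∃ h : s < t, rec s h ∧ codes c s ψ))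

def upTo (t : O) (ψ : Fact O) : Prop := codes c t ψ ∨ ∃ s, s < t ∧ valid c s ∧ codes c s ψ

theorem valid_iff (t : O) : valid c t ↔ Good (upTo c t) := by
  rw [valid, WellFounded.fix_eq]
  refine iff_of_eq (congrArg Good ?_)
  funext ψ
  simp only [upTo, valid, exists_prop]

def holds (ψ : Fact O) : Prop := ∃ t, valid c t ∧ codes c t ψ

omit [WellFoundedLT O] in
theorem codes_mem {t : O} {ψ : Fact O} (h : codes c t ψ) : t ∈ ψ.supp := by
  obtain ⟨φ, -, h1, -, rfl⟩ := h
  rw [Fact.supp_map]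
  exact ⟨none, h1, rfl⟩

omit [WellFoundedLT O] in
theorem codes_le {t : O} {ψ : Fact O} (h : codes c t ψ) {s : O} (hs : s ∈ ψ.supp) : s ≤ t := by
  obtain ⟨φ, -, -, h2, rfl⟩ := h
  rw [Fact.supp_map] at hs
  obtain ⟨o, ho, rfl⟩ := hs
  cases o with
  | none => exact le_rfl
  | some s => exact (h2 s ho).le

theorem upTo_of {t s : O} {ψ : Fact O} (hs : valid c s) (h : codes c s ψ) (hst : s ≤ t) :
    upTo c t ψ := by
  rcases hst.eq_or_lt with rfl | hst
  · exact Or.inl h
  · exact Or.inr ⟨s, hst, hs, h⟩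

theorem good_holds : Good (holds c) := by
  refine ⟨?_, ?_, ?_⟩
  · rintro e z ⟨t1, v1, h1⟩ ⟨t2, v2, h2⟩
    have hv : valid c (max t1 t2) := by rcases max_choice t1 t2 with h | h <;> rwa [h]
    exact ((valid_iff c _).1 hv).c1 e z (upTo_of c v1 h1 (le_max_left _ _))
      (upTo_of c v2 h2 (le_max_right _ _))
  · rintro a ⟨t1, v1, h1⟩
    exact ((valid_iff c _).1 v1).c2 a (upTo_of c v1 h1 le_rfl)
  · rintro e a b d ⟨t1, v1, h1⟩ ⟨t2, v2, h2⟩ ⟨t3, v3, h3⟩ ⟨t4, v4, h4⟩
    have hv12 : valid c (max t1 t2) := by rcases max_choice t1 t2 with h | h <;> rwa [h]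
    have hv34 : valid c (max t3 t4) := by rcases max_choice t3 t4 with h | h <;> rwa [h]
    have hv : valid c (max (max t1 t2) (max t3 t4)) := by
      rcases max_choice (max t1 t2) (max t3 t4) with h | h <;> rwa [h]
    exact ((valid_iff c _).1 hv).c3 e a b d
      (upTo_of c v1 h1 ((le_max_left _ _).trans (le_max_left _ _)))
      (upTo_of c v2 h2 ((le_max_right _ _).trans (le_max_left _ _)))
      (upTo_of c v3 h3 ((le_max_left _ _).trans (le_max_right _ _)))
      (upTo_of c v4 h4 ((le_max_right _ _).trans (le_max_right _ _)))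

theorem ep_holds {κ : Cardinal.{w}} (hκ : ℵ₀ ≤ κ)
    (hc : ∀ W : Set (Fact (Option O)), #W < κ → ∀ A : Set O, #A < κ →
      ∃ t, (∀ a ∈ A, a < t) ∧ c t = W) : EP κ (holds c) := by
  intro ι hι b hb K hK hKH
  obtain ⟨t, ht, hct⟩ := hc ((Fact.map (Option.map b)) '' {φ | K φ ∧ none ∈ φ.supp})
    (mk_image_le.trans_lt ((mk_set_le _).trans_lt (Fact.card_lt hκ (card_option_lt hκ hι))))
    (range b) (mk_range_le.trans_lt hι)
  have hbt : ∀ i, b i < t := fun i => ht _ ⟨i, rfl⟩
  set f : Option ι → O := fun o => o.elim t b with hf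
  have hfinj : Function.Injective f := by
    rintro (_ | i) (_ | j) h
    · rfl
    · exact absurd h (hbt j).ne'
    · exact absurd h (hbt i).ne
    · exact congrArg some (hb h)
  have hcomp : (fun o : Option O => o.elim t id) ∘ Option.map b = f := by
    funext o
    cases o <;> rfl
  have hcodes : ∀ ψ, codes c t ψ ↔ ∃ φ, K φ ∧ none ∈ φ.supp ∧ φ.map f = ψ := by
    intro ψ
    constructor
    · rintro ⟨φ, h1, -, -, rfl⟩
      rw [hct] at h1
      obtain ⟨φ', h1, rfl⟩ := h1
      exact ⟨φ', h1.1, h1.2, by rw [Fact.map_map, hcomp]⟩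
    · rintro ⟨φ, h1, h2, rfl⟩
      refine ⟨φ.map (Option.map b), by rw [hct]; exact ⟨φ, ⟨h1, h2⟩, rfl⟩, ?_, ?_,
        by rw [Fact.map_map, hcomp]⟩
      · rw [Fact.supp_map]
        exact ⟨none, h2, rfl⟩
      · intro s hs
        rw [Fact.supp_map] at hs
        obtain ⟨o, -, ho⟩ := hs
        cases o with
        | none => simp at ho
        | some i =>
          simp only [Option.map_some, Option.some.injEq] at ho
          exact ho ▸ hbt i
  have k3 : ∀ ψ, upTo c t ψ → t ∉ ψ.supp → holds c ψ := by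
    rintro ψ (h | ⟨s, -, hs, h⟩) ht
    · exact absurd (codes_mem c h) ht
    · exact ⟨s, hs, h⟩
  have k2' : ∀ ψ, upTo c t ψ → t ∈ ψ.supp → codes c t ψ := by
    rintro ψ (h | ⟨s, hst, -, h⟩) ht
    · exact h
    · exact absurd (codes_le c h ht) (not_le.2 hst)
  have k2 : ∀ ψ, upTo c t ψ → t ∈ ψ.supp → ψ.supp ⊆ range f := by
    intro ψ h ht
    obtain ⟨φ, -, -, rfl⟩ := (hcodes ψ).1 (k2' ψ h ht)
    rw [Fact.supp_map]
    exact image_subset_range _ _
  have k4 : ∀ φ : Fact (Option ι), holds c (φ.map f) → upTo c t (φ.map f) := by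
    rintro φ ⟨s, hs, h⟩
    refine upTo_of c hs h ?_
    have := codes_mem c h
    rw [Fact.supp_map] at this
    obtain ⟨o, -, rfl⟩ := this
    cases o with
    | none => exact le_rfl
    | some i => exact (hbt i).le
  have k1 : ∀ φ : Fact (Option ι), upTo c t (φ.map f) ↔ K φ := by
    intro φ
    by_cases hn : none ∈ φ.supp
    · constructor
      · intro h
        obtain ⟨φ', h1, -, h2⟩ := (hcodes _).1 (k2' _ h (by
          rw [Fact.supp_map]
          exact ⟨none, hn, rfl⟩))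
        rwa [← Fact.map_injective hfinj h2]
      · intro h
        exact Or.inl ((hcodes _).2 ⟨φ, h, hn, rfl⟩)
    · obtain ⟨ψ, rfl⟩ := φ.exists_map (f := some) (by
        rintro (_ | i) hi
        · exact absurd hi hn
        · exact ⟨i, rfl⟩)
      rw [hKH]
      constructor
      · intro h
        refine (Fact.map_map some f ψ) ▸ k3 _ h ?_
        rw [Fact.supp_map]
        rintro ⟨o, ho, h⟩
        exact hn (hfinj (a₂ := none) h ▸ ho)
      · intro h
        apply k4
        rwa [Fact.map_map]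
  have hgood := good_holds c
  have hvalid : valid c t := by
    rw [valid_iff]
    refine ⟨fun e z h1 h2 => ?_, fun a h => ?_, fun e a b' d h1 h2 h3 h4 => ?_⟩
    · by_cases hm : t ∈ (Fact.P e z).supp
      · obtain ⟨e, rfl⟩ := k2 _ h1 hm (a := e) (by simp [Fact.supp])
        obtain ⟨z, rfl⟩ := k2 _ h1 hm (a := z) (by simp [Fact.supp])
        exact hK.c1 e z ((k1 (.P e z)).1 h1) ((k1 (.V e)).1 h2)
      · refine hgood.c1 e z (k3 _ h1 hm) (k3 _ h2 (fun h => hm ?_))
        simp only [Fact.supp, mem_singleton_iff, mem_insert_iff] at h ⊢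
        exact Or.inl h
    · by_cases hm : t ∈ (Fact.R a a a).supp
      · obtain ⟨a, rfl⟩ := k2 _ h hm (a := a) (by simp [Fact.supp])
        exact hK.c2 a ((k1 (.R a a a)).1 h)
      · exact hgood.c2 a (k3 _ h hm)
    · by_cases hm : t = e ∨ t = a ∨ t = b' ∨ t = d
      · have hall : e ∈ range f ∧ a ∈ range f ∧ b' ∈ range f ∧ d ∈ range f := by
          rcases hm with hm | hm | hm | hm
          · exact ⟨k2 _ h2 (by simp [Fact.supp, hm]) (by simp [Fact.supp]),
              k2 _ h2 (by simp [Fact.supp, hm]) (by simp [Fact.supp]),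
              k2 _ h3 (by simp [Fact.supp, hm]) (by simp [Fact.supp]),
              k2 _ h4 (by simp [Fact.supp, hm]) (by simp [Fact.supp])⟩
          · exact ⟨k2 _ h2 (by simp [Fact.supp, hm]) (by simp [Fact.supp]),
              k2 _ h1 (by simp [Fact.supp, hm]) (by simp [Fact.supp]),
              k2 _ h1 (by simp [Fact.supp, hm]) (by simp [Fact.supp]),
              k2 _ h1 (by simp [Fact.supp, hm]) (by simp [Fact.supp])⟩
          · exact ⟨k2 _ h3 (by simp [Fact.supp, hm]) (by simp [Fact.supp]),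
              k2 _ h1 (by simp [Fact.supp, hm]) (by simp [Fact.supp]),
              k2 _ h1 (by simp [Fact.supp, hm]) (by simp [Fact.supp]),
              k2 _ h1 (by simp [Fact.supp, hm]) (by simp [Fact.supp])⟩
          · exact ⟨k2 _ h4 (by simp [Fact.supp, hm]) (by simp [Fact.supp]),
              k2 _ h1 (by simp [Fact.supp, hm]) (by simp [Fact.supp]),
              k2 _ h1 (by simp [Fact.supp, hm]) (by simp [Fact.supp]),
              k2 _ h1 (by simp [Fact.supp, hm]) (by simp [Fact.supp])⟩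
        obtain ⟨⟨e, rfl⟩, ⟨a, rfl⟩, ⟨b', rfl⟩, ⟨d, rfl⟩⟩ := hall
        exact hK.c3 e a b' d ((k1 (.R a b' d)).1 h1) ((k1 (.P e a)).1 h2) ((k1 (.P e b')).1 h3)
          ((k1 (.P e d)).1 h4)
      · push Not at hm
        obtain ⟨m1, m2, m3, m4⟩ := hm
        exact hgood.c3 e a b' d (k3 _ h1 (by simp [Fact.supp, m2, m3, m4]))
          (k3 _ h2 (by simp [Fact.supp, m1, m2])) (k3 _ h3 (by simp [Fact.supp, m1, m3]))
          (k3 _ h4 (by simp [Fact.supp, m1, m4]))
  refine ⟨t, fun ⟨i, hi⟩ => (hbt i).ne hi, fun φ => ?_⟩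
  rw [← k1]
  refine ⟨?_, k4 φ⟩
  rintro (h | ⟨s, -, hs, h⟩)
  · exact ⟨t, hvalid, h⟩
  · exact ⟨s, hs, h⟩

end Construction

theorem card_Iic_lt {κ : Cardinal.{w}} (hκ : ℵ₀ ≤ κ) (a : κ.ord.ToType) : #(Iic a) < κ := by
  rw [← Iio_insert]
  exact (mk_insert_le).trans_lt
    (add_lt_of_lt hκ (mk_Iio_toType_ord_lt a) (one_lt_aleph0.trans_le hκ))

theorem exists_generic {κ : Cardinal.{w}} (hκ : κ.IsInaccessible) :
    ∃ H : Fact κ.ord.ToType → Prop, Good H ∧ EP κ H := by
  have h0 : ℵ₀ ≤ κ := hκ.aleph0_lt.le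
  have hO : #κ.ord.ToType = κ := mk_ord_toType κ
  have : Infinite κ.ord.ToType := by rw [infinite_iff, hO]; exact h0
  have hF : #(Fact (Option κ.ord.ToType)) = κ := by
    rw [Fact.card_eq, mk_option, hO, add_one_eq h0]
  have hS := mk_subset_mk_lt_cof (α := Fact (Option κ.ord.ToType))
    (by rw [hF]; exact hκ.isStrongLimit.isStrongPrelimit)
  rw [hF, hκ.isRegular.cof_ord] at hS
  obtain ⟨e⟩ : Nonempty (κ.ord.ToType ≃
      ({s : Set (Fact (Option κ.ord.ToType)) // #s < κ} × κ.ord.ToType)) := by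
    rw [← Cardinal.eq, mk_prod, Cardinal.lift_id, Cardinal.lift_id, hS, hO, mul_eq_self h0]
  refine ⟨holds (fun t => (e t).1.1), good_holds _, ep_holds _ h0 ?_⟩
  intro W hW A hA
  by_contra hcon
  push Not at hcon
  have h1 : #(⋃ a ∈ A, Iic a) < κ :=
    (card_biUnion_lt_iff_forall_of_isRegular hκ.isRegular hA).2 (fun a _ => card_Iic_lt h0 a)
  have h2 : range (fun x : κ.ord.ToType => e.symm (⟨W, hW⟩, x)) ⊆ ⋃ a ∈ A, Iic a := by
    rintro _ ⟨x, rfl⟩
    by_contra hx
    simp only [mem_iUnion, mem_Iic, not_exists, not_le] at hx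
    exact hcon _ hx (by simp)
  have h3 := mk_le_mk_of_subset h2
  rw [mk_range_eq _ (fun x y h => by simpa using h), hO] at h3
  exact absurd h1 (not_lt.2 h3)

end Pool.Agent.H37Z.Gen
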