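import Pool.Agent.H37Z.InvGen

set_option autoImplicit false

namespace Pool.Agent.H37Z.Gen

open Cardinal Set

universe w

variable {O : Type w} {H : Fact O → Prop} {κ : Cardinal.{w}}

/-- partial isomorphisms, as sets of pairs -/
def PI (H : Fact O → Prop) (h : Set (O × O)) : Prop :=
  (∀ p ∈ h, ∀ q ∈ h, p.1 = q.1 ↔ p.2 = q.2) ∧
    ∀ φ : Fact (O × O), φ.supp ⊆ h → (H (φ.map Prod.fst) ↔ H (φ.map Prod.snd))

theorem PI.swap {h : Set (O × O)} (hh : PI H h) : PI H (Prod.swap '' h) := by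
  constructor
  · rintro _ ⟨p, hp, rfl⟩ _ ⟨q, hq, rfl⟩
    exact (hh.1 p hp q hq).symm
  · intro φ hφ
    have := hh.2 (φ.map Prod.swap) (by
      rw [Fact.supp_map]
      rintro _ ⟨p, hp, rfl⟩
      obtain ⟨q, hq, rfl⟩ := hφ hp
      exact hq)
    rw [Fact.map_map, Fact.map_map] at this
    exact this.symm

theorem PI.of_three {h : Set (O × O)}
    (hd : ∀ p ∈ h, ∀ q ∈ h, ∀ r ∈ h, ∃ h', PI H h' ∧ p ∈ h' ∧ q ∈ h' ∧ r ∈ h') : PI H h := by
  constructor
  · intro p hp q hq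
    obtain ⟨h', hh', h1, h2, -⟩ := hd p hp q hq q hq
    exact hh'.1 p h1 q h2
  · intro φ hφ
    cases φ with
    | V a =>
      have ha : a ∈ h := hφ (by simp [Fact.supp])
      obtain ⟨h', hh', h1, -, -⟩ := hd a ha a ha a ha
      exact hh'.2 _ (by simp [Fact.supp, h1])
    | C a =>
      have ha : a ∈ h := hφ (by simp [Fact.supp])
      obtain ⟨h', hh', h1, -, -⟩ := hd a ha a ha a ha
      exact hh'.2 _ (by simp [Fact.supp, h1])
    | P a b =>
      have ha : a ∈ h := hφ (by simp [Fact.supp])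
      have hb : b ∈ h := hφ (by simp [Fact.supp])
      obtain ⟨h', hh', h1, h2, -⟩ := hd a ha b hb a ha
      exact hh'.2 _ (by simp [Fact.supp, h1, h2, insert_subset_iff])
    | R a b c =>
      have ha : a ∈ h := hφ (by simp [Fact.supp])
      have hb : b ∈ h := hφ (by simp [Fact.supp])
      have hc : c ∈ h := hφ (by simp [Fact.supp])
      obtain ⟨h', hh', h1, h2, h3⟩ := hd a ha b hb c hc
      exact hh'.2 _ (by simp [Fact.supp, h1, h2, h3, insert_subset_iff])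

theorem PI.sUnion {S : Set (Set (O × O))} (hS : IsChain (· ⊆ ·) S) (h : ∀ s ∈ S, PI H s) :
    PI H (⋃₀ S) := by
  refine PI.of_three ?_
  rintro p ⟨s1, hs1, h1⟩ q ⟨s2, hs2, h2⟩ r ⟨s3, hs3, h3⟩
  obtain ⟨s4, hs4, h14, h24⟩ := hS.directedOn s1 hs1 s2 hs2
  obtain ⟨s5, hs5, h45, h35⟩ := hS.directedOn s4 hs4 s3 hs3
  exact ⟨s5, h s5 hs5, h45 (h14 h1), h45 (h24 h2), h35 h3⟩

theorem PI.forth (hG : Good H) (hE : EP κ H) {h : Set (O × O)} (hh : PI H h) (hs : #h < κ)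
    (u : O) : ∃ t, PI H (insert (u, t) h) := by
  classical
  by_cases hu : ∃ t, (u, t) ∈ h
  · obtain ⟨t, ht⟩ := hu
    exact ⟨t, by rwa [insert_eq_of_mem ht]⟩
  push Not at hu
  obtain ⟨t, ht, hK⟩ := hE h hs (fun p => p.1.2)
    (fun p q hpq => Subtype.ext (Prod.ext ((hh.1 _ p.2 _ q.2).2 hpq) hpq))
    (fun φ => H (φ.map (fun o => o.elim u (fun p => p.1.1)))) (hG.comap _) (fun ψ => by
      have := hh.2 (ψ.map Subtype.val) (by
        rw [Fact.supp_map]
        rintro _ ⟨p, -, rfl⟩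
        exact p.2)
      rw [Fact.map_map, Fact.map_map] at this
      rw [Fact.map_map]
      exact this)
  refine ⟨t, ?_, ?_⟩
  · have key : ∀ q ∈ h, (u = q.1 ↔ t = q.2) := fun q hq =>
      iff_of_false (fun e => hu q.2 (by rw [e]; exact hq)) (fun e => ht ⟨⟨q, hq⟩, e.symm⟩)
    rintro p (rfl | hp) q (rfl | hq)
    · simp
    · exact key q hq
    · rw [eq_comm, eq_comm (a := p.2)]
      exact key p hp
    · exact hh.1 p hp q hq
  · intro φ hφ
    obtain ⟨φ', rfl⟩ := φ.exists_map (f := fun o : Option h => o.elim (u, t) Subtype.val) (by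
      intro p hp
      rcases hφ hp with rfl | hp
      · exact ⟨none, rfl⟩
      · exact ⟨some ⟨p, hp⟩, rfl⟩)
    rw [Fact.map_map, Fact.map_map]
    have := hK φ'
    convert this using 3
    · funext o
      cases o <;> rfl
    · funext o
      cases o <;> rfl

theorem PI.step (hκ : ℵ₀ ≤ κ) (hG : Good H) (hE : EP κ H) {h : Set (O × O)} (hh : PI H h)
    (hs : #h < κ) (u : O) :
    ∃ h', h ⊆ h' ∧ PI H h' ∧ #h' < κ ∧ (∃ t, (u, t) ∈ h') ∧ ∃ t, (t, u) ∈ h' := by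
  obtain ⟨t, ht⟩ := hh.forth hG hE hs u
  have h1 : #(insert (u, t) h : Set _) < κ :=
    mk_insert_le.trans_lt (add_lt_of_lt hκ hs (one_lt_aleph0.trans_le hκ))
  have h2 : #(Prod.swap '' insert (u, t) h) < κ := mk_image_le.trans_lt h1
  obtain ⟨t', ht'⟩ := ht.swap.forth hG hE h2 u
  refine ⟨_, ?_, ht'.swap, mk_image_le.trans_lt
    (mk_insert_le.trans_lt (add_lt_of_lt hκ h2 (one_lt_aleph0.trans_le hκ))), ⟨t, ?_⟩, ⟨t', ?_⟩⟩
  · intro p hp
    exact ⟨p.swap, Or.inr ⟨p, Or.inr hp, rfl⟩, rfl⟩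
  · exact ⟨(t, u), Or.inr ⟨(u, t), Or.inl rfl, rfl⟩, rfl⟩
  · exact ⟨(u, t'), Or.inl rfl, rfl⟩

theorem PI.total [LinearOrder O] [WellFoundedLT O] (hκ : κ.IsRegular)
    (hO : ∀ t : O, #(Iio t) < κ) (hG : Good H) (hE : EP κ H) {h0 : Set (O × O)} (hh : PI H h0)
    (hs : #h0 < κ) :
    ∃ h, h0 ⊆ h ∧ PI H h ∧ (∀ u, ∃ t, (u, t) ∈ h) ∧ ∀ u, ∃ t, (t, u) ∈ h := by
  classical
  have hex : ∀ (h : Set (O × O)) (u : O), ∃ h', PI H h → #h < κ →
      h ⊆ h' ∧ PI H h' ∧ #h' < κ ∧ (∃ t, (u, t) ∈ h') ∧ ∃ t, (t, u) ∈ h' := by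
    intro h u
    by_cases hc : PI H h ∧ #h < κ
    · obtain ⟨h', hh'⟩ := hc.1.step hκ.aleph0_le hG hE hc.2 u
      exact ⟨h', fun _ _ => hh'⟩
    · exact ⟨h, fun h1 h2 => absurd ⟨h1, h2⟩ hc⟩
  choose ext hext using hex
  let g : O → Set (O × O) := (wellFounded_lt (α := O)).fix
    (fun t rec => ext (h0 ∪ ⋃ s, ⋃ hs : s < t, rec s hs) t)
  have hg : ∀ t, g t = ext (h0 ∪ ⋃ s, ⋃ _ : s < t, g s) t := fun t => by
    simp only [g]
    rw [WellFounded.fix_eq]
  have main : ∀ t, (h0 ∪ ⋃ s, ⋃ _ : s < t, g s) ⊆ g t ∧ PI H (g t) ∧ #(g t) < κ ∧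
      (∃ x, (t, x) ∈ g t) ∧ ∃ x, (x, t) ∈ g t := by
    intro t
    induction t using WellFoundedLT.induction with
    | ind t ih =>
      rw [hg t]
      refine hext _ t ?_ ?_
      · have : (h0 ∪ ⋃ s, ⋃ _ : s < t, g s) = ⋃₀ (insert h0 (g '' Iio t)) := by
          rw [sUnion_insert, sUnion_image]
          rfl
        rw [this]
        refine PI.sUnion ?_ ?_
        · have hmono : ∀ s < t, ∀ s' < s, g s' ⊆ g s := fun s hs s' hs' x hx =>
            (ih s hs).1 (Or.inr (mem_iUnion₂.2 ⟨s', hs', hx⟩))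
          rintro _ (rfl | ⟨s, hs1, rfl⟩) _ (rfl | ⟨s', hs', rfl⟩) hne
          · exact absurd rfl hne
          · exact Or.inl (subset_union_left.trans (ih s' hs').1)
          · exact Or.inr (subset_union_left.trans (ih s hs1).1)
          · rcases lt_trichotomy s s' with h | rfl | h
            · exact Or.inl (hmono s' hs' s h)
            · exact absurd rfl hne
            · exact Or.inr (hmono s hs1 s' h)
        · rintro _ (rfl | ⟨s, hs, rfl⟩)
          · exact hh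
          · exact (ih s hs).2.1
      · refine (mk_union_le _ _).trans_lt (add_lt_of_lt hκ.aleph0_le hs ?_)
        have : (⋃ s, ⋃ _ : s < t, g s) = ⋃ s : Iio t, g s := by
          ext x
          simp
        rw [this]
        refine (mk_iUnion_le _).trans_lt (mul_lt_of_lt hκ.aleph0_le (hO t) ?_)
        exact iSup_lt_of_lt_cof_ord (by rw [hκ.cof_ord]; exact hO t)
          (fun s => (ih s.1 s.2).2.2.1)
  refine ⟨h0 ∪ ⋃₀ (range g), subset_union_left, ?_, fun u => ?_, fun u => ?_⟩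
  · rw [← sUnion_insert]
    refine PI.sUnion ?_ ?_
    · have hmono : ∀ s, ∀ s' < s, g s' ⊆ g s := fun s s' hs' x hx =>
        (main s).1 (Or.inr (mem_iUnion₂.2 ⟨s', hs', hx⟩))
      rintro _ (rfl | ⟨s, rfl⟩) _ (rfl | ⟨s', rfl⟩) hne
      · exact absurd rfl hne
      · exact Or.inl (subset_union_left.trans (main s').1)
      · exact Or.inr (subset_union_left.trans (main s).1)
      · rcases lt_trichotomy s s' with h | rfl | h
        · exact Or.inl (hmono s' s h)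
        · exact absurd rfl hne
        · exact Or.inr (hmono s s' h)
    · rintro _ (rfl | ⟨s, rfl⟩)
      · exact hh
      · exact (main s).2.1
  · obtain ⟨x, hx⟩ := (main u).2.2.2.1
    exact ⟨x, Or.inr ⟨_, ⟨u, rfl⟩, hx⟩⟩
  · obtain ⟨x, hx⟩ := (main u).2.2.2.2
    exact ⟨x, Or.inr ⟨_, ⟨u, rfl⟩, hx⟩⟩

/-- ultrahomogeneity for small tuples -/
def UH (κ : Cardinal.{w}) (H : Fact O → Prop) : Prop :=
  ∀ (ι : Type w), #ι < κ → ∀ a b : ι → O, (∀ i j, a i = a j ↔ b i = b j) →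
    (∀ φ : Fact ι, H (φ.map a) ↔ H (φ.map b)) →
      ∃ σ : O ≃ O, (∀ φ : Fact O, H (φ.map σ) ↔ H φ) ∧ ∀ i, σ (a i) = b i

theorem uh_of_ep [LinearOrder O] [WellFoundedLT O] (hκ : κ.IsRegular)
    (hO : ∀ t : O, #(Iio t) < κ) (hG : Good H) (hE : EP κ H) : UH κ H := by
  intro ι hι a b hab hH
  obtain ⟨h, h0, hh, h1, h2⟩ := PI.total hκ hO hG hE (h0 := range (fun i => (a i, b i)))
    (by
      constructor
      · rintro _ ⟨i, rfl⟩ _ ⟨j, rfl⟩
        exact hab i j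
      · intro φ hφ
        obtain ⟨φ', rfl⟩ := φ.exists_map hφ
        rw [Fact.map_map, Fact.map_map]
        exact hH φ')
    (mk_range_le.trans_lt hι)
  choose f hf using h1
  choose g hg using h2
  refine ⟨⟨f, g, fun u => ?_, fun u => ?_⟩, fun φ => ?_, fun i => ?_⟩
  · exact (hh.1 _ (hg (f u)) _ (hf u)).2 rfl
  · exact (hh.1 _ (hf (g u)) _ (hg u)).1 rfl
  · have := hh.2 (φ.map (fun u => (u, f u))) (by
      rw [Fact.supp_map]
      rintro _ ⟨u, -, rfl⟩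
      exact hf u)
    rw [Fact.map_map, Fact.map_map] at this
    refine Iff.trans ?_ (this.symm.trans ?_)
    · rfl
    · exact iff_of_eq (congrArg H (Fact.map_id φ))
  · exact (hh.1 _ (hf (a i)) _ (h0 ⟨i, rfl⟩)).1 rfl

theorem exists_generic_uh (hκ : κ.IsInaccessible) :
    ∃ H : Fact κ.ord.ToType → Prop, Good H ∧ EP κ H ∧ UH κ H := by
  obtain ⟨H, hG, hE⟩ := exists_generic hκ
  exact ⟨H, hG, hE, uh_of_ep hκ.isRegular (fun t => (mk_le_mk_of_subset Iio_subset_Iic_self).trans_lt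
    (card_Iic_lt hκ.aleph0_lt.le t)) hG hE⟩

end Pool.Agent.H37Z.Gen
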