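import Mathlib

set_option autoImplicit false

/-! Degree `d` Sabinin algebras. -/

namespace SabDeg

universe u

/-- All ways of splitting a list into a sublist and the complementary sublist (order kept):
the pairs `((x_{α_1},…,x_{α_k}), (x_{α_{k+1}},…,x_{α_r}))`, `0 ≤ k ≤ r`, `α` an unshuffle. -/
def unsh {V : Type u} : List V → List (List V × List V)
  | [] => [([], [])]
  | x :: xs => (unsh xs).map (fun p => (x :: p.1, p.2)) ++ (unsh xs).map (fun p => (p.1, x :: p.2))

/-- Cyclic sum over `x, y, z`. -/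
def cyc {V W : Type u} [Add W] (f : V → V → V → W) (x y z : V) : W := f x y z + f y z x + f z x y

/-- A degree `d` Sabinin algebra structure on the `F`-vector space `V`:
`br [x₁,…,x_m] y z = ⟨x₁,…,x_m; y, z⟩`, `ph [x₁,…,x_m] [y₁,…,y_n] = Φ(x₁,…,x_m; y₁,…,y_n)`.
Only the operations of arity at most `d` are present (the other values are normalised to `0`),
and only the instances of (S1)–(S4) of degree at most `d` are imposed. -/
structure Alg (F : Type u) [Field F] (d : ℕ) (V : Type u) [AddCommGroup V] [Module F V] where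
  br : List V → V → V → V
  ph : List V → List V → V
  br_zero : ∀ l y z, d < l.length + 2 → br l y z = 0
  ph_zero : ∀ l l', ¬ (1 ≤ l.length ∧ 2 ≤ l'.length ∧ l.length + l'.length ≤ d) → ph l l' = 0
  br_lin₁ : ∀ l₁ l₂ y z, IsLinearMap F fun x => br (l₁ ++ x :: l₂) y z
  br_lin₂ : ∀ l z, IsLinearMap F fun y => br l y z
  br_lin₃ : ∀ l y, IsLinearMap F fun z => br l y z
  ph_lin₁ : ∀ l₁ l₂ l', IsLinearMap F fun x => ph (l₁ ++ x :: l₂) l'
  ph_lin₂ : ∀ l l₁ l₂, IsLinearMap F fun x => ph l (l₁ ++ x :: l₂)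
  s1 : ∀ l y z, br l y z + br l z y = 0
  s2 : ∀ xs ys a b y z, xs.length + ys.length + 4 ≤ d →
    br (xs ++ a :: b :: ys) y z - br (xs ++ b :: a :: ys) y z +
      ((unsh xs).map fun p => br (p.1 ++ br p.2 a b :: ys) y z).sum = 0
  s3 : ∀ xs x y z, xs.length + 3 ≤ d →
    cyc (fun x y z => br (xs ++ [x]) y z + ((unsh xs).map fun p => br p.1 (br p.2 y z) x).sum)
      x y z = 0
  s4 : ∀ l₁ l₂ l₁' l₂', l₁.Perm l₂ → l₁'.Perm l₂' → ph l₁ l₁' = ph l₂ l₂'

variable {F : Type u} [Field F] {d : ℕ} {V W : Type u} [AddCommGroup V] [Module F V]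
  [AddCommGroup W] [Module F W]

/-- Homomorphisms: linear maps commuting with all operations. -/
def IsHom (A : Alg F d V) (B : Alg F d W) (φ : V →ₗ[F] W) : Prop :=
  (∀ l y z, φ (A.br l y z) = B.br (l.map φ) (φ y) (φ z)) ∧
    ∀ l l', φ (A.ph l l') = B.ph (l.map φ) (l'.map φ)

/-- `A` is the free algebra of the variety on the subset `X` (universal property). -/
def IsFreeOn (A : Alg F d V) (X : Set V) : Prop :=
  ∀ (W : Type u) [AddCommGroup W] [Module F W] (B : Alg F d W) (f : X → W),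
    ∃! φ : V →ₗ[F] W, IsHom A B φ ∧ ∀ x : X, φ x = f x

/-- Subalgebras: subspaces closed under all operations. -/
def IsSubalgebra (A : Alg F d V) (U : Submodule F V) : Prop :=
  (∀ l y z, (∀ x ∈ l, x ∈ U) → y ∈ U → z ∈ U → A.br l y z ∈ U) ∧
    ∀ l l', (∀ x ∈ l, x ∈ U) → (∀ x ∈ l', x ∈ U) → A.ph l l' ∈ U

end SabDeg
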