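import Pool.Agent.H37Z.SabDefs

set_option autoImplicit false
set_option linter.unusedSectionVars false

/-! Algebras with operations subject to linear identities only form a Schreier variety. -/

namespace SabDeg

universe u

/-- formal applications of operations -/
abbrev Sy (V : Type u) := (List V × V × V) ⊕ (List V × List V)

def Sy.map {V W : Type u} (φ : V → W) : Sy V → Sy W
  | .inl (l, y, z) => .inl (l.map φ, φ y, φ z)
  | .inr (l, l') => .inr (l.map φ, l'.map φ)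

def Sy.args {V : Type u} : Sy V → List V
  | .inl (l, y, z) => y :: z :: l
  | .inr (l, l') => l ++ l'

theorem Sy.map_id {V : Type u} (s : Sy V) : s.map id = s := by
  rcases s with ⟨l, y, z⟩ | ⟨l, l'⟩ <;> simp [Sy.map]

theorem Sy.map_map {V W U : Type u} (φ : V → W) (ψ : W → U) (s : Sy V) :
    (s.map φ).map ψ = s.map (ψ ∘ φ) := by
  rcases s with ⟨l, y, z⟩ | ⟨l, l'⟩ <;> simp [Sy.map]

theorem Sy.args_map {V W : Type u} (φ : V → W) (s : Sy V) : (s.map φ).args = s.args.map φ := by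
  rcases s with ⟨l, y, z⟩ | ⟨l, l'⟩ <;> simp [Sy.map, Sy.args]

theorem list_lift {V : Type u} (p : V → Prop) (l : List V) (h : ∀ x ∈ l, p x) :
    ∃ l' : List {x // p x}, l'.map Subtype.val = l :=
  ⟨l.pmap Subtype.mk h, by simp [List.map_pmap]⟩

theorem Sy.lift {V : Type u} (p : V → Prop) (s : Sy V) (h : ∀ x ∈ s.args, p x) :
    ∃ s' : Sy {x // p x}, s'.map Subtype.val = s := by
  rcases s with ⟨l, y, z⟩ | ⟨l, l'⟩
  · obtain ⟨l1, h1⟩ := list_lift p l fun x hx => h x (by simp [Sy.args, hx])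
    exact ⟨.inl (l1, ⟨y, h y (by simp [Sy.args])⟩, ⟨z, h z (by simp [Sy.args])⟩),
      by simp [Sy.map, h1]⟩
  · obtain ⟨l1, h1⟩ := list_lift p l fun x hx => h x (by simp [Sy.args, hx])
    obtain ⟨l2, h2⟩ := list_lift p l' fun x hx => h x (by simp [Sy.args, hx])
    exact ⟨.inr (l1, l2), by simp [Sy.map, h1, h2]⟩

variable (F : Type u) [Field F] (d : ℕ)

/-- the linear identities for the brackets -/
structure LinBr {V W : Type u} [AddCommGroup V] [Module F V] [AddCommGroup W] [Module F W]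
    (br : List V → V → V → W) : Prop where
  zero : ∀ l y z, d < l.length + 2 → br l y z = 0
  lin₁ : ∀ l₁ l₂ y z, IsLinearMap F fun x => br (l₁ ++ x :: l₂) y z
  lin₂ : ∀ l z, IsLinearMap F fun y => br l y z
  lin₃ : ∀ l y, IsLinearMap F fun z => br l y z
  l1 : ∀ l y z, br l y z + br l z y = 0
  l2 : ∀ xs ys a b y z, br (xs ++ a :: b :: ys) y z = br (xs ++ b :: a :: ys) y z
  l3 : ∀ xs x y z, br (xs ++ [x]) y z + br (xs ++ [y]) z x + br (xs ++ [z]) x y = 0

/-- the identities for `Φ` -/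
structure LinPh {V W : Type u} [AddCommGroup V] [Module F V] [AddCommGroup W] [Module F W]
    (ph : List V → List V → W) : Prop where
  zero : ∀ l l', ¬ (1 ≤ l.length ∧ 2 ≤ l'.length ∧ l.length + l'.length ≤ d) → ph l l' = 0
  lin₁ : ∀ l₁ l₂ l', IsLinearMap F fun x => ph (l₁ ++ x :: l₂) l'
  lin₂ : ∀ l l₁ l₂, IsLinearMap F fun x => ph l (l₁ ++ x :: l₂)
  s4 : ∀ l₁ l₂ l₁' l₂', l₁.Perm l₂ → l₁'.Perm l₂' → ph l₁ l₁' = ph l₂ l₂'

def LinFam {V W : Type u} [AddCommGroup V] [Module F V] [AddCommGroup W] [Module F W]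
    (t : Sy V → W) : Prop :=
  LinBr F d (fun l y z => t (.inl (l, y, z))) ∧ LinPh F d (fun l l' => t (.inr (l, l')))

variable {F d}
variable {V W U : Type u} [AddCommGroup V] [Module F V] [AddCommGroup W] [Module F W]
  [AddCommGroup U] [Module F U]

theorem islin_comp {f : W → U} (hf : IsLinearMap F f) (φ : V →ₗ[F] W) :
    IsLinearMap F fun x => f (φ x) :=
  ⟨fun x y => by rw [map_add, hf.map_add], fun c x => by rw [map_smul, hf.map_smul]⟩

theorem LinFam.comp {t : Sy W → U} (h : LinFam F d t) (φ : V →ₗ[F] W) :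
    LinFam F d fun s : Sy V => t (s.map φ) := by
  obtain ⟨h1, h2⟩ := h
  refine ⟨⟨fun l y z hl => h1.zero _ _ _ (by simpa using hl), fun l₁ l₂ y z => ?_,
    fun l z => islin_comp (h1.lin₂ _ _) φ, fun l y => islin_comp (h1.lin₃ _ _) φ,
    fun l y z => h1.l1 _ _ _, fun xs ys a b y z => ?_, fun xs x y z => ?_⟩,
    ⟨fun l l' hl => h2.zero _ _ (by simpa using hl), fun l₁ l₂ l' => ?_, fun l l₁ l₂ => ?_,
    fun l₁ l₂ l₁' l₂' p1 p2 => h2.s4 _ _ _ _ (p1.map φ) (p2.map φ)⟩⟩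
  · simpa [Sy.map] using islin_comp (h1.lin₁ (l₁.map φ) (l₂.map φ) (φ y) (φ z)) φ
  · simpa [Sy.map] using h1.l2 (xs.map φ) (ys.map φ) (φ a) (φ b) (φ y) (φ z)
  · simpa [Sy.map] using h1.l3 (xs.map φ) (φ x) (φ y) (φ z)
  · simpa [Sy.map] using islin_comp (h2.lin₁ (l₁.map φ) (l₂.map φ) (l'.map φ)) φ
  · simpa [Sy.map] using islin_comp (h2.lin₂ (l.map φ) (l₁.map φ) (l₂.map φ)) φ

variable (F d V) in
/-- the relations -/
def Rel : Submodule F (Sy V →₀ F) where
  carrier := {r | ∀ (W : Type u) [AddCommGroup W] [Module F W] (t : Sy V → W), LinFam F d t →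
    Finsupp.linearCombination F t r = 0}
  add_mem' := fun ha hb W _ _ t ht => by rw [map_add, ha W t ht, hb W t ht, add_zero]
  zero_mem' := fun W _ _ t _ => map_zero _
  smul_mem' := fun c _ ha W _ _ t ht => by rw [map_smul, ha W t ht, smul_zero]

variable (F d V) in
/-- the universal target of linear families -/
def E : Type u := (Sy V →₀ F) ⧸ Rel F d V

noncomputable instance : AddCommGroup (E F d V) :=
  inferInstanceAs (AddCommGroup ((Sy V →₀ F) ⧸ Rel F d V))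
noncomputable instance : Module F (E F d V) :=
  inferInstanceAs (Module F ((Sy V →₀ F) ⧸ Rel F d V))

variable (F d) in
noncomputable def mk (s : Sy V) : E F d V := (Rel F d V).mkQ (Finsupp.single s 1)

noncomputable def lift (t : Sy V → W) (ht : LinFam F d t) : E F d V →ₗ[F] W :=
  (Rel F d V).liftQ (Finsupp.linearCombination F t) fun _ hr => hr W t ht

theorem lift_mk (t : Sy V → W) (ht : LinFam F d t) (s : Sy V) : lift t ht (mk F d s) = t s := by
  change Finsupp.linearCombination F t (Finsupp.single s 1) = t s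
  simp

theorem E_sep {ξ η : E F d V} (h : ∀ (W : Type u) [AddCommGroup W] [Module F W] (t : Sy V → W)
    (ht : LinFam F d t), lift t ht ξ = lift t ht η) : ξ = η := by
  obtain ⟨a, rfl⟩ := (Rel F d V).mkQ_surjective ξ
  obtain ⟨b, rfl⟩ := (Rel F d V).mkQ_surjective η
  refine (Submodule.Quotient.eq _).2 fun W _ _ t ht => ?_
  rw [map_sub, sub_eq_zero]
  exact h W t ht

theorem lin_mk {g : V → Sy V} (h : ∀ (W : Type u) [AddCommGroup W] [Module F W] (t : Sy V → W),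
    LinFam F d t → IsLinearMap F fun x => t (g x)) : IsLinearMap F fun x => mk F d (g x) :=
  ⟨fun x y => E_sep fun W _ _ t ht => by
      simp only [map_add, lift_mk]; exact (h W t ht).map_add x y,
    fun c x => E_sep fun W _ _ t ht => by
      simp only [map_smul, lift_mk]; exact (h W t ht).map_smul c x⟩

theorem mk_lin : LinFam F d (mk F d : Sy V → E F d V) := by
  refine ⟨⟨fun l y z hl => E_sep fun W _ _ t ht => ?_,
    fun l₁ l₂ y z => lin_mk fun W _ _ t ht => ht.1.lin₁ _ _ _ _,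
    fun l z => lin_mk fun W _ _ t ht => ht.1.lin₂ _ _,
    fun l y => lin_mk fun W _ _ t ht => ht.1.lin₃ _ _,
    fun l y z => E_sep fun W _ _ t ht => ?_, fun xs ys a b y z => E_sep fun W _ _ t ht => ?_,
    fun xs x y z => E_sep fun W _ _ t ht => ?_⟩,
    ⟨fun l l' hl => E_sep fun W _ _ t ht => ?_,
    fun l₁ l₂ l' => lin_mk fun W _ _ t ht => ht.2.lin₁ _ _ _,
    fun l l₁ l₂ => lin_mk fun W _ _ t ht => ht.2.lin₂ _ _ _,
    fun l₁ l₂ l₁' l₂' p1 p2 => E_sep fun W _ _ t ht => ?_⟩⟩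
  · simp only [lift_mk, map_zero]; exact ht.1.zero _ _ _ hl
  · simp only [lift_mk, map_zero, map_add]; exact ht.1.l1 _ _ _
  · simp only [lift_mk]; exact ht.1.l2 _ _ _ _ _ _
  · simp only [lift_mk, map_zero, map_add]; exact ht.1.l3 _ _ _ _
  · simp only [lift_mk, map_zero]; exact ht.2.zero _ _ hl
  · simp only [lift_mk]; exact ht.2.s4 _ _ _ _ p1 p2

theorem E_ext {f g : E F d V →ₗ[F] W} (h : ∀ s, f (mk F d s) = g (mk F d s)) : f = g := by
  refine Submodule.linearMap_qext _ (Finsupp.lhom_ext' fun s => LinearMap.ext_ring ?_)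
  exact h s

variable (d) in
noncomputable def Emap (φ : V →ₗ[F] W) : E F d V →ₗ[F] E F d W :=
  lift (fun s => mk F d (s.map φ)) (mk_lin.comp φ)

theorem Emap_mk (φ : V →ₗ[F] W) (s : Sy V) : Emap d φ (mk F d s) = mk F d (s.map φ) :=
  lift_mk _ _ s

theorem Emap_id : Emap d (LinearMap.id : V →ₗ[F] V) = LinearMap.id :=
  E_ext fun s => by rw [Emap_mk]; exact congrArg _ s.map_id

theorem Emap_comp (φ : V →ₗ[F] W) (ψ : W →ₗ[F] U) (ξ : E F d V) :
    Emap d ψ (Emap d φ ξ) = Emap d (ψ ∘ₗ φ) ξ := by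
  have : Emap d ψ ∘ₗ Emap d φ = Emap d (ψ ∘ₗ φ) := E_ext fun s => by
    simp only [LinearMap.comp_apply, Emap_mk, Sy.map_map]; rfl
  exact LinearMap.congr_fun this ξ

variable (d) in
/-- image of `E U` -/
noncomputable def R (S : Submodule F V) : Submodule F (E F d V) :=
  LinearMap.range (Emap d S.subtype)

theorem mk_mem_R {S : Submodule F V} {s : Sy V} (h : ∀ x ∈ s.args, x ∈ S) :
    mk F d s ∈ R d S := by
  obtain ⟨s', rfl⟩ := s.lift (· ∈ S) h
  exact ⟨mk F d s', Emap_mk _ _⟩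

theorem Emap_mem_R (φ : V →ₗ[F] W) {S : Submodule F V} {T : Submodule F W}
    (h : ∀ x ∈ S, φ x ∈ T) {ξ : E F d V} (hξ : ξ ∈ R d S) : Emap d φ ξ ∈ R d T := by
  obtain ⟨η, rfl⟩ := hξ
  refine ⟨Emap d (φ.restrict h) η, ?_⟩
  rw [Emap_comp, Emap_comp]
  rfl

theorem Emap_congr {φ ψ : V →ₗ[F] W} {S : Submodule F V} (h : ∀ x ∈ S, φ x = ψ x)
    {ξ : E F d V} (hξ : ξ ∈ R d S) : Emap d φ ξ = Emap d ψ ξ := by
  obtain ⟨η, rfl⟩ := hξ
  rw [Emap_comp, Emap_comp]
  congr 2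
  ext x
  exact h x x.2

theorem R_mono {S T : Submodule F V} (h : S ≤ T) : R d S ≤ R d T := fun ξ hξ => by
  have := Emap_mem_R (d := d) (LinearMap.id : V →ₗ[F] V) (T := T) (fun x hx => h hx) hξ
  rwa [Emap_id] at this

theorem ext_compl {W₀ D T : Submodule F V} (h1 : W₀ ≤ T) (h2 : Disjoint W₀ D) :
    ∃ W' : Submodule F V, W₀ ≤ W' ∧ W' ≤ T ∧ Disjoint W' D ∧ T ≤ W' ⊔ (D ⊓ T) := by
  obtain ⟨C, hC1, hC2⟩ := IsModularLattice.exists_disjoint_and_sup_eq
    (a := W₀ ⊔ (D ⊓ T)) (b := T) (sup_le h1 inf_le_right)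
  have hCT : C ≤ T := hC2 ▸ le_sup_right
  refine ⟨W₀ ⊔ C, le_sup_left, sup_le h1 hCT, ?_, ?_⟩
  · rw [Submodule.disjoint_def]
    intro x hx hxD
    obtain ⟨w, hw, c, hc, rfl⟩ := Submodule.mem_sup.1 hx
    have h3 : c ∈ W₀ ⊔ (D ⊓ T) := by
      have : c = -w + (w + c) := by abel
      rw [this]
      exact Submodule.add_mem_sup (W₀.neg_mem hw) ⟨hxD, T.add_mem (h1 hw) (hCT hc)⟩
    have h4 := Submodule.disjoint_def.1 hC1 c h3 hc
    subst h4
    rw [add_zero] at hxD ⊢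
    exact Submodule.disjoint_def.1 h2 w hw hxD
  · rw [sup_right_comm, hC2]

/-- well-founded injective structures -/
def Good (ε : E F d V →ₗ[F] V) : Prop :=
  Function.Injective ε ∧ ∃ A : ℕ → Submodule F V, A 0 = ⊥ ∧ Monotone A ∧ (∀ v, ∃ n, v ∈ A n) ∧
    ∀ n ξ, ε ξ ∈ A (n + 1) → ξ ∈ R d (A n)

/-- the universal property -/
def UP (ε : E F d V →ₗ[F] V) (X : Set V) : Prop :=
  ∀ (W : Type u) [AddCommGroup W] [Module F W] (δ : E F d W →ₗ[F] W) (f : X → W),
    ∃! φ : V →ₗ[F] W, (∀ ξ, φ (ε ξ) = δ (Emap d φ ξ)) ∧ ∀ x : X, φ x = f x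

theorem Good.sub {ε : E F d V →ₗ[F] V} (h : Good ε) {δ : E F d W →ₗ[F] W} (ι : W →ₗ[F] V)
    (hι : Function.Injective ι) (hh : ∀ ξ, ι (δ ξ) = ε (Emap d ι ξ)) : Good δ := by
  obtain ⟨hε, A, h0, hm, hall, hA⟩ := h
  have ret : ∀ T : Submodule F V, ∃ r : V →ₗ[F] W, r ∘ₗ ι = LinearMap.id ∧
      ∀ x ∈ T, r x ∈ T.comap ι := by
    intro T
    obtain ⟨C, -, hC1, hC2, hC3⟩ := ext_compl (W₀ := ⊥) (D := LinearMap.range ι) (T := T) bot_le
      disjoint_bot_left
    obtain ⟨C', hC4, -, hC5, hC6⟩ := ext_compl (W₀ := C) (D := LinearMap.range ι) (T := ⊤) le_top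
      hC2
    have hc : IsCompl (LinearMap.range ι) C' :=
      ⟨hC5.symm, codisjoint_iff.2 (top_le_iff.1 (by simpa [sup_comm] using hC6))⟩
    refine ⟨LinearMap.linearProjOfIsCompl C' ι hι hc, ?_, fun x hx => ?_⟩
    · ext w; simp
    · obtain ⟨c, hc1, b, ⟨⟨w, rfl⟩, hb⟩, rfl⟩ := Submodule.mem_sup.1 (hC3 hx)
      rw [map_add, LinearMap.linearProjOfIsCompl_apply_right' _ _ _ _ _ (hC4 hc1), zero_add,
        LinearMap.linearProjOfIsCompl_apply_left]
      exact hb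
  refine ⟨fun ξ η hξ => ?_, fun n => (A n).comap ι, ?_, fun _ _ h => Submodule.comap_mono (hm h),
    fun w => hall (ι w), fun n ξ hξ => ?_⟩
  · obtain ⟨r, hr, -⟩ := ret ⊥
    have h1 : Emap d ι ξ = Emap d ι η := hε (by rw [← hh, ← hh, hξ])
    have h2 := congrArg (Emap d r) h1
    rwa [Emap_comp, Emap_comp, hr, Emap_id] at h2
  · simp only [h0, Submodule.comap_bot, LinearMap.ker_eq_bot.2 hι]
  · obtain ⟨r, hr, hr2⟩ := ret (A n)
    have h1 := Emap_mem_R r hr2 (hA n (Emap d ι ξ) (by rw [← hh]; exact hξ))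
    rwa [Emap_comp, hr, Emap_id] at h1

theorem chain_list {A : ℕ → Submodule F V} (hm : Monotone A) (l : List V)
    (h : ∀ x ∈ l, ∃ n, x ∈ A n) : ∃ n, ∀ x ∈ l, x ∈ A n := by
  induction l with
  | nil => exact ⟨0, by simp⟩
  | cons a l ih =>
    obtain ⟨n, hn⟩ := ih fun x hx => h x (List.mem_cons_of_mem _ hx)
    obtain ⟨m, hm'⟩ := h a List.mem_cons_self
    refine ⟨max n m, fun x hx => ?_⟩
    rcases List.mem_cons.1 hx with rfl | hx
    · exact hm (le_max_right _ _) hm'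
    · exact hm (le_max_left _ _) (hn x hx)

theorem UP.good {ε : E F d V →ₗ[F] V} {X : Set V} (h : UP ε X) : Good ε := by
  let lc : (X →₀ F) →ₗ[F] V := Finsupp.linearCombination F Subtype.val
  let σ : ((X →₀ F) × E F d V) →ₗ[F] V := lc.coprod ε
  obtain ⟨ψ, ⟨hψ1, hψ2⟩, -⟩ := h ((X →₀ F) × E F d V) (LinearMap.inr F _ _ ∘ₗ Emap d σ)
    fun x => (Finsupp.single x 1, 0)
  have hid : ∀ φ : V →ₗ[F] V, (∀ ξ, φ (ε ξ) = ε (Emap d φ ξ)) → (∀ x : X, φ x = x) →
      φ = LinearMap.id := fun φ h1 h2 =>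
    (h V ε Subtype.val).unique ⟨h1, h2⟩ ⟨fun ξ => by rw [Emap_id]; rfl, fun _ => rfl⟩
  have hσψ : σ ∘ₗ ψ = LinearMap.id := by
    refine hid _ (fun ξ => ?_) fun x => ?_
    · rw [LinearMap.comp_apply, hψ1, ← Emap_comp]; simp [σ]
    · rw [LinearMap.comp_apply, hψ2]; simp [σ, lc]
  have hψε : ∀ ξ, ψ (ε ξ) = (0, ξ) := fun ξ => by
    rw [hψ1, LinearMap.comp_apply, Emap_comp, hσψ, Emap_id]; rfl
  have hψX : ∀ v ∈ Submodule.span F X, (ψ v).2 = 0 := by
    intro v hv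
    induction hv using Submodule.span_induction with
    | mem x hx => rw [hψ2 ⟨x, hx⟩]
    | zero => simp
    | add x y _ _ hx hy => simp [hx, hy]
    | smul c x _ hx => simp [hx]
  let A : ℕ → Submodule F V := fun n =>
    Nat.rec ⊥ (fun _ T => Submodule.span F X ⊔ (R d T).map ε) n
  have hA : ∀ n, A (n + 1) = Submodule.span F X ⊔ (R d (A n)).map ε := fun _ => rfl
  have hm : Monotone A := by
    refine monotone_nat_of_le_succ fun n => ?_
    induction n with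
    | zero => exact bot_le
    | succ n ih => exact sup_le_sup_left (Submodule.map_mono (R_mono ih)) _
  refine ⟨fun ξ η hξ => ?_, A, rfl, hm, ?_, fun n ξ hξ => ?_⟩
  · have := congrArg ψ hξ
    rw [hψε, hψε] at this
    exact (Prod.ext_iff.1 this).2
  · let S : Submodule F V := ⨆ n, A n
    have hS : ∀ v, v ∈ S ↔ ∃ n, v ∈ A n := fun v =>
      Submodule.mem_iSup_of_directed A hm.directed_le
    have hcl : ∀ ξ : E F d S, (ε ∘ₗ Emap d S.subtype) ξ ∈ S := by
      have : S.mkQ ∘ₗ ε ∘ₗ Emap d S.subtype = 0 := E_ext fun s => by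
        obtain ⟨n, hn⟩ := chain_list hm (s.map S.subtype).args fun x hx => by
          rw [Sy.args_map] at hx
          obtain ⟨y, -, rfl⟩ := List.mem_map.1 hx
          exact (hS _).1 y.2
        simp only [LinearMap.comp_apply, Emap_mk, LinearMap.zero_apply, Submodule.mkQ_apply,
          Submodule.Quotient.mk_eq_zero]
        exact (hS _).2 ⟨n + 1, Submodule.mem_sup_right ⟨_, mk_mem_R hn, rfl⟩⟩
      intro ξ
      have := LinearMap.congr_fun this ξ
      simpa using this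
    obtain ⟨φ, ⟨hφ1, hφ2⟩, -⟩ := h S ((ε ∘ₗ Emap d S.subtype).codRestrict S hcl)
      fun x => ⟨x, (hS _).2 ⟨1, Submodule.mem_sup_left (Submodule.subset_span x.2)⟩⟩
    have : S.subtype ∘ₗ φ = LinearMap.id := by
      refine hid _ (fun ξ => ?_) fun x => ?_
      · rw [LinearMap.comp_apply, hφ1, ← Emap_comp]; rfl
      · rw [LinearMap.comp_apply, hφ2]; rfl
    intro v
    rw [← hS, ← show (S.subtype ∘ₗ φ) v = v from LinearMap.congr_fun this v]
    exact (φ v).2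
  · rw [hA] at hξ
    obtain ⟨a, ha, _, ⟨η, hη, rfl⟩, he⟩ := Submodule.mem_sup.1 hξ
    have := congrArg (fun v => (ψ v).2) he
    simp only [map_add, hψε, Prod.snd_add, hψX a ha, zero_add] at this
    rwa [← this]

theorem Good.free {ε : E F d V →ₗ[F] V} (h : Good ε) : ∃ Y : Set V, UP ε Y := by
  obtain ⟨hε, A, h0, hm, hall, hA⟩ := h
  let D := LinearMap.range ε
  have step : ∀ n (W₀ : Submodule F V), ∃ W' : Submodule F V, (W₀ ≤ A n ∧ Disjoint W₀ D) →
      (W₀ ≤ W' ∧ W' ≤ A (n + 1) ∧ Disjoint W' D ∧ A (n + 1) ≤ W' ⊔ (D ⊓ A (n + 1))) := by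
    intro n W₀
    by_cases hw : W₀ ≤ A n ∧ Disjoint W₀ D
    · obtain ⟨W', hW'⟩ := ext_compl (hw.1.trans (hm n.le_succ)) hw.2
      exact ⟨W', fun _ => hW'⟩
    · exact ⟨⊥, fun h => absurd h hw⟩
  choose nx hnx using step
  let Wn : ℕ → Submodule F V := fun n => Nat.rec ⊥ nx n
  have hW : ∀ n, Wn n ≤ A n ∧ Disjoint (Wn n) D := by
    intro n
    induction n with
    | zero => exact ⟨bot_le, disjoint_bot_left⟩
    | succ n ih => exact ⟨(hnx n _ ih).2.1, (hnx n _ ih).2.2.1⟩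
  have hWm : Monotone Wn := monotone_nat_of_le_succ fun n => (hnx n _ (hW n)).1
  let W₀ : Submodule F V := ⨆ n, Wn n
  have hdec : ∀ n, ∀ v ∈ A (n + 1), ∃ w ∈ W₀, ∃ η ∈ R d (A n), v = w + ε η := by
    intro n v hv
    obtain ⟨w, hw, _, ⟨⟨η, rfl⟩, hη⟩, rfl⟩ := Submodule.mem_sup.1 ((hnx n _ (hW n)).2.2.2 hv)
    exact ⟨w, le_iSup Wn (n + 1) hw, η, hA n η hη, rfl⟩
  have hc : IsCompl D W₀ := by
    refine ⟨?_, codisjoint_iff.2 (eq_top_iff.2 fun v _ => ?_)⟩
    · rw [Submodule.disjoint_def]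
      intro x hx hx'
      obtain ⟨n, hn⟩ := (Submodule.mem_iSup_of_directed Wn hWm.directed_le).1 hx'
      exact Submodule.disjoint_def.1 (hW n).2 x hn hx
    · obtain ⟨n, hn⟩ := hall v
      obtain ⟨w, hw, η, -, rfl⟩ := hdec n v (hm n.le_succ hn)
      rw [add_comm]
      exact Submodule.add_mem_sup ⟨η, rfl⟩ hw
  obtain ⟨Y, hY1, hY2, hY3⟩ := exists_linearIndependent F (W₀ : Set V)
  rw [Submodule.span_eq] at hY2
  refine ⟨Y, fun C _ _ δ f => ?_⟩
  let pE : V →ₗ[F] E F d V := LinearMap.linearProjOfIsCompl W₀ ε hε hc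
  have pE1 : ∀ ξ, pE (ε ξ) = ξ := fun ξ => LinearMap.linearProjOfIsCompl_apply_left _ _ _ _ _
  have pE2 : ∀ w ∈ W₀, pE w = 0 := fun w hw =>
    LinearMap.linearProjOfIsCompl_apply_right' _ _ _ _ _ hw
  obtain ⟨g0, hg0⟩ : ∃ g0 : V →ₗ[F] C, ∀ y : Y, g0 y = f y := by
    obtain ⟨g, hg⟩ := ((Module.Basis.span hY3).constr F f).exists_extend
    refine ⟨g, fun y => ?_⟩
    have h1 := LinearMap.congr_fun hg (Module.Basis.span hY3 y)
    rw [Module.Basis.constr_basis, LinearMap.comp_apply, Submodule.subtype_apply,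
      Module.Basis.span_apply] at h1
    exact h1
  let g : V →ₗ[F] C := g0 ∘ₗ (LinearMap.id - ε ∘ₗ pE)
  have g1 : ∀ ξ, g (ε ξ) = 0 := fun ξ => by simp [g, pE1]
  have g2 : ∀ w ∈ W₀, g w = g0 w := fun w hw => by simp [g, pE2 w hw]
  let nxt : (V →ₗ[F] C) → (V →ₗ[F] C) := fun φ => g + δ ∘ₗ Emap d φ ∘ₗ pE
  have nxt_ap : ∀ φ, ∀ w ∈ W₀, ∀ η, nxt φ (w + ε η) = g0 w + δ (Emap d φ η) := by
    intro φ w hw η
    simp [nxt, g1, g2 w hw, pE1, pE2 w hw]
  have agree : ∀ n (φ φ' : V →ₗ[F] C), (∀ v ∈ A n, φ v = φ' v) →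
      ∀ v ∈ A (n + 1), nxt φ v = nxt φ' v := by
    intro n φ φ' hh v hv
    obtain ⟨w, hw, η, hη, rfl⟩ := hdec n v hv
    rw [nxt_ap _ w hw, nxt_ap _ w hw, Emap_congr hh hη]
  let φn : ℕ → (V →ₗ[F] C) := fun n => nxt^[n] 0
  have φs : ∀ n, φn (n + 1) = nxt (φn n) := fun n => Function.iterate_succ_apply' _ _ _
  have stab : ∀ n k, ∀ v ∈ A n, φn (n + k) v = φn n v := by
    intro n k
    induction n with
    | zero => intro v hv; rw [h0] at hv; rw [(Submodule.mem_bot F).1 hv]; simp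
    | succ n ih =>
      intro v hv
      rw [Nat.add_right_comm, φs, φs]
      exact agree n _ _ ih v hv
  have stab' : ∀ n m v, v ∈ A n → v ∈ A m → φn n v = φn m v := by
    intro n m v h1 h2
    rw [← stab n m v h1, ← stab m n v h2, add_comm]
  choose N hN using hall
  let φ : V →ₗ[F] C :=
    { toFun := fun v => φn (N v) v
      map_add' := fun x y => by
        have hx := hm (le_max_left (N x) (N y)) (hN x)
        have hy := hm (le_max_right (N x) (N y)) (hN y)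
        rw [stab' _ _ _ (hN _) (add_mem hx hy), map_add, stab' _ _ _ (hN _) hx,
          stab' _ _ _ (hN _) hy]
      map_smul' := fun c x => by
        rw [stab' _ _ _ (hN _) ((A (N x)).smul_mem c (hN x)), map_smul]; rfl }
  have hφ : ∀ n, ∀ v ∈ A n, φ v = φn n v := fun n v hv => stab' _ _ _ (hN v) hv
  have hfix : ∀ v, φ v = nxt φ v := by
    intro v
    have hv := hm (N v).le_succ (hN v)
    rw [hφ _ _ hv, φs]
    exact (agree _ _ _ (hφ _) v hv).symm
  refine ⟨φ, ⟨fun ξ => ?_, fun y => ?_⟩, ?_⟩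
  · have := nxt_ap φ 0 W₀.zero_mem ξ
    rw [zero_add, map_zero, zero_add] at this
    rw [hfix, this]
  · have := nxt_ap φ y (hY1 y.2) 0
    rw [map_zero, add_zero, map_zero, map_zero, add_zero] at this
    rw [hfix, this, hg0]
  · rintro ψ ⟨hψ1, hψ2⟩
    have hψW : ∀ w ∈ W₀, ψ w = g0 w := by
      intro w hw
      rw [← hY2] at hw
      exact LinearMap.eqOn_span (fun y hy => (hψ2 ⟨y, hy⟩).trans (hg0 ⟨y, hy⟩).symm) hw
    have : ∀ n, ∀ v ∈ A n, ψ v = φ v := by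
      intro n
      induction n with
      | zero => intro v hv; rw [h0] at hv; rw [(Submodule.mem_bot F).1 hv]; simp
      | succ n ih =>
        intro v hv
        obtain ⟨w, hw, η, hη, rfl⟩ := hdec n v hv
        rw [hfix, nxt_ap _ w hw, map_add, hψ1, hψW w hw, Emap_congr ih hη]
    exact LinearMap.ext fun v => this _ v (hN v)

end SabDeg
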