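import Pool.Agent.H37Z.SabDefs

set_option autoImplicit false
set_option linter.unusedSectionVars false

/-! Formal vector fields, with formal functions given by their symmetric Taylor coefficients. -/

namespace SabDeg

universe u

open Multiset hiding map_add map_zero

section conv

variable {V V' W W' : Type u} [AddCommGroup W] [AddCommGroup W']

def C (s : Multiset V) (g : Multiset V → Multiset V → W) : W :=
  (s.antidiagonal.map fun p => g p.1 p.2).sum

theorem C_zero (g : Multiset V → Multiset V → W) : C 0 g = g 0 0 := by simp [C]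

theorem C_cons (y : V) (s : Multiset V) (g : Multiset V → Multiset V → W) :
    C (y ::ₘ s) g = C s (fun t u => g t (y ::ₘ u)) + C s (fun t u => g (y ::ₘ t) u) := by
  simp [C, antidiagonal_cons, Multiset.map_map]

theorem C_add (s : Multiset V) (g h : Multiset V → Multiset V → W) :
    C s (fun t u => g t u + h t u) = C s g + C s h := by simp [C, sum_map_add]

theorem C_sub (s : Multiset V) (g h : Multiset V → Multiset V → W) :
    C s (fun t u => g t u - h t u) = C s g - C s h := by simp [C, sum_map_sub]

theorem C_congr {s : Multiset V} {g h : Multiset V → Multiset V → W}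
    (e : ∀ t u, t + u = s → g t u = h t u) : C s g = C s h := by
  unfold C
  congr 1
  exact map_congr rfl fun p hp => e _ _ (mem_antidiagonal.1 hp)

theorem C_eq_zero {s : Multiset V} {g : Multiset V → Multiset V → W}
    (e : ∀ t u, t + u = s → g t u = 0) : C s g = 0 := by
  rw [C_congr e]; simp [C]

theorem C_comm (s : Multiset V) (g : Multiset V → Multiset V → W) :
    C s g = C s fun t u => g u t := by
  induction s using Multiset.induction_on generalizing g with
  | empty => simp [C_zero]
  | cons y s ih => rw [C_cons, C_cons, ih, add_comm, ih]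

theorem C_assoc (s : Multiset V) (h : Multiset V → Multiset V → Multiset V → W) :
    C s (fun t u => C u fun a b => h t a b) = C s fun c b => C c fun t a => h t a b := by
  induction s using Multiset.induction_on generalizing h with
  | empty => simp [C_zero]
  | cons y s ih =>
    simp only [C_cons, C_add]
    rw [ih, ih (fun t a b => h t (y ::ₘ a) b), ih (fun t a b => h (y ::ₘ t) a b), add_assoc]

theorem C_swap (s : Multiset V) (h : Multiset V → Multiset V → Multiset V → W) :
    C s (fun t u => C u fun a b => h t a b) = C s fun a c => C c fun t b => h t a b := by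
  rw [C_assoc, C_assoc s fun a t b => h t a b]
  exact C_congr fun c b _ => C_comm _ _

theorem C_left {s : Multiset V} {g : Multiset V → Multiset V → W}
    (e : ∀ t u, t + u = s → t ≠ 0 → g t u = 0) : C s g = g 0 s := by
  induction s using Multiset.induction_on generalizing g with
  | empty => simp [C_zero]
  | cons y s ih =>
    rw [C_cons, ih, C_eq_zero, add_zero]
    · intro t u h
      exact e _ _ (by rw [cons_add, h]) cons_ne_zero
    · intro t u h ht
      exact e _ _ (by rw [add_cons, h]) ht

theorem C_right {s : Multiset V} {g : Multiset V → Multiset V → W}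
    (e : ∀ t u, t + u = s → u ≠ 0 → g t u = 0) : C s g = g s 0 := by
  rw [C_comm, C_left]
  exact fun t u h ht => e u t (by rw [add_comm, h]) ht

theorem C_mapset (φ : V → V') (s : Multiset V) (g : Multiset V' → Multiset V' → W) :
    C (s.map φ) g = C s fun t u => g (t.map φ) (u.map φ) := by
  induction s using Multiset.induction_on generalizing g with
  | empty => simp [C_zero]
  | cons y s ih => simp only [map_cons, C_cons, ih]

theorem card_lt_left {t u s : Multiset V} (h : t + u = s) (hu : u ≠ 0) : t.card < s.card := by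
  have := card_pos.2 hu
  rw [← h, card_add]; omega

theorem card_lt_right {t u s : Multiset V} (h : t + u = s) (ht : t ≠ 0) : u.card < s.card :=
  card_lt_left (by rw [add_comm, h]) ht

theorem card_le_both {t u s : Multiset V} (h : t + u = s) : t.card ≤ s.card ∧ u.card ≤ s.card := by
  rw [← h, card_add]; omega

variable {F : Type u} [Field F] [Module F W] [Module F W']

theorem C_lin (φ : W →ₗ[F] W') (s : Multiset V) (g : Multiset V → Multiset V → W) :
    φ (C s g) = C s fun t u => φ (g t u) := by
  simp [C, map_multiset_sum, Multiset.map_map]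

theorem C_islin {φ : W → W'} (h : IsLinearMap F φ) (s : Multiset V)
    (g : Multiset V → Multiset V → W) : φ (C s g) = C s fun t u => φ (g t u) :=
  C_lin (h.mk' φ) s g

theorem C_smul (c : F) (s : Multiset V) (g : Multiset V → Multiset V → W) :
    C s (fun t u => c • g t u) = c • C s g :=
  (C_lin (c • LinearMap.id : W →ₗ[F] W) s g).symm

end conv

section vf

variable {F : Type u} [Field F] {V V' W W' : Type u} [AddCommGroup V] [Module F V]
  [AddCommGroup V'] [Module F V'] [AddCommGroup W] [Module F W] [AddCommGroup W'] [Module F W']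

theorem islin_C {s : Multiset V'} {g : V → Multiset V' → Multiset V' → W}
    (h : ∀ t u, IsLinearMap F fun y => g y t u) : IsLinearMap F fun y => C s (g y) :=
  ⟨fun x y => by rw [← C_add]; exact C_congr fun t u _ => (h t u).map_add x y,
    fun c x => by rw [← C_smul]; exact C_congr fun t u _ => (h t u).map_smul c x⟩

theorem islin_add {f g : V → W} (hf : IsLinearMap F f) (hg : IsLinearMap F g) :
    IsLinearMap F fun x => f x + g x := (hf.mk' f + hg.mk' g).isLinear

theorem islin_sub {f g : V → W} (hf : IsLinearMap F f) (hg : IsLinearMap F g) :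
    IsLinearMap F fun x => f x - g x := (hf.mk' f - hg.mk' g).isLinear

theorem islin_cmp {f : W → W'} {g : V → W} (hf : IsLinearMap F f) (hg : IsLinearMap F g) :
    IsLinearMap F fun x => f (g x) := (hf.mk' f ∘ₗ hg.mk' g).isLinear

variable (F) in
/-- multilinear Taylor coefficients -/
def ML (f : Multiset V → W) : Prop := ∀ u, IsLinearMap F fun y => f (y ::ₘ u)

theorem ML.sub {f g : Multiset V → W} (hf : ML F f) (hg : ML F g) : ML F (f - g) :=
  fun u => islin_sub (hf u) (hg u)

variable (F) in
/-- derivative of a formal function along a formal vector field -/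
def act (Y : Multiset V → V) : (Multiset V → W) →ₗ[F] (Multiset V → W) where
  toFun f s := C s fun t u => f (Y t ::ₘ u)
  map_add' f g := funext fun s => by rw [Pi.add_apply, ← C_add]; rfl
  map_smul' c f := funext fun s => by rw [Pi.smul_apply, RingHom.id_apply, ← C_smul]; rfl

theorem act_apply (Y : Multiset V → V) (f : Multiset V → W) (s : Multiset V) :
    act F Y f s = C s fun t u => f (Y t ::ₘ u) := rfl

/-- pointwise pairing -/
def pr (H : V' →ₗ[F] (Multiset V → W)) : (Multiset V → V') →ₗ[F] (Multiset V → W) where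
  toFun g s := C s fun t u => H (g t) u
  map_add' f g := funext fun s => by
    rw [Pi.add_apply, ← C_add]; exact C_congr fun t u _ => by simp
  map_smul' c f := funext fun s => by
    rw [Pi.smul_apply, RingHom.id_apply, ← C_smul]; exact C_congr fun t u _ => by simp

theorem pr_apply (H : V' →ₗ[F] (Multiset V → W)) (g : Multiset V → V') (s : Multiset V) :
    pr H g s = C s fun t u => H (g t) u := rfl

theorem pr_zero (H : V' →ₗ[F] (Multiset V → W)) (g : Multiset V → V') :
    pr H g 0 = H (g 0) 0 := by rw [pr_apply, C_zero]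

theorem pr_sub (H H' : V' →ₗ[F] (Multiset V → W)) (g : Multiset V → V') :
    pr (H - H') g = pr H g - pr H' g := funext fun s => by
  rw [Pi.sub_apply, pr_apply, pr_apply, pr_apply, ← C_sub]; rfl

theorem H_C (H : V' →ₗ[F] (Multiset V → W)) (b c : Multiset V)
    (g : Multiset V → Multiset V → V') : H (C c g) b = C c fun t u => H (g t u) b :=
  C_lin (LinearMap.proj b ∘ₗ H) c g

theorem ML.act {Y : Multiset V → V} {f : Multiset V → W} (hY : ML F Y) (hf : ML F f) :
    ML F (act F Y f) := by
  intro u
  simp only [act_apply, C_cons]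
  refine islin_add (islin_C fun t w => ?_) (islin_C fun t w => islin_cmp (f := fun y => f (y ::ₘ w)) (hf w) (hY t))
  simp only [cons_swap (Y t)]
  exact hf _

theorem act_pr (Y : Multiset V → V) (H : V' →ₗ[F] (Multiset V → W)) (g : Multiset V → V') :
    act F Y (pr H g) = pr (act F Y ∘ₗ H) g + pr H (act F Y g) := by
  funext s
  simp only [act_apply, pr_apply, C_cons, C_add, Pi.add_apply, LinearMap.comp_apply, H_C]
  rw [C_swap, C_assoc s fun t a b => H (g (Y t ::ₘ a)) b]

/-- the first derivative as a linear map -/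
def dd {f : Multiset V → W} (hf : ML F f) : V →ₗ[F] (Multiset V → W) where
  toFun v u := f (v ::ₘ u)
  map_add' x y := funext fun u => (hf u).map_add x y
  map_smul' c x := funext fun u => (hf u).map_smul c x

theorem act_eq_pr {f : Multiset V → W} (hf : ML F f) (Y : Multiset V → V) :
    act F Y f = pr (dd hf) Y := rfl

theorem act_comm {f : Multiset V → W} (hf : ML F f) (Y Z : Multiset V → V) :
    act F Y (act F Z f) - act F Z (act F Y f) = act F (act F Y Z - act F Z Y) f := by
  rw [act_eq_pr hf Z, act_eq_pr hf Y, act_pr, act_pr, act_eq_pr hf, map_sub]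
  have : pr (act F Y ∘ₗ dd hf) Z = pr (act F Z ∘ₗ dd hf) Y := by
    funext s
    simp only [pr_apply, LinearMap.comp_apply, act_apply]
    rw [C_swap]
    exact C_congr fun a c _ => C_congr fun t b _ => congrArg f (cons_swap _ _ _)
  rw [this]; abel

theorem pr_pr {U : Type u} [AddCommGroup U] [Module F U] (K : V' →ₗ[F] (Multiset V → W))
    (H : U →ₗ[F] (Multiset V → V')) (g : Multiset V → U) :
    pr K (pr H g) = pr (pr K ∘ₗ H) g := by
  funext s
  simp only [pr_apply, LinearMap.comp_apply, H_C]
  rw [C_assoc s fun t a b => K (H (g t) a) b]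

/-- a formal frame -/
structure Fr (X : V →ₗ[F] (Multiset V → V)) : Prop where
  zero : ∀ v, X v 0 = v
  ml : ∀ v, ML F (X v)

variable {X : V →ₗ[F] (Multiset V → V)}

theorem Fr.pr_top (h : Fr X) {g : Multiset V → V} {s : Multiset V}
    (hg : ∀ t : Multiset V, t.card < s.card → g t = 0) : pr X g s = g s := by
  rw [pr_apply, C_right, h.zero]
  intro t u e hu
  rw [hg t (card_lt_left e hu), map_zero]; rfl

theorem Fr.pr_low (h : Fr X) {g : Multiset V → V} {m : ℕ}
    (hg : ∀ s : Multiset V, s.card < m → pr X g s = 0) (s : Multiset V) (hs : s.card < m) :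
    g s = 0 := by
  induction hn : s.card using Nat.strong_induction_on generalizing s with
  | _ n ih =>
    subst hn
    rw [← h.pr_top fun t ht => ih _ ht t (ht.trans hs) rfl]
    exact hg s hs

theorem Fr.inj (h : Fr X) : Function.Injective (pr X) := by
  rw [injective_iff_map_eq_zero]
  intro g hg
  funext s
  exact h.pr_low (m := s.card + 1) (fun t _ => by rw [hg]; rfl) s (Nat.lt_succ_self _)

theorem Fr.surj (h : Fr X) : Function.Surjective (pr X) := by
  intro G
  let it : ℕ → Multiset V → V := fun n => (fun g => G + g - pr X g)^[n] 0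
  have hit : ∀ n, it (n + 1) = G + it n - pr X (it n) := fun n =>
    Function.iterate_succ_apply' _ _ _
  have hδ : ∀ n, ∀ s : Multiset V, s.card < n → (it (n + 1) - it n) s = 0 := by
    intro n
    induction n with
    | zero => intro s hs; omega
    | succ n ih =>
      intro s hs
      have e : it (n + 1 + 1) - it (n + 1) =
          (it (n + 1) - it n) - pr X (it (n + 1) - it n) := by
        rw [map_sub]
        linear_combination (norm := abel) hit (n + 1) - hit n
      rw [e, Pi.sub_apply, h.pr_top fun t ht => ih t (by omega), sub_self]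
  have hst : ∀ (s : Multiset V) k, it (s.card + 1 + k) s = it (s.card + 1) s := by
    intro s k
    induction k with
    | zero => rfl
    | succ k ih =>
      rw [← ih, ← add_assoc]
      exact sub_eq_zero.1 (hδ _ s (by omega))
  refine ⟨fun s => it (s.card + 1) s, funext fun s => ?_⟩
  have e1 : pr X (fun s => it (s.card + 1) s) s = pr X (it (s.card + 1)) s := by
    rw [pr_apply, pr_apply]
    refine C_congr fun t u e => ?_
    obtain ⟨k, hk⟩ := Nat.exists_eq_add_of_le (card_le_both e).1
    rw [hk, Nat.add_right_comm, hst]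
  have e2 := hδ (s.card + 1) s (Nat.lt_succ_self _)
  rw [hit (s.card + 1)] at e2
  simp only [Pi.sub_apply, Pi.add_apply] at e2
  rw [e1]
  linear_combination (norm := abel) -e2

noncomputable def Fr.sol (h : Fr X) : (Multiset V → V) →ₗ[F] (Multiset V → V) :=
  (LinearEquiv.ofBijective (pr X) ⟨h.inj, h.surj⟩).symm

theorem Fr.pr_sol (h : Fr X) (G : Multiset V → V) : pr X (h.sol G) = G :=
  (LinearEquiv.ofBijective (pr X) ⟨h.inj, h.surj⟩).apply_symm_apply G

theorem Fr.ml_of_pr (h : Fr X) {g : Multiset V → V} (hg : ML F (pr X g)) : ML F g := by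
  have key : ∀ u, IsLinearMap F fun y => pr X (fun t => g (y ::ₘ t)) u := by
    intro u
    have e : ∀ y, pr X (fun t => g (y ::ₘ t)) u =
        pr X g (y ::ₘ u) - C u fun t w => X (g t) (y ::ₘ w) := by
      intro y
      rw [pr_apply, pr_apply, C_cons]; abel
    simp only [e]
    exact islin_sub (hg u) (islin_C fun t w => h.ml _ w)
  intro u
  refine ⟨fun x y => ?_, fun c x => ?_⟩
  · have : (fun t => g ((x + y) ::ₘ t)) = (fun t => g (x ::ₘ t)) + fun t => g (y ::ₘ t) :=
      h.inj (funext fun w => by rw [map_add, Pi.add_apply]; exact (key w).map_add x y)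
    exact congrFun this u
  · have : (fun t => g ((c • x) ::ₘ t)) = c • fun t => g (x ::ₘ t) :=
      h.inj (funext fun w => by rw [map_smul, Pi.smul_apply]; exact (key w).map_smul c x)
    exact congrFun this u

/-- the torsion, linear in the first argument -/
noncomputable def Fr.TL (h : Fr X) (z : V) : V →ₗ[F] (Multiset V → V) :=
  h.sol ∘ₗ (pr (dd (h.ml z)) ∘ₗ X - act F (X z) ∘ₗ X)

theorem Fr.pr_T (h : Fr X) (y z : V) :
    pr X (h.TL z y) = act F (X y) (X z) - act F (X z) (X y) := h.pr_sol _

theorem Fr.T_ml (h : Fr X) (y z : V) : ML F (h.TL z y) :=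
  h.ml_of_pr (by rw [h.pr_T]; exact ((h.ml y).act (h.ml z)).sub ((h.ml z).act (h.ml y)))

theorem Fr.T_skew (h : Fr X) (y z : V) : h.TL z y + h.TL y z = 0 :=
  h.inj (by rw [map_add, h.pr_T, h.pr_T, map_zero]; abel)

theorem Fr.jacobi (h : Fr X) (x y z : V) :
    cyc (fun x y z => pr (h.TL x) (h.TL z y) - act F (X x) (h.TL z y)) x y z = 0 := by
  have key : ∀ x y z, pr X (pr (h.TL x) (h.TL z y) - act F (X x) (h.TL z y)) =
      act F (X y) (act F (X z) (X x)) - act F (X z) (act F (X y) (X x)) -
        (act F (X x) (act F (X y) (X z)) - act F (X x) (act F (X z) (X y))) := by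
    intro x y z
    have e : pr X ∘ₗ h.TL x = pr (dd (h.ml x)) ∘ₗ X - act F (X x) ∘ₗ X :=
      LinearMap.ext fun v => h.pr_sol _
    rw [act_comm (h.ml x), ← map_sub (act F (X x)), ← h.pr_T, act_pr, act_eq_pr (h.ml x) (pr X _),
      pr_pr, map_sub, pr_pr, e, pr_sub]
    abel
  apply h.inj
  simp only [cyc, map_add, key, map_zero]
  abel

variable (X) in
/-- iterated derivatives -/
def IL : List V → (Multiset V → W) →ₗ[F] (Multiset V → W)
  | [] => LinearMap.id
  | x :: l => act F (X x) ∘ₗ IL l

theorem IL_append (l₁ l₂ : List V) (f : Multiset V → W) :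
    IL X (l₁ ++ l₂) f = IL X l₁ (IL X l₂ f) := by
  induction l₁ with
  | nil => rfl
  | cons x l ih => simp [IL, ih]

theorem Fr.IL_ml (h : Fr X) (l : List V) {f : Multiset V → W} (hf : ML F f) :
    ML F (IL X l f) := by
  induction l with
  | nil => exact hf
  | cons x l ih => exact (h.ml x).act ih

theorem IL_pr (xs : List V) (H : V' →ₗ[F] (Multiset V → W)) (g : Multiset V → V') :
    IL X xs (pr H g) = ((unsh xs).map fun p => pr (IL X p.1 ∘ₗ H) (IL X p.2 g)).sum := by
  induction xs with
  | nil => simp [IL, unsh]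
  | cons x xs ih =>
    simp only [IL, LinearMap.comp_apply, ih, map_list_sum, unsh, List.map_append, List.map_map,
      List.sum_append]
    rw [← List.sum_map_add]
    congr 1
    refine List.map_congr_left fun p _ => ?_
    simp only [Function.comp_apply, act_pr, IL, LinearMap.comp_assoc, LinearMap.comp_apply]

theorem IL_pr_zero (xs : List V) (H : V' →ₗ[F] (Multiset V → W)) (g : Multiset V → V') :
    IL X xs (pr H g) 0 = ((unsh xs).map fun p => IL X p.1 (H (IL X p.2 g 0)) 0).sum := by
  have := congrArg (LinearMap.proj (R := F) (φ := fun _ : Multiset V => W) 0) (IL_pr (X := X) xs H g)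
  simpa [map_list_sum, List.map_map, Function.comp_def, pr_zero] using this

/-- the brackets of a frame -/
noncomputable def Fr.br (h : Fr X) (l : List V) (y z : V) : V := -(IL X l (h.TL z y) 0)

theorem Fr.br_lin₂ (h : Fr X) (l : List V) (z : V) : IsLinearMap F fun y => h.br l y z :=
  (-(LinearMap.proj (R := F) (φ := fun _ : Multiset V => V) 0 ∘ₗ IL X l ∘ₗ h.TL z)).isLinear

theorem Fr.br_s1 (h : Fr X) (l : List V) (y z : V) : h.br l y z + h.br l z y = 0 := by
  rw [Fr.br, Fr.br, ← neg_add, ← Pi.add_apply, ← map_add, h.T_skew, map_zero]; simp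

theorem Fr.br_lin₃ (h : Fr X) (l : List V) (y : V) : IsLinearMap F fun z => h.br l y z := by
  have : ∀ z, h.br l y z = -h.br l z y := fun z => eq_neg_of_add_eq_zero_left (h.br_s1 l y z)
  simp only [this]
  exact (-(h.br_lin₂ l y).mk' _).isLinear

theorem Fr.br_lin₁ (h : Fr X) (l₁ l₂ : List V) (y z : V) :
    IsLinearMap F fun x => h.br (l₁ ++ x :: l₂) y z := by
  simp only [Fr.br, IL_append, IL, LinearMap.comp_apply, act_eq_pr (h.IL_ml l₂ (h.T_ml y z))]
  exact (-(LinearMap.proj (R := F) (φ := fun _ : Multiset V => V) 0 ∘ₗ IL X l₁ ∘ₗ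
    pr (dd (h.IL_ml l₂ (h.T_ml y z))) ∘ₗ X)).isLinear

theorem Fr.br_s2 (h : Fr X) (xs ys : List V) (a b y z : V) :
    h.br (xs ++ a :: b :: ys) y z - h.br (xs ++ b :: a :: ys) y z +
      ((unsh xs).map fun p => h.br (p.1 ++ h.br p.2 a b :: ys) y z).sum = 0 := by
  have hg := h.IL_ml ys (h.T_ml y z)
  have e1 : h.br (xs ++ a :: b :: ys) y z - h.br (xs ++ b :: a :: ys) y z =
      -(IL X xs (pr (pr (dd hg) ∘ₗ X) (h.TL b a)) 0) := by
    rw [← pr_pr, ← act_eq_pr, h.pr_T, ← act_comm hg, map_sub]
    simp only [Fr.br, IL_append, IL, LinearMap.comp_apply, Pi.sub_apply]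
    abel
  rw [e1, IL_pr_zero, neg_add_eq_zero]
  congr 1
  refine List.map_congr_left fun p _ => ?_
  simp only [Fr.br, IL_append, IL, LinearMap.comp_apply, act_eq_pr hg, map_neg, Pi.neg_apply,
    neg_neg]

theorem Fr.br_s3 (h : Fr X) (xs : List V) (x y z : V) :
    cyc (fun x y z => h.br (xs ++ [x]) y z +
      ((unsh xs).map fun p => h.br p.1 (h.br p.2 y z) x).sum) x y z = 0 := by
  have e : ∀ x y z, h.br (xs ++ [x]) y z +
      ((unsh xs).map fun p => h.br p.1 (h.br p.2 y z) x).sum =
      IL X xs (pr (h.TL x) (h.TL z y) - act F (X x) (h.TL z y)) 0 := by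
    intro x y z
    rw [map_sub, Pi.sub_apply, IL_pr_zero]
    simp only [Fr.br, IL_append, IL, LinearMap.comp_apply, map_neg, Pi.neg_apply, neg_neg,
      LinearMap.id_apply]
    abel
  have := congrArg (fun f => IL X xs f 0) (h.jacobi x y z)
  simp only [cyc, map_add, Pi.add_apply, map_zero, Pi.zero_apply] at this
  simp only [cyc, e]
  exact this

section natural

variable {X' : V' →ₗ[F] (Multiset V' → V')}

theorem act_nat (φ : V →ₗ[F] V') (ψ : W →ₗ[F] W') {Y : Multiset V → V} {Y' : Multiset V' → V'}
    {f : Multiset V → W} {f' : Multiset V' → W'} (hY : ∀ s, φ (Y s) = Y' (s.map φ))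
    (hf : ∀ s, ψ (f s) = f' (s.map φ)) (s : Multiset V) :
    ψ (act F Y f s) = act F Y' f' (s.map φ) := by
  simp only [act_apply, C_lin, C_mapset, hf, map_cons, hY]

theorem Fr.T_nat (h : Fr X) (h' : Fr X') (φ : V →ₗ[F] V')
    (hX : ∀ v s, φ (X v s) = X' (φ v) (s.map φ)) (y z : V) (s : Multiset V) :
    φ (h.TL z y s) = h'.TL (φ z) (φ y) (s.map φ) := by
  induction hn : s.card using Nat.strong_induction_on generalizing s with
  | _ n ih =>
    subst hn
    have e1 : φ (pr X (h.TL z y) s) = pr X' (h'.TL (φ z) (φ y)) (s.map φ) := by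
      rw [h.pr_T, h'.pr_T, Pi.sub_apply, Pi.sub_apply, map_sub, act_nat φ φ (hX y) (hX z),
        act_nat φ φ (hX z) (hX y)]
    rw [pr_apply, pr_apply, C_lin, C_mapset, ← sub_eq_zero, ← C_sub, C_right] at e1
    · simp only [hX, Multiset.map_zero, h'.zero] at e1
      exact sub_eq_zero.1 e1
    · intro t u e hu
      rw [hX, ih _ (card_lt_left e hu) t rfl, sub_self]

theorem IL_nat (φ : V →ₗ[F] V') (hX : ∀ v s, φ (X v s) = X' (φ v) (s.map φ))
    {f : Multiset V → V} {f' : Multiset V' → V'} (hf : ∀ s, φ (f s) = f' (s.map φ)) (l : List V)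
    (s : Multiset V) : φ (IL X l f s) = IL X' (l.map φ) f' (s.map φ) := by
  induction l generalizing s with
  | nil => exact hf s
  | cons x l ih => exact act_nat φ φ (hX x) ih s

theorem Fr.br_nat (h : Fr X) (h' : Fr X') (φ : V →ₗ[F] V')
    (hX : ∀ v s, φ (X v s) = X' (φ v) (s.map φ)) (l : List V) (y z : V) :
    φ (h.br l y z) = h'.br (l.map φ) (φ y) (φ z) := by
  rw [Fr.br, Fr.br, map_neg, IL_nat φ hX (h.T_nat h' φ hX y z)]; rfl

end natural

section triangular

variable {X' : V →ₗ[F] (Multiset V → V)} {m : ℕ}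

theorem Fr.act_tri (h : Fr X) (hX : ∀ v (s : Multiset V), s.card ≤ m → X v s = X' v s)
    {f f' : Multiset V → W} (x : V) (s : Multiset V) (hs : s.card ≤ m)
    (hf : ∀ t : Multiset V, t.card ≤ s.card → f t = f' t) :
    act F (X x) f s - act F (X' x) f' s = f (x ::ₘ s) - f' (x ::ₘ s) := by
  rw [act_apply, act_apply, ← C_sub, C_left, ← hX x 0 (by simp), h.zero]
  intro t u e ht
  rw [← hX x t ((card_le_both e).1.trans hs), hf, sub_self]
  have := card_lt_right e ht
  rw [card_cons]; omega

theorem Fr.T_tri (h : Fr X) (h' : Fr X') (hX : ∀ v (s : Multiset V), s.card ≤ m → X v s = X' v s)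
    (y z : V) (s : Multiset V) (hs : s.card ≤ m) :
    h.TL z y s - h'.TL z y s =
      (X z (y ::ₘ s) - X y (z ::ₘ s)) - (X' z (y ::ₘ s) - X' y (z ::ₘ s)) := by
  have e : ∀ s : Multiset V, s.card ≤ m → pr X (h.TL z y - h'.TL z y) s =
      (X z (y ::ₘ s) - X y (z ::ₘ s)) - (X' z (y ::ₘ s) - X' y (z ::ₘ s)) := by
    intro s hs
    have e1 : pr X (h'.TL z y) s = pr X' (h'.TL z y) s := by
      rw [pr_apply, pr_apply]
      exact C_congr fun t u e => hX _ _ ((card_le_both e).2.trans hs)
    have e2 := h.act_tri hX y s hs fun t ht => hX z t (ht.trans hs)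
    have e3 := h.act_tri hX z s hs fun t ht => hX y t (ht.trans hs)
    rw [map_sub, Pi.sub_apply, e1, h.pr_T, h'.pr_T, Pi.sub_apply, Pi.sub_apply]
    linear_combination (norm := abel) e2 - e3
  rw [← e s hs, h.pr_top, Pi.sub_apply]
  intro t ht
  refine h.pr_low (m := m) (fun w hw => ?_) t (by omega)
  rw [e w hw.le, hX z _ (by rw [card_cons]; omega), hX y _ (by rw [card_cons]; omega), sub_self]

theorem Fr.IL_tri (h : Fr X) (hX : ∀ v (s : Multiset V), s.card ≤ m → X v s = X' v s)
    {f f' : Multiset V → W} (hf : ∀ t : Multiset V, t.card < m → f t = f' t) (l : List V)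
    (s : Multiset V) (hs : l.length + s.card ≤ m) :
    IL X l f s - IL X' l f' s = f (l + s) - f' (l + s) := by
  induction l generalizing s with
  | nil => simp [IL]
  | cons x l ih =>
    rw [List.length_cons] at hs
    simp only [IL, LinearMap.comp_apply]
    rw [h.act_tri hX x s (by omega), ih _ (by rw [card_cons]; omega), ← cons_coe, cons_add,
      add_cons]
    intro t ht
    rw [← sub_eq_zero, ih t (by omega), hf, sub_self]
    simp only [card_add, coe_card]; omega

theorem Fr.br_tri (h : Fr X) (h' : Fr X') (hX : ∀ v (s : Multiset V), s.card ≤ m → X v s = X' v s)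
    (l : List V) (hl : l.length ≤ m) (y z : V) :
    h.br l y z - h'.br l y z =
      (X y (z ::ₘ l) - X z (y ::ₘ l)) - (X' y (z ::ₘ l) - X' z (y ::ₘ l)) := by
  have e1 := h.IL_tri hX (f := h.TL z y) (f' := h'.TL z y) (fun t ht => by
    rw [← sub_eq_zero, h.T_tri h' hX y z t ht.le, hX z _ (by rw [card_cons]; omega),
      hX y _ (by rw [card_cons]; omega), sub_self]) l 0 (by simpa using hl)
  rw [add_zero, h.T_tri h' hX y z l (by simpa using hl)] at e1
  rw [Fr.br, Fr.br]
  linear_combination (norm := abel) -e1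

end triangular

end vf

end SabDeg
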