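import Pool.Agent.H37Z.SabE
import Pool.Agent.H37Z.SabVF

set_option autoImplicit false
set_option linter.unusedSectionVars false

namespace SabDeg

universe u

open Multiset hiding map_add map_zero

theorem unsh_len {V : Type u} (xs : List V) :
    ∀ p ∈ unsh xs, p.1.length + p.2.length = xs.length := by
  induction xs with
  | nil => simp [unsh]
  | cons x xs ih =>
    intro p hp
    simp only [unsh, List.mem_append, List.mem_map] at hp
    rcases hp with ⟨q, hq, rfl⟩ | ⟨q, hq, rfl⟩ <;>
    · have := ih q hq
      simp only [List.length_cons]; omega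

theorem unsh_map {V W : Type u} (f : V → W) (xs : List V) :
    unsh (xs.map f) = (unsh xs).map fun p => (p.1.map f, p.2.map f) := by
  induction xs with
  | nil => simp [unsh]
  | cons x xs ih => simp [unsh, ih, Function.comp_def]

section S1

variable {V V' W W' : Type u} [AddCommGroup V] [AddCommGroup V'] [AddCommGroup W]
  [AddCommGroup W']

/-- sum over the choices of one element -/
def S1 (s : Multiset V) (g : V → Multiset V → W) : W :=
  C s fun t u => if t.card = 1 then g t.sum u else 0

theorem S1_zero (g : V → Multiset V → W) : S1 0 g = 0 := by simp [S1, C_zero]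

theorem S1_cons (y : V) (s : Multiset V) (g : V → Multiset V → W) :
    S1 (y ::ₘ s) g = S1 s (fun x u => g x (y ::ₘ u)) + g y s := by
  rw [S1, C_cons, C_left (g := fun t u => if (y ::ₘ t).card = 1 then g (y ::ₘ t).sum u else 0)]
  · simp [S1]
  · intro t u _ ht
    rw [if_neg]
    have := card_pos.2 ht
    rw [card_cons]; omega

theorem S1_const (s : Multiset V) (k : Multiset V → W) :
    S1 s (fun x u => k (x ::ₘ u)) = s.card • k s := by
  induction s using Multiset.induction_on generalizing k with
  | empty => simp [S1_zero]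
  | cons y s ih =>
    rw [S1_cons, card_cons, succ_nsmul, ← ih fun w => k (y ::ₘ w)]
    simp only [cons_swap y]

theorem S1_congr {s : Multiset V} {g h : V → Multiset V → W}
    (e : ∀ x u, u.card < s.card → g x u = h x u) : S1 s g = S1 s h := by
  refine C_congr fun t u ee => ?_
  split_ifs with h1
  · refine e _ _ (card_lt_right ee ?_)
    rintro rfl
    simp at h1
  · rfl

theorem S1_sub (s : Multiset V) (g h : V → Multiset V → W) :
    S1 s g - S1 s h = S1 s fun x u => g x u - h x u := by
  rw [S1, S1, ← C_sub]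
  refine C_congr fun t u _ => ?_
  split_ifs <;> simp

variable {F : Type u} [Field F] [Module F V] [Module F V'] [Module F W] [Module F W']

theorem islin_zero : IsLinearMap F fun _ : V => (0 : W) := (0 : V →ₗ[F] W).isLinear

theorem islin_ite {f : V → W} (p : Prop) [Decidable p] (hf : IsLinearMap F f) :
    IsLinearMap F fun x => if p then f x else 0 := by
  split_ifs
  · exact hf
  · exact islin_zero

theorem islin_S1 {s : Multiset V'} {g : V → V' → Multiset V' → W}
    (h : ∀ x u, IsLinearMap F fun y => g y x u) : IsLinearMap F fun y => S1 s (g y) :=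
  islin_C (g := fun y t u => if t.card = 1 then g y t.sum u else 0) fun _ _ => islin_ite _ (h _ _)

theorem S1_nat (φ : V →ₗ[F] V') (ψ : W →ₗ[F] W') (s : Multiset V) {g : V → Multiset V → W}
    {g' : V' → Multiset V' → W'} (h : ∀ x u, ψ (g x u) = g' (φ x) (u.map φ)) :
    ψ (S1 s g) = S1 (s.map φ) g' := by
  rw [S1, S1, C_lin, C_mapset]
  refine C_congr fun t u _ => ?_
  rw [card_map, ← map_multiset_sum]
  split_ifs
  · exact h _ _
  · exact map_zero _

end S1

variable {F : Type u} [Field F] {d : ℕ} {V W : Type u} [AddCommGroup V] [Module F V]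
  [AddCommGroup W] [Module F W]

section frame

variable {β β' : List V → V → V → V}

theorem LinBr.perm (h : LinBr F d β) {l l' : List V} (p : l.Perm l') : β l = β l' := by
  have : ∀ pre, β (pre ++ l) = β (pre ++ l') := by
    induction p with
    | nil => intro; rfl
    | cons x _ ih => intro pre; simpa using ih (pre ++ [x])
    | swap x y l => intro pre; funext a b; exact h.l2 _ _ _ _ _ _
    | trans _ _ ih1 ih2 => intro pre; rw [ih1, ih2]
  exact this []

def LinBr.bar (h : LinBr F d β) (s : Multiset V) : V → V → V :=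
  Quotient.lift β (fun _ _ p => h.perm p) s

theorem LinBr.bar_coe (h : LinBr F d β) (l : List V) : h.bar l = β l := rfl

theorem LinBr.bar_lin₁ (h : LinBr F d β) (s : Multiset V) (y z : V) :
    IsLinearMap F fun x => h.bar (x ::ₘ s) y z :=
  Quotient.inductionOn s fun l => h.lin₁ [] l y z

theorem LinBr.bar_lin₂ (h : LinBr F d β) (s : Multiset V) (z : V) :
    IsLinearMap F fun y => h.bar s y z := Quotient.inductionOn s fun l => h.lin₂ l z

theorem LinBr.bar_lin₃ (h : LinBr F d β) (s : Multiset V) (y : V) :
    IsLinearMap F fun z => h.bar s y z := Quotient.inductionOn s fun l => h.lin₃ l y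

theorem LinBr.bar_l1 (h : LinBr F d β) (s : Multiset V) (y z : V) :
    h.bar s y z + h.bar s z y = 0 := Quotient.inductionOn s fun l => h.l1 l y z

theorem LinBr.bar_l3 (h : LinBr F d β) (s : Multiset V) (x y z : V) :
    h.bar (x ::ₘ s) y z + h.bar (y ::ₘ s) z x + h.bar (z ::ₘ s) x y = 0 := by
  induction s using Quotient.inductionOn with
  | h l =>
    have := h.l3 l x y z
    rw [h.perm (List.perm_append_singleton x l), h.perm (List.perm_append_singleton y l),
      h.perm (List.perm_append_singleton z l)] at this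
    exact this

theorem LinBr.X_lin (h : LinBr F d β) (s : Multiset V) : IsLinearMap F fun v : V =>
    (if s.card = 0 then v else 0) - ((s.card : F) + 1)⁻¹ • S1 s fun x u => h.bar u x v :=
  islin_sub (islin_ite _ LinearMap.id.isLinear) (islin_cmp
    (((s.card : F) + 1)⁻¹ • LinearMap.id : V →ₗ[F] V).isLinear
    (islin_S1 fun x u => h.bar_lin₃ u x))

/-- the frame attached to a family with the linear identities -/
noncomputable def LinBr.X (h : LinBr F d β) : V →ₗ[F] (Multiset V → V) where
  toFun v s := (if s.card = 0 then v else 0) - ((s.card : F) + 1)⁻¹ • S1 s fun x u => h.bar u x v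
  map_add' x y := funext fun s => (h.X_lin s).map_add x y
  map_smul' c x := funext fun s => (h.X_lin s).map_smul c x

theorem LinBr.X_apply (h : LinBr F d β) (v : V) (s : Multiset V) : h.X v s =
    (if s.card = 0 then v else 0) - ((s.card : F) + 1)⁻¹ • S1 s fun x u => h.bar u x v := rfl

theorem LinBr.X_cons (h : LinBr F d β) (v y : V) (s : Multiset V) : h.X v (y ::ₘ s) =
    (-((s.card : F) + 2)⁻¹) • ((S1 s fun x u => h.bar (y ::ₘ u) x v) + h.bar s y v) := by
  rw [h.X_apply, S1_cons, card_cons, if_neg (Nat.succ_ne_zero _), zero_sub, neg_smul]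
  push_cast
  rw [add_assoc, one_add_one_eq_two]

theorem LinBr.fr (h : LinBr F d β) : Fr h.X where
  zero v := by simp [h.X_apply, S1_zero]
  ml v u := by
    simp only [h.X_cons]
    exact islin_cmp ((-((u.card : F) + 2)⁻¹) • LinearMap.id : V →ₗ[F] V).isLinear
      (islin_add (islin_S1 fun x w => h.bar_lin₁ w x v) (h.bar_lin₂ u v))

theorem LinBr.X_diff [CharZero F] (h : LinBr F d β) (s : Multiset V) (y z : V) :
    h.X y (z ::ₘ s) - h.X z (y ::ₘ s) = h.bar s y z := by
  have e1 : (S1 s fun x u => h.bar (z ::ₘ u) x y) - (S1 s fun x u => h.bar (y ::ₘ u) x z) =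
      -(s.card • h.bar s y z) := by
    rw [S1_sub, ← smul_neg, ← S1_const s fun w => -h.bar w y z]
    refine S1_congr fun x u _ => ?_
    linear_combination (norm := abel) h.bar_l3 u x y z - h.bar_l1 (y ::ₘ u) z x
  have e2 : (S1 s fun x u => h.bar (z ::ₘ u) x y) + h.bar s z y -
      ((S1 s fun x u => h.bar (y ::ₘ u) x z) + h.bar s y z) =
      (-((s.card : F) + 2)) • h.bar s y z := by
    rw [neg_smul, add_smul, Nat.cast_smul_eq_nsmul, two_smul]
    linear_combination (norm := abel) e1 + h.bar_l1 s y z
  have h0 : ((s.card : F) + 2) ≠ 0 := by exact_mod_cast Nat.succ_ne_zero (s.card + 1)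
  rw [h.X_cons, h.X_cons, ← smul_sub, e2, smul_smul, neg_mul_neg, inv_mul_cancel₀ h0, one_smul]

theorem LinBr.tri [CharZero F] (h : LinBr F d β) (h' : LinBr F d β') {m : ℕ}
    (e : ∀ l : List V, l.length < m → β l = β' l) (l : List V) (hl : l.length ≤ m) (y z : V) :
    h.fr.br l y z - h'.fr.br l y z = β l y z - β' l y z := by
  rw [h.fr.br_tri h'.fr (m := m) _ l hl, h.X_diff, h'.X_diff]
  · rfl
  · intro v s hs
    rw [h.X_apply, h'.X_apply, S1_congr]
    intro x u hu
    induction u using Quotient.inductionOn with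
    | h l => exact congrFun (congrFun (e l (lt_of_lt_of_le hu hs)) x) v

theorem LinBr.nat {γ : List W → W → W → W} (h : LinBr F d β) (h' : LinBr F d γ) (φ : V →ₗ[F] W)
    (e : ∀ l y z, φ (β l y z) = γ (l.map φ) (φ y) (φ z)) (l : List V) (y z : V) :
    φ (h.fr.br l y z) = h'.fr.br (l.map φ) (φ y) (φ z) := by
  refine h.fr.br_nat h'.fr φ (fun v s => ?_) l y z
  rw [h.X_apply, h'.X_apply, map_sub, map_smul, card_map,
    S1_nat φ φ s (g' := fun x u => h'.bar u x (φ v))]
  · split_ifs <;> simp
  · intro x u
    induction u using Quotient.inductionOn with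
    | h l => exact e l x v

theorem LinBr.trunc (h : LinBr F d β) (m : ℕ) :
    LinBr F d fun l y z => if l.length < m then β l y z else 0 where
  zero l y z hl := by simp [h.zero l y z hl]
  lin₁ l₁ l₂ y z := by
    simp only [List.length_append, List.length_cons]
    exact islin_ite _ (h.lin₁ l₁ l₂ y z)
  lin₂ l z := islin_ite _ (h.lin₂ l z)
  lin₃ l y := islin_ite _ (h.lin₃ l y)
  l1 l y z := by split_ifs <;> simp [h.l1]
  l2 xs ys a b y z := by simp [h.l2 xs ys a b]
  l3 xs x y z := by
    simp only [List.length_append, List.length_singleton]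
    split_ifs <;> simp [h.l3]

theorem LinBr.add (h : LinBr F d β) (h' : LinBr F d β') :
    LinBr F d fun l y z => β l y z + β' l y z where
  zero l y z hl := by simp [h.zero l y z hl, h'.zero l y z hl]
  lin₁ l₁ l₂ y z := islin_add (h.lin₁ l₁ l₂ y z) (h'.lin₁ l₁ l₂ y z)
  lin₂ l z := islin_add (h.lin₂ l z) (h'.lin₂ l z)
  lin₃ l y := islin_add (h.lin₃ l y) (h'.lin₃ l y)
  l1 l y z := by linear_combination (norm := abel) h.l1 l y z + h'.l1 l y z
  l2 xs ys a b y z := by rw [h.l2, h'.l2]
  l3 xs x y z := by linear_combination (norm := abel) h.l3 xs x y z + h'.l3 xs x y z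

theorem linBr_zero : LinBr F d fun (_ : List V) (_ _ : V) => (0 : V) :=
  ⟨fun _ _ _ _ => rfl, fun _ _ _ _ => islin_zero, fun _ _ => islin_zero, fun _ _ => islin_zero,
    fun _ _ _ => by simp, fun _ _ _ _ _ _ => rfl, fun _ _ _ _ => by simp⟩

/-- the Sabinin algebra attached to linear data -/
noncomputable def psi {ph : List V → List V → V} (h : LinBr F d β) (k : LinPh F d ph) :
    Alg F d V where
  br l y z := if l.length + 2 ≤ d then h.fr.br l y z else 0
  ph := ph
  br_zero l y z hl := if_neg (by omega)
  ph_zero := k.zero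
  br_lin₁ l₁ l₂ y z := by
    simp only [List.length_append, List.length_cons]
    exact islin_ite _ (h.fr.br_lin₁ l₁ l₂ y z)
  br_lin₂ l z := islin_ite _ (h.fr.br_lin₂ l z)
  br_lin₃ l y := islin_ite _ (h.fr.br_lin₃ l y)
  ph_lin₁ := k.lin₁
  ph_lin₂ := k.lin₂
  s1 l y z := by split_ifs <;> simp [h.fr.br_s1]
  s2 xs ys a b y z hd := by
    rw [← h.fr.br_s2 xs ys a b y z, if_pos (by simp; omega), if_pos (by simp; omega)]
    congr 2
    refine List.map_congr_left fun p hp => ?_
    have := unsh_len xs p hp
    rw [if_pos (by simp; omega), if_pos (by omega)]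
  s3 xs x y z hd := by
    rw [← h.fr.br_s3 xs x y z]
    congr 1
    funext x y z
    rw [if_pos (by simp; omega)]
    congr 2
    refine List.map_congr_left fun p hp => ?_
    have := unsh_len xs p hp
    rw [if_pos (by omega), if_pos (by omega)]
  s4 := k.s4

end frame

theorem Alg.linPh (A : Alg F d V) : LinPh F d A.ph := ⟨A.ph_zero, A.ph_lin₁, A.ph_lin₂, A.s4⟩

theorem diff_lin (A B : Alg F d V) (m : ℕ)
    (e : ∀ l : List V, l.length < m → A.br l = B.br l) :
    LinBr F d fun l y z => if l.length = m then A.br l y z - B.br l y z else 0 where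
  zero l y z hl := by simp [A.br_zero l y z hl, B.br_zero l y z hl]
  lin₁ l₁ l₂ y z := by
    simp only [List.length_append, List.length_cons]
    exact islin_ite _ (islin_sub (A.br_lin₁ l₁ l₂ y z) (B.br_lin₁ l₁ l₂ y z))
  lin₂ l z := islin_ite _ (islin_sub (A.br_lin₂ l z) (B.br_lin₂ l z))
  lin₃ l y := islin_ite _ (islin_sub (A.br_lin₃ l y) (B.br_lin₃ l y))
  l1 l y z := by
    split_ifs
    · linear_combination (norm := abel) A.s1 l y z - B.s1 l y z
    · simp
  l2 xs ys a b y z := by
    simp only [List.length_append, List.length_cons]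
    split_ifs with hm
    · by_cases hd : xs.length + ys.length + 4 ≤ d
      · have e1 : ((unsh xs).map fun p => A.br (p.1 ++ A.br p.2 a b :: ys) y z) =
            (unsh xs).map fun p => B.br (p.1 ++ B.br p.2 a b :: ys) y z := by
          refine List.map_congr_left fun p hp => ?_
          have := unsh_len xs p hp
          rw [e p.2 (by omega), e _ (by simp; omega)]
        have h1 := A.s2 xs ys a b y z hd
        rw [e1] at h1
        linear_combination (norm := abel) h1 - B.s2 xs ys a b y z hd
      · rw [A.br_zero _ _ _ (by simp; omega), A.br_zero _ _ _ (by simp; omega),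
          B.br_zero _ _ _ (by simp; omega), B.br_zero _ _ _ (by simp; omega)]
    · rfl
  l3 xs x y z := by
    simp only [List.length_append, List.length_singleton]
    split_ifs with hm
    · by_cases hd : xs.length + 3 ≤ d
      · have e1 : ∀ x y z, ((unsh xs).map fun p => A.br p.1 (A.br p.2 y z) x) =
            (unsh xs).map fun p => B.br p.1 (B.br p.2 y z) x := by
          intro x y z
          refine List.map_congr_left fun p hp => ?_
          have := unsh_len xs p hp
          rw [e p.2 (by omega), e _ (by omega)]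
        have h1 := A.s3 xs x y z hd
        have h2 := B.s3 xs x y z hd
        simp only [cyc, e1] at h1 h2
        linear_combination (norm := abel) h1 - h2
      · have hA : ∀ x y z, A.br (xs ++ [x]) y z = 0 := fun x y z =>
          A.br_zero _ _ _ (by simp; omega)
        have hB : ∀ x y z, B.br (xs ++ [x]) y z = 0 := fun x y z =>
          B.br_zero _ _ _ (by simp; omega)
        simp [hA, hB]
    · simp

variable [CharZero F]

theorem psi_surj (A : Alg F d V) :
    ∃ (β : List V → V → V → V) (h : LinBr F d β), psi h A.linPh = A := by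
  have key : ∀ m, ∃ (β : List V → V → V → V) (h : LinBr F d β),
      ∀ l : List V, l.length < m → A.br l = (psi h A.linPh).br l := by
    intro m
    induction m with
    | zero => exact ⟨_, linBr_zero, fun l hl => absurd hl (Nat.not_lt_zero _)⟩
    | succ m ih =>
      obtain ⟨β, h, e⟩ := ih
      refine ⟨_, h.add (diff_lin A _ m e), fun l hl => ?_⟩
      funext y z
      by_cases hd : l.length + 2 ≤ d
      · have t := (h.add (diff_lin A _ m e)).tri h (m := m) (fun l hl => by
          funext y z; simp [hl.ne]) l (by omega) y z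
        have e2 : (psi h A.linPh).br l y z = h.fr.br l y z := if_pos hd
        change _ = if _ then _ else _
        rw [if_pos hd]
        by_cases hm : l.length = m
        · rw [if_pos hm, e2] at t
          linear_combination (norm := abel) -t
        · rw [if_neg hm, ← e2, ← e l (by omega)] at t
          linear_combination (norm := abel) -t
      · rw [A.br_zero _ _ _ (by omega), Alg.br_zero _ _ _ _ (by omega)]
  obtain ⟨β, h, e⟩ := key d
  refine ⟨β, h, ?_⟩
  have : (psi h A.linPh).br = A.br := by
    funext l y z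
    by_cases hl : l.length < d
    · rw [e l hl]
    · rw [A.br_zero _ _ _ (by omega), Alg.br_zero _ _ _ _ (by omega)]
  cases A
  simp only [psi, Alg.mk.injEq, and_true] at this ⊢
  exact this

theorem psi_hom {β : List V → V → V → V} {γ : List W → W → W → W} (h : LinBr F d β)
    (h' : LinBr F d γ) {ph : List V → List V → V} {ph' : List W → List W → W}
    (k : LinPh F d ph) (k' : LinPh F d ph') (φ : V →ₗ[F] W) :
    (∀ l y z, φ ((psi h k).br l y z) = (psi h' k').br (l.map φ) (φ y) (φ z)) ↔
      ∀ l y z, φ (β l y z) = γ (l.map φ) (φ y) (φ z) := by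
  constructor
  · intro e l
    induction hn : l.length using Nat.strong_induction_on generalizing l with
    | _ n ih =>
      intro y z
      by_cases hd : n + 2 ≤ d
      · have t1 := h.tri (h.trunc n) (m := n) (fun l hl => by funext y z; simp [hl]) l hn.le y z
        have t2 := h'.tri (h'.trunc n) (m := n) (fun l hl => by funext y z; simp [hl])
          (l.map φ) (by simp [hn]) (φ y) (φ z)
        have t3 := (h.trunc n).nat (h'.trunc n) φ (fun l y z => by
          rw [List.length_map]
          split_ifs with hl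
          · exact ih _ hl l rfl y z
          · exact map_zero _) l y z
        have t4 := e l y z
        simp only [psi, List.length_map, hn, hd, if_true] at t4
        simp only [List.length_map, hn, lt_irrefl, if_false, sub_zero] at t1 t2
        rw [← t1, ← t2, map_sub, t3, t4]
      · rw [h.zero _ _ _ (by omega), h'.zero _ _ _ (by simp; omega), map_zero]
  · intro e l y z
    simp only [psi, List.length_map]
    split_ifs
    · exact h.nat h' φ e l y z
    · exact map_zero _

omit [CharZero F] in
theorem linFam_post {U : Type u} [AddCommGroup U] [Module F U] {t : Sy V → W} (h : LinFam F d t)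
    (δ : W →ₗ[F] U) : LinFam F d fun s => δ (t s) := by
  obtain ⟨h1, h2⟩ := h
  exact ⟨⟨fun l y z hl => (congrArg δ (h1.zero l y z hl)).trans (map_zero δ),
    fun l₁ l₂ y z => islin_cmp δ.isLinear (h1.lin₁ l₁ l₂ y z),
    fun l z => islin_cmp δ.isLinear (h1.lin₂ l z), fun l y => islin_cmp δ.isLinear (h1.lin₃ l y),
    fun l y z => by rw [← map_add, h1.l1, map_zero], fun xs ys a b y z => congrArg δ (h1.l2 xs ys a b y z),
    fun xs x y z => by rw [← map_add, ← map_add, h1.l3, map_zero]⟩,
    ⟨fun l l' hl => (congrArg δ (h2.zero l l' hl)).trans (map_zero δ),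
    fun l₁ l₂ l' => islin_cmp δ.isLinear (h2.lin₁ l₁ l₂ l'),
    fun l l₁ l₂ => islin_cmp δ.isLinear (h2.lin₂ l l₁ l₂),
    fun l₁ l₂ l₁' l₂' p1 p2 => congrArg δ (h2.s4 _ _ _ _ p1 p2)⟩⟩

/-- the Sabinin algebra of an `E`-structure -/
noncomputable def alg (ε : E F d V →ₗ[F] V) : Alg F d V :=
  psi (linFam_post mk_lin ε).1 (linFam_post mk_lin ε).2

theorem alg_surj (A : Alg F d V) : ∃ ε : E F d V →ₗ[F] V, alg ε = A := by
  obtain ⟨β, h, e⟩ := psi_surj A
  have ht : LinFam F d (Sum.elim (fun p : List V × V × V => β p.1 p.2.1 p.2.2)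
      (fun p : List V × List V => A.ph p.1 p.2)) := ⟨h, A.linPh⟩
  refine ⟨lift _ ht, ?_⟩
  refine Eq.trans ?_ e
  rw [alg]
  congr 1
  · funext l y z; exact lift_mk _ ht _
  · funext l l'; exact lift_mk _ ht _

theorem hom_iff (ε : E F d V →ₗ[F] V) (δ : E F d W →ₗ[F] W) (φ : V →ₗ[F] W) :
    IsHom (alg ε) (alg δ) φ ↔ ∀ ξ, φ (ε ξ) = δ (Emap d φ ξ) := by
  rw [IsHom, alg, alg, psi_hom]
  constructor
  · rintro ⟨h1, h2⟩
    have : φ ∘ₗ ε = δ ∘ₗ Emap d φ := E_ext fun s => by
      rw [LinearMap.comp_apply, LinearMap.comp_apply, Emap_mk]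
      rcases s with ⟨l, y, z⟩ | ⟨l, l'⟩
      · exact h1 l y z
      · exact h2 l l'
    exact fun ξ => LinearMap.congr_fun this ξ
  · intro h
    exact ⟨fun l y z => (h _).trans (congrArg δ (Emap_mk _ _)),
      fun l l' => (h _).trans (congrArg δ (Emap_mk _ _))⟩

theorem free_iff (ε : E F d V →ₗ[F] V) (X : Set V) : IsFreeOn (alg ε) X ↔ UP ε X := by
  constructor
  · intro h W _ _ δ f
    simpa only [hom_iff] using h W (alg δ) f
  · intro h W _ _ B f
    obtain ⟨δ, rfl⟩ := alg_surj B
    simpa only [hom_iff] using h W δ f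

theorem free_of_inj (A : Alg F d V) {X : Set V} (hA : IsFreeOn A X) (B : Alg F d W)
    (ι : W →ₗ[F] V) (hι : Function.Injective ι) (hh : IsHom B A ι) : ∃ Y, IsFreeOn B Y := by
  obtain ⟨ε, rfl⟩ := alg_surj A
  obtain ⟨δ, rfl⟩ := alg_surj B
  obtain ⟨Y, hY⟩ := (((free_iff ε X).1 hA).good.sub ι hι ((hom_iff _ _ _).1 hh)).free
  exact ⟨Y, (free_iff δ Y).2 hY⟩

omit [CharZero F] in
theorem islin_sub' {U : Submodule F V} {f : U → U} {g : V → V} (hg : IsLinearMap F g)
    (e : ∀ x, (f x : V) = g x) : IsLinearMap F f :=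
  ⟨fun x y => Subtype.ext (by simp [e, hg.map_add]), fun c x => Subtype.ext (by
    simp [e, hg.map_smul])⟩

omit [CharZero F] in
theorem mem_sub (U : Submodule F V) (l : List U) : ∀ x ∈ l.map U.subtype, x ∈ U := by
  intro x hx
  obtain ⟨y, -, rfl⟩ := List.mem_map.1 hx
  exact y.2

/-- the induced structure on a subalgebra -/
def subAlg (A : Alg F d V) (U : Submodule F V) (hU : IsSubalgebra A U) : Alg F d U where
  br l y z := ⟨A.br (l.map U.subtype) y z, hU.1 _ _ _ (mem_sub U l) y.2 z.2⟩
  ph l l' := ⟨A.ph (l.map U.subtype) (l'.map U.subtype), hU.2 _ _ (mem_sub U l) (mem_sub U l')⟩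
  br_zero l y z hl := Subtype.ext (A.br_zero _ _ _ (by simpa using hl))
  ph_zero l l' hl := Subtype.ext (A.ph_zero _ _ (by simpa using hl))
  br_lin₁ l₁ l₂ y z := islin_sub' (A.br_lin₁ (l₁.map U.subtype) (l₂.map U.subtype) y z) (by simp)
  br_lin₂ l z := islin_sub' (A.br_lin₂ (l.map U.subtype) z) (by simp)
  br_lin₃ l y := islin_sub' (A.br_lin₃ (l.map U.subtype) y) (by simp)
  ph_lin₁ l₁ l₂ l' := islin_sub'
    (A.ph_lin₁ (l₁.map U.subtype) (l₂.map U.subtype) (l'.map U.subtype)) (by simp)
  ph_lin₂ l l₁ l₂ := islin_sub'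
    (A.ph_lin₂ (l.map U.subtype) (l₁.map U.subtype) (l₂.map U.subtype)) (by simp)
  s1 l y z := Subtype.ext (A.s1 _ _ _)
  s2 xs ys a b y z hd := by
    apply U.subtype_injective
    have := A.s2 (xs.map U.subtype) (ys.map U.subtype) a b y z (by simpa using hd)
    rw [unsh_map] at this
    simpa [map_list_sum, Function.comp_def] using this
  s3 xs x y z hd := by
    apply U.subtype_injective
    have := A.s3 (xs.map U.subtype) x y z (by simpa using hd)
    rw [unsh_map] at this
    simpa [cyc, map_list_sum, Function.comp_def] using this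
  s4 _ _ _ _ p1 p2 := Subtype.ext (A.s4 _ _ _ _ (p1.map _) (p2.map _))

theorem schreier (A : Alg F d V) {X : Set V} (hA : IsFreeOn A X) (U : Submodule F V)
    (hU : IsSubalgebra A U) :
    ∃ B : Alg F d U, IsHom B A U.subtype ∧ ∃ Y : Set U, IsFreeOn B Y :=
  ⟨subAlg A U hU, ⟨fun _ _ _ => rfl, fun _ _ => rfl⟩,
    free_of_inj A hA _ U.subtype U.subtype_injective ⟨fun _ _ _ => rfl, fun _ _ => rfl⟩⟩

end SabDeg
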